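import Pool.Agent.K3h53.UG.Fin10

/-! UG project: the theorems for varieties of dimension at least `n`. -/

set_option autoImplicit false

namespace Pool.Agent.K3h53.UG

open MvPolynomial Set Pool.Agent.K3h22.EX

/-- (A) in dimension at least `n` -/
theorem geA {n s : ℕ} (P : Ideal (MvPolynomial (Fin n ⊕ Fin n) ℂ))
    (V : Set (Fin n ⊕ Fin n → ℂ)) (hP : P.IsPrime)
    (hV : V = {p | (∀ f ∈ P, eval p f = 0) ∧ ∀ j : Fin n, p (Sum.inr j) ≠ 0})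
    (ι : Fin s → Fin n) (hι : Function.Injective ι)
    (p : Fin n → MvPolynomial (Fin s) ℂ)
    (hp : ∀ u ∈ V, ∀ i, u (Sum.inl i) = eval (fun a => u (Sum.inl (ι a))) (p i))
    (J : Fin s → Fin n) (hJ : Function.Injective J)
    (hind : Indep V (coords ι (compl J)))
    (hfree : ∀ m : Fin n → ℤ, m ≠ 0 → (∀ a, m (J a) = 0) → ∀ k : ℂ,
      ∃ u ∈ V, ∑ i, (m i : ℂ) * u (Sum.inl i) ≠ k)
    (hlow : ∀ i, (∀ a, J a ≠ i) → ∀ a, (p i).totalDegree < (p (J a)).totalDegree)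
    (hhigh : ∀ a, 2 ≤ (p (J a)).totalDegree) (ζ₀ : Fin s → ℂ)
    (hdet : (jac (fun a => top (p (J a))) ζ₀).det ≠ 0)
    (c : Fin n ⊕ Fin n → ℂ) (hc : ∀ i, c (Sum.inr i) ≠ 0)
    (H : MvPolynomial (Fin n ⊕ Fin n) ℂ)
    (hH : ∃ u ∈ V, eval (Sum.elim (fun i => u (Sum.inl i) + c (Sum.inl i))
      (fun i => c (Sum.inr i) * u (Sum.inr i))) H ≠ 0) :
    ∃ z : Fin n → ℂ, (∃ u ∈ V, (Sum.elim z fun i => Complex.exp (z i) : Fin n ⊕ Fin n → ℂ) =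
      Sum.elim (fun i => u (Sum.inl i) + c (Sum.inl i))
        (fun i => c (Sum.inr i) * u (Sum.inr i))) ∧
      eval (Sum.elim z fun i => Complex.exp (z i)) H ≠ 0 := by
  classical
  obtain ⟨H', hH'⟩ := pullback c H
  obtain ⟨u, hu, huH⟩ := hH
  rw [← hH'] at huH
  obtain ⟨P', V', h1, h2, h3, ⟨v, hv, hvH⟩, h5, h6⟩ := cutVar P V hP hV
    (coords ι (compl J)) hind H' ⟨u, hu, huH⟩
  have hcard : (coords ι (compl J)).card = n := by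
    rw [card_coords ι hι, card_compl J hJ]
  have hfree' : ∀ m : Fin n → ℤ, m ≠ 0 → (∀ a, m (J a) = 0) → ∀ k : ℂ,
      ∃ u ∈ V', ∑ i, (m i : ℂ) * u (Sum.inl i) ≠ k := by
    intro m hm hmJ k
    by_contra hcon
    push Not at hcon
    obtain ⟨q, hq⟩ : ∃ q : MvPolynomial (Fin s) ℂ, q = ∑ i, C (m i : ℂ) * p i - C k := ⟨_, rfl⟩
    have hqe : ∀ w ∈ V, eval (fun a => w (Sum.inl (ι a))) q =
        ∑ i, (m i : ℂ) * w (Sum.inl i) - k := by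
      intro w hw
      rw [hq, map_sub, map_sum, eval_C]
      congr 1
      refine Finset.sum_congr rfl fun i _ => ?_
      rw [map_mul, eval_C, ← hp w hw i]
    have h7 : rename (fun a => Sum.inl (ι a) : Fin s → Fin n ⊕ Fin n) q = 0 := by
      refine h5 _ ?_ ?_
      · refine (vars_rename _ _).trans ?_
        intro x hx
        obtain ⟨a, -, rfl⟩ := Finset.mem_image.1 hx
        unfold coords
        exact Finset.mem_union_left _ (Finset.mem_image.2 ⟨a, Finset.mem_univ _, rfl⟩)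
      · intro w hw
        rw [eval_rename]
        have h8 := hqe w (h3 hw)
        rw [hcon w hw, sub_self] at h8
        exact h8
    obtain ⟨w, hw, hwk⟩ := hfree m hm hmJ k
    apply hwk
    have h9 := hqe w hw
    have h10 : eval w (rename (fun a => Sum.inl (ι a) : Fin s → Fin n ⊕ Fin n) q) = 0 := by
      rw [h7, map_zero]
    rw [eval_rename] at h10
    have h11 : eval (fun a => w (Sum.inl (ι a))) q = 0 := h10
    rw [h11] at h9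
    exact (sub_eq_zero.1 h9.symm)
  obtain ⟨z, ⟨u', hu', hz⟩, hzH⟩ := mainV2 P' V' h1 h2 ⟨v, hv⟩
    (fun K hK => h6 K (by rw [hK, hcard])) ι hι p (fun u hu => hp u (h3 hu)) J hJ h5 hfree' hlow
    hhigh ζ₀ hdet c hc H ⟨v, hv, by rw [← hH']; exact hvH⟩
  exact ⟨z, ⟨u', h3 hu', hz⟩, hzH⟩

section Main

variable {n s r : ℕ} (hn : n = s + r)
    (P : Ideal (MvPolynomial (Fin n ⊕ Fin n) ℂ)) (V : Set (Fin n ⊕ Fin n → ℂ)) (hP : P.IsPrime)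
    (hV : V = {p | (∀ f ∈ P, eval p f = 0) ∧ ∀ j : Fin n, p (Sum.inr j) ≠ 0})
    (hne : V.Nonempty)
    (hX1 : ∃ K : Finset (Fin n), K.card = s ∧ ∀ G : MvPolynomial (Fin n) ℂ, G.vars ⊆ K →
      (∀ u ∈ V, eval (fun i => u (Sum.inl i)) G = 0) → G = 0)
    (hX2 : ∀ K : Finset (Fin n), K.card = s + 1 → ¬ ∀ G : MvPolynomial (Fin n) ℂ, G.vars ⊆ K →
      (∀ u ∈ V, eval (fun i => u (Sum.inl i)) G = 0) → G = 0)

include hn hP hV hne hX1 hX2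

/-- (B) in dimension at least `n` -/
theorem geCrit (κ : Fin r → Fin n) (hκ : Function.Injective κ)
    (hind : ∀ g : MvPolynomial (Fin r) (MvPolynomial (Fin n) ℂ),
      (∀ u ∈ V, eval (fun b => u (Sum.inr (κ b)))
        (MvPolynomial.map (eval fun i => u (Sum.inl i)) g) = 0) →
      ∀ m, ∀ u ∈ V, eval (fun i => u (Sum.inl i)) (coeff m g) = 0)
    (w : Fin n → ℕ) (hw : ∀ i, 1 ≤ w i) (hwK : ∀ b, w (κ b) = 1)
    (F : Fin r → MvPolynomial (Fin n) ℂ) (g : MvPolynomial (Fin n) ℂ)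
    (hIF : ∀ x : Fin n → ℂ, (∀ i, eval x (F i) = 0) → eval x g ≠ 0 →
      ∀ G : MvPolynomial (Fin n) ℂ, (∀ u ∈ V, eval (fun i => u (Sum.inl i)) G = 0) →
        eval x G = 0)
    (Ud : Set (Fin r → ℝ)) (hU : IsOpen Ud) (hUne : Ud.Nonempty)
    (hH : ∀ S : Fin n → Fin r → ℚ, (∀ b b', S (κ b) b' = if b = b' then 1 else 0) →
      Ud ⊆ closure {ρ : Fin r → ℝ | ∃ z : Fin n → ℂ, (∀ i, eval z (wtop w (F i)) = 0) ∧
        eval z (wtop w g) ≠ 0 ∧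
        (∀ j, (z j).re = if w j = 1 then ∑ b, (S j b : ℝ) * ρ b else 0) ∧
        (Matrix.of fun i b : Fin r => ∑ j, if w j = 1 then
          (S j b : ℂ) * eval z (pderiv j (wtop w (F i))) else 0).det ≠ 0})
    (c : Fin n ⊕ Fin n → ℂ) (hc : ∀ i, c (Sum.inr i) ≠ 0)
    (H : MvPolynomial (Fin n ⊕ Fin n) ℂ)
    (hHV : ∃ u ∈ V, eval (Sum.elim (fun i => u (Sum.inl i) + c (Sum.inl i))
      (fun i => c (Sum.inr i) * u (Sum.inr i))) H ≠ 0) :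
    ∃ z : Fin n → ℂ, (∃ u ∈ V, (Sum.elim z fun i => Complex.exp (z i) :
      Fin n ⊕ Fin n → ℂ) = Sum.elim (fun i => u (Sum.inl i) + c (Sum.inl i))
        (fun i => c (Sum.inr i) * u (Sum.inr i))) ∧
      eval (Sum.elim z fun i => Complex.exp (z i)) H ≠ 0 := by
  classical
  obtain ⟨H', hH'⟩ := pullback c H
  obtain ⟨u, hu, huH⟩ := hHV
  rw [← hH'] at huH
  obtain ⟨L, hL, hLi⟩ := hX1
  have hT := (fibre_iff P V hP hV hne hX2 L hL hLi κ hκ).1 hind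
  have hTc : (L.image Sum.inl ∪ Finset.univ.image fun b => Sum.inr (κ b) :
      Finset (Fin n ⊕ Fin n)).card = n := by
    rw [Finset.card_union_of_disjoint, Finset.card_image_of_injective _ Sum.inl_injective,
      Finset.card_image_of_injective _ (fun a b h => hκ (Sum.inr_injective h)), hL,
      Finset.card_univ, Fintype.card_fin, hn]
    rw [Finset.disjoint_left]
    intro x hx hx'
    obtain ⟨a, -, rfl⟩ := Finset.mem_image.1 hx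
    obtain ⟨b, -, hb⟩ := Finset.mem_image.1 hx'
    exact absurd hb (by simp)
  obtain ⟨P', V', h1, h2, h3, ⟨v, hv, hvH⟩, h5, h6, h7⟩ := reduceT hn P V hP hV hne hX2 L hL _
    (fun j hj => Finset.mem_union_left _ (Finset.mem_image_of_mem _ hj)) hTc hT H' ⟨u, hu, huH⟩
  have hX2' : ∀ K : Finset (Fin n), K.card = s + 1 → ¬ ∀ G : MvPolynomial (Fin n) ℂ,
      G.vars ⊆ K → (∀ u ∈ V', eval (fun i => u (Sum.inl i)) G = 0) → G = 0 := by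
    intro K hK hcon
    exact hX2 K hK fun G hG hGV => hcon G hG ((h7 G).2 hGV)
  have hLi' : ∀ G : MvPolynomial (Fin n) ℂ, G.vars ⊆ L →
      (∀ u ∈ V', eval (fun i => u (Sum.inl i)) G = 0) → G = 0 :=
    fun G hG hGV => hLi G hG ((h7 G).1 hGV)
  have hind' := (fibre_iff P' V' h1 h2 ⟨v, hv⟩ hX2' L hL hLi' κ hκ).2 h5
  obtain ⟨z, ⟨u', hu', hz⟩, hzH⟩ := thmCrit hn P' V' h1 h2 ⟨v, hv⟩ ⟨_, hTc, h5⟩ h6 ⟨L, hL, hLi'⟩
    hX2' κ hκ hind' w hw hwK F g (fun x hx hxg G hG => hIF x hx hxg G ((h7 G).1 hG)) Ud hU hUne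
    hH c hc H ⟨v, hv, by rw [← hH']; exact hvH⟩
  exact ⟨z, ⟨u', h3 hu', hz⟩, hzH⟩

/-- (C) in dimension at least `n` -/
theorem geLin (hd : ∃ K : Finset (Fin n ⊕ Fin n), K.card = n ∧ Indep V K)
    (F : Fin r → MvPolynomial (Fin n) ℂ) (g : MvPolynomial (Fin n) ℂ)
    (hIF : ∀ x : Fin n → ℂ, (∀ i, eval x (F i) = 0) → eval x g ≠ 0 →
      ∀ G : MvPolynomial (Fin n) ℂ, (∀ u ∈ V, eval (fun i => u (Sum.inl i)) G = 0) →
        eval x G = 0)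
    (L : Submodule ℂ (Fin n → ℂ)) (hL : Module.finrank ℂ L = s)
    (hre : ∀ c : Fin n → ℝ, c ≠ 0 → ∃ v ∈ L, ∑ i, (c i : ℂ) * v i ≠ 0)
    (hra : ∀ S : Fin n → Fin r → ℚ, LinearIndependent ℚ (fun b j => S j b) →
      ∀ v : Fin r → ℂ, (fun j => ∑ b, ((S j b : ℚ) : ℂ) * v b) ∈ L → v = 0)
    (hF : ∀ i, ∀ z ∈ L, eval z (top (F i)) = 0)
    (hgr : ∃ z ∈ L, LinearIndependent ℂ fun i j => eval z (pderiv j (top (F i))))
    (hg : ∃ z ∈ L, eval z (top g) ≠ 0)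
    (c : Fin n ⊕ Fin n → ℂ) (hc : ∀ i, c (Sum.inr i) ≠ 0)
    (H : MvPolynomial (Fin n ⊕ Fin n) ℂ)
    (hHV : ∃ u ∈ V, eval (Sum.elim (fun i => u (Sum.inl i) + c (Sum.inl i))
      (fun i => c (Sum.inr i) * u (Sum.inr i))) H ≠ 0) :
    ∃ z : Fin n → ℂ, (∃ u ∈ V, (Sum.elim z fun i => Complex.exp (z i) :
      Fin n ⊕ Fin n → ℂ) = Sum.elim (fun i => u (Sum.inl i) + c (Sum.inl i))
        (fun i => c (Sum.inr i) * u (Sum.inr i))) ∧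
      eval (Sum.elim z fun i => Complex.exp (z i)) H ≠ 0 := by
  classical
  obtain ⟨H', hH'⟩ := pullback c H
  obtain ⟨u, hu, huH⟩ := hHV
  rw [← hH'] at huH
  obtain ⟨L', T, hL', hLT, hTc, hT⟩ := exists_T hn P V hP hV hne hX2 hX1 hd
  obtain ⟨P', V', h1, h2, h3, ⟨v, hv, hvH⟩, h5, h6, h7⟩ := reduceT hn P V hP hV hne hX2 L' hL' T
    hLT hTc hT H' ⟨u, hu, huH⟩
  obtain ⟨K₁, hK₁, hK₂⟩ := hX1
  obtain ⟨z, ⟨u', hu', hz⟩, hzH⟩ := thmLin hn P' V' h1 h2 ⟨v, hv⟩ ⟨_, hTc, h5⟩ h6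
    ⟨K₁, hK₁, fun G hG hGV => hK₂ G hG ((h7 G).1 hGV)⟩
    (fun K hK hcon => hX2 K hK fun G hG hGV => hcon G hG ((h7 G).2 hGV)) F g
    (fun x hx hxg G hG => hIF x hx hxg G ((h7 G).1 hG)) L hL hre hra hF hgr hg c hc H
    ⟨v, hv, by rw [← hH']; exact hvH⟩
  exact ⟨z, ⟨u', h3 hu', hz⟩, hzH⟩

end Main

/-- (D) in dimension at least `n` -/
theorem geC {s : ℕ} (P : Ideal (MvPolynomial (Fin (s + 1) ⊕ Fin (s + 1)) ℂ))
    (V : Set (Fin (s + 1) ⊕ Fin (s + 1) → ℂ)) (hP : P.IsPrime)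
    (hV : V = {p | (∀ f ∈ P, eval p f = 0) ∧ ∀ j : Fin (s + 1), p (Sum.inr j) ≠ 0})
    (hne : V.Nonempty)
    (hd : ∃ K : Finset (Fin (s + 1) ⊕ Fin (s + 1)), K.card = s + 1 ∧ Indep V K)
    (F : MvPolynomial (Fin (s + 1)) ℂ)
    (hFV : ∀ G : MvPolynomial (Fin (s + 1)) ℂ,
      (∀ u ∈ V, eval (fun i => u (Sum.inl i)) G = 0) ↔ F ∣ G)
    (hNR : ∀ u : Fin (s + 1) → ℚ, u ≠ 0 → NonRealAt (top F) fun i => (u i : ℝ))
    (c : Fin (s + 1) ⊕ Fin (s + 1) → ℂ) (hc : ∀ i, c (Sum.inr i) ≠ 0)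
    (H : MvPolynomial (Fin (s + 1) ⊕ Fin (s + 1)) ℂ)
    (hH : ∃ u ∈ V, eval (Sum.elim (fun i => u (Sum.inl i) + c (Sum.inl i))
      (fun i => c (Sum.inr i) * u (Sum.inr i))) H ≠ 0) :
    ∃ z : Fin (s + 1) → ℂ, (∃ u ∈ V, (Sum.elim z fun i => Complex.exp (z i) :
      Fin (s + 1) ⊕ Fin (s + 1) → ℂ) = Sum.elim (fun i => u (Sum.inl i) + c (Sum.inl i))
        (fun i => c (Sum.inr i) * u (Sum.inr i))) ∧
      eval (Sum.elim z fun i => Complex.exp (z i)) H ≠ 0 := by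
  classical
  obtain ⟨H', hH'⟩ := pullback c H
  obtain ⟨u, hu, huH⟩ := hH
  rw [← hH'] at huH
  obtain ⟨s', r', hn', hX1, hX2⟩ := exists_baseDim P V hP hV hne
  obtain ⟨L', T, hL', hLT, hTc, hT⟩ := exists_T hn' P V hP hV hne hX2 hX1 hd
  obtain ⟨P', V', h1, h2, h3, ⟨v, hv, hvH⟩, h5, h6, h7⟩ := reduceT hn' P V hP hV hne hX2 L' hL' T
    hLT hTc hT H' ⟨u, hu, huH⟩
  obtain ⟨z, ⟨u', hu', hz⟩, hzH⟩ := thmC P' V' h1 h2 ⟨v, hv⟩ ⟨_, hTc, h5⟩ h6 F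
    (fun G => (h7 G).trans (hFV G)) hNR c hc H ⟨v, hv, by rw [← hH']; exact hvH⟩
  exact ⟨z, ⟨u', h3 hu', hz⟩, hzH⟩

end Pool.Agent.K3h53.UG
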