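import Pool.Agent.K3h53.UG.Core2
import Pool.Agent.K3h53.UG.Fin
import Pool.Agent.K3h97.UG.LBC
import Pool.Agent.K3h18.UG.TCZF
import Pool.Agent.K3h79.UG.Good
import Pool.Agent.K3h33.UG.SizePos
import Pool.Agent.K3h67.UG.Sol2
import Pool.Agent.K3h51.UG.Rp
import Pool.Agent.K3h51.UG.PigChain
import Pool.Agent.K3h55.UG.Comp

/-! UG project, second part: exponential points on varieties over graphs of polynomial maps with a
degree gap. -/

set_option autoImplicit false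

namespace Pool.Agent.K3h53.UG

open MvPolynomial Filter Topology Metric Set Pool.Agent.K3h22.EX

variable {s n : ℕ}

theorem t_GOOD' : S_GOOD :=
  Pool.Agent.K3h79.UG.t_GOOD Pool.Agent.K3h97.UG.t_LBC Pool.Agent.K3h18.UG.t_TC
    Pool.Agent.K3h18.UG.t_ZF

theorem coreV2 (P : Ideal (MvPolynomial (Fin n ⊕ Fin n) ℂ)) (hP : P.IsPrime)
    (ι : Fin s → Fin n) (p : Fin n → MvPolynomial (Fin s) ℂ) (hι : ∀ a, p (ι a) = X a)
    (J : Fin s → Fin n) (hJ : Function.Injective J) (B : Finset (Fin n)) (hJB : ∀ a, J a ∉ B)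
    (hcov : ∀ i, i ∉ B → ∃ a, J a = i)
    (h2 : ∀ i, X (Sum.inl i) - rename (fun a => Sum.inl (ι a)) (p i) ∈ P)
    (h3 : ∀ a, X (Sum.inr (J a)) ∉ P)
    (h4 : ∀ g : MvPolynomial {i // i ∈ B} (MvPolynomial (Fin s) ℂ),
      em ι Subtype.val g ∈ P → g = 0)
    (h5 : ∀ a, ∃ g : Polynomial (MvPolynomial {i // i ∈ B} (MvPolynomial (Fin s) ℂ)),
      g ≠ 0 ∧ g.eval₂ (em ι Subtype.val) (X (Sum.inr (J a))) ∈ P)
    (δ : ℕ) (hδ : 1 ≤ δ) (hp1 : ∀ i ∈ B, (p i).totalDegree ≤ δ)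
    (hp2 : ∀ m : {i // i ∈ B} → ℤ, m ≠ 0 →
      0 < (∑ b, (m b : MvPolynomial (Fin s) ℂ) * p b).totalDegree)
    (hΦ : ∀ a, δ < (p (J a)).totalDegree) (ζ₀ : Fin s → ℂ)
    (hdet : (jac (fun a => top (p (J a))) ζ₀).det ≠ 0) (c : Fin n → ℂ)
    (H : MvPolynomial (Fin n ⊕ Fin n) ℂ) (hH : H ∉ P) :
    ∃ z : Fin s → ℂ,
      (∀ F ∈ P, eval (Sum.elim (fun i => eval z (p i))
        fun i => Complex.exp (eval z (p i) + c i)) F = 0) ∧
      eval (Sum.elim (fun i => eval z (p i)) fun i => Complex.exp (eval z (p i) + c i)) H ≠ 0 := by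
  classical
  obtain ⟨f, U, W, D, Δ, g0, N, hf, hfd, hD, hΔ, hg0, hUW, hM⟩ :=
    algmodel Pool.Agent.K3h30.EX.t_MODEL P hP ι p J B hcov h2 h4
      (fun a => ⟨B, Finset.Subset.refl _, h5 a⟩) H hH
  choose g hg hgc hgP using fun a => rowpoly P hP _ _ (h3 a) (h5 a)
  set pB : {i // i ∈ B} → MvPolynomial (Fin s) ℂ := fun i => p i with hpB
  set cB : {i // i ∈ B} → ℂ := fun i => c i with hcB
  set Y : (Fin s → ℂ) → ℂ → Fin n → ℂ := fun z t i =>
    if h : i ∈ B then Complex.exp (eval z (p i) + c i)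
    else yv pB cB (N (Classical.choose (hcov i h))) D z t with hY
  have hYB : ∀ z t i, i ∈ B → Y z t i = Complex.exp (eval z (p i) + c i) := by
    intro z t i hi
    simp only [hY, dif_pos hi]
  have hYJ : ∀ z t a, Y z t (J a) = yv pB cB (N a) D z t := by
    intro z t a
    simp only [hY, dif_neg (hJB a)]
    rw [hJ (Classical.choose_spec (hcov (J a) (hJB a)))]
  have hkill : ∀ (z : Fin s → ℂ) (t : ℂ), (f.map (val pB cB z)).eval t = 0 →
      val pB cB z D ≠ 0 →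
      (∀ F ∈ P, eval (Sum.elim (fun i => eval z (p i)) (Y z t)) F = 0) ∧
      (val pB cB z g0 ≠ 0 → eval (Sum.elim (fun i => eval z (p i)) (Y z t)) H ≠ 0) := by
    intro z t ht hDz
    refine hM (val pB cB z) t z (Y z t) (fun g => val_C _ _ _ g)
      (fun i hi => (hYB z t i hi).trans (val_X pB cB z ⟨i, hi⟩).symm)
      (fun a => ?_) hDz ht
    rw [hYJ z t a, yv]
    exact mul_div_cancel₀ _ hDz
  have hgN : ∀ (j : Fin s) (z : Fin s → ℂ) (t : ℂ), (f.map (val pB cB z)).eval t = 0 →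
      val pB cB z D ≠ 0 → ((g j).map (val pB cB z)).eval (yv pB cB (N j) D z t) = 0 := by
    intro a z t ht hDz
    have h6 := (hkill z t ht hDz).1 _ (hgP a)
    rw [Polynomial.hom_eval₂, eval_X, Sum.elim_inr, hYJ z t a] at h6
    rw [Polynomial.eval_map, ← h6]
    congr 1
    apply MvPolynomial.ringHom_ext
    · intro r
      rw [val_C, RingHom.comp_apply, eval_em, coe_eval₂Hom, eval₂_C]
      congr 2
      funext b
      rw [Sum.elim_inl, hι, eval_X]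
    · intro i
      rw [val_X, RingHom.comp_apply, eval_em, coe_eval₂Hom, eval₂_X, Sum.elim_inr,
        hYB z t i.1 i.2]
  obtain ⟨z, t, h6, h7, h8, h9⟩ := core2 t_GOOD' Pool.Agent.K3h33.UG2.t_SIZE
    Pool.Agent.K3h33.UG2.t_POS (Pool.Agent.K3h67.UG.t_SOL2 Pool.Agent.K3h60.EX.t_BC)
    Pool.Agent.K3h51.UG.t_RP Pool.Agent.K3h51.UG.t_PIG Pool.Agent.K3h55.UG.t_COMP
    Pool.Agent.K3h51.UG.t_CHAIN Pool.Agent.K3h33.UG.t_NEWT t_ROOT pB cB δ hδ
    (fun b => hp1 b b.2) hp2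
    (fun a => p (J a)) (fun a => c (J a)) ζ₀ hΦ hdet f U W D Δ g0 N g hf hfd hUW hD hΔ hg0 hgc hgN
  have hYv : Y z t = fun i => Complex.exp (eval z (p i) + c i) := by
    funext i
    by_cases hi : i ∈ B
    · exact hYB z t i hi
    · obtain ⟨a, rfl⟩ := hcov i hi
      rw [hYJ z t a]
      exact h9 a
  have h10 := hkill z t h8 h7
  rw [hYv] at h10
  exact ⟨z, h10.1, h10.2 h6⟩

/-- exponential points on all translates -/
theorem mainV2 (P : Ideal (MvPolynomial (Fin n ⊕ Fin n) ℂ)) (V : Set (Fin n ⊕ Fin n → ℂ))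
    (hP : P.IsPrime)
    (hV : V = {p | (∀ f ∈ P, eval p f = 0) ∧ ∀ j : Fin n, p (Sum.inr j) ≠ 0})
    (hne : V.Nonempty) (hdim : ∀ K : Finset (Fin n ⊕ Fin n), K.card = n + 1 → ¬ Indep V K)
    (ι : Fin s → Fin n) (hι : Function.Injective ι)
    (p : Fin n → MvPolynomial (Fin s) ℂ)
    (hp : ∀ u ∈ V, ∀ i, u (Sum.inl i) = eval (fun a => u (Sum.inl (ι a))) (p i))
    (J : Fin s → Fin n) (hJ : Function.Injective J)
    (hind : Indep V (coords ι (compl J)))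
    (hfree : ∀ m : Fin n → ℤ, m ≠ 0 → (∀ a, m (J a) = 0) → ∀ k : ℂ,
      ∃ u ∈ V, ∑ i, (m i : ℂ) * u (Sum.inl i) ≠ k)
    (hlow : ∀ i, (∀ a, J a ≠ i) → ∀ a, (p i).totalDegree < (p (J a)).totalDegree)
    (hhigh : ∀ a, 2 ≤ (p (J a)).totalDegree) (ζ₀ : Fin s → ℂ)
    (hdet : (jac (fun a => top (p (J a))) ζ₀).det ≠ 0)
    (c : Fin n ⊕ Fin n → ℂ) (hc : ∀ i, c (Sum.inr i) ≠ 0)
    (H : MvPolynomial (Fin n ⊕ Fin n) ℂ)
    (hH : ∃ u ∈ V, eval (Sum.elim (fun i => u (Sum.inl i) + c (Sum.inl i))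
      (fun i => c (Sum.inr i) * u (Sum.inr i))) H ≠ 0) :
    ∃ z : Fin n → ℂ, (∃ u ∈ V, (Sum.elim z fun i => Complex.exp (z i) : Fin n ⊕ Fin n → ℂ) =
      Sum.elim (fun i => u (Sum.inl i) + c (Sum.inl i))
        (fun i => c (Sum.inr i) * u (Sum.inr i))) ∧
      eval (Sum.elim z fun i => Complex.exp (z i)) H ≠ 0 := by
  classical
  obtain ⟨-, d2, d3, d4, d5⟩ := Pool.Agent.K3h60.EX.t_DER n s P V hP hV hne ι hι
  have h2 : ∀ i, X (Sum.inl i) - rename (fun a => Sum.inl (ι a)) (p i) ∈ P := fun i =>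
    d2 i (p i) fun u hu => hp u hu i
  have h4 := d4 (compl J) hind
  have halg : ∀ a, ¬ Indep V (insert (Sum.inr (J a)) (coords ι (compl J))) := by
    intro a
    apply hdim
    rw [Finset.card_insert_of_notMem, card_coords ι hι, card_compl J hJ]
    unfold coords
    rw [Finset.mem_union]
    rintro (h | h)
    · obtain ⟨b, -, hb⟩ := Finset.mem_image.1 h
      exact absurd hb (by simp)
    · obtain ⟨b, hb, hb'⟩ := Finset.mem_image.1 h
      exact K3h22.EX.mem_compl.1 hb a (Sum.inr_injective hb').symm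
  have hsum : ∀ m : {i // i ∈ compl J} → ℤ, ∃ m' : Fin n → ℤ, (m ≠ 0 → m' ≠ 0) ∧
      (∀ a, m' (J a) = 0) ∧
      (∑ i, (m' i : MvPolynomial (Fin s) ℂ) * p i) =
        ∑ b : {i // i ∈ compl J}, (m b : MvPolynomial (Fin s) ℂ) * p b := by
    intro m
    refine ⟨fun i => if h : i ∈ compl J then m ⟨i, h⟩ else 0, fun hm => ?_,
      fun a => dif_neg fun h => K3h22.EX.mem_compl.1 h a rfl, ?_⟩
    · obtain ⟨i, hi⟩ := Function.ne_iff.1 hm
      refine Function.ne_iff.2 ⟨i.1, ?_⟩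
      simp only [dif_pos i.2]
      exact hi
    · have h1 : (∑ b : {i // i ∈ compl J}, (m b : MvPolynomial (Fin s) ℂ) * p b) =
          ∑ i ∈ compl J, ((if h : i ∈ compl J then m ⟨i, h⟩ else 0 : ℤ) :
            MvPolynomial (Fin s) ℂ) * p i := by
        rw [← Finset.sum_coe_sort (compl J)]
        refine Finset.sum_congr rfl fun i _ => ?_
        rw [dif_pos i.2]
      rw [h1]
      refine (Finset.sum_subset (Finset.subset_univ _) fun i _ hi => ?_).symm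
      simp only [dif_neg hi, Int.cast_zero, zero_mul]
  obtain ⟨δ, hδ, hδ1, hδ2⟩ : ∃ δ : ℕ, 1 ≤ δ ∧ (∀ i ∈ compl J, (p i).totalDegree ≤ δ) ∧
      ∀ a, δ < (p (J a)).totalDegree := by
    refine ⟨max 1 ((compl J).sup fun i => (p i).totalDegree), le_max_left _ _, fun i hi =>
      le_max_of_le_right (Finset.le_sup (f := fun i => (p i).totalDegree) hi), fun a => ?_⟩
    rw [max_lt_iff]
    refine ⟨hhigh a, ?_⟩
    rw [Finset.sup_lt_iff (by have := hhigh a; rw [Nat.bot_eq_zero]; omega)]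
    exact fun i hi => hlow i (K3h22.EX.mem_compl.1 hi) a
  refine Pool.Agent.K3h22.EX.transport P V hV p (fun c H hH => ?_) c hc H hH
  refine coreV2 P hP ι p (p_iota P ι p (compl J) h2 h4) J hJ (compl J)
    (fun a h => K3h22.EX.mem_compl.1 h a rfl)
    (fun i hi => by
      rw [K3h22.EX.mem_compl] at hi
      push Not at hi
      exact hi)
    h2 (fun a => d3 (J a)) h4 (fun a => d5 _ (J a) (halg a))
    δ hδ hδ1 ?_ hδ2 ζ₀ hdet c H hH
  intro m hm
  obtain ⟨m', hm', hmJ, hs⟩ := hsum m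
  rw [← hs]
  by_contra h0
  have h0' : (∑ i, (m' i : MvPolynomial (Fin s) ℂ) * p i).totalDegree = 0 := by omega
  rw [totalDegree_eq_zero_iff_eq_C] at h0'
  obtain ⟨u, hu, hu'⟩ := hfree m' (hm' hm) hmJ
    (coeff 0 (∑ i, (m' i : MvPolynomial (Fin s) ℂ) * p i))
  apply hu'
  have h7 := congrArg (eval fun a => u (Sum.inl (ι a))) h0'
  rw [eval_C, map_sum] at h7
  rw [← h7]
  refine Finset.sum_congr rfl fun i _ => ?_
  rw [map_mul, map_intCast, hp u hu i]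

end Pool.Agent.K3h53.UG
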