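import Pool.Agent.K3h53.UG.Core7
import Pool.Agent.K3h53.UG.Fin6
import Pool.Agent.K3h53.UG.Fin2

/-! UG project, sixth part: exponential points on varieties over arbitrary bases. -/

set_option autoImplicit false

namespace Pool.Agent.K3h53.UG

open MvPolynomial Filter Topology Metric Set Pool.Agent.K3h22.EX

section Ring

variable {n : ℕ} (r : ℕ) (Z : Set (Fin n → ℂ)) (I : Ideal (MvPolynomial (Fin n) ℂ))
  (hIF : ∀ x ∈ Z, ∀ G ∈ I, eval x G = 0)

/-- evaluation at a point of `Z` -/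
noncomputable def evZ (x : Z) : RI I →ₐ[ℂ] ℂ :=
  Ideal.Quotient.liftₐ I (aeval x.1) (fun a ha => hIF x.1 x.2 a ha)

theorem evZ_mk (x : Z) (G : MvPolynomial (Fin n) ℂ) :
    evZ Z I hIF x (Ideal.Quotient.mk I G) = eval x.1 G := by
  rfl

/-- evaluation of polynomials in `Y` over the coordinate ring -/
noncomputable def evAZ (x : Z) (Y : Fin r → ℂ) : MvPolynomial (Fin r) (RI I) →ₐ[ℂ] ℂ :=
  aevalTower (evZ Z I hIF x) Y

/-- the family of evaluations -/
noncomputable def famZ : Fam7 r Z I (MvPolynomial (Fin r) (RI I)) where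
  ch x Y := (evAZ r Z I hIF x Y : MvPolynomial (Fin r) (RI I) →+* ℂ)
  sp a := a.support
  cf a m := cfI I a m
  sum := by
    intro a x Y
    show MvPolynomial.eval₂ (evZ Z I hIF x : RI I →+* ℂ) Y a = _
    rw [MvPolynomial.eval₂_eq']
    refine Finset.sum_congr rfl fun m _ => ?_
    congr 1
    rw [← cfI_mk I a m]
    exact evZ_mk Z I hIF x _
  ne := by
    intro a ha
    exact MvPolynomial.support_nonempty.2 ha
  nmem := by
    intro a m hm hI
    apply MvPolynomial.mem_support_iff.1 hm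
    rw [← cfI_mk I a m, Ideal.Quotient.eq_zero_iff_mem]
    exact hI

end Ring

/-- the algebraic data of a variety over `X`, and the analytic core -/
theorem coreV7 (hDOM : S_DOM6) (hGEN : S_GEN6) (hROOT : S_ROOT4)
    (hSOL : S_SOL6) (hCLS : S_CLS3) (hALG : S_ALG) {n s r : ℕ}
    (P : Ideal (MvPolynomial (Fin n ⊕ Fin n) ℂ)) (hP : P.IsPrime)
    (h3 : ∀ i, X (Sum.inr i) ∉ P) (e : Fin s ⊕ Fin r ≃ Fin n)
    (Zp : Set (Fin n → ℂ)) (I : Ideal (MvPolynomial (Fin n) ℂ))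
    (hmemI : ∀ G, G ∈ I ↔ rename Sum.inl G ∈ P) (hIF' : ∀ x ∈ Zp, ∀ G ∈ I, eval x G = 0)
    (Ud : Set (Fin r → ℝ)) (hU : IsOpen Ud) (hUne : Ud.Nonempty) (hGEO : GeoZ e Zp I Ud)
    (hind : IndepOver P fun b => e (Sum.inr b))
    (halg : ∀ i, ∃ g : Polynomial (MvPolynomial (Fin r) (MvPolynomial (Fin n) ℂ)),
      (∃ a m, rename Sum.inl (coeff m (g.coeff a)) ∉ P) ∧
      g.eval₂ (yev fun b => e (Sum.inr b)) (X (Sum.inr i)) ∈ P)
    (c : Fin n → ℂ) (H : MvPolynomial (Fin n ⊕ Fin n) ℂ) (hHP : H ∉ P) :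
    ∃ x : Fin n → ℂ,
      (∀ G ∈ P, eval (Sum.elim x fun i => Complex.exp (x i + c i)) G = 0) ∧
      eval (Sum.elim x fun i => Complex.exp (x i + c i)) H ≠ 0 := by
  classical
  have := hP
  set rn : MvPolynomial (Fin n) ℂ →ₐ[ℂ] MvPolynomial (Fin n ⊕ Fin n) ℂ :=
    rename (Sum.inl : Fin n → Fin n ⊕ Fin n) with hrn
  have hIdef : I = P.comap (rn : _ →+* _) := by
    ext G
    rw [hmemI]
    rfl
  have hI : I.IsPrime := by
    rw [hIdef]
    exact Ideal.comap_isPrime _ _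
  set κ : Fin r → Fin n := fun b => e (Sum.inr b) with hκ
  set emI : RI I →ₐ[ℂ] MvPolynomial (Fin n ⊕ Fin n) ℂ ⧸ P :=
    Ideal.Quotient.liftₐ I ((Ideal.Quotient.mkₐ ℂ P).comp rn) (by
      intro a ha
      show Ideal.Quotient.mk P (rn a) = 0
      rw [Ideal.Quotient.eq_zero_iff_mem]
      exact (hmemI a).1 ha) with hemI
  have hemI_mk : ∀ G, emI (Ideal.Quotient.mk I G) = Ideal.Quotient.mk P (rn G) := fun G => rfl
  set em : MvPolynomial (Fin r) (RI I) →ₐ[ℂ] MvPolynomial (Fin n ⊕ Fin n) ℂ ⧸ P :=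
    aevalTower emI (fun b => Ideal.Quotient.mk P (X (Sum.inr (κ b)))) with hem
  have hem_map' : (em : MvPolynomial (Fin r) (RI I) →+* _).comp
      (MvPolynomial.map (Ideal.Quotient.mk I)) = (Ideal.Quotient.mk P).comp (yev κ) := by
    refine MvPolynomial.ringHom_ext (fun a => ?_) fun b => ?_
    · show em (MvPolynomial.map (Ideal.Quotient.mk I) (C a)) = Ideal.Quotient.mk P (yev κ (C a))
      rw [MvPolynomial.map_C, hem, aevalTower_C, hemI_mk, yev, coe_eval₂Hom, eval₂_C]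
      rfl
    · show em (MvPolynomial.map (Ideal.Quotient.mk I) (X b)) = Ideal.Quotient.mk P (yev κ (X b))
      rw [MvPolynomial.map_X, hem, aevalTower_X, yev, coe_eval₂Hom, eval₂_X]
  have hem_map : ∀ g : MvPolynomial (Fin r) (MvPolynomial (Fin n) ℂ),
      em (MvPolynomial.map (Ideal.Quotient.mk I) g) = Ideal.Quotient.mk P (yev κ g) :=
    fun g => RingHom.congr_fun hem_map' g
  have hinj : Function.Injective em := by
    rw [injective_iff_map_eq_zero]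
    intro g hg
    obtain ⟨g', rfl⟩ := MvPolynomial.map_surjective (Ideal.Quotient.mk I)
      Ideal.Quotient.mk_surjective g
    rw [hem_map, Ideal.Quotient.eq_zero_iff_mem] at hg
    ext m
    rw [MvPolynomial.coeff_map, MvPolynomial.coeff_zero, Ideal.Quotient.eq_zero_iff_mem]
    exact (hmemI _).2 (hind g' hg m)
  obtain ⟨f, U, W, D, Δ, g0, N, g, hf, hf0, hD, hΔ, hg0, hUW, hgc, hM⟩ :=
    hALG n P hP (MvPolynomial (Fin r) (RI I)) em hinj
      (fun i => C (Ideal.Quotient.mk I (X i)))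
      (fun i => by
        rw [hem, aevalTower_C, hemI_mk, hrn, rename_X]) h3
      (fun i => by
        obtain ⟨g, ⟨a, m, ham⟩, hg⟩ := halg i
        refine ⟨g.map (MvPolynomial.map (Ideal.Quotient.mk I)), ?_, ?_⟩
        · intro h0
          apply ham
          have h1 := congrArg (fun q => coeff m (q.coeff a)) h0
          simp only [Polynomial.coeff_map, Polynomial.coeff_zero, MvPolynomial.coeff_map,
            MvPolynomial.coeff_zero] at h1
          rw [Ideal.Quotient.eq_zero_iff_mem] at h1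
          exact (hmemI _).1 h1
        · rw [Polynomial.eval₂_map, hem_map', ← Polynomial.hom_eval₂,
            Ideal.Quotient.eq_zero_iff_mem]
          exact hg) H hHP
  have hrel : ∀ (x : Zp) (Y : Fin r → ℂ) (t : ℂ), (famZ r Zp I hIF').ch x Y D ≠ 0 → ∀ i,
      evAZ r Zp I hIF' x Y D * yq ((famZ r Zp I hIF').ch x Y) (N i) D t =
        ((N i).map ((evAZ r Zp I hIF' x Y : MvPolynomial (Fin r) (RI I) →ₐ[ℂ] ℂ) :
          MvPolynomial (Fin r) (RI I) →+* ℂ)).eval t := by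
    intro x Y t hD' i
    rw [yq]
    exact mul_div_cancel₀ _ hD'
  obtain ⟨x, Y, t, hY, h6, h7, h8, h9⟩ := core7 hDOM hGEN hROOT hSOL hCLS
    Pool.Agent.K3h51.UG.t_RP Pool.Agent.K3h51.UG.t_PIG Pool.Agent.K3h55.UG.t_COMP
    Pool.Agent.K3h33.UG.t_NEWT e Zp I Ud hU hUne hGEO
    (famZ r Zp I hIF') c f U W D Δ g0 (fun j => N (e (Sum.inl j))) (fun j => g (e (Sum.inl j)))
    hf hf0 hUW hD hΔ hg0 (fun j => hgc _) (by
      intro j x Y t ht hD'
      exact (hM (evAZ r Zp I hIF' x Y) t (fun i => yq ((famZ r Zp I hIF').ch x Y) (N i) D t)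
        (hrel x Y t hD') hD' ht).2.1 (e (Sum.inl j)))
  obtain ⟨m1, -, m3, m4⟩ := hM (evAZ r Zp I hIF' x Y) t
    (fun i => yq ((famZ r Zp I hIF').ch x Y) (N i) D t) (hrel x _ t h7) h7 h8
  have hxA : (fun i => evAZ r Zp I hIF' x Y (C (Ideal.Quotient.mk I (X i)))) = x.1 := by
    funext i
    rw [evAZ, aevalTower_C, evZ_mk, eval_X]
  have hYA : (fun i => yq ((famZ r Zp I hIF').ch x Y) (N i) D t) =
      fun i => Complex.exp (x.1 i + c i) := by
    funext i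
    obtain ⟨j | b, rfl⟩ := e.surjective i
    · exact h9 j
    · have := m3 (e (Sum.inr b)) (X b) (by rw [hem, aevalTower_X])
      rw [this, evAZ, aevalTower_X]
      exact hY b
  rw [hxA, hYA] at m1 m4
  exact ⟨x.1, m1, m4 h6⟩

/-- exponential points on all translates, arbitrary codimension -/
theorem mainV7 (hDOM : S_DOM6) (hGEN : S_GEN6) (hROOT : S_ROOT4)
    (hSOL : S_SOL6) (hCLS : S_CLS3) (hALG : S_ALG) (hFIB : S_FIB6) {n s r : ℕ} (hn : n = s + r)
    (P : Ideal (MvPolynomial (Fin n ⊕ Fin n) ℂ)) (V : Set (Fin n ⊕ Fin n → ℂ)) (hP : P.IsPrime)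
    (hV : V = {p | (∀ f ∈ P, eval p f = 0) ∧ ∀ j : Fin n, p (Sum.inr j) ≠ 0})
    (hne : V.Nonempty)
    (hdim1 : ∃ K : Finset (Fin n ⊕ Fin n), K.card = n ∧ Indep V K)
    (hdim : ∀ K : Finset (Fin n ⊕ Fin n), K.card = n + 1 → ¬ Indep V K)
    (hX1 : ∃ K : Finset (Fin n), K.card = s ∧ ∀ G : MvPolynomial (Fin n) ℂ, G.vars ⊆ K →
      (∀ u ∈ V, eval (fun i => u (Sum.inl i)) G = 0) → G = 0)
    (hX2 : ∀ K : Finset (Fin n), K.card = s + 1 → ¬ ∀ G : MvPolynomial (Fin n) ℂ, G.vars ⊆ K →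
      (∀ u ∈ V, eval (fun i => u (Sum.inl i)) G = 0) → G = 0)
    (e : Fin s ⊕ Fin r ≃ Fin n)
    (hind : ∀ g : MvPolynomial (Fin r) (MvPolynomial (Fin n) ℂ),
      (∀ u ∈ V, eval (fun b => u (Sum.inr (e (Sum.inr b))))
        (MvPolynomial.map (eval fun i => u (Sum.inl i)) g) = 0) →
      ∀ m, ∀ u ∈ V, eval (fun i => u (Sum.inl i)) (coeff m g) = 0)
    (Zp : Set (Fin n → ℂ)) (hIF : ∀ x ∈ Zp, ∀ G : MvPolynomial (Fin n) ℂ,
      (∀ u ∈ V, eval (fun i => u (Sum.inl i)) G = 0) → eval x G = 0)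
    (Ud : Set (Fin r → ℝ)) (hU : IsOpen Ud) (hUne : Ud.Nonempty)
    (hGEO : ∀ I : Ideal (MvPolynomial (Fin n) ℂ), I.IsPrime →
      (∀ K : Finset (Fin n), K.card = s + 1 → ∃ G ∈ I, G ≠ 0 ∧ G.vars ⊆ K) →
      (∀ x ∈ Zp, ∀ G ∈ I, eval x G = 0) → GeoZ e Zp I Ud)
    (c : Fin n ⊕ Fin n → ℂ) (hc : ∀ i, c (Sum.inr i) ≠ 0)
    (H : MvPolynomial (Fin n ⊕ Fin n) ℂ)
    (hHV : ∃ u ∈ V, eval (Sum.elim (fun i => u (Sum.inl i) + c (Sum.inl i))
      (fun i => c (Sum.inr i) * u (Sum.inr i))) H ≠ 0) :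
    ∃ z : Fin n → ℂ, (∃ u ∈ V, (Sum.elim z fun i => Complex.exp (z i) :
      Fin n ⊕ Fin n → ℂ) = Sum.elim (fun i => u (Sum.inl i) + c (Sum.inl i))
        (fun i => c (Sum.inr i) * u (Sum.inr i))) ∧
      eval (Sum.elim z fun i => Complex.exp (z i)) H ≠ 0 := by
  classical
  obtain ⟨d1, d2, d3, d4, d5⟩ := Pool.Agent.K3h60.EX.t_DER n n P V hP hV hne id
    Function.injective_id
  have d6 : ∀ G : MvPolynomial (Fin n ⊕ Fin n) ℂ, G ∈ P → ∀ u ∈ V, eval u G = 0 := by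
    intro G hG u hu
    rw [hV] at hu
    exact hu.1 G hG
  have d7 : ∀ G : MvPolynomial (Fin n) ℂ, rename Sum.inl G ∈ P ↔
      ∀ u ∈ V, eval (fun i => u (Sum.inl i)) G = 0 := by
    intro G
    constructor
    · intro h u hu
      have := d6 _ h u hu
      rw [eval_rename] at this
      exact this
    · intro h
      apply d1
      intro u hu
      rw [eval_rename]
      exact h u hu
  have hId : ∀ K : Finset (Fin n), K.card = s + 1 → ∃ G : MvPolynomial (Fin n) ℂ,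
      rename Sum.inl G ∈ P ∧ G ≠ 0 ∧ G.vars ⊆ K := by
    intro K hK
    have h1 := hX2 K hK
    push Not at h1
    obtain ⟨G, h2, h3, h4⟩ := h1
    exact ⟨G, (d7 G).2 h3, h4, h2⟩
  have hind' : IndepOver P fun b => e (Sum.inr b) := by
    intro g hg m
    rw [d7]
    refine hind g (fun u hu => ?_) m
    rw [← eval_yev (fun b => e (Sum.inr b))]
    exact d6 _ hg u hu
  have hfib := hFIB n s r hn P hP (by
      obtain ⟨K, hK, h1⟩ := hdim1
      exact ⟨K, hK, fun G hG hGP => h1 G hG (d6 G hGP)⟩) (by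
      intro K hK
      have h1 := hdim K hK
      unfold Indep at h1
      push Not at h1
      obtain ⟨G, h2, h3, h4⟩ := h1
      exact ⟨G, d1 G h3, h4, h2⟩) (by
      obtain ⟨K, hK, h1⟩ := hX1
      exact ⟨K, hK, fun G hG hGP => h1 G hG ((d7 G).1 hGP)⟩) hId
  have halg := hfib.2 (fun b => e (Sum.inr b))
    (fun a b hab => Sum.inr_injective (e.injective hab)) hind'
  refine Pool.Agent.K3h22.EX.transport P V hV (fun i => (X i : MvPolynomial (Fin n) ℂ))
    (fun c H hHP => ?_) c hc H hHV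
  simp only [eval_X]
  obtain ⟨I0, hI0⟩ : ∃ I0 : Ideal (MvPolynomial (Fin n) ℂ), I0 = P.comap
      ((rename (Sum.inl : Fin n → Fin n ⊕ Fin n) :
        MvPolynomial (Fin n) ℂ →ₐ[ℂ] MvPolynomial (Fin n ⊕ Fin n) ℂ) :
        MvPolynomial (Fin n) ℂ →+* MvPolynomial (Fin n ⊕ Fin n) ℂ) := ⟨_, rfl⟩
  have hm0 : ∀ G, G ∈ I0 ↔ rename Sum.inl G ∈ P := fun G => by
    rw [hI0]
    rfl
  have hp0 : I0.IsPrime := by
    rw [hI0]
    have := hP
    exact Ideal.comap_isPrime _ _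
  have hz0 : ∀ x ∈ Zp, ∀ G ∈ I0, eval x G = 0 :=
    fun x hx G hG => hIF x hx G ((d7 G).1 ((hm0 G).1 hG))
  exact coreV7 hDOM hGEN hROOT hSOL hCLS hALG P hP d3 e Zp I0 hm0 hz0 Ud hU hUne
    (hGEO I0 hp0 (fun K hK => by
      obtain ⟨G, h1, h2, h3⟩ := hId K hK
      exact ⟨G, (hm0 G).2 h1, h2, h3⟩) hz0) hind' halg c H hHP

end Pool.Agent.K3h53.UG
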