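import Pool.Agent.K3h53.UG.Stm3

/-! UG project (helper53, MP_209724_lc), fourth part: varieties over arbitrary hypersurfaces. Exact
statements of the parts.  Directions at infinity of the hypersurface `F = 0` are written
`l + θ u`, `l` with `k`-th coordinate zero, `u k = 1`. -/

set_option autoImplicit false

namespace Pool.Agent.K3h53.UG

open MvPolynomial Filter Topology Metric Set Pool.Agent.K3h22.EX

/-- the point `l + θ u`, `l` with `k`-th coordinate zero -/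
noncomputable def xp {s : ℕ} (k : Fin (s + 1)) (u : Fin (s + 1) → ℝ) (l : Fin s → ℂ) (θ : ℂ) :
    Fin (s + 1) → ℂ :=
  fun i => (k.insertNth (0 : ℂ) l : Fin (s + 1) → ℂ) i + ((u i : ℝ) : ℂ) * θ

/-- some real line with direction `u` contains a simple zero of `q` with nonreal parameter -/
def NonRealAt {n : ℕ} (q : MvPolynomial (Fin n) ℂ) (u : Fin n → ℝ) : Prop :=
  ∃ (ξ : Fin n → ℝ) (η : ℂ), η.im ≠ 0 ∧
    eval (fun i => ((ξ i : ℝ) : ℂ) + ((u i : ℝ) : ℂ) * η) q = 0 ∧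
    eval (fun i => ((ξ i : ℝ) : ℂ) + ((u i : ℝ) : ℂ) * η) (dd (fun i => ((u i : ℝ) : ℂ)) q) ≠ 0

/-- existence of directions -/
def S_DIR4 : Prop := ∀ (s d : ℕ) (q : MvPolynomial (Fin (s + 1)) ℂ) (k : Fin (s + 1))
  (u : Fin (s + 1) → ℝ), q.IsHomogeneous d → u k = 1 → NonRealAt q u →
  ∀ (Q : MvPolynomial (Fin s) ℂ) (e : ℕ), Q ≠ 0 → Q.IsHomogeneous e →
  ∃ (lam : Fin s → ℂ) (θ : ℂ), (∀ j, (lam j).re = 0) ∧ θ.re = 1 ∧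
    eval (xp k u lam θ) q = 0 ∧
    eval (xp k u lam θ) (dd (fun i => ((u i : ℝ) : ℂ)) q) ≠ 0 ∧ eval lam Q ≠ 0

/-- the branch of the hypersurface `F = 0` near `R (lam + θ u)`, as a graph in the direction `u` -/
def S_BR : Prop := ∀ (s : ℕ) (F : MvPolynomial (Fin (s + 1)) ℂ) (k : Fin (s + 1))
  (u : Fin (s + 1) → ℝ) (lam : Fin s → ℂ) (θ : ℂ), eval (xp k u lam θ) (top F) = 0 →
  eval (xp k u lam θ) (dd (fun i => ((u i : ℝ) : ℂ)) (top F)) ≠ 0 →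
  ∃ ε C R₀ : ℝ, 0 < ε ∧ 0 ≤ C ∧ 1 ≤ R₀ ∧ ∀ R : ℝ, R₀ ≤ R → ∃ ψ : (Fin s → ℂ) → ℂ,
    DifferentiableOn ℂ ψ (ball (sc R lam) (ε * R)) ∧
    (∀ l ∈ ball (sc R lam) (ε * R), eval (xp k u l (ψ l)) F = 0 ∧ ‖ψ l - R * θ‖ ≤ R / 4) ∧
    ‖ψ (sc R lam) - R * θ‖ ≤ C

/-- elimination: on `F = 0` each `G` which is not a multiple of `F` divides a nonzero polynomial in
`l` -/
def S_NORM : Prop := ∀ (s : ℕ) (F : MvPolynomial (Fin (s + 1)) ℂ) (k : Fin (s + 1))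
  (u : Fin (s + 1) → ℝ), u k = 1 → Prime F → dd (fun i => ((u i : ℝ) : ℂ)) F ≠ 0 →
  ∀ G : MvPolynomial (Fin (s + 1)) ℂ, ¬ F ∣ G →
  ∃ (h : MvPolynomial (Fin s) ℂ) (G' : MvPolynomial (Fin (s + 1)) ℂ), h ≠ 0 ∧
    ∀ (l : Fin s → ℂ) (θ : ℂ), eval (xp k u l θ) F = 0 →
      eval (xp k u l θ) G * eval (xp k u l θ) G' = eval l h

/-- the geometry of the hypersurface near a good direction (to be proved from `S_DIR4`, `S_BR`,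
`S_NORM`) -/
def S_GEO : Prop := ∀ (s : ℕ) (F : MvPolynomial (Fin (s + 1)) ℂ) (k : Fin (s + 1))
  (u : Fin (s + 1) → ℝ), u k = 1 → Prime F → NonRealAt (top F) u →
  ∀ T : Finset (MvPolynomial (Fin (s + 1)) ℂ), (∀ G ∈ T, ¬ F ∣ G) →
  ∃ lam : Fin s → ℂ, (∀ j, (lam j).re = 0) ∧ ∃ ε C R₀ : ℝ, 0 < ε ∧ 0 ≤ C ∧ 1 ≤ R₀ ∧
  ∀ R : ℝ, R₀ ≤ R → ∃ ψ : (Fin s → ℂ) → ℂ,
    DifferentiableOn ℂ ψ (ball (sc R lam) (ε * R)) ∧ |(ψ (sc R lam)).re - R| ≤ C ∧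
    ∀ l ∈ ball (sc R lam) (ε * R), eval (xp k u l (ψ l)) F = 0 ∧ R / 2 ≤ (ψ l).re ∧
      ∀ G ∈ T, eval (xp k u l (ψ l)) G ≠ 0 ∧
        |Real.log ‖eval (xp k u l (ψ l)) G‖| ≤ C * (1 + Real.log R)

/-- holomorphic roots for families of homomorphisms -/
def S_ROOT4 : Prop := ∀ (s : ℕ) (A : Type) [CommRing A] (f U W : Polynomial A) (Δ : A), f.Monic →
  U * f + W * Polynomial.derivative f = Polynomial.C Δ →
  ∀ Ω : Set (Fin s → ℂ), IsOpen Ω → Convex ℝ Ω → ∀ χ : (Fin s → ℂ) → A →+* ℂ,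
  (∀ a : A, DifferentiableOn ℂ (fun w => χ w a) Ω) → (∀ w ∈ Ω, χ w Δ ≠ 0) →
  ∀ w₀ ∈ Ω, ∀ t₀ : ℂ, (f.map (χ w₀)).eval t₀ = 0 →
  ∃ Z : (Fin s → ℂ) → ℂ, DifferentiableOn ℂ Z Ω ∧ Z w₀ = t₀ ∧
    ∀ w ∈ Ω, (f.map (χ w)).eval (Z w) = 0

/-- solution of `l_j - M_j(l) ∈ 2 π i ℤ` (to be proved from `S_BC`) -/
def S_SOL4 : Prop := ∀ (s : ℕ) (lam : Fin s → ℂ), (∀ j, (lam j).re = 0) → ∀ ε C : ℝ, 0 < ε →
  ∃ R₀ : ℝ, 1 ≤ R₀ ∧ ∀ R : ℝ, R₀ ≤ R → ∀ M : Fin s → (Fin s → ℂ) → ℂ,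
  (∀ j, DifferentiableOn ℂ (M j) (ball (sc R lam) (ε * R))) →
  (∀ j, ∀ l ∈ ball (sc R lam) (ε * R), |(M j l).re| ≤ C * (1 + Real.log R)) →
  ∃ l ∈ ball (sc R lam) (ε * R), ∀ j, ∃ N : ℤ,
    l j - M j l = 2 * Real.pi * Complex.I * (N : ℂ)

/-- a polynomial in a large quantity `Y` with coefficients of polynomial size -/
def S_DOM4 : Prop := ∀ (C : ℝ) (h : ℕ), ∃ C' R₀ : ℝ, 0 ≤ C' ∧ 1 ≤ R₀ ∧ ∀ R : ℝ, R₀ ≤ R →
  ∀ (a : ℕ → ℂ) (Y : ℂ), Y ≠ 0 → R / 2 - C ≤ Real.log ‖Y‖ → a h ≠ 0 →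
  (∀ i, i ≤ h → a i = 0 ∨ |Real.log ‖a i‖| ≤ C * (1 + Real.log R)) →
  ∑ i ∈ Finset.range (h + 1), a i * Y ^ i ≠ 0 ∧
    |Real.log ‖∑ i ∈ Finset.range (h + 1), a i * Y ^ i‖ - (h : ℝ) * Real.log ‖Y‖| ≤
      C' * (1 + Real.log R)

/-- algebraic model of the function field of a variety over a subring `A` -/
def S_ALG : Prop := ∀ (n : ℕ) (P : Ideal (MvPolynomial (Fin n ⊕ Fin n) ℂ)), P.IsPrime →
  ∀ (A : Type) [CommRing A] [IsDomain A] [Algebra ℂ A]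
  (em : A →ₐ[ℂ] MvPolynomial (Fin n ⊕ Fin n) ℂ ⧸ P), Function.Injective em →
  ∀ xA : Fin n → A, (∀ i, em (xA i) = Ideal.Quotient.mk P (X (Sum.inl i))) →
  (∀ i, X (Sum.inr i) ∉ P) →
  (∀ i, ∃ g : Polynomial A, g ≠ 0 ∧
    g.eval₂ (em : A →+* _) (Ideal.Quotient.mk P (X (Sum.inr i))) = 0) →
  ∀ H : MvPolynomial (Fin n ⊕ Fin n) ℂ, H ∉ P →
  ∃ (f U W : Polynomial A) (D Δ g0 : A) (N g : Fin n → Polynomial A), f.Monic ∧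
    0 < f.natDegree ∧ D ≠ 0 ∧ Δ ≠ 0 ∧ g0 ≠ 0 ∧
    U * f + W * Polynomial.derivative f = Polynomial.C Δ ∧ (∀ i, (g i).coeff 0 ≠ 0) ∧
    ∀ (χ : A →ₐ[ℂ] ℂ) (t : ℂ) (Y : Fin n → ℂ),
      (∀ i, χ D * Y i = ((N i).map (χ : A →+* ℂ)).eval t) → χ D ≠ 0 →
      (f.map (χ : A →+* ℂ)).eval t = 0 →
      (∀ G ∈ P, eval (Sum.elim (fun i => χ (xA i)) Y) G = 0) ∧
      (∀ i, ((g i).map (χ : A →+* ℂ)).eval (Y i) = 0) ∧
      (∀ (i : Fin n) (a : A), em a = Ideal.Quotient.mk P (X (Sum.inr i)) → Y i = χ a) ∧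
      (χ g0 ≠ 0 → eval (Sum.elim (fun i => χ (xA i)) Y) H ≠ 0)

/-- dimension count: let `V` have dimension `n = s + 1` and let `F` generate the ideal of the
projection of `V` to the coordinates `x`. Then `F` is prime, some `y_k` is transcendental over the
coordinate ring of `F = 0`, and all `y_i` are algebraic over the ring generated by it and `y_k` -/
def S_FIB : Prop := ∀ (s : ℕ) (P : Ideal (MvPolynomial (Fin (s + 1) ⊕ Fin (s + 1)) ℂ))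
  (V : Set (Fin (s + 1) ⊕ Fin (s + 1) → ℂ)), P.IsPrime →
  V = {p | (∀ f ∈ P, eval p f = 0) ∧ ∀ j : Fin (s + 1), p (Sum.inr j) ≠ 0} → V.Nonempty →
  (∃ K : Finset (Fin (s + 1) ⊕ Fin (s + 1)), K.card = s + 1 ∧ Indep V K) →
  (∀ K : Finset (Fin (s + 1) ⊕ Fin (s + 1)), K.card = s + 2 → ¬ Indep V K) →
  ∀ F : MvPolynomial (Fin (s + 1)) ℂ, F ≠ 0 →
  (∀ G : MvPolynomial (Fin (s + 1)) ℂ,
    (∀ u ∈ V, eval (fun i => u (Sum.inl i)) G = 0) ↔ F ∣ G) →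
  Prime F ∧ ∃ k : Fin (s + 1),
    (∀ g : Polynomial (MvPolynomial (Fin (s + 1)) ℂ),
      g.eval₂ ((rename (Sum.inl : Fin (s + 1) → Fin (s + 1) ⊕ Fin (s + 1)) :
        MvPolynomial (Fin (s + 1)) ℂ →ₐ[ℂ] MvPolynomial (Fin (s + 1) ⊕ Fin (s + 1)) ℂ) :
        MvPolynomial (Fin (s + 1)) ℂ →+* MvPolynomial (Fin (s + 1) ⊕ Fin (s + 1)) ℂ)
        (X (Sum.inr k)) ∈ P → ∀ i, F ∣ g.coeff i) ∧
    ∀ i, ∃ g : Polynomial (Polynomial (MvPolynomial (Fin (s + 1)) ℂ)),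
      (∃ a b, ¬ F ∣ (g.coeff a).coeff b) ∧
      g.eval₂ (Polynomial.eval₂RingHom
        ((rename (Sum.inl : Fin (s + 1) → Fin (s + 1) ⊕ Fin (s + 1)) :
        MvPolynomial (Fin (s + 1)) ℂ →ₐ[ℂ] MvPolynomial (Fin (s + 1) ⊕ Fin (s + 1)) ℂ) :
        MvPolynomial (Fin (s + 1)) ℂ →+* MvPolynomial (Fin (s + 1) ⊕ Fin (s + 1)) ℂ)
        (X (Sum.inr k))) (X (Sum.inr i)) ∈ P

end Pool.Agent.K3h53.UG
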