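import Pool.Agent.K3h53.UG.Core4
import Pool.Agent.K3h53.UG.Fin2

/-! UG project, fourth part: exponential points on varieties over arbitrary hypersurfaces. -/

set_option autoImplicit false

namespace Pool.Agent.K3h53.UG

open MvPolynomial Filter Topology Metric Set Pool.Agent.K3h22.EX

section Ring

variable {n : ℕ} (F : MvPolynomial (Fin n) ℂ)

/-- the coordinate ring of `F = 0` -/
abbrev RB : Type := MvPolynomial (Fin n) ℂ ⧸ Ideal.span {F}

/-- evaluation at a point of `F = 0` -/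
noncomputable def evB (x : Zr F) : RB F →ₐ[ℂ] ℂ :=
  Ideal.Quotient.liftₐ (Ideal.span {F}) (aeval x.1) (by
    intro a ha
    rw [Ideal.mem_span_singleton] at ha
    obtain ⟨b, rfl⟩ := ha
    rw [map_mul]
    have h : (aeval x.1) F = (0 : ℂ) := x.2
    rw [h, zero_mul])

theorem evB_mk (x : Zr F) (G : MvPolynomial (Fin n) ℂ) :
    evB F x (Ideal.Quotient.mk (Ideal.span {F}) G) = eval x.1 G := by
  rfl

/-- evaluation of polynomials in `Y` over the coordinate ring -/
noncomputable def evA (x : Zr F) (Y : ℂ) : Polynomial (RB F) →ₐ[ℂ] ℂ :=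
  Polynomial.eval₂AlgHom (evB F x) Y fun _ => Commute.all _ _

/-- representatives of the coefficients -/
noncomputable def cfA (a : Polynomial (RB F)) (i : ℕ) : MvPolynomial (Fin n) ℂ :=
  open scoped Classical in
  if a.coeff i = 0 then 0 else Classical.choose (Ideal.Quotient.mk_surjective (a.coeff i))

theorem cfA_mk (a : Polynomial (RB F)) (i : ℕ) :
    Ideal.Quotient.mk (Ideal.span {F}) (cfA F a i) = a.coeff i := by
  classical
  unfold cfA
  split_ifs with h
  · rw [map_zero, h]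
  · exact Classical.choose_spec (Ideal.Quotient.mk_surjective (a.coeff i))

/-- the family of evaluations -/
noncomputable def famA : Fam F (Polynomial (RB F)) where
  ch x Y := (evA F x Y : Polynomial (RB F) →+* ℂ)
  dg a := a.natDegree
  cf a i := cfA F a i
  sum := by
    intro a x Y
    show Polynomial.eval₂ (evB F x : RB F →+* ℂ) Y a = _
    rw [Polynomial.eval₂_eq_sum_range]
    refine Finset.sum_congr rfl fun i _ => ?_
    congr 1
    rw [← cfA_mk F a i]
    exact evB_mk F x _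
  lead := by
    intro a ha h0
    have h1 := cfA_mk F a a.natDegree
    rw [h0, map_zero] at h1
    exact ha (Polynomial.leadingCoeff_eq_zero.1 h1.symm)
  ndvd := by
    intro a i
    by_cases h : a.coeff i = 0
    · left
      simp only [cfA, h, if_true]
    · right
      intro hd
      apply h
      rw [← cfA_mk F a i, Ideal.Quotient.eq_zero_iff_mem, Ideal.mem_span_singleton]
      exact hd

end Ring

/-- the algebraic data of a variety over a hypersurface, and the analytic core -/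
theorem coreV4 (hGEO : S_GEO) (hDOM : S_DOM4) (hROOT : S_ROOT4) (hSOL : S_SOL4) (hCLS : S_CLS3)
    (hALG : S_ALG) {s : ℕ}
    (P : Ideal (MvPolynomial (Fin (s + 1) ⊕ Fin (s + 1)) ℂ)) (hP : P.IsPrime)
    (h3 : ∀ i, X (Sum.inr i) ∉ P)
    (F : MvPolynomial (Fin (s + 1)) ℂ) (hF : Prime F) (hFP : rename Sum.inl F ∈ P)
    (hNR : ∀ u : Fin (s + 1) → ℚ, u ≠ 0 → NonRealAt (top F) fun i => (u i : ℝ))
    (k : Fin (s + 1))
    (hk : ∀ g : Polynomial (MvPolynomial (Fin (s + 1)) ℂ),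
      g.eval₂ ((rename (Sum.inl : Fin (s + 1) → Fin (s + 1) ⊕ Fin (s + 1)) :
        MvPolynomial (Fin (s + 1)) ℂ →ₐ[ℂ] MvPolynomial (Fin (s + 1) ⊕ Fin (s + 1)) ℂ) :
        MvPolynomial (Fin (s + 1)) ℂ →+* MvPolynomial (Fin (s + 1) ⊕ Fin (s + 1)) ℂ)
        (X (Sum.inr k)) ∈ P → ∀ i, F ∣ g.coeff i)
    (halg : ∀ i, ∃ g : Polynomial (Polynomial (MvPolynomial (Fin (s + 1)) ℂ)),
      (∃ a b, ¬ F ∣ (g.coeff a).coeff b) ∧
      g.eval₂ (Polynomial.eval₂RingHom
        ((rename (Sum.inl : Fin (s + 1) → Fin (s + 1) ⊕ Fin (s + 1)) :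
        MvPolynomial (Fin (s + 1)) ℂ →ₐ[ℂ] MvPolynomial (Fin (s + 1) ⊕ Fin (s + 1)) ℂ) :
        MvPolynomial (Fin (s + 1)) ℂ →+* MvPolynomial (Fin (s + 1) ⊕ Fin (s + 1)) ℂ)
        (X (Sum.inr k))) (X (Sum.inr i)) ∈ P)
    (c : Fin (s + 1) → ℂ) (H : MvPolynomial (Fin (s + 1) ⊕ Fin (s + 1)) ℂ) (hH : H ∉ P) :
    ∃ x : Fin (s + 1) → ℂ,
      (∀ G ∈ P, eval (Sum.elim x fun i => Complex.exp (x i + c i)) G = 0) ∧
      eval (Sum.elim x fun i => Complex.exp (x i + c i)) H ≠ 0 := by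
  classical
  have := hP
  have hFp : (Ideal.span {F}).IsPrime := (Ideal.span_singleton_prime hF.ne_zero).2 hF
  set rn : MvPolynomial (Fin (s + 1)) ℂ →ₐ[ℂ] MvPolynomial (Fin (s + 1) ⊕ Fin (s + 1)) ℂ :=
    rename (Sum.inl : Fin (s + 1) → Fin (s + 1) ⊕ Fin (s + 1)) with hrn
  set emB : RB F →ₐ[ℂ] MvPolynomial (Fin (s + 1) ⊕ Fin (s + 1)) ℂ ⧸ P :=
    Ideal.Quotient.liftₐ (Ideal.span {F}) ((Ideal.Quotient.mkₐ ℂ P).comp rn) (by
      intro a ha
      rw [Ideal.mem_span_singleton] at ha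
      obtain ⟨b, rfl⟩ := ha
      rw [map_mul]
      have : ((Ideal.Quotient.mkₐ ℂ P).comp rn) F = 0 := by
        show Ideal.Quotient.mk P (rn F) = 0
        rw [Ideal.Quotient.eq_zero_iff_mem]
        exact hFP
      rw [this, zero_mul]) with hemB
  have hemB_mk : ∀ G, emB (Ideal.Quotient.mk (Ideal.span {F}) G) =
      Ideal.Quotient.mk P (rn G) := fun G => rfl
  set em : Polynomial (RB F) →ₐ[ℂ] MvPolynomial (Fin (s + 1) ⊕ Fin (s + 1)) ℂ ⧸ P :=
    Polynomial.eval₂AlgHom emB (Ideal.Quotient.mk P (X (Sum.inr k)))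
      (fun _ => Commute.all _ _) with hem
  have hem_map : ∀ g : Polynomial (MvPolynomial (Fin (s + 1)) ℂ),
      em (g.map (Ideal.Quotient.mk (Ideal.span {F}))) =
        Ideal.Quotient.mk P (g.eval₂ (rn : _ →+* _) (X (Sum.inr k))) := by
    intro g
    show Polynomial.eval₂ (emB : RB F →+* MvPolynomial (Fin (s + 1) ⊕ Fin (s + 1)) ℂ ⧸ P) _ (g.map _) = _
    rw [Polynomial.eval₂_map, Polynomial.hom_eval₂]
    rfl
  have hinj : Function.Injective em := by
    rw [injective_iff_map_eq_zero]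
    intro g hg
    obtain ⟨g', rfl⟩ := Polynomial.map_surjective (Ideal.Quotient.mk (Ideal.span {F}))
      Ideal.Quotient.mk_surjective g
    rw [hem_map, Ideal.Quotient.eq_zero_iff_mem] at hg
    ext i
    rw [Polynomial.coeff_map, Polynomial.coeff_zero, Ideal.Quotient.eq_zero_iff_mem,
      Ideal.mem_span_singleton]
    exact hk g' hg i
  obtain ⟨f, U, W, D, Δ, g0, N, g, hf, hf0, hD, hΔ, hg0, hUW, hgc, hM⟩ :=
    hALG (s + 1) P hP (Polynomial (RB F)) em hinj
      (fun i => Polynomial.C (Ideal.Quotient.mk (Ideal.span {F}) (X i)))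
      (fun i => by
        show Polynomial.eval₂ (emB : RB F →+* MvPolynomial (Fin (s + 1) ⊕ Fin (s + 1)) ℂ ⧸ P) _ (Polynomial.C _) = _
        rw [Polynomial.eval₂_C]
        show Ideal.Quotient.mk P (rn (X i)) = _
        rw [hrn, rename_X]) h3
      (fun i => by
        obtain ⟨g, ⟨a, b, hab⟩, hg⟩ := halg i
        refine ⟨g.map (Polynomial.mapRingHom (Ideal.Quotient.mk (Ideal.span {F}))), ?_, ?_⟩
        · intro h0
          apply hab
          have h1 := congrArg (fun q => (q.coeff a).coeff b) h0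
          simp only [Polynomial.coeff_map, Polynomial.coe_mapRingHom, Polynomial.coeff_zero] at h1
          rw [Ideal.Quotient.eq_zero_iff_mem, Ideal.mem_span_singleton] at h1
          exact h1
        · rw [Polynomial.eval₂_map]
          have e1 : ((em : Polynomial (RB F) →+* _).comp
              (Polynomial.mapRingHom (Ideal.Quotient.mk (Ideal.span {F})))) =
              (Ideal.Quotient.mk P).comp (Polynomial.eval₂RingHom (rn : _ →+* _)
                (X (Sum.inr k))) := by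
            refine RingHom.ext fun q => ?_
            exact hem_map q
          rw [e1, ← Polynomial.hom_eval₂, Ideal.Quotient.eq_zero_iff_mem]
          exact hg) H hH
  have hrel : ∀ (x : Zr F) (Y t : ℂ), (famA F).ch x Y D ≠ 0 → ∀ i,
      evA F x Y D * yq ((famA F).ch x Y) (N i) D t =
        ((N i).map ((evA F x Y : Polynomial (RB F) →ₐ[ℂ] ℂ) :
          Polynomial (RB F) →+* ℂ)).eval t := by
    intro x Y t hD' i
    rw [yq]
    exact mul_div_cancel₀ _ hD'
  obtain ⟨x, t, h6, h7, h8, h9⟩ := core4 hGEO hDOM hROOT hSOL hCLS Pool.Agent.K3h51.UG.t_RP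
    Pool.Agent.K3h51.UG.t_PIG Pool.Agent.K3h55.UG.t_COMP Pool.Agent.K3h33.UG.t_NEWT hF hNR
    (famA F) k c f U W D Δ g0 (fun j => N (k.succAbove j)) (fun j => g (k.succAbove j))
    hf hf0 hUW hD hΔ hg0 (fun j => hgc _) (by
      intro j x Y t ht hD'
      exact (hM (evA F x Y) t (fun i => yq ((famA F).ch x Y) (N i) D t)
        (hrel x Y t hD') hD' ht).2.1 (k.succAbove j))
  obtain ⟨m1, -, m3, m4⟩ := hM (evA F x (Complex.exp (x.1 k + c k))) t
    (fun i => yq ((famA F).ch x (Complex.exp (x.1 k + c k))) (N i) D t)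
    (hrel x _ t h7) h7 h8
  have hxA : (fun i => evA F x (Complex.exp (x.1 k + c k))
      (Polynomial.C (Ideal.Quotient.mk (Ideal.span {F}) (X i)))) = x.1 := by
    funext i
    show Polynomial.eval₂ (evB F x : RB F →+* ℂ) _ (Polynomial.C _) = _
    rw [Polynomial.eval₂_C]
    show evB F x (Ideal.Quotient.mk (Ideal.span {F}) (X i)) = _
    rw [evB_mk, eval_X]
  have hYA : (fun i => yq ((famA F).ch x (Complex.exp (x.1 k + c k))) (N i) D t) =
      fun i => Complex.exp (x.1 i + c i) := by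
    funext i
    rcases Fin.eq_self_or_eq_succAbove k i with rfl | ⟨j, rfl⟩
    · have := m3 i (Polynomial.X) (by
        show Polynomial.eval₂ (emB : RB F →+* MvPolynomial (Fin (s + 1) ⊕ Fin (s + 1)) ℂ ⧸ P) _ Polynomial.X = _
        rw [Polynomial.eval₂_X])
      rw [this]
      show Polynomial.eval₂ (evB F x : RB F →+* ℂ) _ Polynomial.X = _
      rw [Polynomial.eval₂_X]
    · exact h9 j
  rw [hxA, hYA] at m1 m4
  exact ⟨x.1, m1, m4 h6⟩

/-- exponential points on all translates, arbitrary hypersurfaces -/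
theorem mainV4 (hGEO : S_GEO) (hDOM : S_DOM4) (hROOT : S_ROOT4) (hSOL : S_SOL4) (hCLS : S_CLS3)
    (hALG : S_ALG) (hFIB : S_FIB) {s : ℕ}
    (P : Ideal (MvPolynomial (Fin (s + 1) ⊕ Fin (s + 1)) ℂ))
    (V : Set (Fin (s + 1) ⊕ Fin (s + 1) → ℂ)) (hP : P.IsPrime)
    (hV : V = {p | (∀ f ∈ P, eval p f = 0) ∧ ∀ j : Fin (s + 1), p (Sum.inr j) ≠ 0})
    (hne : V.Nonempty)
    (hdim1 : ∃ K : Finset (Fin (s + 1) ⊕ Fin (s + 1)), K.card = s + 1 ∧ Indep V K)
    (hdim : ∀ K : Finset (Fin (s + 1) ⊕ Fin (s + 1)), K.card = s + 2 → ¬ Indep V K)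
    (F : MvPolynomial (Fin (s + 1)) ℂ)
    (hFV : ∀ G : MvPolynomial (Fin (s + 1)) ℂ,
      (∀ u ∈ V, eval (fun i => u (Sum.inl i)) G = 0) ↔ F ∣ G)
    (hNR : ∀ u : Fin (s + 1) → ℚ, u ≠ 0 → NonRealAt (top F) fun i => (u i : ℝ))
    (c : Fin (s + 1) ⊕ Fin (s + 1) → ℂ) (hc : ∀ i, c (Sum.inr i) ≠ 0)
    (H : MvPolynomial (Fin (s + 1) ⊕ Fin (s + 1)) ℂ)
    (hH : ∃ u ∈ V, eval (Sum.elim (fun i => u (Sum.inl i) + c (Sum.inl i))
      (fun i => c (Sum.inr i) * u (Sum.inr i))) H ≠ 0) :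
    ∃ z : Fin (s + 1) → ℂ, (∃ u ∈ V, (Sum.elim z fun i => Complex.exp (z i) :
      Fin (s + 1) ⊕ Fin (s + 1) → ℂ) = Sum.elim (fun i => u (Sum.inl i) + c (Sum.inl i))
        (fun i => c (Sum.inr i) * u (Sum.inr i))) ∧
      eval (Sum.elim z fun i => Complex.exp (z i)) H ≠ 0 := by
  classical
  have hF0 : F ≠ 0 := by
    rintro rfl
    obtain ⟨ξ, η, -, -, h1⟩ := hNR (fun _ => 1) (by
      intro h0
      have := congrFun h0 0
      simp at this)
    apply h1
    have : (top (0 : MvPolynomial (Fin (s + 1)) ℂ)) = 0 := by simp [top]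
    rw [this]
    simp [dd]
  obtain ⟨hF, k, hk, halg⟩ := hFIB s P V hP hV hne hdim1 hdim F hF0 hFV
  obtain ⟨d1, d2, d3, d4, d5⟩ := Pool.Agent.K3h60.EX.t_DER (s + 1) (s + 1) P V hP hV hne id
    Function.injective_id
  have hFP : rename Sum.inl F ∈ P := by
    apply d1
    intro u hu
    rw [eval_rename]
    exact (hFV F).2 (dvd_refl F) u hu
  refine Pool.Agent.K3h22.EX.transport P V hV (fun i => (X i : MvPolynomial (Fin (s + 1)) ℂ))
    (fun c H hH => ?_) c hc H hH
  simp only [eval_X]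
  exact coreV4 hGEO hDOM hROOT hSOL hCLS hALG P hP d3 F hF hFP hNR k hk halg c H hH

end Pool.Agent.K3h53.UG
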