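import Pool.Agent.K3h53.UG.Fin3
import Pool.Agent.K3h53.UG.Fin4
import Pool.Agent.K3h7.UG.Dir3
import Pool.Agent.K3h85.UG.Dom3
import Pool.Agent.K3h67.UG.Sol3
import Pool.Agent.K3h58.UG.Cls3
import Pool.Agent.K3h35.UG.Dir4
import Pool.Agent.K3h51.UG.Br
import Pool.Agent.K3h97.UG.Norm
import Pool.Agent.K3h55.UG.Geo
import Pool.Agent.K3h92.UG.Root4
import Pool.Agent.K3h51.UG.Sol4
import Pool.Agent.K3h23.UG.Alg
import Pool.Agent.K3h93.UG.Fib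

/-! UG project: the theorems on hypersurfaces, all parts put together. -/

set_option autoImplicit false

namespace Pool.Agent.K3h53.UG

open MvPolynomial Pool.Agent.K3h22.EX

/-- hypersurfaces which are graphs of polynomials -/
theorem thmB {n s : ℕ} (P : Ideal (MvPolynomial (Fin n ⊕ Fin n) ℂ))
    (V : Set (Fin n ⊕ Fin n → ℂ)) (hP : P.IsPrime)
    (hV : V = {p | (∀ f ∈ P, eval p f = 0) ∧ ∀ j : Fin n, p (Sum.inr j) ≠ 0})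
    (hne : V.Nonempty) (hdim : ∀ K : Finset (Fin n ⊕ Fin n), K.card = n + 1 → ¬ Indep V K)
    (ι : Fin s → Fin n) (hι : Function.Injective ι) (m : Fin n) (hm : ∀ a, ι a ≠ m)
    (hcov : ∀ i, i ≠ m → ∃ a, ι a = i)
    (q : MvPolynomial (Fin s) ℂ)
    (hq : ∀ u ∈ V, u (Sum.inl m) = eval (fun a => u (Sum.inl (ι a))) q)
    (hq2 : 2 ≤ q.totalDegree) (hqn : NonDeg q) (k : Fin s)
    (hind : Indep V (coords ι {ι k}))
    (c : Fin n ⊕ Fin n → ℂ) (hc : ∀ i, c (Sum.inr i) ≠ 0)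
    (H : MvPolynomial (Fin n ⊕ Fin n) ℂ)
    (hH : ∃ u ∈ V, eval (Sum.elim (fun i => u (Sum.inl i) + c (Sum.inl i))
      (fun i => c (Sum.inr i) * u (Sum.inr i))) H ≠ 0) :
    ∃ z : Fin n → ℂ, (∃ u ∈ V, (Sum.elim z fun i => Complex.exp (z i) : Fin n ⊕ Fin n → ℂ) =
      Sum.elim (fun i => u (Sum.inl i) + c (Sum.inl i))
        (fun i => c (Sum.inr i) * u (Sum.inr i))) ∧
      eval (Sum.elim z fun i => Complex.exp (z i)) H ≠ 0 :=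
  mainV3 Pool.Agent.K3h7.UG.t_DIR3 Pool.Agent.K3h85.UG.t_DOM3 Pool.Agent.K3h58.UG.t_CLS3
    (Pool.Agent.K3h67.UG3.t_SOL3 Pool.Agent.K3h60.EX.t_BC) P V hP hV hne hdim ι hι m hm hcov q hq
    hq2 hqn k hind c hc H hH

/-- arbitrary hypersurfaces -/
theorem thmC {s : ℕ} (P : Ideal (MvPolynomial (Fin (s + 1) ⊕ Fin (s + 1)) ℂ))
    (V : Set (Fin (s + 1) ⊕ Fin (s + 1) → ℂ)) (hP : P.IsPrime)
    (hV : V = {p | (∀ f ∈ P, eval p f = 0) ∧ ∀ j : Fin (s + 1), p (Sum.inr j) ≠ 0})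
    (hne : V.Nonempty)
    (hdim1 : ∃ K : Finset (Fin (s + 1) ⊕ Fin (s + 1)), K.card = s + 1 ∧ Indep V K)
    (hdim : ∀ K : Finset (Fin (s + 1) ⊕ Fin (s + 1)), K.card = s + 2 → ¬ Indep V K)
    (F : MvPolynomial (Fin (s + 1)) ℂ)
    (hFV : ∀ G : MvPolynomial (Fin (s + 1)) ℂ,
      (∀ u ∈ V, eval (fun i => u (Sum.inl i)) G = 0) ↔ F ∣ G)
    (hNR : ∀ u : Fin (s + 1) → ℚ, u ≠ 0 → NonRealAt (top F) fun i => (u i : ℝ))
    (c : Fin (s + 1) ⊕ Fin (s + 1) → ℂ) (hc : ∀ i, c (Sum.inr i) ≠ 0)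
    (H : MvPolynomial (Fin (s + 1) ⊕ Fin (s + 1)) ℂ)
    (hH : ∃ u ∈ V, eval (Sum.elim (fun i => u (Sum.inl i) + c (Sum.inl i))
      (fun i => c (Sum.inr i) * u (Sum.inr i))) H ≠ 0) :
    ∃ z : Fin (s + 1) → ℂ, (∃ u ∈ V, (Sum.elim z fun i => Complex.exp (z i) :
      Fin (s + 1) ⊕ Fin (s + 1) → ℂ) = Sum.elim (fun i => u (Sum.inl i) + c (Sum.inl i))
        (fun i => c (Sum.inr i) * u (Sum.inr i))) ∧
      eval (Sum.elim z fun i => Complex.exp (z i)) H ≠ 0 :=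
  mainV4 (Pool.Agent.K3h55.UG.t_GEO Pool.Agent.K3h35.UG.t_DIR4 Pool.Agent.K3h51.UG.t_BR
    Pool.Agent.K3h97.UG.t_NORM) Pool.Agent.K3h51.UG.t_DOM4 t_ROOT4
    (Pool.Agent.K3h51.UG.t_SOL4 Pool.Agent.K3h60.EX.t_BC) Pool.Agent.K3h58.UG.t_CLS3
    Pool.Agent.K3h23.UG.t_ALG Pool.Agent.K3h93.UG.t_FIB P V hP hV hne hdim1 hdim F hFV hNR c hc
    H hH

end Pool.Agent.K3h53.UG
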