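import Pool.Agent.K3h53.UG.Stm4

/-! UG project (helper53, MP_209724_lc), fifth part: varieties over complete intersections of
arbitrary codimension `r`. Exact statements of the parts.  The coordinates of `ℂ^n` are split into
`s` coordinates `l` and `r` coordinates `θ` by `e : Fin s ⊕ Fin r ≃ Fin n`. -/

set_option autoImplicit false

namespace Pool.Agent.K3h53.UG

open MvPolynomial Filter Topology Metric Set Pool.Agent.K3h22.EX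

/-- the point with `r` coordinates `θ` and the other coordinates `l + σ θ` -/
noncomputable def xr {n s r : ℕ} (e : Fin s ⊕ Fin r ≃ Fin n) (σ : Fin s → Fin r → ℝ)
    (l : Fin s → ℂ) (θ : Fin r → ℂ) : Fin n → ℂ :=
  fun i => (Sum.elim (fun j => l j + ∑ b, ((σ j b : ℝ) : ℂ) * θ b) θ : Fin s ⊕ Fin r → ℂ)
    (e.symm i)

/-- the leading form with respect to the weights `w` -/
noncomputable def wtop {n : ℕ} (w : Fin n → ℕ) (F : MvPolynomial (Fin n) ℂ) :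
    MvPolynomial (Fin n) ℂ :=
  weightedHomogeneousComponent w (weightedTotalDegree w F) F

/-- the slopes, put to zero for the coordinates of weight `> 1` -/
def sg {n s r : ℕ} (e : Fin s ⊕ Fin r ≃ Fin n) (w : Fin n → ℕ) (σ : Fin s → Fin r → ℝ) :
    Fin s → Fin r → ℝ :=
  fun j b => if w (e (Sum.inl j)) = 1 then σ j b else 0

/-- `ζ = xr e τ lam θ` is a nondegenerate common zero of the `G i`, `lam` purely imaginary -/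
structure Good {n s r : ℕ} (e : Fin s ⊕ Fin r ≃ Fin n) (G : Fin r → MvPolynomial (Fin n) ℂ)
    (τ : Fin s → Fin r → ℝ) (lam : Fin s → ℂ) (θ : Fin r → ℂ) : Prop where
  im : ∀ j, (lam j).re = 0
  zero : ∀ i, eval (xr e τ lam θ) (G i) = 0
  det : (Matrix.of fun i b : Fin r =>
    eval (xr e τ lam θ) (dd (xr e τ 0 (Pi.single b 1)) (G i))).det ≠ 0

/-- perturbation of good directions -/
def S_DIR6 : Prop := ∀ (n s r : ℕ) (e : Fin s ⊕ Fin r ≃ Fin n)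
  (G : Fin r → MvPolynomial (Fin n) ℂ) (τ : Fin s → Fin r → ℝ) (lam : Fin s → ℂ)
  (θ : Fin r → ℂ), Good e G τ lam θ → ∀ Q : MvPolynomial (Fin s) ℂ, Q ≠ 0 →
  ∀ δ : ℝ, 0 < δ → ∃ (lam' : Fin s → ℂ) (θ' : Fin r → ℂ), Good e G τ lam' θ' ∧
    (∀ b, ‖θ' b - θ b‖ ≤ δ) ∧ eval lam' Q ≠ 0

/-- weighted multiple of `lam` -/
noncomputable def cen {n s r : ℕ} (e : Fin s ⊕ Fin r ≃ Fin n) (w : Fin n → ℕ) (R : ℝ)
    (lam : Fin s → ℂ) : Fin s → ℂ :=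
  fun j => ((R ^ w (e (Sum.inl j)) : ℝ) : ℂ) * lam j

/-- branch of `F = 0` near the weighted direction `(lam, θ)` at infinity -/
def S_BR6 : Prop := ∀ (n s r : ℕ) (e : Fin s ⊕ Fin r ≃ Fin n) (w : Fin n → ℕ), (∀ i, 1 ≤ w i) →
  (∀ b, w (e (Sum.inr b)) = 1) → ∀ (F : Fin r → MvPolynomial (Fin n) ℂ)
  (σ : Fin s → Fin r → ℝ) (lam : Fin s → ℂ) (θ : Fin r → ℂ),
  Good e (fun i => wtop w (F i)) (sg e w σ) lam θ → ∀ δ : ℝ, 0 < δ →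
  ∃ ε R₀ : ℝ, 0 < ε ∧ 1 ≤ R₀ ∧ ∀ R : ℝ, R₀ ≤ R → ∃ ψ : (Fin s → ℂ) → Fin r → ℂ,
    (∀ b, DifferentiableOn ℂ (fun l => ψ l b) (ball (cen e w R lam) (ε * R))) ∧
    ∀ l ∈ ball (cen e w R lam) (ε * R), (∀ i, eval (xr e σ l (ψ l)) (F i) = 0) ∧
      ∀ b, ‖ψ l b - R * θ b‖ ≤ δ * R

/-- a polynomial near a weighted direction on which its weighted leading form does not vanish -/
def S_TOP6 : Prop := ∀ (s : ℕ) (v : Fin s → ℕ), (∀ j, 1 ≤ v j) → ∀ h : MvPolynomial (Fin s) ℂ,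
  h ≠ 0 → wtop v h ≠ 0 ∧ ∀ lam : Fin s → ℂ, eval lam (wtop v h) ≠ 0 →
  ∃ ε c R₀ : ℝ, 0 < ε ∧ 0 < c ∧ 1 ≤ R₀ ∧ ∀ R : ℝ, R₀ ≤ R →
    ∀ l ∈ ball (fun j => ((R ^ v j : ℝ) : ℂ) * lam j) (ε * R), c ≤ ‖eval l h‖

/-- substitution of `l_j = x_j - (σ x_K)_j` -/
noncomputable def lsub {n s r : ℕ} (e : Fin s ⊕ Fin r ≃ Fin n) (σ : Fin s → Fin r → ℝ) :
    MvPolynomial (Fin s) ℂ →ₐ[ℂ] MvPolynomial (Fin n) ℂ :=
  aeval fun j => X (e (Sum.inl j)) - ∑ b, C ((σ j b : ℝ) : ℂ) * X (e (Sum.inr b))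

/-- elimination -/
def S_NORM6 : Prop := ∀ (n s r : ℕ) (e : Fin s ⊕ Fin r ≃ Fin n) (σ : Fin s → Fin r → ℝ)
  (I : Ideal (MvPolynomial (Fin n) ℂ)), I.IsPrime →
  (∀ K : Finset (Fin n), K.card = s + 1 → ∃ G ∈ I, G ≠ 0 ∧ G.vars ⊆ K) →
  (∀ h : MvPolynomial (Fin s) ℂ, h ≠ 0 → lsub e σ h ∉ I) →
  ∀ G : MvPolynomial (Fin n) ℂ, G ∉ I → ∃ (h : MvPolynomial (Fin s) ℂ)
    (G' : MvPolynomial (Fin n) ℂ), h ≠ 0 ∧ G * G' - lsub e σ h ∈ I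

/-- the geometry near a good direction (to be proved from `S_DIR6`, `S_BR6`, `S_TOP6`,
`S_NORM6`) -/
def S_GEO6 : Prop := ∀ (n s r : ℕ) (e : Fin s ⊕ Fin r ≃ Fin n) (w : Fin n → ℕ), (∀ i, 1 ≤ w i) →
  (∀ b, w (e (Sum.inr b)) = 1) → ∀ (F : Fin r → MvPolynomial (Fin n) ℂ)
  (I : Ideal (MvPolynomial (Fin n) ℂ)), I.IsPrime →
  (∀ K : Finset (Fin n), K.card = s + 1 → ∃ G ∈ I, G ≠ 0 ∧ G.vars ⊆ K) →
  (∀ x : Fin n → ℂ, (∀ i, eval x (F i) = 0) → ∀ G ∈ I, eval x G = 0) →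
  ∀ (σ : Fin s → Fin r → ℝ) (lam : Fin s → ℂ) (θ : Fin r → ℂ),
  Good e (fun i => wtop w (F i)) (sg e w σ) lam θ →
  ∀ T : Finset (MvPolynomial (Fin n) ℂ), (∀ G ∈ T, G ∉ I) → ∀ δ : ℝ, 0 < δ →
  ∃ (cn : ℝ → Fin s → ℂ) (ε C R₀ : ℝ), (∀ R j, (cn R j).re = 0) ∧ 0 < ε ∧ 0 ≤ C ∧ 1 ≤ R₀ ∧
  ∀ R : ℝ, R₀ ≤ R → ∃ ψ : (Fin s → ℂ) → Fin r → ℂ,
    (∀ b, DifferentiableOn ℂ (fun l => ψ l b) (ball (cn R) (ε * R))) ∧
    ∀ l ∈ ball (cn R) (ε * R), (∀ i, eval (xr e σ l (ψ l)) (F i) = 0) ∧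
      (∀ b, |(ψ l b).re - R * (θ b).re| ≤ δ * R) ∧
      ∀ G ∈ T, eval (xr e σ l (ψ l)) G ≠ 0 ∧
        |Real.log ‖eval (xr e σ l (ψ l)) G‖| ≤ C * (1 + Real.log R)

/-- a generic point with a neighbourhood of constant order -/
def S_GEN6 : Prop := ∀ (r : ℕ) (U : Set (Fin r → ℝ)), IsOpen U → U.Nonempty →
  ∀ D : Finset (Fin r → ℝ), (∀ v ∈ D, v ≠ 0) →
  ∃ (ρ : Fin r → ℝ) (δ κ : ℝ), 0 < δ ∧ 0 < κ ∧
    (∀ ρ' : Fin r → ℝ, (∀ b, |ρ' b - ρ b| ≤ δ) → ρ' ∈ U) ∧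
    ∀ v ∈ D, (∀ ρ' : Fin r → ℝ, (∀ b, |ρ' b - ρ b| ≤ δ) → κ ≤ ∑ b, v b * ρ' b) ∨
      (∀ ρ' : Fin r → ℝ, (∀ b, |ρ' b - ρ b| ≤ δ) → ∑ b, v b * ρ' b ≤ -κ)

/-- a polynomial in large quantities `Y_b` with a dominating monomial and coefficients of polynomial
size -/
def S_DOM6 : Prop := ∀ (r : ℕ) (S : Finset (Fin r →₀ ℕ)) (m₀ : Fin r →₀ ℕ), m₀ ∈ S →
  ∀ C κ : ℝ, 0 < κ → ∃ C' R₀ : ℝ, 0 ≤ C' ∧ 1 ≤ R₀ ∧ ∀ R : ℝ, R₀ ≤ R →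
  ∀ (a : (Fin r →₀ ℕ) → ℂ) (Y : Fin r → ℂ), (∀ b, Y b ≠ 0) →
  (∀ m ∈ S, m ≠ m₀ → κ * R ≤ ∑ b, ((m₀ b : ℝ) - m b) * Real.log ‖Y b‖) →
  (∀ m ∈ S, a m ≠ 0 ∧ |Real.log ‖a m‖| ≤ C * (1 + Real.log R)) →
  ∑ m ∈ S, a m * ∏ b, Y b ^ m b ≠ 0 ∧
    |Real.log ‖∑ m ∈ S, a m * ∏ b, Y b ^ m b‖ - ∑ b, (m₀ b : ℝ) * Real.log ‖Y b‖| ≤
      C' * (1 + Real.log R)

/-- solution of `l_j - M_j(l) ∈ 2 π i ℤ` (to be proved from `S_SOL4` by translation) -/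
def S_SOL6 : Prop := ∀ (s : ℕ) (ε C : ℝ), 0 < ε → ∃ R₀ : ℝ, 1 ≤ R₀ ∧ ∀ R : ℝ, R₀ ≤ R →
  ∀ μ : Fin s → ℂ, (∀ j, (μ j).re = 0) → ∀ M : Fin s → (Fin s → ℂ) → ℂ,
  (∀ j, DifferentiableOn ℂ (M j) (ball μ (ε * R))) →
  (∀ j, ∀ l ∈ ball μ (ε * R), |(M j l).re| ≤ C * (1 + Real.log R)) →
  ∃ l ∈ ball μ (ε * R), ∀ j, ∃ N : ℤ, l j - M j l = 2 * Real.pi * Complex.I * (N : ℂ)

/-- polynomials in `y_b` (`b` in the image of `κ`) over `ℂ[x]` as polynomials in `x, y` -/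
noncomputable def yev {n r : ℕ} (κ : Fin r → Fin n) :
    MvPolynomial (Fin r) (MvPolynomial (Fin n) ℂ) →+* MvPolynomial (Fin n ⊕ Fin n) ℂ :=
  eval₂Hom ((rename (Sum.inl : Fin n → Fin n ⊕ Fin n) :
    MvPolynomial (Fin n) ℂ →ₐ[ℂ] MvPolynomial (Fin n ⊕ Fin n) ℂ) :
    MvPolynomial (Fin n) ℂ →+* MvPolynomial (Fin n ⊕ Fin n) ℂ) fun b => X (Sum.inr (κ b))

/-- the `y_b`, `b` in the image of `κ`, are algebraically independent over the functions of `x`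
modulo `P` -/
def IndepOver {n r : ℕ} (P : Ideal (MvPolynomial (Fin n ⊕ Fin n) ℂ)) (κ : Fin r → Fin n) : Prop :=
  ∀ g : MvPolynomial (Fin r) (MvPolynomial (Fin n) ℂ), yev κ g ∈ P →
    ∀ m, rename Sum.inl (coeff m g) ∈ P

/-- dimension count -/
def S_FIB6 : Prop := ∀ (n s r : ℕ), n = s + r →
  ∀ P : Ideal (MvPolynomial (Fin n ⊕ Fin n) ℂ), P.IsPrime →
  (∃ K : Finset (Fin n ⊕ Fin n), K.card = n ∧ ∀ G : MvPolynomial (Fin n ⊕ Fin n) ℂ,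
    G.vars ⊆ K → G ∈ P → G = 0) →
  (∀ K : Finset (Fin n ⊕ Fin n), K.card = n + 1 → ∃ G ∈ P, G ≠ 0 ∧ G.vars ⊆ K) →
  (∃ K : Finset (Fin n), K.card = s ∧ ∀ G : MvPolynomial (Fin n) ℂ, G.vars ⊆ K →
    rename Sum.inl G ∈ P → G = 0) →
  (∀ K : Finset (Fin n), K.card = s + 1 → ∃ G : MvPolynomial (Fin n) ℂ,
    rename Sum.inl G ∈ P ∧ G ≠ 0 ∧ G.vars ⊆ K) →
  (∃ e : Fin s ⊕ Fin r ≃ Fin n, IndepOver P fun b => e (Sum.inr b)) ∧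
  ∀ κ : Fin r → Fin n, Function.Injective κ → IndepOver P κ →
    ∀ i, ∃ g : Polynomial (MvPolynomial (Fin r) (MvPolynomial (Fin n) ℂ)),
      (∃ a m, rename Sum.inl (coeff m (g.coeff a)) ∉ P) ∧
      g.eval₂ (yev κ) (X (Sum.inr i)) ∈ P

/-- complete intersections which contain a linear space in general position at infinity -/
def S_COR1 : Prop := ∀ (n s r : ℕ) (e : Fin s ⊕ Fin r ≃ Fin n)
  (G : Fin r → MvPolynomial (Fin n) ℂ) (L : Submodule ℂ (Fin n → ℂ)),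
  Module.finrank ℂ L = s →
  (∀ c : Fin n → ℝ, c ≠ 0 → ∃ v ∈ L, ∑ i, (c i : ℂ) * v i ≠ 0) →
  (∀ S : Fin n → Fin r → ℚ, LinearIndependent ℚ (fun b j => S j b) →
    ∀ v : Fin r → ℂ, (fun j => ∑ b, ((S j b : ℚ) : ℂ) * v b) ∈ L → v = 0) →
  (∀ i, ∀ z ∈ L, eval z (G i) = 0) →
  (∃ z ∈ L, LinearIndependent ℂ fun i j => eval z (pderiv j (G i))) →
  ∀ (σ : Fin s → Fin r → ℚ) (U : Set (Fin r → ℝ)), IsOpen U → U.Nonempty →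
  ∃ (lam : Fin s → ℂ) (θ : Fin r → ℂ), Good e G (fun j b => ((σ j b : ℚ) : ℝ)) lam θ ∧
    (fun b => (θ b).re) ∈ U

/-- graphs of polynomial maps with real leading forms -/
def S_COR2 : Prop := ∀ (n s r : ℕ) (e : Fin s ⊕ Fin r ≃ Fin n) (J : Fin r → Fin n)
  (q : Fin r → MvPolynomial (Fin n) ℂ) (w : Fin n → ℕ) (g : ℕ), Function.Injective J →
  (∀ i b, J i ≠ e (Sum.inr b)) → (∀ i i', J i' ∉ (q i).vars) →
  (∀ i, w (J i) = (q i).totalDegree) → (∀ j, (∀ i, J i ≠ j) → w j = 1) →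
  2 ≤ g → (∀ i, ∃ k, (q i).totalDegree = g * (2 * k + 1)) →
  (∀ i m, (coeff m (top (q i))).im = 0) →
  (∀ S : Fin n → Fin r → ℚ, (∀ b b', S (e (Sum.inr b)) b' = if b = b' then 1 else 0) →
    ∃ t : Fin r → ℂ, (Matrix.of fun i b : Fin r =>
      eval (fun j => ∑ b', ((S j b' : ℚ) : ℂ) * t b')
        (dd (fun j => ((S j b : ℚ) : ℂ)) (top (q i)))).det ≠ 0) →
  ∀ (σ : Fin s → Fin r → ℚ) (U : Set (Fin r → ℝ)), IsOpen U → U.Nonempty →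
  ∃ (lam : Fin s → ℂ) (θ : Fin r → ℂ),
    Good e (fun i => wtop w (X (J i) - q i)) (sg e w fun j b => ((σ j b : ℚ) : ℝ)) lam θ ∧
    (fun b => (θ b).re) ∈ U

end Pool.Agent.K3h53.UG
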