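import Pool.Agent.K3h53.UG.Fin6
import Pool.Agent.K3h53.UG.Fin5
import Pool.Agent.K3h64.UG.COR2
import Pool.Agent.K3h99.UG.Br6
import Pool.Agent.K3h93.UG.Dir6
import Pool.Agent.K3h72.UG.Top6
import Pool.Agent.K3h72.UG.Norm6
import Pool.Agent.K3h57.UG.Geo6
import Pool.Agent.K3h17.UG6.Gds
import Pool.Agent.K3h12.UG.Cor1
import Pool.Agent.K3h23.UG.Fib6

/-! UG project: the theorems in codimension `r`, all parts put together. -/

set_option autoImplicit false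

namespace Pool.Agent.K3h53.UG

open MvPolynomial Set Pool.Agent.K3h22.EX

theorem exists_equiv {n s r : ℕ} (hn : n = s + r) (κ : Fin r → Fin n)
    (hκ : Function.Injective κ) : ∃ e : Fin s ⊕ Fin r ≃ Fin n, ∀ b, e (Sum.inr b) = κ b := by
  classical
  have h1 : Fintype.card {i // i ∉ Set.range κ} = s := by
    have h2 : Fintype.card {i // i ∈ Set.range κ} = r := by
      have := Fintype.card_congr (Equiv.ofInjective κ hκ)
      rw [Fintype.card_fin] at this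
      exact this.symm
    have h3 := Fintype.card_subtype_compl (fun i => i ∈ Set.range κ)
    rw [h2, Fintype.card_fin] at h3
    omega
  have e1 : Fin s ≃ {i // i ∉ Set.range κ} := (Fintype.equivFinOfCardEq h1).symm
  refine ⟨(Equiv.sumCongr e1 (Equiv.ofInjective κ hκ)).trans
    ((Equiv.sumComm _ _).trans (Equiv.sumCompl fun i => i ∈ Set.range κ)), fun b => ?_⟩
  simp [Equiv.sumCompl]

/-- exponential points on all translates, arbitrary codimension -/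
theorem thmG {n s r : ℕ} (hn : n = s + r)
    (P : Ideal (MvPolynomial (Fin n ⊕ Fin n) ℂ)) (V : Set (Fin n ⊕ Fin n → ℂ)) (hP : P.IsPrime)
    (hV : V = {p | (∀ f ∈ P, eval p f = 0) ∧ ∀ j : Fin n, p (Sum.inr j) ≠ 0})
    (hne : V.Nonempty)
    (hdim1 : ∃ K : Finset (Fin n ⊕ Fin n), K.card = n ∧ Indep V K)
    (hdim : ∀ K : Finset (Fin n ⊕ Fin n), K.card = n + 1 → ¬ Indep V K)
    (hX1 : ∃ K : Finset (Fin n), K.card = s ∧ ∀ G : MvPolynomial (Fin n) ℂ, G.vars ⊆ K →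
      (∀ u ∈ V, eval (fun i => u (Sum.inl i)) G = 0) → G = 0)
    (hX2 : ∀ K : Finset (Fin n), K.card = s + 1 → ¬ ∀ G : MvPolynomial (Fin n) ℂ, G.vars ⊆ K →
      (∀ u ∈ V, eval (fun i => u (Sum.inl i)) G = 0) → G = 0)
    (e : Fin s ⊕ Fin r ≃ Fin n)
    (hind : ∀ g : MvPolynomial (Fin r) (MvPolynomial (Fin n) ℂ),
      (∀ u ∈ V, eval (fun b => u (Sum.inr (e (Sum.inr b))))
        (MvPolynomial.map (eval fun i => u (Sum.inl i)) g) = 0) →
      ∀ m, ∀ u ∈ V, eval (fun i => u (Sum.inl i)) (coeff m g) = 0)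
    (w : Fin n → ℕ) (hw : ∀ i, 1 ≤ w i) (hwK : ∀ b, w (e (Sum.inr b)) = 1)
    (F : Fin r → MvPolynomial (Fin n) ℂ)
    (hIF : ∀ x : Fin n → ℂ, (∀ i, eval x (F i) = 0) → ∀ G : MvPolynomial (Fin n) ℂ,
      (∀ u ∈ V, eval (fun i => u (Sum.inl i)) G = 0) → eval x G = 0)
    (Ud : Set (Fin r → ℝ)) (hU : IsOpen Ud) (hUne : Ud.Nonempty)
    (hH : ∀ (σ : Fin s → Fin r → ℚ) (U' : Set (Fin r → ℝ)), IsOpen U' → U' ⊆ Ud →
      U'.Nonempty → ∃ (lam : Fin s → ℂ) (θ : Fin r → ℂ),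
      Good e (fun i => wtop w (F i)) (sg e w fun j b => ((σ j b : ℚ) : ℝ)) lam θ ∧
        (fun b => (θ b).re) ∈ U')
    (c : Fin n ⊕ Fin n → ℂ) (hc : ∀ i, c (Sum.inr i) ≠ 0)
    (H : MvPolynomial (Fin n ⊕ Fin n) ℂ)
    (hHV : ∃ u ∈ V, eval (Sum.elim (fun i => u (Sum.inl i) + c (Sum.inl i))
      (fun i => c (Sum.inr i) * u (Sum.inr i))) H ≠ 0) :
    ∃ z : Fin n → ℂ, (∃ u ∈ V, (Sum.elim z fun i => Complex.exp (z i) :
      Fin n ⊕ Fin n → ℂ) = Sum.elim (fun i => u (Sum.inl i) + c (Sum.inl i))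
        (fun i => c (Sum.inr i) * u (Sum.inr i))) ∧
      eval (Sum.elim z fun i => Complex.exp (z i)) H ≠ 0 :=
  mainV6 (Pool.Agent.K3h57.UG.t_GEO6 Pool.Agent.K3h93.UG.Dir6.t_DIR6 Pool.Agent.K3h99.UG.t_BR6
    Pool.Agent.K3h72.UG.t_TOP6 Pool.Agent.K3h72.UG.t_NORM6) Pool.Agent.K3h17.UG6.t_DOM6
    Pool.Agent.K3h17.UG6.t_GEN6 t_ROOT4
    (Pool.Agent.K3h17.UG6.t_SOL6 (Pool.Agent.K3h51.UG.t_SOL4 Pool.Agent.K3h60.EX.t_BC))
    Pool.Agent.K3h58.UG.t_CLS3 Pool.Agent.K3h23.UG.t_ALG Pool.Agent.K3h23.UG.t_FIB6 hn P V hP hV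
    hne hdim1 hdim hX1 hX2 e hind w hw hwK F hIF Ud hU hUne hH c hc H hHV

/-- the direction of the `b`-th coordinate -/
theorem dir_eq {n s r : ℕ} (e : Fin s ⊕ Fin r ≃ Fin n) (τ : Fin s → Fin r → ℝ) (b : Fin r)
    (S : Fin n → ℂ) (h1 : ∀ j, S (e (Sum.inl j)) = ((τ j b : ℝ) : ℂ))
    (h2 : ∀ b', S (e (Sum.inr b')) = if b' = b then 1 else 0) :
    xr e τ 0 (Pi.single b 1) = S := by
  funext i
  obtain ⟨j | b', rfl⟩ := e.surjective i
  · rw [xr_inl, h1]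
    simp [Pi.single_apply]
  · rw [xr_inr, h2, Pi.single_apply]

/-- the criterion in coordinates gives good directions -/
theorem good_of_crit {n s r : ℕ} (e : Fin s ⊕ Fin r ≃ Fin n) (w : Fin n → ℕ)
    (hwK : ∀ b, w (e (Sum.inr b)) = 1) (F : Fin r → MvPolynomial (Fin n) ℂ)
    (Ud : Set (Fin r → ℝ))
    (h : ∀ S : Fin n → Fin r → ℚ, (∀ b b', S (e (Sum.inr b)) b' = if b = b' then 1 else 0) →
      Ud ⊆ closure {ρ : Fin r → ℝ | ∃ z : Fin n → ℂ, (∀ i, eval z (wtop w (F i)) = 0) ∧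
        (∀ j, (z j).re = if w j = 1 then ∑ b, (S j b : ℝ) * ρ b else 0) ∧
        (Matrix.of fun i b : Fin r => ∑ j, if w j = 1 then
          (S j b : ℂ) * eval z (pderiv j (wtop w (F i))) else 0).det ≠ 0})
    (σ : Fin s → Fin r → ℚ) (U' : Set (Fin r → ℝ)) (hU' : IsOpen U') (hUU : U' ⊆ Ud)
    (hne : U'.Nonempty) :
    ∃ (lam : Fin s → ℂ) (θ : Fin r → ℂ),
      Good e (fun i => wtop w (F i)) (sg e w fun j b => ((σ j b : ℚ) : ℝ)) lam θ ∧
        (fun b => (θ b).re) ∈ U' := by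
  classical
  obtain ⟨S, hS1, hS2⟩ : ∃ S : Fin n → Fin r → ℚ,
      (∀ j b, S (e (Sum.inl j)) b = σ j b) ∧
      ∀ b b', S (e (Sum.inr b)) b' = if b = b' then 1 else 0 :=
    ⟨fun i b => (Sum.elim (fun j => σ j b) (fun b' => if b' = b then 1 else 0) :
      Fin s ⊕ Fin r → ℚ) (e.symm i), by simp, by simp⟩
  obtain ⟨ρ₀, hρ₀⟩ := hne
  obtain ⟨ρ, hρU, z, hz0, hzr, hzd⟩ := mem_closure_iff.1 (h S hS2 (hUU hρ₀)) U' hU' hρ₀
  have hK : ∀ b, (z (e (Sum.inr b))).re = ρ b := by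
    intro b
    rw [hzr, if_pos (hwK b), Finset.sum_eq_single b]
    · simp [hS2]
    · intro b' _ hb'
      simp [hS2, Ne.symm hb']
    · simp
  have hz : xr e (sg e w fun j b => ((σ j b : ℚ) : ℝ))
      (fun j => z (e (Sum.inl j)) - ∑ b, ((sg e w (fun j b => ((σ j b : ℚ) : ℝ)) j b : ℝ) : ℂ) *
        z (e (Sum.inr b))) (fun b => z (e (Sum.inr b))) = z := by
    funext i
    obtain ⟨j | b, rfl⟩ := e.surjective i
    · rw [xr_inl]
      ring
    · rw [xr_inr]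
  refine ⟨fun j => z (e (Sum.inl j)) -
      ∑ b, ((sg e w (fun j b => ((σ j b : ℚ) : ℝ)) j b : ℝ) : ℂ) * z (e (Sum.inr b)),
    fun b => z (e (Sum.inr b)), ⟨?_, ?_, ?_⟩, ?_⟩
  · intro j
    rw [Complex.sub_re, Complex.re_sum, hzr]
    simp only [Complex.re_ofReal_mul, hK, sg]
    by_cases hj : w (e (Sum.inl j)) = 1
    · simp [hj, hS1]
    · simp [hj]
  · intro i
    rw [hz]
    exact hz0 i
  · rw [hz]
    have e1 : (Matrix.of fun i b : Fin r => eval z (dd (xr e (sg e w fun j b => ((σ j b : ℚ) : ℝ)) 0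
        (Pi.single b 1)) (wtop w (F i)))) = Matrix.of fun i b : Fin r => ∑ j, if w j = 1 then
          (S j b : ℂ) * eval z (pderiv j (wtop w (F i))) else 0 := by
      ext i b
      rw [Matrix.of_apply, Matrix.of_apply, dir_eq e _ b (fun j => if w j = 1 then (S j b : ℂ) else 0)
        (fun j => by
          simp only [sg, hS1]
          split_ifs <;> simp)
        (fun b' => by
          simp only [hwK, if_true, hS2]
          split_ifs <;> simp)]
      unfold dd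
      rw [map_sum]
      refine Finset.sum_congr rfl fun j _ => ?_
      rw [map_mul, eval_C]
      by_cases hj : w j = 1
      · simp [hj]
      · simp [hj]
    rw [e1]
    exact hzd
  · have e2 : (fun b => (z (e (Sum.inr b))).re) = ρ := funext hK
    show (fun b => (z (e (Sum.inr b))).re) ∈ U'
    rw [e2]
    exact hρU

theorem wtop_one {n : ℕ} (F : MvPolynomial (Fin n) ℂ) : wtop (fun _ => 1) F = top F := by
  unfold wtop top
  have h1 : weightedTotalDegree (fun _ => 1) F = F.totalDegree := by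
    exact weightedTotalDegree_one F
  rw [h1]
  rfl

end Pool.Agent.K3h53.UG
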