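import Pool.Agent.K3h53.UG.Fin8
import Pool.Agent.K3h53.UG.Fin7
import Pool.Agent.K3h57.UG.Geo7
import Pool.Agent.K3h68.UG.Dir7
import Pool.Agent.K3h90.UG.Top7
import Pool.Agent.K3h23.UG.Cor3

/-! UG project: the theorems for arbitrary bases, all parts put together. -/

set_option autoImplicit false

namespace Pool.Agent.K3h53.UG

open MvPolynomial Set Pool.Agent.K3h22.EX

theorem geoZ_of_good {n s r : ℕ} (e : Fin s ⊕ Fin r ≃ Fin n) (w : Fin n → ℕ)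
    (hw : ∀ i, 1 ≤ w i) (hwK : ∀ b, w (e (Sum.inr b)) = 1)
    (F : Fin r → MvPolynomial (Fin n) ℂ) (g : MvPolynomial (Fin n) ℂ) (Ud : Set (Fin r → ℝ))
    (hH : ∀ (σ : Fin s → Fin r → ℚ) (U' : Set (Fin r → ℝ)), IsOpen U' → U' ⊆ Ud →
      U'.Nonempty → ∃ (lam : Fin s → ℂ) (θ : Fin r → ℂ),
      Good e (fun i => wtop w (F i)) (sg e w fun j b => ((σ j b : ℚ) : ℝ)) lam θ ∧
        eval (xr e (sg e w fun j b => ((σ j b : ℚ) : ℝ)) lam θ) (wtop w g) ≠ 0 ∧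
        (fun b => (θ b).re) ∈ U')
    (I : Ideal (MvPolynomial (Fin n) ℂ)) (hI : I.IsPrime)
    (hId : ∀ K : Finset (Fin n), K.card = s + 1 → ∃ G ∈ I, G ≠ 0 ∧ G.vars ⊆ K)
    (hIF : ∀ x ∈ {x : Fin n → ℂ | (∀ i, eval x (F i) = 0) ∧ eval x g ≠ 0}, ∀ G ∈ I,
      eval x G = 0) :
    GeoZ e {x : Fin n → ℂ | (∀ i, eval x (F i) = 0) ∧ eval x g ≠ 0} I Ud := by
  intro σ U' h1 h2 h3 T hT δ hδ
  obtain ⟨lam, θ, h4, h5, h6⟩ := hH σ U' h1 h2 h3
  obtain ⟨cn, ε, C, R₀, h7, h8, h9, h10, h11⟩ := Pool.Agent.K3h57.UG.t_GEO7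
    Pool.Agent.K3h68.UG.t_DIR7 Pool.Agent.K3h99.UG.t_BR6 Pool.Agent.K3h72.UG.t_TOP6
    Pool.Agent.K3h90.UG.t_TOP7 Pool.Agent.K3h72.UG.t_NORM6 n s r e w hw hwK F g I hI hId
    (fun x hx hx' G hG => hIF x ⟨hx, hx'⟩ G hG) _ lam θ h4 h5 T hT δ hδ
  exact ⟨_, h6, cn, ε, C, R₀, h7, h8, h9, h10, h11⟩

section Main

variable {n s r : ℕ} (hn : n = s + r)
    (P : Ideal (MvPolynomial (Fin n ⊕ Fin n) ℂ)) (V : Set (Fin n ⊕ Fin n → ℂ)) (hP : P.IsPrime)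
    (hV : V = {p | (∀ f ∈ P, eval p f = 0) ∧ ∀ j : Fin n, p (Sum.inr j) ≠ 0})
    (hne : V.Nonempty)
    (hdim1 : ∃ K : Finset (Fin n ⊕ Fin n), K.card = n ∧ Indep V K)
    (hdim : ∀ K : Finset (Fin n ⊕ Fin n), K.card = n + 1 → ¬ Indep V K)
    (hX1 : ∃ K : Finset (Fin n), K.card = s ∧ ∀ G : MvPolynomial (Fin n) ℂ, G.vars ⊆ K →
      (∀ u ∈ V, eval (fun i => u (Sum.inl i)) G = 0) → G = 0)
    (hX2 : ∀ K : Finset (Fin n), K.card = s + 1 → ¬ ∀ G : MvPolynomial (Fin n) ℂ, G.vars ⊆ K →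
      (∀ u ∈ V, eval (fun i => u (Sum.inl i)) G = 0) → G = 0)

include hn hP hV hne hdim1 hdim hX1 hX2

/-- from good directions to exponential points -/
theorem thmDir (e : Fin s ⊕ Fin r ≃ Fin n)
    (hind : ∀ g : MvPolynomial (Fin r) (MvPolynomial (Fin n) ℂ),
      (∀ u ∈ V, eval (fun b => u (Sum.inr (e (Sum.inr b))))
        (MvPolynomial.map (eval fun i => u (Sum.inl i)) g) = 0) →
      ∀ m, ∀ u ∈ V, eval (fun i => u (Sum.inl i)) (coeff m g) = 0)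
    (w : Fin n → ℕ) (hw : ∀ i, 1 ≤ w i) (hwK : ∀ b, w (e (Sum.inr b)) = 1)
    (F : Fin r → MvPolynomial (Fin n) ℂ) (g : MvPolynomial (Fin n) ℂ)
    (hIF : ∀ x : Fin n → ℂ, (∀ i, eval x (F i) = 0) → eval x g ≠ 0 →
      ∀ G : MvPolynomial (Fin n) ℂ, (∀ u ∈ V, eval (fun i => u (Sum.inl i)) G = 0) →
        eval x G = 0)
    (Ud : Set (Fin r → ℝ)) (hU : IsOpen Ud) (hUne : Ud.Nonempty)
    (hH : ∀ (σ : Fin s → Fin r → ℚ) (U' : Set (Fin r → ℝ)), IsOpen U' → U' ⊆ Ud →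
      U'.Nonempty → ∃ (lam : Fin s → ℂ) (θ : Fin r → ℂ),
      Good e (fun i => wtop w (F i)) (sg e w fun j b => ((σ j b : ℚ) : ℝ)) lam θ ∧
        eval (xr e (sg e w fun j b => ((σ j b : ℚ) : ℝ)) lam θ) (wtop w g) ≠ 0 ∧
        (fun b => (θ b).re) ∈ U')
    (c : Fin n ⊕ Fin n → ℂ) (hc : ∀ i, c (Sum.inr i) ≠ 0)
    (H : MvPolynomial (Fin n ⊕ Fin n) ℂ)
    (hHV : ∃ u ∈ V, eval (Sum.elim (fun i => u (Sum.inl i) + c (Sum.inl i))
      (fun i => c (Sum.inr i) * u (Sum.inr i))) H ≠ 0) :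
    ∃ z : Fin n → ℂ, (∃ u ∈ V, (Sum.elim z fun i => Complex.exp (z i) :
      Fin n ⊕ Fin n → ℂ) = Sum.elim (fun i => u (Sum.inl i) + c (Sum.inl i))
        (fun i => c (Sum.inr i) * u (Sum.inr i))) ∧
      eval (Sum.elim z fun i => Complex.exp (z i)) H ≠ 0 :=
  mainV7 Pool.Agent.K3h17.UG6.t_DOM6 Pool.Agent.K3h17.UG6.t_GEN6 t_ROOT4
    (Pool.Agent.K3h17.UG6.t_SOL6 (Pool.Agent.K3h51.UG.t_SOL4 Pool.Agent.K3h60.EX.t_BC))
    Pool.Agent.K3h58.UG.t_CLS3 Pool.Agent.K3h23.UG.t_ALG Pool.Agent.K3h23.UG.t_FIB6 hn P V hP hV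
    hne hdim1 hdim hX1 hX2 e hind {x : Fin n → ℂ | (∀ i, eval x (F i) = 0) ∧ eval x g ≠ 0}
    (fun x hx G hG => hIF x hx.1 hx.2 G hG) Ud hU hUne
    (fun I hI hId hz => geoZ_of_good e w hw hwK F g Ud hH I hI hId hz) c hc H hHV

/-- **criterion**: from directions in coordinates to exponential points -/
theorem thmCrit (κ : Fin r → Fin n) (hκ : Function.Injective κ)
    (hind : ∀ g : MvPolynomial (Fin r) (MvPolynomial (Fin n) ℂ),
      (∀ u ∈ V, eval (fun b => u (Sum.inr (κ b)))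
        (MvPolynomial.map (eval fun i => u (Sum.inl i)) g) = 0) →
      ∀ m, ∀ u ∈ V, eval (fun i => u (Sum.inl i)) (coeff m g) = 0)
    (w : Fin n → ℕ) (hw : ∀ i, 1 ≤ w i) (hwK : ∀ b, w (κ b) = 1)
    (F : Fin r → MvPolynomial (Fin n) ℂ) (g : MvPolynomial (Fin n) ℂ)
    (hIF : ∀ x : Fin n → ℂ, (∀ i, eval x (F i) = 0) → eval x g ≠ 0 →
      ∀ G : MvPolynomial (Fin n) ℂ, (∀ u ∈ V, eval (fun i => u (Sum.inl i)) G = 0) →
        eval x G = 0)
    (Ud : Set (Fin r → ℝ)) (hU : IsOpen Ud) (hUne : Ud.Nonempty)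
    (hH : ∀ S : Fin n → Fin r → ℚ, (∀ b b', S (κ b) b' = if b = b' then 1 else 0) →
      Ud ⊆ closure {ρ : Fin r → ℝ | ∃ z : Fin n → ℂ, (∀ i, eval z (wtop w (F i)) = 0) ∧
        eval z (wtop w g) ≠ 0 ∧
        (∀ j, (z j).re = if w j = 1 then ∑ b, (S j b : ℝ) * ρ b else 0) ∧
        (Matrix.of fun i b : Fin r => ∑ j, if w j = 1 then
          (S j b : ℂ) * eval z (pderiv j (wtop w (F i))) else 0).det ≠ 0})
    (c : Fin n ⊕ Fin n → ℂ) (hc : ∀ i, c (Sum.inr i) ≠ 0)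
    (H : MvPolynomial (Fin n ⊕ Fin n) ℂ)
    (hHV : ∃ u ∈ V, eval (Sum.elim (fun i => u (Sum.inl i) + c (Sum.inl i))
      (fun i => c (Sum.inr i) * u (Sum.inr i))) H ≠ 0) :
    ∃ z : Fin n → ℂ, (∃ u ∈ V, (Sum.elim z fun i => Complex.exp (z i) :
      Fin n ⊕ Fin n → ℂ) = Sum.elim (fun i => u (Sum.inl i) + c (Sum.inl i))
        (fun i => c (Sum.inr i) * u (Sum.inr i))) ∧
      eval (Sum.elim z fun i => Complex.exp (z i)) H ≠ 0 := by
  classical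
  obtain ⟨e, he⟩ := exists_equiv hn κ hκ
  have hκe : κ = fun b => e (Sum.inr b) := funext fun b => (he b).symm
  subst hκe
  refine thmDir hn P V hP hV hne hdim1 hdim hX1 hX2 e hind w hw hwK F g hIF Ud hU hUne
    (fun σ U' hU' hUU hne' => ?_) c hc H hHV
  obtain ⟨S, hS1, hS2⟩ : ∃ S : Fin n → Fin r → ℚ,
      (∀ j b, S (e (Sum.inl j)) b = σ j b) ∧
      ∀ b b', S (e (Sum.inr b)) b' = if b = b' then 1 else 0 :=
    ⟨fun i b => (Sum.elim (fun j => σ j b) (fun b' => if b' = b then 1 else 0) :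
      Fin s ⊕ Fin r → ℚ) (e.symm i), by simp, by simp⟩
  obtain ⟨ρ₀, hρ₀⟩ := hne'
  obtain ⟨ρ, hρU, z, hz0, hzg, hzr, hzd⟩ := mem_closure_iff.1 (hH S hS2 (hUU hρ₀)) U' hU' hρ₀
  have hK : ∀ b, (z (e (Sum.inr b))).re = ρ b := by
    intro b
    rw [hzr, if_pos (hwK b), Finset.sum_eq_single b]
    · simp [hS2]
    · intro b' _ hb'
      simp [hS2, Ne.symm hb']
    · simp
  have hz : xr e (sg e w fun j b => ((σ j b : ℚ) : ℝ))
      (fun j => z (e (Sum.inl j)) - ∑ b, ((sg e w (fun j b => ((σ j b : ℚ) : ℝ)) j b : ℝ) : ℂ) *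
        z (e (Sum.inr b))) (fun b => z (e (Sum.inr b))) = z := by
    funext i
    obtain ⟨j | b, rfl⟩ := e.surjective i
    · rw [xr_inl]
      ring
    · rw [xr_inr]
  refine ⟨fun j => z (e (Sum.inl j)) -
      ∑ b, ((sg e w (fun j b => ((σ j b : ℚ) : ℝ)) j b : ℝ) : ℂ) * z (e (Sum.inr b)),
    fun b => z (e (Sum.inr b)), ⟨?_, ?_, ?_⟩, ?_, ?_⟩
  · intro j
    rw [Complex.sub_re, Complex.re_sum, hzr]
    simp only [Complex.re_ofReal_mul, hK, sg]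
    by_cases hj : w (e (Sum.inl j)) = 1
    · simp [hj, hS1]
    · simp [hj]
  · intro i
    rw [hz]
    exact hz0 i
  · rw [hz]
    have e1 : (Matrix.of fun i b : Fin r => eval z (dd (xr e (sg e w fun j b => ((σ j b : ℚ) : ℝ)) 0
        (Pi.single b 1)) (wtop w (F i)))) = Matrix.of fun i b : Fin r => ∑ j, if w j = 1 then
          (S j b : ℂ) * eval z (pderiv j (wtop w (F i))) else 0 := by
      ext i b
      rw [Matrix.of_apply, Matrix.of_apply, dir_eq e _ b (fun j => if w j = 1 then (S j b : ℂ) else 0)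
        (fun j => by
          simp only [sg, hS1]
          split_ifs <;> simp)
        (fun b' => by
          simp only [hwK, if_true, hS2]
          split_ifs <;> simp)]
      unfold dd
      rw [map_sum]
      refine Finset.sum_congr rfl fun j _ => ?_
      rw [map_mul, eval_C]
      by_cases hj : w j = 1
      · simp [hj]
      · simp [hj]
    rw [e1]
    exact hzd
  · rw [hz]
    exact hzg
  · have e2 : (fun b => (z (e (Sum.inr b))).re) = ρ := funext hK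
    show (fun b => (z (e (Sum.inr b))).re) ∈ U'
    rw [e2]
    exact hρU

/-- existence of `r` coordinates `y_b` which are algebraically independent over the functions of
`x` -/
theorem exists_fibre : ∃ e : Fin s ⊕ Fin r ≃ Fin n,
    ∀ g : MvPolynomial (Fin r) (MvPolynomial (Fin n) ℂ),
      (∀ u ∈ V, eval (fun b => u (Sum.inr (e (Sum.inr b))))
        (MvPolynomial.map (eval fun i => u (Sum.inl i)) g) = 0) →
      ∀ m, ∀ u ∈ V, eval (fun i => u (Sum.inl i)) (coeff m g) = 0 := by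
  classical
  obtain ⟨d1, d2, d3, d4, d5⟩ := Pool.Agent.K3h60.EX.t_DER n n P V hP hV hne id
    Function.injective_id
  have d6 : ∀ G : MvPolynomial (Fin n ⊕ Fin n) ℂ, G ∈ P → ∀ u ∈ V, eval u G = 0 := by
    intro G hG u hu
    rw [hV] at hu
    exact hu.1 G hG
  have d7 : ∀ G : MvPolynomial (Fin n) ℂ, rename Sum.inl G ∈ P ↔
      ∀ u ∈ V, eval (fun i => u (Sum.inl i)) G = 0 := by
    intro G
    constructor
    · intro h u hu
      have := d6 _ h u hu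
      rw [eval_rename] at this
      exact this
    · intro h
      apply d1
      intro u hu
      rw [eval_rename]
      exact h u hu
  have hfib := Pool.Agent.K3h23.UG.t_FIB6 n s r hn P hP (by
      obtain ⟨K, hK, h1⟩ := hdim1
      exact ⟨K, hK, fun G hG hGP => h1 G hG (d6 G hGP)⟩) (by
      intro K hK
      have h1 := hdim K hK
      unfold Indep at h1
      push Not at h1
      obtain ⟨G, h2, h3, h4⟩ := h1
      exact ⟨G, d1 G h3, h4, h2⟩) (by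
      obtain ⟨K, hK, h1⟩ := hX1
      exact ⟨K, hK, fun G hG hGP => h1 G hG ((d7 G).1 hGP)⟩) (by
      intro K hK
      have h1 := hX2 K hK
      push Not at h1
      obtain ⟨G, h2, h3, h4⟩ := h1
      exact ⟨G, (d7 G).2 h3, h4, h2⟩)
  obtain ⟨e, he⟩ := hfib.1
  refine ⟨e, fun g hg m => ?_⟩
  rw [← d7]
  refine he g ?_ m
  apply d1
  intro u hu
  rw [eval_yev]
  exact hg u hu

/-- **linear spaces at infinity** -/
theorem thmLin (F : Fin r → MvPolynomial (Fin n) ℂ) (g : MvPolynomial (Fin n) ℂ)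
    (hIF : ∀ x : Fin n → ℂ, (∀ i, eval x (F i) = 0) → eval x g ≠ 0 →
      ∀ G : MvPolynomial (Fin n) ℂ, (∀ u ∈ V, eval (fun i => u (Sum.inl i)) G = 0) →
        eval x G = 0)
    (L : Submodule ℂ (Fin n → ℂ)) (hL : Module.finrank ℂ L = s)
    (hre : ∀ c : Fin n → ℝ, c ≠ 0 → ∃ v ∈ L, ∑ i, (c i : ℂ) * v i ≠ 0)
    (hra : ∀ S : Fin n → Fin r → ℚ, LinearIndependent ℚ (fun b j => S j b) →
      ∀ v : Fin r → ℂ, (fun j => ∑ b, ((S j b : ℚ) : ℂ) * v b) ∈ L → v = 0)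
    (hF : ∀ i, ∀ z ∈ L, eval z (top (F i)) = 0)
    (hgr : ∃ z ∈ L, LinearIndependent ℂ fun i j => eval z (pderiv j (top (F i))))
    (hg : ∃ z ∈ L, eval z (top g) ≠ 0)
    (c : Fin n ⊕ Fin n → ℂ) (hc : ∀ i, c (Sum.inr i) ≠ 0)
    (H : MvPolynomial (Fin n ⊕ Fin n) ℂ)
    (hHV : ∃ u ∈ V, eval (Sum.elim (fun i => u (Sum.inl i) + c (Sum.inl i))
      (fun i => c (Sum.inr i) * u (Sum.inr i))) H ≠ 0) :
    ∃ z : Fin n → ℂ, (∃ u ∈ V, (Sum.elim z fun i => Complex.exp (z i) :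
      Fin n ⊕ Fin n → ℂ) = Sum.elim (fun i => u (Sum.inl i) + c (Sum.inl i))
        (fun i => c (Sum.inr i) * u (Sum.inr i))) ∧
      eval (Sum.elim z fun i => Complex.exp (z i)) H ≠ 0 := by
  classical
  obtain ⟨e, he⟩ := exists_fibre hn P V hP hV hne hdim1 hdim hX1 hX2
  refine thmDir hn P V hP hV hne hdim1 hdim hX1 hX2 e he (fun _ => 1) (fun _ => le_rfl)
    (fun _ => rfl) F g hIF Set.univ isOpen_univ ⟨0, trivial⟩ (fun σ U' hU' _ hne' => ?_) c hc H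
    hHV
  obtain ⟨lam, θ, h1, h2, h3⟩ := Pool.Agent.K3h23.UG.t_COR3 n s r e (fun i => top (F i)) (top g) L
    hL hre hra hF hgr hg σ U' hU' hne'
  have e1 : (sg e (fun _ => 1) fun j b => ((σ j b : ℚ) : ℝ)) =
      fun j b => ((σ j b : ℚ) : ℝ) := by
    funext j b
    simp [sg]
  refine ⟨lam, θ, ?_, ?_, h3⟩
  · simp only [e1, wtop_one]
    exact h1
  · rw [e1, wtop_one]
    exact h2

end Main

end Pool.Agent.K3h53.UG
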