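import Pool.Agent.K3h53.UG.Stm

/-! UG project: bounds on compact sets. -/

set_option autoImplicit false

namespace Pool.Agent.K3h53.UG

open MvPolynomial Filter Topology Metric Set Pool.Agent.K3h22.EX

theorem mag_pos (h : ℝ) (N : ℕ) {R : ℝ} (hR : 1 ≤ R) : 0 < mag h N R := by
  unfold mag
  have : 0 < R := by linarith
  positivity

theorem log_mag (h : ℝ) (N : ℕ) {R : ℝ} (hR : 1 ≤ R) :
    Real.log (mag h N R) = N * Real.log R + h * R := by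
  unfold mag
  have : 0 < R := by linarith
  rw [Real.log_mul (by positivity) (by positivity), Real.log_pow, Real.log_exp]

theorem bound1 {s : ℕ} {R : ℕ → ℝ} (hR1 : ∀ k, 1 ≤ R k) {v : ℕ → (Fin s → ℂ) → ℂ} {h : ℝ} {N : ℕ}
    {g : (Fin s → ℂ) → ℂ} (hg : Differentiable ℂ g)
    (hunif : ∀ ρ : ℝ, TendstoUniformlyOn (fun (k : ℕ) (w : Fin s → ℂ) =>
      v k w / (mag h N (R k) : ℂ)) g atTop (closedBall 0 ρ))
    {K : Set (Fin s → ℂ)} (hK : IsCompact K) (hne : ∀ w ∈ K, g w ≠ 0) :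
    ∃ c₁ : ℝ, 0 < c₁ ∧ ∃ C₁ : ℝ, ∀ᶠ k in atTop, ∀ w ∈ K,
      c₁ * mag h N (R k) ≤ ‖v k w‖ ∧ ‖v k w‖ ≤ C₁ * mag h N (R k) := by
  obtain ⟨a, ha0, ha⟩ := hK.exists_forall_le' (f := fun w => ‖g w‖) (a := 0)
    hg.continuous.norm.continuousOn (fun w hw => norm_pos_iff.2 (hne w hw))
  obtain ⟨C, hC⟩ := hK.exists_bound_of_continuousOn hg.continuous.continuousOn
  obtain ⟨ρ, hρ⟩ := hK.isBounded.subset_closedBall (0 : Fin s → ℂ)
  have hu := Metric.tendstoUniformlyOn_iff.1 (hunif ρ) (a / 2) (by positivity)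
  refine ⟨a / 2, by positivity, C + a / 2, ?_⟩
  filter_upwards [hu] with k hk w hw
  have h1 := hk w (hρ hw)
  have h2 := ha w hw
  have h3 := hC w hw
  have hm := mag_pos h N (hR1 k)
  rw [dist_eq_norm] at h1
  have h4 : ‖v k w / (mag h N (R k) : ℂ)‖ = ‖v k w‖ / mag h N (R k) := by
    rw [norm_div, Complex.norm_real, Real.norm_of_nonneg hm.le]
  have h5 : ‖g w‖ - a / 2 ≤ ‖v k w‖ / mag h N (R k) := by
    rw [← h4]
    have := norm_sub_norm_le (g w) (v k w / (mag h N (R k) : ℂ))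
    linarith
  have h6 : ‖v k w‖ / mag h N (R k) ≤ ‖g w‖ + a / 2 := by
    rw [← h4]
    have := norm_sub_norm_le (v k w / (mag h N (R k) : ℂ)) (g w)
    rw [norm_sub_rev] at this
    linarith
  constructor
  · rw [← le_div_iff₀ hm]
    have h2' : a ≤ ‖g w‖ := h2
    linarith
  · rw [← div_le_iff₀ hm]
    linarith

theorem bound2 {s : ℕ} {τ : Type} {R : ℕ → ℝ} (hR1 : ∀ k, 1 ≤ R k) (T : Finset τ)
    {v : τ → ℕ → (Fin s → ℂ) → ℂ} {h : τ → ℝ} {N : τ → ℕ}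
    {g : τ → (Fin s → ℂ) → ℂ} (hg : ∀ F ∈ T, Differentiable ℂ (g F))
    (hunif : ∀ F ∈ T, ∀ ρ : ℝ, TendstoUniformlyOn (fun (k : ℕ) (w : Fin s → ℂ) =>
      v F k w / (mag (h F) (N F) (R k) : ℂ)) (g F) atTop (closedBall 0 ρ))
    {K : Set (Fin s → ℂ)} (hK : IsCompact K) (hne : ∀ F ∈ T, ∀ w ∈ K, g F w ≠ 0) :
    ∃ c₁ : ℝ, 0 < c₁ ∧ ∃ C₁ : ℝ, ∀ᶠ k in atTop, ∀ w ∈ K, ∀ F ∈ T,
      c₁ * mag (h F) (N F) (R k) ≤ ‖v F k w‖ ∧ ‖v F k w‖ ≤ C₁ * mag (h F) (N F) (R k) := by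
  classical
  induction T using Finset.induction_on with
  | empty => exact ⟨1, one_pos, 0, by simp⟩
  | insert F T _ ih =>
    obtain ⟨c₁, hc₁, C₁, h1⟩ := ih (fun F' h' => hg F' (Finset.mem_insert_of_mem h'))
      (fun F' h' => hunif F' (Finset.mem_insert_of_mem h'))
      (fun F' h' => hne F' (Finset.mem_insert_of_mem h'))
    have hF := Finset.mem_insert_self F T
    obtain ⟨c₂, hc₂, C₂, h2⟩ := bound1 hR1 (hg F hF) (hunif F hF) hK (hne F hF)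
    refine ⟨min c₁ c₂, lt_min hc₁ hc₂, max C₁ C₂, ?_⟩
    filter_upwards [h1, h2] with k h1 h2 w hw F' hF'
    have hm := mag_pos (h F') (N F') (hR1 k)
    rcases Finset.mem_insert.1 hF' with rfl | hF'
    · obtain ⟨h3, h4⟩ := h2 w hw
      exact ⟨le_trans (by gcongr; exact min_le_right _ _) h3,
        h4.trans (by gcongr; exact le_max_right _ _)⟩
    · obtain ⟨h3, h4⟩ := h1 w hw F' hF'
      exact ⟨le_trans (by gcongr; exact min_le_left _ _) h3,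
        h4.trans (by gcongr; exact le_max_left _ _)⟩

/-- bounds near a compact set -/
theorem bound3 {s : ℕ} {τ : Type} {R : ℕ → ℝ} (hR1 : ∀ k, 1 ≤ R k) (T : Finset τ)
    {v : τ → ℕ → (Fin s → ℂ) → ℂ} {h : τ → ℝ} {N : τ → ℕ}
    {g : τ → (Fin s → ℂ) → ℂ} (hg : ∀ F ∈ T, Differentiable ℂ (g F))
    (hunif : ∀ F ∈ T, ∀ ρ : ℝ, TendstoUniformlyOn (fun (k : ℕ) (w : Fin s → ℂ) =>
      v F k w / (mag (h F) (N F) (R k) : ℂ)) (g F) atTop (closedBall 0 ρ))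
    {K : Set (Fin s → ℂ)} (hK : IsCompact K) (hne : ∀ F ∈ T, ∀ w ∈ K, g F w ≠ 0) :
    ∃ ε : ℝ, 0 < ε ∧ ∃ c₁ : ℝ, 0 < c₁ ∧ ∃ C₁ : ℝ, ∀ᶠ k in atTop, ∀ w ∈ thickening ε K, ∀ F ∈ T,
      c₁ * mag (h F) (N F) (R k) ≤ ‖v F k w‖ ∧ ‖v F k w‖ ≤ C₁ * mag (h F) (N F) (R k) := by
  have hopen : IsOpen (⋂ F ∈ T, {w | g F w ≠ 0}) := by
    apply isOpen_biInter_finset
    intro F hF
    exact isOpen_ne_fun (hg F hF).continuous continuous_const
  obtain ⟨δ, hδ, hsub⟩ := hK.exists_cthickening_subset_open hopen (by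
    intro w hw
    simp only [mem_iInter]
    exact fun F hF => hne F hF w hw)
  obtain ⟨c₁, hc₁, C₁, h1⟩ := bound2 hR1 T hg hunif (hK.cthickening (r := δ)) (by
    intro F hF w hw
    have := hsub hw
    simp only [mem_iInter] at this
    exact this F hF)
  refine ⟨δ, hδ, c₁, hc₁, C₁, ?_⟩
  filter_upwards [h1] with k h1 w hw
  exact h1 w (thickening_subset_cthickening δ K hw)

end Pool.Agent.K3h53.UG
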