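import Pool.Agent.K3h53.UG.Bound

/-! UG project: growth classes of roots. -/

set_option autoImplicit false

namespace Pool.Agent.K3h53.UG

open MvPolynomial Filter Topology Metric Set Pool.Agent.K3h22.EX

/-- the possible growth classes of the roots of `g` -/
noncomputable def Ecl {A : Type} [CommRing A] (g : Polynomial A) (h : A → ℝ) (N : A → ℕ) :
    Finset (ℝ × ℝ) :=
  (g.support ×ˢ g.support).image fun kl =>
    ((h (g.coeff kl.1) - h (g.coeff kl.2)) / ((kl.2 : ℝ) - kl.1),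
      ((N (g.coeff kl.1) : ℝ) - N (g.coeff kl.2)) / ((kl.2 : ℝ) - kl.1))

/-- the growth class `e` -/
noncomputable def gr (e : ℝ × ℝ) (R : ℝ) : ℝ := e.1 * R + e.2 * Real.log R

theorem classes (hN : S_NEWT) {A : Type} [CommRing A] (g : Polynomial A) (hg0 : g.coeff 0 ≠ 0)
    (h : A → ℝ) (N : A → ℕ) (c₁ C₁ : ℝ) (hc₁ : 0 < c₁) : ∃ C' : ℝ, 0 ≤ C' ∧ ∀ R : ℝ, 1 ≤ R →
    ∀ χ : A →+* ℂ, (∀ k ∈ g.support,
      c₁ * mag (h (g.coeff k)) (N (g.coeff k)) R ≤ ‖χ (g.coeff k)‖ ∧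
      ‖χ (g.coeff k)‖ ≤ C₁ * mag (h (g.coeff k)) (N (g.coeff k)) R) →
    ∀ y : ℂ, (g.map χ).eval y = 0 → y ≠ 0 ∧ ∃ e ∈ Ecl g h N, |Real.log ‖y‖ - gr e R| ≤ C' := by
  classical
  obtain ⟨C', hC', h1⟩ := hN g.natDegree c₁ C₁ hc₁
  refine ⟨C', hC', fun R hR χ hχ y hy => ?_⟩
  obtain ⟨h2, k, hk, l, hl, hkl, h3⟩ := h1 g.support
    (fun k => mag (h (g.coeff k)) (N (g.coeff k)) R) (fun k => χ (g.coeff k))
    (fun k hk => ⟨mag_pos _ _ hR, hχ k hk⟩) (fun k hk => Polynomial.le_natDegree_of_mem_supp k hk)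
    (by rw [Polynomial.mem_support_iff]; exact hg0) y (by
      rw [Polynomial.eval_map, Polynomial.eval₂_eq_sum, Polynomial.sum_def] at hy
      exact hy)
  refine ⟨h2, _, Finset.mem_image.2 ⟨(k, l), Finset.mem_product.2 ⟨hk, hl⟩, rfl⟩, ?_⟩
  rw [log_mag _ _ hR, log_mag _ _ hR] at h3
  have hd : ((l : ℝ) - k) ≠ 0 := by
    have : (k : ℝ) < l := by exact_mod_cast hkl
    linarith
  have e : gr ((h (g.coeff (k, l).1) - h (g.coeff (k, l).2)) / (((k, l).2 : ℝ) - (k, l).1),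
      ((N (g.coeff (k, l).1) : ℝ) - N (g.coeff (k, l).2)) / (((k, l).2 : ℝ) - (k, l).1)) R =
      (N (g.coeff k) * Real.log R + h (g.coeff k) * R -
        (N (g.coeff l) * Real.log R + h (g.coeff l) * R)) / ((l : ℝ) - k) := by
    unfold gr
    simp only
    field_simp
    ring
  rw [e]
  exact h3

/-- finite products of entire functions -/
theorem prod_ne (hP : S_PROD) {s : ℕ} {τ : Type} (T : Finset τ) (g : τ → (Fin s → ℂ) → ℂ)
    (hg : ∀ F ∈ T, Differentiable ℂ (g F)) (hne : ∀ F ∈ T, ∃ w, g F w ≠ 0) :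
    Differentiable ℂ (fun w => ∏ F ∈ T, g F w) ∧ ∃ w, (∏ F ∈ T, g F w) ≠ 0 := by
  classical
  induction T using Finset.induction_on with
  | empty => exact ⟨by simp, ⟨0, by simp⟩⟩
  | insert F T hF ih =>
    obtain ⟨h1, h2⟩ := ih (fun F' h' => hg F' (Finset.mem_insert_of_mem h'))
      (fun F' h' => hne F' (Finset.mem_insert_of_mem h'))
    have hFm := Finset.mem_insert_self F T
    have e : (fun w => ∏ F ∈ insert F T, g F w) = fun w => g F w * ∏ F ∈ T, g F w := by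
      funext w
      rw [Finset.prod_insert hF]
    constructor
    · rw [e]
      exact (hg F hFm).mul h1
    · obtain ⟨w, hw⟩ := hP s _ _ (hg F hFm) h1 (hne F hFm) h2
      exact ⟨w, by rw [Finset.prod_insert hF]; exact hw⟩

end Pool.Agent.K3h53.UG
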