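import Pool.Agent.K3h53.UG.Stm
import Pool.Agent.K3h87.EX.Dompt
import Pool.Agent.K3h33.EX.Avoid
import Pool.Agent.K3h91.EX.Prep

/-! UG project: existence of directions. -/

set_option autoImplicit false

namespace Pool.Agent.K3h53.UG

open MvPolynomial Filter Topology Metric Set Pool.Agent.K3h22.EX

theorem exists_dir {s : ℕ} (Φ : Fin s → MvPolynomial (Fin s) ℂ) (ζ₀ : Fin s → ℂ)
    (h0 : (jac Φ ζ₀).det ≠ 0) (q : MvPolynomial (Fin s) ℂ) (hq : q ≠ 0) :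
    ∃ ζ : Fin s → ℂ, (∀ j, (eval ζ (Φ j)).re = 0) ∧ (jac Φ ζ).det ≠ 0 ∧ eval ζ q ≠ 0 := by
  classical
  set J : MvPolynomial (Fin s) ℂ := (Matrix.of fun a b => pderiv b (Φ a)).det with hJ
  have hJe : ∀ z, eval z J = (jac Φ z).det := by
    intro z
    rw [hJ, RingHom.map_det]
    rfl
  have hJ0 : J ≠ 0 := by
    intro h
    apply h0
    rw [← hJe, h, map_zero]
  obtain ⟨ζ1, h1, h2⟩ := Pool.Agent.K3h87.EX.t_DOMPT s Φ ζ₀ h0
  obtain ⟨ζ, -, h3, h4⟩ := Pool.Agent.K3h33.EX.t_AVOID s Φ ζ1 h1 h2 (q * J) (mul_ne_zero hq hJ0) 1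
    one_pos
  rw [map_mul, hJe] at h4
  exact ⟨ζ, h3, (mul_ne_zero_iff.1 h4).2, (mul_ne_zero_iff.1 h4).1⟩

/-- one direction for finitely many exponential polynomials -/
theorem exists_dir' {s : ℕ} {β : Type} (Φ : Fin s → MvPolynomial (Fin s) ℂ) (ζ₀ : Fin s → ℂ)
    (h0 : (jac Φ ζ₀).det ≠ 0) (T : Finset (MvPolynomial β (MvPolynomial (Fin s) ℂ))) :
    ∃ ζ : Fin s → ℂ, (∀ j, (eval ζ (Φ j)).re = 0) ∧ (jac Φ ζ).det ≠ 0 ∧
      ∀ G ∈ T, ∀ m ∈ G.support, eval ζ (top (coeff m G)) ≠ 0 := by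
  classical
  obtain ⟨ζ, h1, h2, h3⟩ := exists_dir Φ ζ₀ h0
    (∏ G ∈ T, ∏ m ∈ G.support, top (coeff m G)) (by
      rw [Finset.prod_ne_zero_iff]
      intro G _
      rw [Finset.prod_ne_zero_iff]
      intro m hm
      exact Pool.Agent.K3h91.EX.top_ne_zero (mem_support_iff.1 hm))
  refine ⟨ζ, h1, h2, fun G hG m hm => ?_⟩
  rw [map_prod, Finset.prod_ne_zero_iff] at h3
  have h4 := h3 G hG
  rw [map_prod, Finset.prod_ne_zero_iff] at h4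
  exact h4 m hm

end Pool.Agent.K3h53.UG
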