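import Pool.Agent.K3h53.UG.Trans
import Pool.Agent.K3h53.UG.Dir
import Pool.Agent.K3h60.EX.LogBC

/-! UG project: the analytic core. -/

set_option autoImplicit false

namespace Pool.Agent.K3h53.UG

open MvPolynomial Filter Topology Metric Set Pool.Agent.K3h22.EX

theorem classesAll (hN : S_NEWT) {s : ℕ} {A : Type} [CommRing A] (g : Fin s → Polynomial A)
    (hg0 : ∀ j, (g j).coeff 0 ≠ 0)
    (h : A → ℝ) (N : A → ℕ) (c₁ C₁ : ℝ) (hc₁ : 0 < c₁) : ∃ C' : ℝ, 0 ≤ C' ∧ ∀ R : ℝ, 1 ≤ R →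
    ∀ χ : A →+* ℂ, (∀ j, ∀ k ∈ (g j).support,
      c₁ * mag (h ((g j).coeff k)) (N ((g j).coeff k)) R ≤ ‖χ ((g j).coeff k)‖ ∧
      ‖χ ((g j).coeff k)‖ ≤ C₁ * mag (h ((g j).coeff k)) (N ((g j).coeff k)) R) →
    ∀ j, ∀ y : ℂ, ((g j).map χ).eval y = 0 →
      y ≠ 0 ∧ ∃ e ∈ Ecl (g j) h N, |Real.log ‖y‖ - gr e R| ≤ C' := by
  choose C hC0 hC using fun j => classes hN (g j) (hg0 j) h N c₁ C₁ hc₁
  refine ⟨∑ j, C j, Finset.sum_nonneg fun j _ => hC0 j, fun R hR χ hχ j y hy => ?_⟩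
  obtain ⟨h1, e, he, h2⟩ := hC j R hR χ (hχ j) y hy
  exact ⟨h1, e, he, h2.trans (Finset.single_le_sum (f := C) (fun j _ => hC0 j)
    (Finset.mem_univ j))⟩

theorem isCompact_seg {s : ℕ} (a b : Fin s → ℂ) : IsCompact (segment ℝ a b) := by
  rw [segment_eq_image']
  exact isCompact_Icc.image (by fun_prop)

/-- **analytic core** -/
theorem core (hLIM : S_LIM) (hSOL : S_SOL) (hAV : S_AV) (hPROD : S_PROD) (hSEG : S_SEG)
    (hNEWT : S_NEWT) (hSEP : S_SEP) (hCLS : S_CLS) (hROOT : S_ROOT)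
    {s : ℕ} {β : Type} [Fintype β] (p : β → MvPolynomial (Fin s) ℂ) (c : β → ℂ)
    (hp1 : ∀ b, (p b).totalDegree ≤ 1)
    (hp2 : ∀ m : β → ℤ, m ≠ 0 → 0 < (∑ b, (m b : MvPolynomial (Fin s) ℂ) * p b).totalDegree)
    (Φ : Fin s → MvPolynomial (Fin s) ℂ) (c' : Fin s → ℂ) (ζ₀ : Fin s → ℂ)
    (hΦ : ∀ j, 2 ≤ (Φ j).totalDegree) (hdet : (jac (fun j => top (Φ j)) ζ₀).det ≠ 0)
    (f U W : Polynomial (MvPolynomial β (MvPolynomial (Fin s) ℂ)))
    (D Δ G0 : MvPolynomial β (MvPolynomial (Fin s) ℂ))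
    (N g : Fin s → Polynomial (MvPolynomial β (MvPolynomial (Fin s) ℂ)))
    (hf : f.Monic) (hf0 : 0 < f.natDegree)
    (hUW : U * f + W * Polynomial.derivative f = Polynomial.C Δ)
    (hD : D ≠ 0) (hΔ : Δ ≠ 0) (hG0 : G0 ≠ 0) (hg0 : ∀ j, (g j).coeff 0 ≠ 0)
    (hgN : ∀ (j : Fin s) (z : Fin s → ℂ) (t : ℂ), (f.map (val p c z)).eval t = 0 →
      val p c z D ≠ 0 → ((g j).map (val p c z)).eval (yv p c (N j) D z t) = 0) :
    ∃ (z : Fin s → ℂ) (t : ℂ), val p c z G0 ≠ 0 ∧ val p c z D ≠ 0 ∧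
      (f.map (val p c z)).eval t = 0 ∧
      ∀ j, yv p c (N j) D z t = Complex.exp (eval z (Φ j) + c' j) := by
  classical
  set T : Finset (MvPolynomial β (MvPolynomial (Fin s) ℂ)) :=
    {G0, D, Δ} ∪ Finset.univ.biUnion fun j => (g j).support.image (g j).coeff with hT
  have hG0T : G0 ∈ T := by simp [hT]
  have hDT : D ∈ T := by simp [hT]
  have hΔT : Δ ∈ T := by simp [hT]
  have hgT : ∀ j, ∀ k ∈ (g j).support, (g j).coeff k ∈ T := by
    intro j k hk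
    rw [hT, Finset.mem_union, Finset.mem_biUnion]
    exact Or.inr ⟨j, Finset.mem_univ _, Finset.mem_image_of_mem _ hk⟩
  have hT0 : ∀ F ∈ T, F ≠ 0 := by
    intro F hF
    rw [hT, Finset.mem_union, Finset.mem_biUnion] at hF
    rcases hF with hF | ⟨j, -, hF⟩
    · simp only [Finset.mem_insert, Finset.mem_singleton] at hF
      rcases hF with rfl | rfl | rfl
      · exact hG0
      · exact hD
      · exact hΔ
    · obtain ⟨k, hk, rfl⟩ := Finset.mem_image.1 hF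
      exact Polynomial.mem_support_iff.1 hk
  obtain ⟨ζ, hζ1, hζ2, hζ3⟩ := exists_dir' (fun j => top (Φ j)) ζ₀ hdet T
  obtain ⟨R, hRt, hR1, hlim⟩ := hLIM s β p c ζ hp1 hp2
  have hlim' : ∀ F : MvPolynomial β (MvPolynomial (Fin s) ℂ), ∃ (h : ℝ) (n : ℕ)
      (gl : (Fin s → ℂ) → ℂ), F ∈ T → Differentiable ℂ gl ∧ (∃ w, gl w ≠ 0) ∧
      ∀ ρ : ℝ, TendstoUniformlyOn
        (fun (k : ℕ) (w : Fin s → ℂ) => val p c (pt ζ (R k) w) F / (mag h n (R k) : ℂ))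
        gl atTop (closedBall 0 ρ) := by
    intro F
    by_cases hF : F ∈ T
    · obtain ⟨h, n, gl, h1⟩ := hlim F (hT0 F hF) (hζ3 F hF)
      exact ⟨h, n, gl, fun _ => h1⟩
    · exact ⟨0, 0, 0, fun h => absurd h hF⟩
  choose h n gl hgl using hlim'
  set P : (Fin s → ℂ) → ℂ := fun w => ∏ F ∈ T, gl F w with hP
  obtain ⟨hPd, wa, hwa⟩ := prod_ne hPROD T gl (fun F hF => (hgl F hF).1)
    (fun F hF => (hgl F hF).2.1)
  have hPne : ∀ w, P w ≠ 0 → ∀ F ∈ T, gl F w ≠ 0 := by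
    intro w hw
    exact Finset.prod_ne_zero_iff.1 hw
  have hB : ∀ K : Set (Fin s → ℂ), IsCompact K → (∀ w ∈ K, P w ≠ 0) →
      ∃ ε : ℝ, 0 < ε ∧ ∃ c₁ : ℝ, 0 < c₁ ∧ ∃ C₁ : ℝ, ∀ᶠ k in atTop, ∀ w ∈ thickening ε K, ∀ F ∈ T,
      c₁ * mag (h F) (n F) (R k) ≤ ‖val p c (pt ζ (R k) w) F‖ ∧
      ‖val p c (pt ζ (R k) w) F‖ ≤ C₁ * mag (h F) (n F) (R k) := by
    intro K hK hne
    exact bound3 hR1 T (v := fun F k w => val p c (pt ζ (R k) w) F) (fun F hF => (hgl F hF).1)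
      (fun F hF => (hgl F hF).2.2) hK (fun F hF w hw => hPne w (hne w hw) F hF)
  -- the classes at the point `wa`
  obtain ⟨ε0, hε0, c0, hc0, C0, ev0⟩ := hB {wa} isCompact_singleton (by
    intro w hw
    rw [mem_singleton_iff.1 hw]
    exact hwa)
  obtain ⟨A0, hA0, hcl0⟩ := classesAll hNEWT g hg0 h n c0 C0 hc0
  have hroot : ∀ k : ℕ, ∃ t : ℂ, (f.map (val p c (pt ζ (R k) wa))).eval t = 0 := by
    intro k
    have hdeg : (f.map (val p c (pt ζ (R k) wa))).degree ≠ 0 := by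
      rw [Polynomial.Monic.degree_map hf]
      intro h0
      have := Polynomial.natDegree_eq_zero_iff_degree_le_zero.mpr h0.le
      omega
    obtain ⟨u, hu⟩ := IsAlgClosed.exists_root _ hdeg
    exact ⟨u, hu⟩
  choose t ht using hroot
  have hfreq : ∃ᶠ k in atTop, ∃ e ∈ Fintype.piFinset fun j => Ecl (g j) h n,
      ∀ j, |Real.log ‖yv p c (N j) D (pt ζ (R k) wa) (t k)‖ - gr (e j) (R k)| ≤ A0 := by
    apply Eventually.frequently
    filter_upwards [ev0] with k hk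
    have hwaT : wa ∈ thickening ε0 {wa} := self_subset_thickening hε0 _ (mem_singleton _)
    have hb := hk wa hwaT
    have hD' : val p c (pt ζ (R k) wa) D ≠ 0 := by
      rw [← norm_pos_iff]
      exact lt_of_lt_of_le (mul_pos hc0 (mag_pos _ _ (hR1 k))) (hb D hDT).1
    have h1 := fun j => hcl0 (R k) (hR1 k) (val p c (pt ζ (R k) wa))
      (fun j' k' hk' => hb _ (hgT j' k' hk')) j _ (hgN j _ _ (ht k) hD')
    choose h2 e he h3 using h1
    exact ⟨e, Fintype.mem_piFinset.2 he, h3⟩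
  rw [frequently_exists_finset] at hfreq
  obtain ⟨e, he, hfreq⟩ := hfreq
  rw [Fintype.mem_piFinset] at he
  -- the point `w₁`
  set M := jac (fun j => top (Φ j)) ζ with hM
  set w0 : Fin s → ℂ := M⁻¹.mulVec fun j =>
    (((if (Φ j).totalDegree = 2 then (e j).1 else 0 : ℝ) : ℂ) -
      eval ζ (homogeneousComponent ((Φ j).totalDegree - 1) (Φ j))) with hw0
  have hMw0 : M.mulVec w0 = fun j =>
    (((if (Φ j).totalDegree = 2 then (e j).1 else 0 : ℝ) : ℂ) -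
      eval ζ (homogeneousComponent ((Φ j).totalDegree - 1) (Φ j))) := by
    rw [hw0, Matrix.mulVec_mulVec, Matrix.mul_nonsing_inv _ (Ne.isUnit hζ2), Matrix.one_mulVec]
  obtain ⟨v, hv, hPv⟩ := hAV s M P w0 hζ2 hPd ⟨wa, hwa⟩
  set w1 : Fin s → ℂ := w0 + v with hw1
  have hbal : ∀ j, ((M.mulVec w1) j +
      eval ζ (homogeneousComponent ((Φ j).totalDegree - 1) (Φ j))).re =
      if (Φ j).totalDegree = 2 then (e j).1 else 0 := by
    intro j
    rw [hw1, Matrix.mulVec_add, Pi.add_apply, hMw0]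
    simp only [Complex.add_re, Complex.sub_re, Complex.ofReal_re, hv j]
    ring
  -- the segments
  obtain ⟨m, hs1, hs2⟩ := hSEG s P wa w1 hPd hwa hPv
  obtain ⟨ε1, hε1, c1, hc1, C1, ev1⟩ := hB _ (isCompact_seg wa m) hs1
  obtain ⟨ε2, hε2, c2, hc2, C2, ev2⟩ := hB _ (isCompact_seg m w1) hs2
  obtain ⟨A1, hA1, hcl1⟩ := classesAll hNEWT g hg0 h n c1 C1 hc1
  obtain ⟨A2, hA2, hcl2⟩ := classesAll hNEWT g hg0 h n c2 C2 hc2
  set A : ℝ := A0 + A1 + A2 with hAdef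
  obtain ⟨Rs, hRs⟩ := hSEP (Finset.univ.biUnion fun j => Ecl (g j) h n) (2 * A)
  obtain ⟨R₀, hR₀, hsol⟩ := hSOL s Φ ζ w1 ε2 (A + ∑ j, ‖c' j‖) (fun j => (e j).1)
    (fun j => (e j).2) hε2 hΦ hζ1 hζ2 hbal
  obtain ⟨k, hk0, hk1, hk2, hk3, hk4⟩ := (hfreq.and_eventually (ev1.and (ev2.and
    ((hRt.eventually_ge_atTop Rs).and (hRt.eventually_ge_atTop R₀))))).exists
  have hsep : ∀ j, ∀ e ∈ Ecl (g j) h n, ∀ e' ∈ Ecl (g j) h n, e ≠ e' →
      2 * A < |gr e (R k) - gr e' (R k)| := by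
    intro j e he e' he' hne
    exact hRs (R k) hk3 e (Finset.mem_biUnion.2 ⟨j, Finset.mem_univ _, he⟩) e'
      (Finset.mem_biUnion.2 ⟨j, Finset.mem_univ _, he'⟩) hne
  have hpos : ∀ {c₁ : ℝ} {C₁ : ℝ} {w : Fin s → ℂ}, 0 < c₁ → (∀ F ∈ T,
      c₁ * mag (h F) (n F) (R k) ≤ ‖val p c (pt ζ (R k) w) F‖ ∧
      ‖val p c (pt ζ (R k) w) F‖ ≤ C₁ * mag (h F) (n F) (R k)) →
      ∀ F ∈ T, val p c (pt ζ (R k) w) F ≠ 0 := by
    intro c₁ C₁ w hc₁ hb F hF
    rw [← norm_pos_iff]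
    exact lt_of_lt_of_le (mul_pos hc₁ (mag_pos _ _ (hR1 k))) (hb F hF).1
  -- first segment
  have hwaK : wa ∈ segment ℝ wa m := left_mem_segment ℝ wa m
  have hmK : m ∈ segment ℝ wa m := right_mem_segment ℝ wa m
  obtain ⟨Z1, hZ10, hZ11, hZ12⟩ := transport hROOT hCLS p c ζ (R k) f U W D Δ N g hf hUW hgN
    (thickening ε1 (segment ℝ wa m)) isOpen_thickening ((convex_segment _ _).thickening _)
    (fun w hw => hpos hc1 (hk1 w hw) Δ hΔT) (fun w hw => hpos hc1 (hk1 w hw) D hDT)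
    (fun j => Ecl (g j) h n) A
    (by
      intro w hw j y hy
      obtain ⟨h1, e, he, h2⟩ := hcl1 (R k) (hR1 k) (val p c (pt ζ (R k) w))
        (fun j' k' hk' => hk1 w hw _ (hgT j' k' hk')) j y hy
      exact ⟨h1, e, he, h2.trans (by rw [hAdef]; linarith)⟩)
    hsep wa (self_subset_thickening hε1 _ hwaK) (t k) (ht k) e he
    (fun j => (hk0 j).trans (by rw [hAdef]; linarith))
  have hmΩ1 : m ∈ thickening ε1 (segment ℝ wa m) := self_subset_thickening hε1 _ hmK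
  -- second segment
  have hmK2 : m ∈ segment ℝ m w1 := left_mem_segment ℝ m w1
  have hw1K2 : w1 ∈ segment ℝ m w1 := right_mem_segment ℝ m w1
  obtain ⟨Z2, hZ20, hZ21, hZ22⟩ := transport hROOT hCLS p c ζ (R k) f U W D Δ N g hf hUW hgN
    (thickening ε2 (segment ℝ m w1)) isOpen_thickening ((convex_segment _ _).thickening _)
    (fun w hw => hpos hc2 (hk2 w hw) Δ hΔT) (fun w hw => hpos hc2 (hk2 w hw) D hDT)
    (fun j => Ecl (g j) h n) A
    (by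
      intro w hw j y hy
      obtain ⟨h1, e, he, h2⟩ := hcl2 (R k) (hR1 k) (val p c (pt ζ (R k) w))
        (fun j' k' hk' => hk2 w hw _ (hgT j' k' hk')) j y hy
      exact ⟨h1, e, he, h2.trans (by rw [hAdef]; linarith)⟩)
    hsep m (self_subset_thickening hε2 _ hmK2) (Z1 m) (hZ11 m hmΩ1) e he
    (fun j => ((hZ12 j).2 m hmΩ1).2)
  have hball : ball w1 ε2 ⊆ thickening ε2 (segment ℝ m w1) :=
    ball_subset_thickening hw1K2 ε2
  -- logarithms
  have hlog : ∀ j, ∃ L : (Fin s → ℂ) → ℂ, DifferentiableOn ℂ L (ball w1 ε2) ∧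
      ∀ w ∈ ball w1 ε2, Complex.exp (L w) = yv p c (N j) D (pt ζ (R k) w) (Z2 w) := fun j =>
    Pool.Agent.K3h60.EX.t_LOG s (ball w1 ε2) _ isOpen_ball (convex_ball _ _)
      ((hZ22 j).1.mono hball) (fun w hw => ((hZ22 j).2 w (hball hw)).1)
  choose L hLd hL using hlog
  obtain ⟨w, hw, hsolw⟩ := hsol (R k) hk4 (fun j w => L j w - c' j)
    (fun j => (hLd j).sub_const _) (by
      intro j w hw
      have h1 := ((hZ22 j).2 w (hball hw)).2
      rw [← hL j w hw, Complex.norm_exp, Real.log_exp] at h1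
      have h2 : |(c' j).re| ≤ ∑ j, ‖c' j‖ := (Complex.abs_re_le_norm _).trans
        (Finset.single_le_sum (f := fun j => ‖c' j‖) (fun j _ => norm_nonneg _)
          (Finset.mem_univ j))
      have e1 : (L j w - c' j).re - ((e j).1 * R k + (e j).2 * Real.log (R k)) =
          ((L j w).re - gr (e j) (R k)) - (c' j).re := by
        rw [Complex.sub_re, gr]
        ring
      rw [e1]
      exact (abs_sub _ _).trans (add_le_add h1 h2))
  refine ⟨pt ζ (R k) w, Z2 w, hpos hc2 (hk2 w (hball hw)) G0 hG0T,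
    hpos hc2 (hk2 w (hball hw)) D hDT, hZ21 w (hball hw), fun j => ?_⟩
  obtain ⟨n', hn'⟩ := hsolw j
  rw [← hL j w hw]
  have e2 : eval (pt ζ (R k) w) (Φ j) + c' j = L j w + n' * (2 * Real.pi * Complex.I) := by
    linear_combination hn'
  rw [e2, Complex.exp_add, Complex.exp_int_mul_two_pi_mul_I, mul_one]

end Pool.Agent.K3h53.UG
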