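import Pool.Agent.K3h53.UG.Core2c

/-! UG project, second part: the core. -/

set_option autoImplicit false

namespace Pool.Agent.K3h53.UG

open MvPolynomial Filter Topology Metric Set Pool.Agent.K3h22.EX

/-- **analytic core**, rows of degree larger than the degrees of the other exponents -/
theorem core2 (hGOOD : S_GOOD) (hSIZE : S_SIZE) (hPOS : S_POS) (hSOL : S_SOL2) (hRP : S_RP)
    (hPIG : S_PIG) (hCOMP : S_COMP) (hCHAIN : S_CHAIN) (hNEWT : S_NEWT) (hROOT : S_ROOT)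
    {s : ℕ} {β : Type} [Fintype β] (p : β → MvPolynomial (Fin s) ℂ) (c : β → ℂ)
    (δ : ℕ) (hδ : 1 ≤ δ) (hp1 : ∀ b, (p b).totalDegree ≤ δ)
    (hp2 : ∀ m : β → ℤ, m ≠ 0 → 0 < (∑ b, (m b : MvPolynomial (Fin s) ℂ) * p b).totalDegree)
    (Φ : Fin s → MvPolynomial (Fin s) ℂ) (c' : Fin s → ℂ) (ζ₀ : Fin s → ℂ)
    (hΦ : ∀ j, δ < (Φ j).totalDegree) (hdet : (jac (fun j => top (Φ j)) ζ₀).det ≠ 0)
    (f U W : Polynomial (MvPolynomial β (MvPolynomial (Fin s) ℂ)))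
    (D Δ G0 : MvPolynomial β (MvPolynomial (Fin s) ℂ))
    (N g : Fin s → Polynomial (MvPolynomial β (MvPolynomial (Fin s) ℂ)))
    (hf : f.Monic) (hf0 : 0 < f.natDegree)
    (hUW : U * f + W * Polynomial.derivative f = Polynomial.C Δ)
    (hD : D ≠ 0) (hΔ : Δ ≠ 0) (hG0 : G0 ≠ 0) (hg0 : ∀ j, (g j).coeff 0 ≠ 0)
    (hgN : ∀ (j : Fin s) (z : Fin s → ℂ) (t : ℂ), (f.map (val p c z)).eval t = 0 →
      val p c z D ≠ 0 → ((g j).map (val p c z)).eval (yv p c (N j) D z t) = 0) :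
    ∃ (z : Fin s → ℂ) (t : ℂ), val p c z G0 ≠ 0 ∧ val p c z D ≠ 0 ∧
      (f.map (val p c z)).eval t = 0 ∧
      ∀ j, yv p c (N j) D z t = Complex.exp (eval z (Φ j) + c' j) := by
  classical
  obtain ⟨𝒩, Cp, hCp, -, -, hpig⟩ := hPIG s f.natDegree
  choose Q hQd hQ0 hQ using exists_Q hCOMP hGOOD p c δ hδ hp1 hp2 (fun j => top (Φ j)) ζ₀ hdet
    f D N g hf hf0 hD hg0 hgN
  obtain ⟨T, hG0T, hDT, hΔT, hgT, hQT, hT0⟩ :
      ∃ T : Finset (MvPolynomial β (MvPolynomial (Fin s) ℂ)), G0 ∈ T ∧ D ∈ T ∧ Δ ∈ T ∧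
        (∀ j, ∀ k ∈ (g j).support, (g j).coeff k ∈ T) ∧
        (∀ ν ∈ 𝒩, ∀ k ∈ (Q ν).support, (Q ν).coeff k ∈ T) ∧ ∀ F ∈ T, F ≠ 0 := by
    refine ⟨({G0, D, Δ} ∪ Finset.univ.biUnion fun j => (g j).support.image (g j).coeff) ∪
      𝒩.biUnion fun ν => (Q ν).support.image (Q ν).coeff, by simp, by simp, by simp,
      ?_, ?_, ?_⟩
    · intro j k hk
      rw [Finset.mem_union, Finset.mem_union, Finset.mem_biUnion]
      exact Or.inl (Or.inr ⟨j, Finset.mem_univ _, Finset.mem_image_of_mem _ hk⟩)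
    · intro ν hν k hk
      rw [Finset.mem_union, Finset.mem_biUnion (s := 𝒩)]
      exact Or.inr ⟨ν, hν, Finset.mem_image_of_mem _ hk⟩
    · intro F hF
      rw [Finset.mem_union, Finset.mem_union, Finset.mem_biUnion, Finset.mem_biUnion] at hF
      rcases hF with (hF | ⟨j, -, hF⟩) | ⟨ν, -, hF⟩
      · simp only [Finset.mem_insert, Finset.mem_singleton] at hF
        rcases hF with rfl | rfl | rfl
        · exact hG0
        · exact hD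
        · exact hΔ
      · obtain ⟨k, hk, rfl⟩ := Finset.mem_image.1 hF
        exact Polynomial.mem_support_iff.1 hk
      · obtain ⟨k, hk, rfl⟩ := Finset.mem_image.1 hF
        exact Polynomial.mem_support_iff.1 hk
  obtain ⟨ζ, hζ1, hζ2, hζ3⟩ := exists_dir2 p hp2 (fun j => top (Φ j)) ζ₀ hdet T
  -- constants
  have hS := fun F : {F // F ∈ T} => hSIZE s β p c ζ δ hδ hp1 F.1 (hT0 F.1 F.2)
  choose C1 hC1 hS2 using hS
  obtain ⟨S1, hS1F, hS1n⟩ : ∃ S1 : ℝ, (∀ F, C1 F ≤ S1) ∧ 0 ≤ S1 := ⟨∑ F, C1 F, fun F =>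
    Finset.single_le_sum (f := C1) (fun F _ => hC1 F) (Finset.mem_univ F),
    Finset.sum_nonneg fun F _ => hC1 F⟩
  obtain ⟨C₁, hC₁⟩ : ∃ C₁ : ℝ, C₁ = 2 * S1 + 1 := ⟨_, rfl⟩
  obtain ⟨C₀, Rp, hC₀, hRp, hpos⟩ := hPOS s Φ ζ δ hδ hΦ hζ1 hζ2 C₁
  choose C2 R2 hC2 hR2 hS3 using fun F => hS2 F C₀
  obtain ⟨S2, hS2F, hS2n⟩ : ∃ S2 : ℝ, (∀ F, C2 F ≤ S2) ∧ 0 ≤ S2 := ⟨∑ F, C2 F, fun F =>
    Finset.single_le_sum (f := C2) (fun F _ => hC2 F) (Finset.mem_univ F),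
    Finset.sum_nonneg fun F _ => hC2 F⟩
  obtain ⟨SR, hSRF, hSRn⟩ : ∃ SR : ℝ, (∀ F, R2 F ≤ SR) ∧ 0 ≤ SR := ⟨∑ F, R2 F, fun F =>
    Finset.single_le_sum (f := R2) (fun F _ => zero_le_one.trans (hR2 F)) (Finset.mem_univ F),
    Finset.sum_nonneg fun F _ => zero_le_one.trans (hR2 F)⟩
  obtain ⟨Cg, Rg, hRg, hgood⟩ := hGOOD s β p c ζ δ hδ hp1 (jac (fun j => top (Φ j)) ζ) hζ2 T
    (fun F hF => ⟨hT0 F hF, hζ3 F hF⟩) C₀
  obtain ⟨C', hC', hnewt⟩ := newt_all hNEWT g hg0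
  obtain ⟨Ch, hCh, hhaus⟩ := haus hRP s f.natDegree 𝒩 Cp hCp hpig
  obtain ⟨CH, hCH⟩ : ∃ CH : ℝ, CH = Ch * (1 + 2 * Cg + S2) := ⟨_, rfl⟩
  have hCHn : 0 ≤ CH := by rw [hCH]; positivity
  obtain ⟨K, hK0, hKs⟩ : ∃ K : ℕ → ℝ, K 0 = C₁ ∧ ∀ i, K (i + 1) = CH * (1 + C₀ * K i) :=
    ⟨fun i => Nat.rec C₁ (fun _ k => CH * (1 + C₀ * k)) i, rfl, fun i => rfl⟩
  have hC₁n : 0 ≤ C₁ := by rw [hC₁]; positivity
  have hKn : ∀ i, 0 ≤ K i := by
    intro i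
    induction i with
    | zero => rw [hK0]; exact hC₁n
    | succ i ih => rw [hKs]; positivity
  obtain ⟨nE, hnE, hnEn⟩ : ∃ nE : ℝ,
      (∀ j, (((g j).support ×ˢ (g j).support).card : ℝ) ≤ nE) ∧ 0 ≤ nE :=
    ⟨∑ j, (((g j).support ×ˢ (g j).support).card : ℝ), fun j => Finset.single_le_sum
          (f := fun j => (((g j).support ×ˢ (g j).support).card : ℝ))
          (fun j _ => by positivity) (Finset.mem_univ j),
      Finset.sum_nonneg fun j _ => by positivity⟩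
  have hKδ := hKn δ
  obtain ⟨CF, hCF⟩ : ∃ CF : ℝ, CF = 2 * (C' + 2 * Cg) * nE + 2 * K δ := ⟨_, rfl⟩
  have hCFn : 0 ≤ CF := by rw [hCF]; positivity
  have hcn : 0 ≤ ∑ j, ‖c' j‖ := Finset.sum_nonneg fun j _ => norm_nonneg _
  obtain ⟨Rl, hRl, hsol⟩ := hSOL s Φ ζ δ hδ hΦ hζ1 hζ2 C₀ (CF + (∑ j, ‖c' j‖) + Cg)
  obtain ⟨RL, hRL⟩ := log_lin C' (2 * Cg)
  -- the radius
  obtain ⟨R, hR1, hRp', hRS', hRg', hRl', hRL'⟩ :
      ∃ R : ℝ, 1 ≤ R ∧ Rp ≤ R ∧ SR ≤ R ∧ Rg ≤ R ∧ Rl ≤ R ∧ RL ≤ R := by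
    have hRLn := abs_nonneg RL
    have := le_abs_self RL
    refine ⟨Rp + SR + Rg + Rl + |RL|, ?_, ?_, ?_, ?_, ?_, ?_⟩ <;> linarith
  have hR0 : 0 < R := by linarith
  have hlogR : 0 ≤ Real.log R := Real.log_nonneg hR1
  have hRδ : R ≤ R ^ δ := by
    calc R = R ^ 1 := (pow_one R).symm
      _ ≤ R ^ δ := pow_le_pow_right₀ hR1 hδ
  have hRδ0 : 0 < R ^ δ := by positivity
  have hrad : 0 < √R / R ^ δ := by positivity
  obtain ⟨Zf, hZf⟩ := hpos R hRp'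
  obtain ⟨M, hM⟩ : ∃ M, M = jac (fun j => top (Φ j)) ζ := ⟨_, rfl⟩
  rw [← hM] at hgood hsol
  obtain ⟨good, hgooddef⟩ : ∃ good : (Fin s → ℂ) → (Fin s → ℂ) → Prop, ∀ z₀ v, good z₀ v ↔
    ∀ z : Fin s → ℂ, ‖z - (z₀ + v)‖ < √R / R ^ δ → ∀ F ∈ T, val p c z F ≠ 0 ∧
      |Real.log ‖val p c z F‖ - Real.log (size p c F z₀)| ≤ Cg * Real.log R :=
    ⟨_, fun _ _ => Iff.rfl⟩
  have hgood' : ∀ z₀ : Fin s → ℂ, ‖z₀ - sc R ζ‖ ≤ C₀ → ∃ v : Fin s → ℂ,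
      (∀ j, (M.mulVec v j).re = 0) ∧ ‖v‖ ≤ Cg * R / R ^ δ ∧ good z₀ v := by
    intro z₀ hz₀
    obtain ⟨v, h1, h2, h3⟩ := hgood R hRg' z₀ hz₀
    refine ⟨v, h1, h2, (hgooddef _ _).2 fun z hz F hF => ?_⟩
    obtain ⟨h4, h5⟩ := h3 z hz F hF
    obtain ⟨h6, h7⟩ := log_of_bounds hR1 (size_pos p c F (hT0 F hF) z₀) h4 h5
    exact ⟨norm_pos_iff.1 h6, h7⟩
  -- absolute values of roots at good points
  have H1 : ∀ z₀ v : Fin s → ℂ, ‖z₀ - sc R ζ‖ ≤ C₀ → good z₀ v → ∀ z : Fin s → ℂ,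
      ‖z - (z₀ + v)‖ < √R / R ^ δ → ∀ j, ∀ y : ℂ, ((g j).map (val p c z)).eval y = 0 →
      y ≠ 0 ∧ (∃ k ∈ (g j).support, ∃ l ∈ (g j).support, k < l ∧
        |Real.log ‖y‖ - (Real.log (size p c ((g j).coeff k) z₀) -
          Real.log (size p c ((g j).coeff l) z₀)) / ((l : ℝ) - k)| ≤
            C' + 2 * (Cg * Real.log R)) ∧ |Real.log ‖y‖| ≤ C₁ * R ^ δ := by
    intro z₀ v hz₀ hg z hz j y hy
    rw [hgooddef] at hg
    obtain ⟨h1, k, hk, l, hl, hkl, h2⟩ := hnewt (Cg * Real.log R) (val p c z)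
      (fun F => Real.log (size p c F z₀)) (fun j k hk => hg z hz _ (hgT j k hk)) j y hy
    refine ⟨h1, ⟨k, hk, l, hl, hkl, h2⟩, ?_⟩
    have h3 := (hS3 ⟨_, hgT j k hk⟩ R ((hSRF _).trans hRS') z₀ hz₀).2.1
    have h4 := (hS3 ⟨_, hgT j l hl⟩ R ((hSRF _).trans hRS') z₀ hz₀).2.1
    have h5 := hS1F ⟨_, hgT j k hk⟩
    have h6 := hS1F ⟨_, hgT j l hl⟩
    have hd : (1 : ℝ) ≤ (l : ℝ) - k := by
      have : ((k + 1 : ℕ) : ℝ) ≤ l := by exact_mod_cast hkl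
      push_cast at this
      linarith
    have h7 : |(Real.log (size p c ((g j).coeff k) z₀) -
        Real.log (size p c ((g j).coeff l) z₀)) / ((l : ℝ) - k)| ≤ 2 * S1 * R ^ δ := by
      rw [abs_div, abs_of_pos (by linarith : (0 : ℝ) < (l : ℝ) - k)]
      refine (div_le_self (abs_nonneg _) hd).trans ((abs_sub _ _).trans ?_)
      have h8 : C1 ⟨_, hgT j k hk⟩ * R ^ δ ≤ S1 * R ^ δ := by gcongr
      have h9 : C1 ⟨_, hgT j l hl⟩ * R ^ δ ≤ S1 * R ^ δ := by gcongr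
      linarith
    have h10 := hRL R hRL'
    have e1 : Real.log ‖y‖ = (Real.log ‖y‖ - (Real.log (size p c ((g j).coeff k) z₀) -
          Real.log (size p c ((g j).coeff l) z₀)) / ((l : ℝ) - k)) +
        (Real.log (size p c ((g j).coeff k) z₀) -
          Real.log (size p c ((g j).coeff l) z₀)) / ((l : ℝ) - k) := by ring
    rw [e1]
    refine (abs_add_le _ _).trans ?_
    nlinarith [h2, h7, h10, hRδ, mul_nonneg hS1n hRδ0.le]
  have Hc : ∀ z₀ v : Fin s → ℂ, ‖z₀ + v - (z₀ + v)‖ < √R / R ^ δ := by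
    intro z₀ v
    rw [sub_self, norm_zero]
    exact hrad
  have HN : ∀ z₀ v : Fin s → ℂ, ‖z₀ - sc R ζ‖ ≤ C₀ → good z₀ v → ∀ z : Fin s → ℂ,
      ‖z - (z₀ + v)‖ < √R / R ^ δ → ∀ t : ℂ, (f.map (val p c z)).eval t = 0 →
      ∀ j, ((N j).map (val p c z)).eval t ≠ 0 := by
    intro z₀ v hz₀ hg z hz t ht j h0
    have h1 := (H1 z₀ v hz₀ hg z hz j _ (hgN j z t ht ((hgooddef _ _).1 hg z hz D hDT).1)).1
    rw [yv, h0, zero_div] at h1
    exact h1 rfl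
  -- comparison of two good points
  have H2 : ∀ z₀ v z₀' v' : Fin s → ℂ, ‖z₀ - sc R ζ‖ ≤ C₀ → good z₀ v →
      ‖z₀' - sc R ζ‖ ≤ C₀ → good z₀' v' → ∀ t : ℂ, (f.map (val p c (z₀ + v))).eval t = 0 →
      ∃ t' : ℂ, (f.map (val p c (z₀' + v'))).eval t' = 0 ∧ ∀ j,
        |Real.log ‖yv p c (N j) D (z₀ + v) t‖ - Real.log ‖yv p c (N j) D (z₀' + v') t'‖| ≤
          CH * (1 + Real.log R + R ^ δ / R * ‖z₀ - z₀'‖) := by
    intro z₀ v z₀' v' hz₀ hgg hz₀' hgg' t ht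
    have hg := (hgooddef _ _).1 hgg
    have hg' := (hgooddef _ _).1 hgg'
    obtain ⟨η, hη⟩ : ∃ η : ℝ, η = 2 * (Cg * Real.log R) + S2 * (R ^ δ / R) * ‖z₀ - z₀'‖ :=
      ⟨_, rfl⟩
    have hηn : 0 ≤ η := by rw [hη]; positivity
    have hcmp : ∀ F ∈ T, |Real.log ‖val p c (z₀ + v) F‖ - Real.log ‖val p c (z₀' + v') F‖| ≤ η := by
      intro F hF
      have h1 := (hg _ (Hc z₀ v) F hF).2
      have h2 := (hg' _ (Hc z₀' v') F hF).2
      have h3 := (hS3 ⟨F, hF⟩ R ((hSRF _).trans hRS') z₀ hz₀).2.2 z₀' hz₀'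
      have h4 : C2 ⟨F, hF⟩ * (R ^ δ / R) * ‖z₀ - z₀'‖ ≤ S2 * (R ^ δ / R) * ‖z₀ - z₀'‖ := by
        gcongr
        exact hS2F _
      have h5 : |Real.log (size p c F z₀) - Real.log (size p c F z₀')| ≤
          S2 * (R ^ δ / R) * ‖z₀ - z₀'‖ := h3.trans h4
      rw [abs_le] at h1 h2 h5 ⊢
      constructor <;> linarith [h1.1, h1.2, h2.1, h2.2, h5.1, h5.2]
    obtain ⟨t', ht', h6⟩ := hhaus _ f N D Q hf rfl hQd hQ0 hQ (val p c (z₀ + v))
      (val p c (z₀' + v')) η hηn (fun ν hν k hk => ⟨(hg _ (Hc z₀ v) _ (hQT ν hν k hk)).1,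
        (hg' _ (Hc z₀' v') _ (hQT ν hν k hk)).1, hcmp _ (hQT ν hν k hk)⟩)
      (hg _ (Hc z₀ v) D hDT).1 (hg' _ (Hc z₀' v') D hDT).1 (hcmp D hDT)
      (HN z₀ v hz₀ hgg _ (Hc z₀ v)) (HN z₀' v' hz₀' hgg' _ (Hc z₀' v')) t ht
    refine ⟨t', ht', fun j => (h6 j).trans ?_⟩
    rw [hCH, mul_assoc]
    refine mul_le_mul_of_nonneg_left ?_ hCh
    rw [hη]
    have h7 : 0 ≤ R ^ δ / R * ‖z₀ - z₀'‖ := by positivity
    have h8 : (0 : ℝ) ≤ Cg := by positivity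
    nlinarith [mul_nonneg h8 hlogR, mul_nonneg h8 h7, mul_nonneg hS2n hlogR]
  -- iteration
  have H3 : ∀ i : ℕ, ∃ (σ : Fin s → ℝ) (v : Fin s → ℂ) (t : ℂ), (∀ j, |σ j| ≤ C₁ * R ^ δ) ∧
      (∀ j, (M.mulVec v j).re = 0) ∧ ‖v‖ ≤ Cg * R / R ^ δ ∧ good (Zf σ) v ∧
      (f.map (val p c (Zf σ + v))).eval t = 0 ∧
      ∀ j, |Real.log ‖yv p c (N j) D (Zf σ + v) t‖ - σ j| ≤
        K i * (1 + Real.log R + R ^ δ / R ^ i) := by
    intro i
    induction i with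
    | zero =>
      have h0 : ∀ j : Fin s, |(0 : Fin s → ℝ) j| ≤ C₁ * R ^ δ := by
        intro j
        simp only [Pi.zero_apply, abs_zero]
        positivity
      obtain ⟨v, h1, h2, h3⟩ := hgood' (Zf 0) (hZf 0 h0).1
      have hdeg : (f.map (val p c (Zf 0 + v))).degree ≠ 0 := by
        rw [Polynomial.Monic.degree_map hf]
        intro h0
        have := Polynomial.natDegree_eq_zero_iff_degree_le_zero.mpr h0.le
        omega
      obtain ⟨t, ht⟩ := IsAlgClosed.exists_root _ hdeg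
      refine ⟨0, v, t, h0, h1, h2, h3, ht, fun j => ?_⟩
      have h4 := (H1 (Zf 0) v (hZf 0 h0).1 h3 _ (Hc _ _) j _
        (hgN j _ _ ht ((hgooddef _ _).1 h3 _ (Hc _ _) D hDT).1)).2.2
      rw [Pi.zero_apply, sub_zero, pow_zero, div_one, hK0]
      nlinarith [mul_nonneg hC₁n hlogR]
    | succ i ih =>
      obtain ⟨σ, v, t, hσ, hv1, hv2, hg, ht, hσt⟩ := ih
      obtain ⟨σ', hσ'⟩ : ∃ σ' : Fin s → ℝ, ∀ j,
        σ' j = Real.log ‖yv p c (N j) D (Zf σ + v) t‖ := ⟨_, fun _ => rfl⟩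
      have hσ'1 : ∀ j, |σ' j| ≤ C₁ * R ^ δ := fun j => by
        rw [hσ']
        exact (H1 (Zf σ) v (hZf σ hσ).1 hg _ (Hc _ _) j _
          (hgN j _ _ ht ((hgooddef _ _).1 hg _ (Hc _ _) D hDT).1)).2.2
      obtain ⟨v', h1, h2, h3⟩ := hgood' (Zf σ') (hZf σ' hσ'1).1
      obtain ⟨t', ht', h4⟩ := H2 (Zf σ) v (Zf σ') v' (hZf σ hσ).1 hg (hZf σ' hσ'1).1 h3 t ht
      refine ⟨σ', v', t', hσ'1, h1, h2, h3, ht', fun j => ?_⟩
      have h5 := h4 j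
      rw [abs_sub_comm, ← hσ'] at h5
      refine h5.trans ?_
      have h6 := (hZf σ hσ).2.2 σ' hσ'1
      have h7 : ‖σ - σ'‖ ≤ K i * (1 + Real.log R + R ^ δ / R ^ i) := by
        rw [pi_norm_le_iff_of_nonneg (by have := hKn i; positivity)]
        intro j
        rw [Pi.sub_apply, Real.norm_eq_abs, abs_sub_comm, hσ']
        exact hσt j
      have h8 : R ^ δ / R * ‖Zf σ - Zf σ'‖ ≤
          C₀ * (K i * (1 + Real.log R + R ^ δ / R ^ (i + 1))) := by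
        calc R ^ δ / R * ‖Zf σ - Zf σ'‖
            ≤ R ^ δ / R * (C₀ * (K i * (1 + Real.log R + R ^ δ / R ^ i)) / R ^ δ) := by
              refine mul_le_mul_of_nonneg_left (h6.trans ?_) (by positivity)
              gcongr
          _ = C₀ * (K i * ((1 + Real.log R) / R + R ^ δ / R ^ (i + 1))) := by
              rw [pow_succ]
              field_simp
          _ ≤ C₀ * (K i * (1 + Real.log R + R ^ δ / R ^ (i + 1))) := by
              have := hKn i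
              gcongr
              exact div_le_self (by positivity) hR1
      rw [hKs]
      have h9 : 0 ≤ R ^ δ / R ^ (i + 1) := by positivity
      have h10 : 0 ≤ C₀ * K i := mul_nonneg hC₀ (hKn i)
      rw [mul_assoc]
      refine mul_le_mul_of_nonneg_left ?_ hCHn
      nlinarith [mul_nonneg h10 h9, mul_nonneg h10 hlogR]
  -- the last point
  obtain ⟨σ, v, t, hσ, hv1, hv2, hgg, ht, hσt⟩ := H3 δ
  obtain ⟨hz1, hz2, -⟩ := hZf σ hσ
  obtain ⟨z₀, hz₀⟩ : ∃ z₀, z₀ = Zf σ := ⟨_, rfl⟩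
  rw [← hz₀] at hz1 hz2 hgg ht hσt
  have hg := (hgooddef _ _).1 hgg
  have hmem : ∀ z ∈ ball (z₀ + v) (√R / R ^ δ), ‖z - (z₀ + v)‖ < √R / R ^ δ := by
    intro z hz
    rw [mem_ball, dist_eq_norm] at hz
    exact hz
  obtain ⟨Z, hZ1, hZ2⟩ := transport2 hROOT hCHAIN p c f U W D Δ N g hf hUW hgN
    (ball (z₀ + v) (√R / R ^ δ)) isOpen_ball (convex_ball _ _)
    (fun w hw => (hg w (hmem w hw) Δ hΔT).1) (fun w hw => (hg w (hmem w hw) D hDT).1)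
    (fun j => ((g j).support ×ˢ (g j).support).image fun kl : ℕ × ℕ =>
      (Real.log (size p c ((g j).coeff kl.1) z₀) -
        Real.log (size p c ((g j).coeff kl.2) z₀)) / ((kl.2 : ℝ) - kl.1))
    (C' + 2 * (Cg * Real.log R)) (by positivity)
    (by
      intro w hw j y hy
      obtain ⟨h1, ⟨k, hk, l, hl, -, h2⟩, -⟩ := H1 z₀ v hz1 hgg w (hmem w hw) j y hy
      exact ⟨h1, _, Finset.mem_image.2 ⟨(k, l), Finset.mk_mem_product hk hl, rfl⟩, h2⟩)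
    (z₀ + v) (mem_ball_self hrad) t ht
  have hlog : ∀ j, ∃ L : (Fin s → ℂ) → ℂ,
      DifferentiableOn ℂ L (ball (z₀ + v) (√R / R ^ δ)) ∧
      ∀ w ∈ ball (z₀ + v) (√R / R ^ δ), Complex.exp (L w) = yv p c (N j) D w (Z w) := fun j =>
    Pool.Agent.K3h60.EX.t_LOG s _ _ isOpen_ball (convex_ball _ _)
      (hZ2 j).1 (fun w hw => ((hZ2 j).2 w hw).1)
  choose L hLd hL using hlog
  obtain ⟨w, hw, hsolw⟩ := hsol R hRl' z₀ v hz1 hv1 (by
      refine hv2.trans ?_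
      gcongr
      linarith) (fun j w => L j w - c' j)
    (fun j => (hLd j).sub_const _) (by
      intro j w hw
      have h1 := ((hZ2 j).2 w hw).2
      rw [← hL j w hw, Complex.norm_exp, Real.log_exp] at h1
      have h2 : |(c' j).re| ≤ ∑ j, ‖c' j‖ := (Complex.abs_re_le_norm _).trans
        (Finset.single_le_sum (f := fun j => ‖c' j‖) (fun j _ => norm_nonneg _)
          (Finset.mem_univ j))
      have h3 := hσt j
      rw [div_self hRδ0.ne'] at h3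
      have h4 : ((((g j).support ×ˢ (g j).support).image fun kl : ℕ × ℕ =>
          (Real.log (size p c ((g j).coeff kl.1) z₀) -
            Real.log (size p c ((g j).coeff kl.2) z₀)) / ((kl.2 : ℝ) - kl.1)).card : ℝ) ≤ nE := by
        have h5 : ((((g j).support ×ˢ (g j).support).image fun kl : ℕ × ℕ =>
          (Real.log (size p c ((g j).coeff kl.1) z₀) -
            Real.log (size p c ((g j).coeff kl.2) z₀)) / ((kl.2 : ℝ) - kl.1)).card : ℝ) ≤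
            (((g j).support ×ˢ (g j).support).card : ℝ) := by
          exact_mod_cast Finset.card_image_le
        exact h5.trans (hnE j)
      have h6 : |(L j w).re - Real.log ‖yv p c (N j) D (z₀ + v) t‖| ≤
          2 * (C' + 2 * (Cg * Real.log R)) * nE :=
        h1.trans (mul_le_mul_of_nonneg_left h4 (by positivity))
      have h7 : 2 * (C' + 2 * (Cg * Real.log R)) * nE ≤
          2 * (C' + 2 * Cg) * nE * (1 + Real.log R) := by
        have h8 : (0 : ℝ) ≤ Cg := by positivity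
        nlinarith [mul_nonneg hC' hnEn, mul_nonneg h8 hnEn,
          mul_nonneg (mul_nonneg hC' hnEn) hlogR, mul_nonneg (mul_nonneg h8 hnEn) hlogR]
      have h9 : K δ * (1 + Real.log R + 1) ≤ 2 * K δ * (1 + Real.log R) := by
        nlinarith [mul_nonneg hKδ hlogR]
      rw [hz2 j, Complex.sub_re]
      have e1 : (L j w).re - (c' j).re - σ j =
          ((L j w).re - Real.log ‖yv p c (N j) D (z₀ + v) t‖) +
          (Real.log ‖yv p c (N j) D (z₀ + v) t‖ - σ j) - (c' j).re := by ring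
      rw [e1]
      refine (abs_sub _ _).trans ((add_le_add ((abs_add_le _ _).trans (add_le_add h6 h3))
        h2).trans ?_)
      have h10 : (0 : ℝ) ≤ Cg := by positivity
      rw [hCF]
      nlinarith [mul_nonneg hcn hlogR, mul_nonneg h10 hlogR])
  refine ⟨w, Z w, (hg w (hmem w hw) G0 hG0T).1, (hg w (hmem w hw) D hDT).1, hZ1 w hw,
    fun j => ?_⟩
  obtain ⟨n', hn'⟩ := hsolw j
  rw [← hL j w hw]
  have e2 : eval w (Φ j) + c' j = L j w + n' * (2 * Real.pi * Complex.I) := by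
    linear_combination hn'
  rw [e2, Complex.exp_add, Complex.exp_int_mul_two_pi_mul_I, mul_one]

end Pool.Agent.K3h53.UG
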