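import Pool.Agent.K3h53.UG.Cls
import Pool.Agent.K3h43.EX.Hroot

/-! UG project: continuation of roots on convex open sets. -/

set_option autoImplicit false

namespace Pool.Agent.K3h53.UG

open MvPolynomial Filter Topology Metric Set Pool.Agent.K3h22.EX

theorem sc_one {s : ℕ} (v : Fin s → ℂ) : sc 1 v = v := by
  funext i
  simp [sc]

theorem val_diff {s : ℕ} {β : Type} [Fintype β] (p : β → MvPolynomial (Fin s) ℂ) (c : β → ℂ)
    (G : MvPolynomial β (MvPolynomial (Fin s) ℂ)) (ζ : Fin s → ℂ) (R : ℝ) :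
    Differentiable ℂ fun w : Fin s → ℂ => val p c (pt ζ R w) G := by
  have h1 := (Pool.Agent.K3h43.EX.t_VALHOL s β p c G 1).differentiable one_ne_zero
  have h2 : Differentiable ℂ fun w : Fin s → ℂ => pt ζ R w := by
    unfold pt
    fun_prop
  have h3 := h1.comp h2
  simp only [Function.comp_def, sc_one] at h3
  exact h3

/-- the algebraic function `N(t)/D` at the point `z` -/
noncomputable def yv {s : ℕ} {β : Type} (p : β → MvPolynomial (Fin s) ℂ) (c : β → ℂ)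
    (N : Polynomial (MvPolynomial β (MvPolynomial (Fin s) ℂ)))
    (D : MvPolynomial β (MvPolynomial (Fin s) ℂ)) (z : Fin s → ℂ) (t : ℂ) : ℂ :=
  (N.map (val p c z)).eval t / val p c z D

theorem transport (hROOT : S_ROOT) (hCLS : S_CLS) {s : ℕ} {β : Type} [Fintype β]
    (p : β → MvPolynomial (Fin s) ℂ) (c : β → ℂ) (ζ : Fin s → ℂ) (R : ℝ)
    (f U W : Polynomial (MvPolynomial β (MvPolynomial (Fin s) ℂ)))
    (D Δ : MvPolynomial β (MvPolynomial (Fin s) ℂ))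
    (N g : Fin s → Polynomial (MvPolynomial β (MvPolynomial (Fin s) ℂ)))
    (hf : f.Monic) (hUW : U * f + W * Polynomial.derivative f = Polynomial.C Δ)
    (hgN : ∀ (j : Fin s) (z : Fin s → ℂ) (t : ℂ), (f.map (val p c z)).eval t = 0 →
      val p c z D ≠ 0 → ((g j).map (val p c z)).eval (yv p c (N j) D z t) = 0)
    (Ω : Set (Fin s → ℂ)) (hΩ : IsOpen Ω) (hΩc : Convex ℝ Ω)
    (hΔ : ∀ w ∈ Ω, val p c (pt ζ R w) Δ ≠ 0) (hD : ∀ w ∈ Ω, val p c (pt ζ R w) D ≠ 0)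
    (E : Fin s → Finset (ℝ × ℝ)) (C' : ℝ)
    (hcls : ∀ w ∈ Ω, ∀ j, ∀ y : ℂ, ((g j).map (val p c (pt ζ R w))).eval y = 0 →
      y ≠ 0 ∧ ∃ e ∈ E j, |Real.log ‖y‖ - gr e R| ≤ C')
    (hsep : ∀ j, ∀ e ∈ E j, ∀ e' ∈ E j, e ≠ e' → 2 * C' < |gr e R - gr e' R|)
    (w₀ : Fin s → ℂ) (hw₀ : w₀ ∈ Ω) (t₀ : ℂ)
    (ht₀ : (f.map (val p c (pt ζ R w₀))).eval t₀ = 0) (e : Fin s → ℝ × ℝ) (he : ∀ j, e j ∈ E j)
    (hcl : ∀ j, |Real.log ‖yv p c (N j) D (pt ζ R w₀) t₀‖ - gr (e j) R| ≤ C') :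
    ∃ Z : (Fin s → ℂ) → ℂ, Z w₀ = t₀ ∧
      (∀ w ∈ Ω, (f.map (val p c (pt ζ R w))).eval (Z w) = 0) ∧
      ∀ j, DifferentiableOn ℂ (fun w => yv p c (N j) D (pt ζ R w) (Z w)) Ω ∧
        ∀ w ∈ Ω, yv p c (N j) D (pt ζ R w) (Z w) ≠ 0 ∧
          |Real.log ‖yv p c (N j) D (pt ζ R w) (Z w)‖ - gr (e j) R| ≤ C' := by
  classical
  obtain ⟨Z, hZd, hZ0, hZ⟩ := hROOT s β p c f U W Δ hf hUW R ζ Ω hΩ hΩc hΔ w₀ hw₀ t₀ ht₀
  refine ⟨Z, hZ0, hZ, fun j => ?_⟩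
  have hd : DifferentiableOn ℂ (fun w => yv p c (N j) D (pt ζ R w) (Z w)) Ω := by
    have e0 : (fun w => yv p c (N j) D (pt ζ R w) (Z w)) =
        fun w => ((N j).map (val p c (pt ζ R w))).eval (Z w) * (val p c (pt ζ R w) D)⁻¹ := by
      funext w
      rw [yv, div_eq_mul_inv]
    rw [e0]
    refine DifferentiableOn.mul ?_ ((val_diff p c D ζ R).differentiableOn.fun_inv hD)
    have e1 : (fun w => ((N j).map (val p c (pt ζ R w))).eval (Z w)) =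
        fun w => ∑ k ∈ (N j).support, val p c (pt ζ R w) ((N j).coeff k) * Z w ^ k := by
      funext w
      rw [Polynomial.eval_map, Polynomial.eval₂_eq_sum, Polynomial.sum_def]
    rw [e1]
    refine DifferentiableOn.fun_sum fun k _ => ?_
    exact (val_diff p c _ ζ R).differentiableOn.mul (hZd.pow k)
  have hy : ∀ w ∈ Ω, yv p c (N j) D (pt ζ R w) (Z w) ≠ 0 ∧
      ∃ e ∈ E j, |Real.log ‖yv p c (N j) D (pt ζ R w) (Z w)‖ - gr e R| ≤ C' := by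
    intro w hw
    exact hcls w hw j _ (hgN j _ _ (hZ w hw) (hD w hw))
  refine ⟨hd, fun w hw => ⟨(hy w hw).1, ?_⟩⟩
  have hcont : ContinuousOn (fun w => Real.log ‖yv p c (N j) D (pt ζ R w) (Z w)‖) Ω := by
    refine ContinuousOn.log hd.continuousOn.norm fun w hw => ?_
    exact norm_ne_zero_iff.2 (hy w hw).1
  refine hCLS s Ω _ ((E j).image fun e => gr e R) C' hΩc.isPreconnected hcont ?_ ?_ w₀ hw₀
    (gr (e j) R) (Finset.mem_image_of_mem _ (he j)) ?_ w hw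
  · intro w hw
    obtain ⟨e1, he1, h1⟩ := (hy w hw).2
    exact ⟨_, Finset.mem_image_of_mem _ he1, h1⟩
  · intro a ha b hb hab
    obtain ⟨e1, he1, rfl⟩ := Finset.mem_image.1 ha
    obtain ⟨e2, he2, rfl⟩ := Finset.mem_image.1 hb
    exact hsep j e1 he1 e2 he2 fun h => hab (by rw [h])
  · simp only [hZ0]
    exact hcl j

end Pool.Agent.K3h53.UG
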