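import Pool.Agent.K3h53.UG.Stm2
import Pool.Agent.K3h53.UG.Trans
import Pool.Agent.K3h53.UG.Dir
import Pool.Agent.K3h60.EX.LogBC

/-! UG project, second part: preparations for the core. -/

set_option autoImplicit false

namespace Pool.Agent.K3h53.UG

open MvPolynomial Filter Topology Metric Set Pool.Agent.K3h22.EX

theorem size_pos {s : ℕ} {β : Type} [Fintype β] (p : β → MvPolynomial (Fin s) ℂ) (c : β → ℂ)
    (F : MvPolynomial β (MvPolynomial (Fin s) ℂ)) (hF : F ≠ 0) (z : Fin s → ℂ) :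
    0 < size p c F z := by
  unfold size
  refine Finset.sum_pos (fun m _ => ?_) (support_nonempty.2 hF)
  rw [norm_pos_iff]
  exact Complex.exp_ne_zero _

/-- one direction in general position for finitely many exponential polynomials -/
theorem exists_dir2 {s : ℕ} {β : Type} [Fintype β] (p : β → MvPolynomial (Fin s) ℂ)
    (hp2 : ∀ m : β → ℤ, m ≠ 0 → 0 < (∑ b, (m b : MvPolynomial (Fin s) ℂ) * p b).totalDegree)
    (Φ : Fin s → MvPolynomial (Fin s) ℂ) (ζ₀ : Fin s → ℂ)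
    (h0 : (jac Φ ζ₀).det ≠ 0) (T : Finset (MvPolynomial β (MvPolynomial (Fin s) ℂ))) :
    ∃ ζ : Fin s → ℂ, (∀ j, (eval ζ (Φ j)).re = 0) ∧ (jac Φ ζ).det ≠ 0 ∧
      ∀ G ∈ T, Gen p ζ G := by
  classical
  have hpair : ∀ m m' : β →₀ ℕ, m ≠ m' → 0 < (expo p m - expo p m').totalDegree := by
    intro m m' hne
    rw [Pool.Agent.K3h91.EX.expo_sub]
    refine hp2 (fun b => (m b : ℤ) - (m' b : ℤ)) fun h => hne ?_
    ext b
    have := congrFun h b
    simp only [Pi.zero_apply] at this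
    omega
  have hpair0 : ∀ m m' : β →₀ ℕ, m ≠ m' → top (expo p m - expo p m') ≠ 0 := by
    intro m m' hne
    apply Pool.Agent.K3h91.EX.top_ne_zero
    intro h
    have := hpair m m' hne
    rw [h, totalDegree_zero] at this
    exact lt_irrefl _ this
  obtain ⟨ζ, h1, h2, h3⟩ := exists_dir Φ ζ₀ h0
    (∏ G ∈ T, ((∏ m ∈ G.support, top (coeff m G)) *
      ∏ m ∈ G.support, ∏ m' ∈ G.support.erase m, top (expo p m - expo p m'))) (by
      rw [Finset.prod_ne_zero_iff]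
      intro G _
      refine mul_ne_zero ?_ ?_
      · rw [Finset.prod_ne_zero_iff]
        intro m hm
        exact Pool.Agent.K3h91.EX.top_ne_zero (mem_support_iff.1 hm)
      · rw [Finset.prod_ne_zero_iff]
        intro m _
        rw [Finset.prod_ne_zero_iff]
        intro m' hm'
        exact hpair0 m m' (Finset.ne_of_mem_erase hm').symm)
  refine ⟨ζ, h1, h2, fun G hG => ?_⟩
  rw [map_prod, Finset.prod_ne_zero_iff] at h3
  have h4 := h3 G hG
  rw [map_mul] at h4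
  obtain ⟨h5, h6⟩ := mul_ne_zero_iff.1 h4
  rw [map_prod, Finset.prod_ne_zero_iff] at h5 h6
  refine ⟨h5, fun m hm m' hm' hne => ⟨hpair m m' hne, ?_⟩⟩
  have h7 := h6 m hm
  rw [map_prod, Finset.prod_ne_zero_iff] at h7
  exact h7 m' (Finset.mem_erase.2 ⟨hne.symm, hm'⟩)

/-- logarithmic form of two-sided bounds -/
theorem log_of_bounds {C : ℕ} {R S V : ℝ} (hR : 1 ≤ R) (hS : 0 < S) (h1 : S ≤ R ^ C * V)
    (h2 : V ≤ R ^ C * S) : 0 < V ∧ |Real.log V - Real.log S| ≤ C * Real.log R := by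
  have hRC : 0 < R ^ C := by positivity
  have hV : 0 < V := by
    by_contra hcon
    push Not at hcon
    have : R ^ C * V ≤ 0 := mul_nonpos_of_nonneg_of_nonpos hRC.le hcon
    linarith
  refine ⟨hV, ?_⟩
  have h3 := Real.log_le_log hS h1
  have h4 := Real.log_le_log hV h2
  rw [Real.log_mul hRC.ne' hV.ne', Real.log_pow] at h3
  rw [Real.log_mul hRC.ne' hS.ne', Real.log_pow] at h4
  rw [abs_le]
  constructor <;> linarith

/-- the growth of roots -/
theorem newt_log (hN : S_NEWT) {A : Type} [CommRing A] (g : Polynomial A)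
    (hg0 : g.coeff 0 ≠ 0) : ∃ C' : ℝ, 0 ≤ C' ∧ ∀ (L : ℝ) (χ : A →+* ℂ) (ls : A → ℝ),
    (∀ k ∈ g.support, χ (g.coeff k) ≠ 0 ∧ |Real.log ‖χ (g.coeff k)‖ - ls (g.coeff k)| ≤ L) →
    ∀ y : ℂ, (g.map χ).eval y = 0 → y ≠ 0 ∧ ∃ k ∈ g.support, ∃ l ∈ g.support, k < l ∧
      |Real.log ‖y‖ - (ls (g.coeff k) - ls (g.coeff l)) / ((l : ℝ) - k)| ≤ C' + 2 * L := by
  classical
  obtain ⟨C', hC', h1⟩ := hN g.natDegree 1 1 one_pos
  refine ⟨C', hC', fun L χ ls hχ y hy => ?_⟩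
  obtain ⟨h2, k, hk, l, hl, hkl, h3⟩ := h1 g.support
    (fun k => ‖χ (g.coeff k)‖) (fun k => χ (g.coeff k))
    (fun k hk => ⟨norm_pos_iff.2 (hχ k hk).1, by rw [one_mul], by rw [one_mul]⟩)
    (fun k hk => Polynomial.le_natDegree_of_mem_supp k hk)
    (by rw [Polynomial.mem_support_iff]; exact hg0) y (by
      rw [Polynomial.eval_map, Polynomial.eval₂_eq_sum, Polynomial.sum_def] at hy
      exact hy)
  refine ⟨h2, k, hk, l, hl, hkl, ?_⟩
  have h4 := (hχ k hk).2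
  have h5 := (hχ l hl).2
  have hd : (1 : ℝ) ≤ (l : ℝ) - k := by
    have : ((k + 1 : ℕ) : ℝ) ≤ l := by exact_mod_cast hkl
    push_cast at this
    linarith
  have h6 : |(Real.log ‖χ (g.coeff k)‖ - Real.log ‖χ (g.coeff l)‖) / ((l : ℝ) - k) -
      (ls (g.coeff k) - ls (g.coeff l)) / ((l : ℝ) - k)| ≤ 2 * L := by
    rw [← sub_div, abs_div, abs_of_pos (by linarith : (0 : ℝ) < (l : ℝ) - k)]
    refine (div_le_self (abs_nonneg _) hd).trans ?_
    have e : Real.log ‖χ (g.coeff k)‖ - Real.log ‖χ (g.coeff l)‖ -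
        (ls (g.coeff k) - ls (g.coeff l)) = (Real.log ‖χ (g.coeff k)‖ - ls (g.coeff k)) -
        (Real.log ‖χ (g.coeff l)‖ - ls (g.coeff l)) := by ring
    rw [e]
    refine (abs_sub _ _).trans ?_
    linarith
  have e2 : Real.log ‖y‖ - (ls (g.coeff k) - ls (g.coeff l)) / ((l : ℝ) - k) =
      (Real.log ‖y‖ - (Real.log ‖χ (g.coeff k)‖ - Real.log ‖χ (g.coeff l)‖) / ((l : ℝ) - k)) +
      ((Real.log ‖χ (g.coeff k)‖ - Real.log ‖χ (g.coeff l)‖) / ((l : ℝ) - k) -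
      (ls (g.coeff k) - ls (g.coeff l)) / ((l : ℝ) - k)) := by ring
  rw [e2]
  refine (abs_add_le _ _).trans ?_
  linarith

end Pool.Agent.K3h53.UG
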