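import Pool.Agent.K3h53.UG.Core2a

/-! UG project, second part: auxiliary statements for the core. -/

set_option autoImplicit false

namespace Pool.Agent.K3h53.UG

open MvPolynomial Filter Topology Metric Set Pool.Agent.K3h22.EX

theorem pt_zero {s : ℕ} (w : Fin s → ℂ) : pt 0 1 w = w := by
  funext i
  simp [pt]

/-- some point outside the zero set -/
theorem exists_val_ne (hGOOD : S_GOOD) {s : ℕ} {β : Type} [Fintype β]
    (p : β → MvPolynomial (Fin s) ℂ) (c : β → ℂ) (δ : ℕ) (hδ : 1 ≤ δ)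
    (hp1 : ∀ b, (p b).totalDegree ≤ δ)
    (hp2 : ∀ m : β → ℤ, m ≠ 0 → 0 < (∑ b, (m b : MvPolynomial (Fin s) ℂ) * p b).totalDegree)
    (Φ : Fin s → MvPolynomial (Fin s) ℂ) (ζ₀ : Fin s → ℂ) (h0 : (jac Φ ζ₀).det ≠ 0)
    (F : MvPolynomial β (MvPolynomial (Fin s) ℂ)) (hF : F ≠ 0) : ∃ z, val p c z F ≠ 0 := by
  obtain ⟨ζ, -, -, h3⟩ := exists_dir2 p hp2 Φ ζ₀ h0 {F}
  obtain ⟨C, R₀, hR₀, h4⟩ := hGOOD s β p c ζ δ hδ hp1 1 (by simp) {F} (by
    intro G hG
    rw [Finset.mem_singleton] at hG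
    subst hG
    exact ⟨hF, h3 _ (Finset.mem_singleton_self _)⟩) 0
  obtain ⟨v, -, -, h5⟩ := h4 R₀ le_rfl (sc R₀ ζ) (by simp)
  refine ⟨sc R₀ ζ + v, ?_⟩
  have hRp : 0 < R₀ := by linarith
  have h6 := (h5 (sc R₀ ζ + v) (by
    rw [sub_self, norm_zero]
    positivity) F (Finset.mem_singleton_self _)).1
  have h7 := size_pos p c F hF (sc R₀ ζ)
  intro h8
  rw [h8, norm_zero, mul_zero] at h6
  exact absurd h7 (not_lt.2 h6)

/-- the polynomials `Q ν` whose roots are the products of powers of the `N_j` -/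
theorem exists_Q (hCOMP : S_COMP) (hGOOD : S_GOOD) {s : ℕ} {β : Type} [Fintype β]
    (p : β → MvPolynomial (Fin s) ℂ) (c : β → ℂ) (δ : ℕ) (hδ : 1 ≤ δ)
    (hp1 : ∀ b, (p b).totalDegree ≤ δ)
    (hp2 : ∀ m : β → ℤ, m ≠ 0 → 0 < (∑ b, (m b : MvPolynomial (Fin s) ℂ) * p b).totalDegree)
    (Φ : Fin s → MvPolynomial (Fin s) ℂ) (ζ₀ : Fin s → ℂ) (h0 : (jac Φ ζ₀).det ≠ 0)
    (f : Polynomial (MvPolynomial β (MvPolynomial (Fin s) ℂ)))
    (D : MvPolynomial β (MvPolynomial (Fin s) ℂ))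
    (N g : Fin s → Polynomial (MvPolynomial β (MvPolynomial (Fin s) ℂ)))
    (hf : f.Monic) (hf0 : 0 < f.natDegree) (hD : D ≠ 0) (hg0 : ∀ j, (g j).coeff 0 ≠ 0)
    (hgN : ∀ (j : Fin s) (z : Fin s → ℂ) (t : ℂ), (f.map (val p c z)).eval t = 0 →
      val p c z D ≠ 0 → ((g j).map (val p c z)).eval (yv p c (N j) D z t) = 0)
    (ν : Fin s → ℕ) :
    ∃ Q : Polynomial (MvPolynomial β (MvPolynomial (Fin s) ℂ)), Q.natDegree = f.natDegree ∧
      Q.coeff 0 ≠ 0 ∧ ∀ χ : MvPolynomial β (MvPolynomial (Fin s) ℂ) →+* ℂ,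
      (∀ t : ℂ, (f.map χ).eval t = 0 →
        (Q.map χ).eval (∏ j, (((N j).map χ).eval t) ^ ν j) = 0) ∧
      ∀ u : ℂ, (Q.map χ).eval u = 0 → ∃ t : ℂ, (f.map χ).eval t = 0 ∧
        ∏ j, (((N j).map χ).eval t) ^ ν j = u := by
  classical
  obtain ⟨Q, hQm, hQd, hQ⟩ := hCOMP _ f (∏ j, N j ^ ν j) hf hf0
  have e0 : ∀ (χ : MvPolynomial β (MvPolynomial (Fin s) ℂ) →+* ℂ) (t : ℂ),
      (((∏ j, N j ^ ν j)).map χ).eval t = ∏ j, (((N j).map χ).eval t) ^ ν j := by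
    intro χ t
    rw [Polynomial.map_prod, Polynomial.eval_prod]
    exact Finset.prod_congr rfl fun j _ => by rw [Polynomial.map_pow, Polynomial.eval_pow]
  simp only [e0] at hQ
  refine ⟨Q, hQd, ?_, hQ⟩
  intro hc
  obtain ⟨z, hz⟩ := exists_val_ne hGOOD p c δ hδ hp1 hp2 Φ ζ₀ h0 (D * ∏ j, (g j).coeff 0)
    (mul_ne_zero hD (Finset.prod_ne_zero_iff.2 fun j _ => hg0 j))
  rw [map_mul, map_prod] at hz
  obtain ⟨hzD, hzg⟩ := mul_ne_zero_iff.1 hz
  rw [Finset.prod_ne_zero_iff] at hzg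
  obtain ⟨t, ht, hprod⟩ := (hQ (val p c z)).2 0 (by
    rw [← Polynomial.coeff_zero_eq_eval_zero, Polynomial.coeff_map, hc, map_zero])
  rw [Finset.prod_eq_zero_iff] at hprod
  obtain ⟨j, -, hj⟩ := hprod
  have hj' : ((N j).map (val p c z)).eval t = 0 := eq_zero_of_pow_eq_zero hj
  have h1 := hgN j z t ht hzD
  rw [yv, hj', zero_div, ← Polynomial.coeff_zero_eq_eval_zero, Polynomial.coeff_map] at h1
  exact hzg j (Finset.mem_univ _) h1

/-- closeness of the roots at two specialisations -/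
theorem haus (hRP : S_RP) (s n : ℕ) (𝒩 : Finset (Fin s → ℕ)) (Cp : ℝ) (hCp : 0 ≤ Cp)
    (hpig : ∀ (x : Fin s → ℝ) (Y : Finset (Fin s → ℝ)) (ε : ℝ), 0 ≤ ε → Y.card ≤ n →
      (∀ ν ∈ 𝒩, ∃ y ∈ Y, |∑ j, (ν j : ℝ) * (x j - y j)| ≤ ε) →
      ∃ y ∈ Y, ∀ j, |x j - y j| ≤ Cp * ε) :
    ∃ C : ℝ, 0 ≤ C ∧ ∀ (A : Type) [CommRing A] (f : Polynomial A) (N : Fin s → Polynomial A)
      (D : A) (Q : (Fin s → ℕ) → Polynomial A), f.Monic → f.natDegree = n →
      (∀ ν, (Q ν).natDegree = n) → (∀ ν, (Q ν).coeff 0 ≠ 0) →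
      (∀ (ν : Fin s → ℕ) (χ : A →+* ℂ), (∀ t : ℂ, (f.map χ).eval t = 0 →
        ((Q ν).map χ).eval (∏ j, (((N j).map χ).eval t) ^ ν j) = 0) ∧
        ∀ u : ℂ, ((Q ν).map χ).eval u = 0 → ∃ t : ℂ, (f.map χ).eval t = 0 ∧
          ∏ j, (((N j).map χ).eval t) ^ ν j = u) →
      ∀ (χ χ' : A →+* ℂ) (η : ℝ), 0 ≤ η →
      (∀ ν ∈ 𝒩, ∀ k ∈ (Q ν).support, χ ((Q ν).coeff k) ≠ 0 ∧ χ' ((Q ν).coeff k) ≠ 0 ∧
        |Real.log ‖χ ((Q ν).coeff k)‖ - Real.log ‖χ' ((Q ν).coeff k)‖| ≤ η) →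
      χ D ≠ 0 → χ' D ≠ 0 → |Real.log ‖χ D‖ - Real.log ‖χ' D‖| ≤ η →
      (∀ t : ℂ, (f.map χ).eval t = 0 → ∀ j, ((N j).map χ).eval t ≠ 0) →
      (∀ t : ℂ, (f.map χ').eval t = 0 → ∀ j, ((N j).map χ').eval t ≠ 0) →
      ∀ t : ℂ, (f.map χ).eval t = 0 → ∃ t' : ℂ, (f.map χ').eval t' = 0 ∧
        ∀ j, |Real.log ‖((N j).map χ).eval t / χ D‖ - Real.log ‖((N j).map χ').eval t' / χ' D‖| ≤
          C * (1 + η) := by
  classical
  obtain ⟨C, hC, hrp⟩ := hRP n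
  refine ⟨Cp * C + 1, by positivity, ?_⟩
  intro A _ f N D Q hf hfn hQn hQ0 hQ χ χ' η hη hlog hD hD' hlD hN hN' t ht
  set Y : Finset (Fin s → ℝ) := ((f.map χ').roots.toFinset).image
    fun t' => fun j => Real.log ‖((N j).map χ').eval t'‖ with hY
  have hfχ : (f.map χ') ≠ 0 := (hf.map χ').ne_zero
  have hYc : Y.card ≤ n := by
    refine Finset.card_image_le.trans ((Multiset.toFinset_card_le _).trans ?_)
    refine (Polynomial.card_roots' _).trans ?_
    rw [hf.natDegree_map, hfn]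
  have hsum : ∀ (χ : A →+* ℂ) (t : ℂ), (∀ j, ((N j).map χ).eval t ≠ 0) → ∀ ν : Fin s → ℕ,
      Real.log ‖∏ j, (((N j).map χ).eval t) ^ ν j‖ =
        ∑ j, (ν j : ℝ) * Real.log ‖((N j).map χ).eval t‖ := by
    intro χ t h ν
    rw [norm_prod, Real.log_prod]
    · exact Finset.sum_congr rfl fun j _ => by rw [norm_pow, Real.log_pow]
    · intro j _
      rw [norm_pow]
      exact pow_ne_zero _ (norm_ne_zero_iff.2 (h j))
  obtain ⟨y, hy, hxy⟩ := hpig (fun j => Real.log ‖((N j).map χ).eval t‖) Y (C * (1 + η))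
    (by positivity) hYc (by
      intro ν hν
      have hsupp : ((Q ν).map χ).support = ((Q ν).map χ').support := by
        ext k
        rw [Polynomial.mem_support_iff, Polynomial.mem_support_iff, Polynomial.coeff_map,
          Polynomial.coeff_map]
        constructor
        · intro h
          have hk : k ∈ (Q ν).support := by
            rw [Polynomial.mem_support_iff]
            intro h0
            rw [h0, map_zero] at h
            exact h rfl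
          exact (hlog ν hν k hk).2.1
        · intro h
          have hk : k ∈ (Q ν).support := by
            rw [Polynomial.mem_support_iff]
            intro h0
            rw [h0, map_zero] at h
            exact h rfl
          exact (hlog ν hν k hk).1
      obtain ⟨h1, u', h2, h3, h4⟩ := hrp ((Q ν).map χ) ((Q ν).map χ') η hη
        ((Polynomial.natDegree_map_le).trans (hQn ν).le) hsupp (by
          rw [Polynomial.coeff_map]
          exact (hlog ν hν 0 (Polynomial.mem_support_iff.2 (hQ0 ν))).1) (by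
          intro k hk
          rw [Polynomial.coeff_map, Polynomial.coeff_map]
          refine (hlog ν hν k ?_).2.2
          rw [Polynomial.mem_support_iff, Polynomial.coeff_map] at hk
          rw [Polynomial.mem_support_iff]
          intro h0
          rw [h0, map_zero] at hk
          exact hk rfl) _ ((hQ ν χ).1 t ht)
      obtain ⟨t', ht', hu'⟩ := (hQ ν χ').2 u' h3
      refine ⟨fun j => Real.log ‖((N j).map χ').eval t'‖, Finset.mem_image.2 ⟨t', ?_, rfl⟩, ?_⟩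
      · rw [Multiset.mem_toFinset, Polynomial.mem_roots hfχ]
        exact ht'
      · have e1 : ∑ j, (ν j : ℝ) * (Real.log ‖((N j).map χ).eval t‖ -
            Real.log ‖((N j).map χ').eval t'‖) =
            Real.log ‖∏ j, (((N j).map χ).eval t) ^ ν j‖ - Real.log ‖u'‖ := by
          rw [← hu', hsum χ t (hN t ht) ν, hsum χ' t' (hN' t' ht') ν, ← Finset.sum_sub_distrib]
          exact Finset.sum_congr rfl fun j _ => by ring
        rw [e1]
        exact h4)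
  obtain ⟨t', ht', rfl⟩ := Finset.mem_image.1 hy
  rw [Multiset.mem_toFinset, Polynomial.mem_roots hfχ] at ht'
  refine ⟨t', ht', fun j => ?_⟩
  rw [norm_div, norm_div, Real.log_div (norm_ne_zero_iff.2 (hN t ht j)) (norm_ne_zero_iff.2 hD),
    Real.log_div (norm_ne_zero_iff.2 (hN' t' ht' j)) (norm_ne_zero_iff.2 hD')]
  have h1 := hxy j
  have e2 : Real.log ‖((N j).map χ).eval t‖ - Real.log ‖χ D‖ -
      (Real.log ‖((N j).map χ').eval t'‖ - Real.log ‖χ' D‖) =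
      (Real.log ‖((N j).map χ).eval t‖ - Real.log ‖((N j).map χ').eval t'‖) -
      (Real.log ‖χ D‖ - Real.log ‖χ' D‖) := by ring
  rw [e2]
  refine (abs_sub _ _).trans ?_
  have h2 : |Real.log ‖((N j).map χ).eval t‖ - Real.log ‖((N j).map χ').eval t'‖| ≤
      Cp * (C * (1 + η)) := h1
  nlinarith

/-- absolute values of all roots -/
theorem newt_all (hN : S_NEWT) {s : ℕ} {A : Type} [CommRing A] (g : Fin s → Polynomial A)
    (hg0 : ∀ j, (g j).coeff 0 ≠ 0) : ∃ C' : ℝ, 0 ≤ C' ∧ ∀ (L : ℝ) (χ : A →+* ℂ) (ls : A → ℝ),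
    (∀ j, ∀ k ∈ (g j).support, χ ((g j).coeff k) ≠ 0 ∧
      |Real.log ‖χ ((g j).coeff k)‖ - ls ((g j).coeff k)| ≤ L) →
    ∀ j, ∀ y : ℂ, ((g j).map χ).eval y = 0 → y ≠ 0 ∧
      ∃ k ∈ (g j).support, ∃ l ∈ (g j).support, k < l ∧
      |Real.log ‖y‖ - (ls ((g j).coeff k) - ls ((g j).coeff l)) / ((l : ℝ) - k)| ≤ C' + 2 * L := by
  choose C hC h using fun j => newt_log hN (g j) (hg0 j)
  refine ⟨∑ j, C j, Finset.sum_nonneg fun j _ => hC j, fun L χ ls hχ j y hy => ?_⟩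
  obtain ⟨h1, k, hk, l, hl, hkl, h2⟩ := h j L χ ls (hχ j) y hy
  refine ⟨h1, k, hk, l, hl, hkl, h2.trans ?_⟩
  have := Finset.single_le_sum (f := C) (fun j _ => hC j) (Finset.mem_univ j)
  linarith

end Pool.Agent.K3h53.UG
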