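import Pool.Agent.K3h53.UG.Core2b

/-! UG project, second part: continuation of roots with controlled absolute values. -/

set_option autoImplicit false

namespace Pool.Agent.K3h53.UG

open MvPolynomial Filter Topology Metric Set Pool.Agent.K3h22.EX

theorem log_lin (A B : ℝ) : ∃ R₀ : ℝ, ∀ R : ℝ, R₀ ≤ R → A + B * Real.log R ≤ R := by
  have h1 : (fun R : ℝ => A + B * Real.log R) =o[atTop] (id : ℝ → ℝ) :=
    (Asymptotics.isLittleO_const_id_atTop A).add (Real.isLittleO_log_id_atTop.const_mul_left B)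
  obtain ⟨R₀, h⟩ := eventually_atTop.1 ((h1.bound one_pos).and (eventually_ge_atTop 0))
  refine ⟨R₀, fun R hR => ?_⟩
  obtain ⟨h2, h3⟩ := h R hR
  rw [one_mul, id, Real.norm_eq_abs, Real.norm_eq_abs, abs_of_nonneg h3] at h2
  exact (le_abs_self _).trans h2

theorem transport2 (hROOT : S_ROOT) (hCHAIN : S_CHAIN) {s : ℕ} {β : Type} [Fintype β]
    (p : β → MvPolynomial (Fin s) ℂ) (c : β → ℂ)
    (f U W : Polynomial (MvPolynomial β (MvPolynomial (Fin s) ℂ)))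
    (D Δ : MvPolynomial β (MvPolynomial (Fin s) ℂ))
    (N g : Fin s → Polynomial (MvPolynomial β (MvPolynomial (Fin s) ℂ)))
    (hf : f.Monic) (hUW : U * f + W * Polynomial.derivative f = Polynomial.C Δ)
    (hgN : ∀ (j : Fin s) (z : Fin s → ℂ) (t : ℂ), (f.map (val p c z)).eval t = 0 →
      val p c z D ≠ 0 → ((g j).map (val p c z)).eval (yv p c (N j) D z t) = 0)
    (Ω : Set (Fin s → ℂ)) (hΩ : IsOpen Ω) (hΩc : Convex ℝ Ω)
    (hΔ : ∀ w ∈ Ω, val p c w Δ ≠ 0) (hD : ∀ w ∈ Ω, val p c w D ≠ 0)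
    (E : Fin s → Finset ℝ) (C' : ℝ) (hC' : 0 ≤ C')
    (hcls : ∀ w ∈ Ω, ∀ j, ∀ y : ℂ, ((g j).map (val p c w)).eval y = 0 →
      y ≠ 0 ∧ ∃ e ∈ E j, |Real.log ‖y‖ - e| ≤ C')
    (w₀ : Fin s → ℂ) (hw₀ : w₀ ∈ Ω) (t₀ : ℂ)
    (ht₀ : (f.map (val p c w₀)).eval t₀ = 0) :
    ∃ Z : (Fin s → ℂ) → ℂ,
      (∀ w ∈ Ω, (f.map (val p c w)).eval (Z w) = 0) ∧
      ∀ j, DifferentiableOn ℂ (fun w => yv p c (N j) D w (Z w)) Ω ∧
        ∀ w ∈ Ω, yv p c (N j) D w (Z w) ≠ 0 ∧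
          |Real.log ‖yv p c (N j) D w (Z w)‖ - Real.log ‖yv p c (N j) D w₀ t₀‖| ≤
            2 * C' * (E j).card := by
  classical
  have hR := hROOT s β p c f U W Δ hf hUW 1 0 Ω hΩ hΩc
  simp only [pt_zero] at hR
  obtain ⟨Z, hZd, hZ0, hZ⟩ := hR hΔ w₀ hw₀ t₀ ht₀
  refine ⟨Z, hZ, fun j => ?_⟩
  have hvd : ∀ G : MvPolynomial β (MvPolynomial (Fin s) ℂ),
      Differentiable ℂ fun w : Fin s → ℂ => val p c w G := by
    intro G
    have := val_diff p c G 0 1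
    simp only [pt_zero] at this
    exact this
  have hd : DifferentiableOn ℂ (fun w => yv p c (N j) D w (Z w)) Ω := by
    have e0 : (fun w => yv p c (N j) D w (Z w)) =
        fun w => ((N j).map (val p c w)).eval (Z w) * (val p c w D)⁻¹ := by
      funext w
      rw [yv, div_eq_mul_inv]
    rw [e0]
    refine DifferentiableOn.mul ?_ ((hvd D).differentiableOn.fun_inv hD)
    have e1 : (fun w => ((N j).map (val p c w)).eval (Z w)) =
        fun w => ∑ k ∈ (N j).support, val p c w ((N j).coeff k) * Z w ^ k := by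
      funext w
      rw [Polynomial.eval_map, Polynomial.eval₂_eq_sum, Polynomial.sum_def]
    rw [e1]
    refine DifferentiableOn.fun_sum fun k _ => ?_
    exact (hvd _).differentiableOn.mul (hZd.pow k)
  have hy : ∀ w ∈ Ω, yv p c (N j) D w (Z w) ≠ 0 ∧
      ∃ e ∈ E j, |Real.log ‖yv p c (N j) D w (Z w)‖ - e| ≤ C' := by
    intro w hw
    exact hcls w hw j _ (hgN j _ _ (hZ w hw) (hD w hw))
  refine ⟨hd, fun w hw => ⟨(hy w hw).1, ?_⟩⟩
  have hcont : ContinuousOn (fun w => Real.log ‖yv p c (N j) D w (Z w)‖) Ω := by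
    refine ContinuousOn.log hd.continuousOn.norm fun w hw => ?_
    exact norm_ne_zero_iff.2 (hy w hw).1
  have h1 := hCHAIN s Ω _ (E j) C' hC' hΩc.isPreconnected hcont (fun w hw => (hy w hw).2) w hw
    w₀ hw₀
  simp only [hZ0] at h1
  exact h1

end Pool.Agent.K3h53.UG
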