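import Pool.Agent.K3h53.UG.Core3a

/-! UG project, third part: the core for hypersurface graphs. -/

set_option autoImplicit false

namespace Pool.Agent.K3h53.UG

open MvPolynomial Filter Topology Metric Set Pool.Agent.K3h22.EX

/-- no rational direction is degenerate for the leading form of `q` -/
def NonDeg {s : ℕ} (q : MvPolynomial (Fin s) ℂ) : Prop :=
  ∀ u : Fin s → ℚ, u ≠ 0 → dd (fun j => ((u j : ℝ) : ℂ)) (top q) ≠ 0 ∧
    (dd (fun j => ((u j : ℝ) : ℂ)) (dd (fun j => ((u j : ℝ) : ℂ)) (top q)) ≠ 0 ∨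
      ∃ m, (Complex.I ^ (q.totalDegree - 1) * coeff m (top q)).im ≠ 0)

/-- the product of the leading forms of the coefficients -/
noncomputable def QT {s : ℕ} {β : Type} (T : Finset (MvPolynomial β (MvPolynomial (Fin s) ℂ))) :
    MvPolynomial (Fin s) ℂ :=
  ∏ F ∈ T, ∏ m ∈ F.support, top (coeff m F)

theorem QT_ne {s : ℕ} {β : Type} (T : Finset (MvPolynomial β (MvPolynomial (Fin s) ℂ))) :
    QT T ≠ 0 := by
  unfold QT
  rw [Finset.prod_ne_zero_iff]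
  intro F _
  rw [Finset.prod_ne_zero_iff]
  intro m hm
  exact Pool.Agent.K3h91.EX.top_ne_zero (mem_support_iff.1 hm)

theorem QT_hom {s : ℕ} {β : Type} (T : Finset (MvPolynomial β (MvPolynomial (Fin s) ℂ))) :
    ∃ e, (QT T).IsHomogeneous e := by
  unfold QT
  refine ⟨_, IsHomogeneous.prod T _ (fun F => ∑ m ∈ F.support, (coeff m F).totalDegree)
    fun F _ => ?_⟩
  refine IsHomogeneous.prod F.support _ (fun m => (coeff m F).totalDegree) fun m _ => ?_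
  exact homogeneousComponent_isHomogeneous _ _

theorem QT_eval {s : ℕ} {β : Type} (T : Finset (MvPolynomial β (MvPolynomial (Fin s) ℂ)))
    (ζ : Fin s → ℂ) (h : eval ζ (QT T) ≠ 0) : ∀ F ∈ T, ∀ m ∈ F.support,
    eval ζ (top (coeff m F)) ≠ 0 := by
  intro F hF m hm
  unfold QT at h
  rw [map_prod, Finset.prod_ne_zero_iff] at h
  have h1 := h F hF
  rw [map_prod, Finset.prod_ne_zero_iff] at h1
  exact h1 m hm

theorem jac_X {s : ℕ} : (jac (fun j => (X j : MvPolynomial (Fin s) ℂ)) 0).det ≠ 0 := by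
  have : jac (fun j => (X j : MvPolynomial (Fin s) ℂ)) 0 = 1 := by
    ext a b
    simp only [jac, Matrix.of_apply, pderiv_X, Matrix.one_apply, Pi.single_apply]
    by_cases h : a = b
    · subst h
      simp
    · simp [h]
  rw [this, Matrix.det_one]
  exact one_ne_zero

/-- **analytic core** for hypersurface graphs -/
theorem core3 (hDIR : S_DIR3) (hDOM : S_DOM3) (hCLS : S_CLS3) (hSOL : S_SOL3) (hRP : S_RP)
    (hPIG : S_PIG) (hCOMP : S_COMP) (hGOOD : S_GOOD) (hNEWT : S_NEWT) (hROOT : S_ROOT)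
    {s : ℕ} {β : Type} [Fintype β] [Unique β] (p : β → MvPolynomial (Fin s) ℂ) (c : β → ℂ)
    (k : Fin s) (hpk : ∀ b, p b = X k)
    (q : MvPolynomial (Fin s) ℂ) (hq : 2 ≤ q.totalDegree) (hH : NonDeg q) (c' : Fin s → ℂ)
    (f U W : Polynomial (MvPolynomial β (MvPolynomial (Fin s) ℂ)))
    (D Δ G0 : MvPolynomial β (MvPolynomial (Fin s) ℂ))
    (N g : Fin s → Polynomial (MvPolynomial β (MvPolynomial (Fin s) ℂ)))
    (hf : f.Monic) (hf0 : 0 < f.natDegree)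
    (hUW : U * f + W * Polynomial.derivative f = Polynomial.C Δ)
    (hD : D ≠ 0) (hΔ : Δ ≠ 0) (hG0 : G0 ≠ 0) (hg0 : ∀ j, (g j).coeff 0 ≠ 0)
    (hgN : ∀ (j : Fin s) (z : Fin s → ℂ) (t : ℂ), (f.map (val p c z)).eval t = 0 →
      val p c z D ≠ 0 → ((g j).map (val p c z)).eval (yv p c (N j) D z t) = 0) :
    ∃ (z : Fin s → ℂ) (t : ℂ), val p c z G0 ≠ 0 ∧ val p c z D ≠ 0 ∧
      (f.map (val p c z)).eval t = 0 ∧
      (∀ j, j ≠ k → yv p c (N j) D z t = Complex.exp (z j + c' j)) ∧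
      yv p c (N k) D z t = Complex.exp (eval z q + c' k) := by
  classical
  obtain ⟨𝒩, Cp, hCp, -, -, hpig⟩ := hPIG s f.natDegree
  have hp1 : ∀ b, (p b).totalDegree ≤ 1 := fun b => by rw [hpk b, totalDegree_X]
  have hp2 : ∀ m : β → ℤ, m ≠ 0 →
      0 < (∑ b, (m b : MvPolynomial (Fin s) ℂ) * p b).totalDegree := by
    intro m hm
    rw [Fintype.sum_unique, hpk]
    have hm' : m default ≠ 0 := by
      intro h
      apply hm
      funext b
      rw [Unique.eq_default b, h]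
      rfl
    have e1 : ((m default : ℤ) : MvPolynomial (Fin s) ℂ) * X k =
        monomial (Finsupp.single k 1) ((m default : ℤ) : ℂ) := by
      rw [X, ← map_intCast (C : ℂ →+* MvPolynomial (Fin s) ℂ), C_mul_monomial, mul_one]
    rw [e1, totalDegree_monomial _ (Int.cast_ne_zero.2 hm'), Finsupp.sum_single_index rfl]
    exact one_pos
  choose Q hQd hQ0 hQ using exists_Q hCOMP hGOOD p c 1 le_rfl hp1 hp2 (fun j => X j) 0 jac_X
    f D N g hf hf0 hD hg0 hgN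
  obtain ⟨T, hG0T, hDT, hΔT, hgT, hQT, hT0⟩ :
      ∃ T : Finset (MvPolynomial β (MvPolynomial (Fin s) ℂ)), G0 ∈ T ∧ D ∈ T ∧ Δ ∈ T ∧
        (∀ j, ∀ k ∈ (g j).support, (g j).coeff k ∈ T) ∧
        (∀ ν ∈ 𝒩, ∀ k ∈ (Q ν).support, (Q ν).coeff k ∈ T) ∧ ∀ F ∈ T, F ≠ 0 := by
    refine ⟨({G0, D, Δ} ∪ Finset.univ.biUnion fun j => (g j).support.image (g j).coeff) ∪
      𝒩.biUnion fun ν => (Q ν).support.image (Q ν).coeff, by simp, by simp, by simp,
      ?_, ?_, ?_⟩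
    · intro j k hk
      rw [Finset.mem_union, Finset.mem_union, Finset.mem_biUnion]
      exact Or.inl (Or.inr ⟨j, Finset.mem_univ _, Finset.mem_image_of_mem _ hk⟩)
    · intro ν hν k hk
      rw [Finset.mem_union, Finset.mem_biUnion (s := 𝒩)]
      exact Or.inr ⟨ν, hν, Finset.mem_image_of_mem _ hk⟩
    · intro F hF
      rw [Finset.mem_union, Finset.mem_union, Finset.mem_biUnion, Finset.mem_biUnion] at hF
      rcases hF with (hF | ⟨j, -, hF⟩) | ⟨ν, -, hF⟩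
      · simp only [Finset.mem_insert, Finset.mem_singleton] at hF
        rcases hF with rfl | rfl | rfl
        · exact hG0
        · exact hD
        · exact hΔ
      · obtain ⟨k, hk, rfl⟩ := Finset.mem_image.1 hF
        exact Polynomial.mem_support_iff.1 hk
      · obtain ⟨k, hk, rfl⟩ := Finset.mem_image.1 hF
        exact Polynomial.mem_support_iff.1 hk
  -- magnitudes
  have hdom' : ∀ F : MvPolynomial β (MvPolynomial (Fin s) ℂ), ∃ (h n : ℕ), F ∈ T →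
      ∀ ζ : Fin s → ℂ, (ζ k).re = 1 → (∀ m ∈ F.support, eval ζ (top (coeff m F)) ≠ 0) →
      ∃ ε C R₀ : ℝ, 0 < ε ∧ 0 ≤ C ∧ 1 ≤ R₀ ∧ ∀ R : ℝ, R₀ ≤ R → ∀ z ∈ ball (sc R ζ) (ε * R),
        val p c z F ≠ 0 ∧
          |Real.log ‖val p c z F‖ - ((h : ℝ) * (z k).re + (n : ℝ) * Real.log R)| ≤ C := by
    intro F
    by_cases hF : F ∈ T
    · obtain ⟨h, n, h1⟩ := hDOM s β p c k hpk F (hT0 F hF)
      exact ⟨h, n, fun _ => h1⟩
    · exact ⟨0, 0, fun h => absurd h hF⟩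
  choose h n hhn using hdom'
  have hunif : ∀ ζ : Fin s → ℂ, (ζ k).re = 1 → eval ζ (QT T) ≠ 0 →
      ∃ ε C R₀ : ℝ, 0 < ε ∧ 0 ≤ C ∧ 1 ≤ R₀ ∧ ∀ F ∈ T, ∀ R : ℝ, R₀ ≤ R →
        ∀ z ∈ ball (sc R ζ) (ε * R), val p c z F ≠ 0 ∧
          |Real.log ‖val p c z F‖ - ((h F : ℝ) * (z k).re + (n F : ℝ) * Real.log R)| ≤ C := by
    intro ζ hζ hζQ
    have hQe := QT_eval T ζ hζQ
    obtain ⟨ε, C, R₀, h1, h2, h3, h4⟩ := unif3 T (fun F ε C R₀ => ∀ R : ℝ, 1 ≤ R → R₀ ≤ R →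
        ∀ z ∈ ball (sc R ζ) (ε * R), val p c z F ≠ 0 ∧
          |Real.log ‖val p c z F‖ - ((h F : ℝ) * (z k).re + (n F : ℝ) * Real.log R)| ≤ C)
      (by
        intro F ε C R₀ ε' C' R₀' h1 h2 h3 h4 R hR hR' z hz
        obtain ⟨h5, h6⟩ := h1 R hR (h4.trans hR') z
          (ball_subset_ball (mul_le_mul_of_nonneg_right h2 (by linarith)) hz)
        exact ⟨h5, h6.trans h3⟩)
      (fun F hF => by
        obtain ⟨ε, C, R₀, h1, h2, h3, h4⟩ := hhn F hF ζ hζ (hQe F hF)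
        exact ⟨ε, C, R₀, h1, h2, h3, fun R _ hR => h4 R hR⟩)
    exact ⟨ε, C, R₀, h1, h2, h3, fun F hF R hR => h4 F hF R (h3.trans hR) hR⟩
  obtain ⟨eQ, heQ⟩ := QT_hom T
  have htop : (top q).IsHomogeneous q.totalDegree := homogeneousComponent_isHomogeneous _ _
  -- the first direction
  set E : Fin s → Finset (ℝ × ℝ) := fun j => Ecl (g j) (fun F => (h F : ℝ)) n with hE
  have hk0 : (Pi.single k 1 : Fin s → ℚ) ≠ 0 := by
    intro h0
    have := congrFun h0 k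
    simp at this
  have hu := hH _ hk0
  obtain ⟨ζ0, hζ01, -, -, hζ04⟩ := hDIR s q.totalDegree (top q)
    (fun j => (((Pi.single k 1 : Fin s → ℚ) j : ℚ) : ℝ)) htop hq hu.1 hu.2 (QT T) eQ (QT_ne T) heQ
  have hζ0k : (ζ0 k).re = 1 := by
    rw [hζ01 k]
    simp
  obtain ⟨ε0, A0, R0, hε0, hA0, hR0, hb0⟩ := hunif ζ0 hζ0k hζ04
  obtain ⟨C', hC', hcls⟩ := classes3 hNEWT g hg0 h n
  have hcen : ∀ (ζ : Fin s → ℂ) (ε R : ℝ), 0 < ε → 1 ≤ R → sc R ζ ∈ ball (sc R ζ) (ε * R) :=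
    fun ζ ε R hε hR => mem_ball_self (by positivity)
  have hscre : ∀ (ζ : Fin s → ℂ) (R : ℝ), (ζ k).re = 1 → (sc R ζ k).re = R := by
    intro ζ R hζ
    rw [sc, Complex.re_ofReal_mul, hζ, mul_one]
  have hroot : ∀ z : Fin s → ℂ, ∃ t : ℂ, (f.map (val p c z)).eval t = 0 := by
    intro z
    have hdeg : (f.map (val p c z)).degree ≠ 0 := by
      rw [Polynomial.Monic.degree_map hf]
      intro h0
      have := Polynomial.natDegree_eq_zero_iff_degree_le_zero.mpr h0.le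
      omega
    obtain ⟨u, hu⟩ := IsAlgClosed.exists_root _ hdeg
    exact ⟨u, hu⟩
  have hfreq : ∃ᶠ R : ℝ in atTop, ∃ e ∈ Fintype.piFinset E, ∃ t : ℂ,
      (f.map (val p c (sc R ζ0))).eval t = 0 ∧
      ∀ j, |Real.log ‖yv p c (N j) D (sc R ζ0) t‖ - ((e j).1 * R + (e j).2 * Real.log R)| ≤
        C' + 2 * A0 := by
    apply Eventually.frequently
    filter_upwards [eventually_ge_atTop R0] with R hR
    have hR1 : 1 ≤ R := hR0.trans hR
    obtain ⟨t, ht⟩ := hroot (sc R ζ0)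
    have h1 := fun j => hcls A0 (val p c (sc R ζ0)) (sc R ζ0 k).re R
      (fun j k hk => hb0 _ (hgT j k hk) R hR _ (hcen ζ0 ε0 R hε0 hR1)) j _
      (hgN j _ t ht (hb0 D hDT R hR _ (hcen ζ0 ε0 R hε0 hR1)).1)
    choose h2 e he h3 using h1
    refine ⟨e, Fintype.mem_piFinset.2 he, t, ht, fun j => ?_⟩
    have h4 := h3 j
    rw [hscre ζ0 R hζ0k] at h4
    exact h4
  rw [frequently_exists_finset] at hfreq
  obtain ⟨e, he, hfreq⟩ := hfreq
  rw [Fintype.mem_piFinset] at he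
  -- the direction
  have hrat : ∃ u : Fin s → ℚ, u k = 1 ∧ ∀ j, j ≠ k → ((u j : ℚ) : ℝ) = (e j).1 := by
    choose r hr using fun j => Ecl_rat (g j) h n (e j) (he j)
    refine ⟨Function.update r k 1, by simp, fun j hj => ?_⟩
    rw [Function.update_of_ne hj]
    exact hr j
  obtain ⟨u, huk, huj⟩ := hrat
  have hu0 : u ≠ 0 := by
    intro h0
    have := congrFun h0 k
    rw [huk] at this
    simp at this
  have hu' := hH u hu0
  obtain ⟨ζ, hζ1, hζ2, hζ3, hζ4⟩ := hDIR s q.totalDegree (top q) (fun j => ((u j : ℚ) : ℝ)) htop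
    hq hu'.1 hu'.2 (QT T) eQ (QT_ne T) heQ
  have hζk : (ζ k).re = 1 := by
    rw [hζ1 k, huk]
    simp
  obtain ⟨ε1, A1, R1, hε1, hA1, hR1', hb1⟩ := hunif ζ hζk hζ4
  obtain ⟨Ch, hCh, hhaus⟩ := haus hRP s f.natDegree 𝒩 Cp hCp hpig
  obtain ⟨C3, hC3⟩ : ∃ C3 : ℝ, C3 = C' + 2 * A0 + 2 * A1 + Ch * (1 + (A0 + A1)) := ⟨_, rfl⟩
  have hC3n : 0 ≤ C3 := by rw [hC3]; positivity
  obtain ⟨ε, hε, hεε1, hε2⟩ : ∃ ε : ℝ, 0 < ε ∧ ε ≤ ε1 ∧ ε ≤ 1 / 2 :=
    ⟨min ε1 (1 / 2), lt_min hε1 (by norm_num), min_le_left _ _, min_le_right _ _⟩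
  obtain ⟨Rs, hRs⟩ := sep3 (Finset.univ.biUnion E) C3
  obtain ⟨Rl, hRl, hsol⟩ := hSOL s k q ζ (fun j => (e j).1) (fun j => (e j).2) hq hζk
    (fun j hj => by rw [hζ1 j]; exact huj j hj) hζ2 (by simpa only [hζ1] using hζ3) ε
    (C3 + ∑ j, ‖c' j‖) hε
  obtain ⟨R, ⟨t, ht, hte⟩, hRR0, hRR1, hRRs, hRRl⟩ := (hfreq.and_eventually
    ((eventually_ge_atTop R0).and ((eventually_ge_atTop R1).and ((eventually_ge_atTop Rs).and
      (eventually_ge_atTop Rl))))).exists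
  have hRone : 1 ≤ R := hR0.trans hRR0
  -- transfer of the root
  have hcen0 := hcen ζ0 ε0 R hε0 hRone
  have hcen1 := hcen ζ ε1 R hε1 hRone
  have hcmp : ∀ F ∈ T, |Real.log ‖val p c (sc R ζ0) F‖ - Real.log ‖val p c (sc R ζ) F‖| ≤
      A0 + A1 := by
    intro F hF
    have h1 := (hb0 F hF R hRR0 _ hcen0).2
    have h2 := (hb1 F hF R hRR1 _ hcen1).2
    rw [hscre ζ0 R hζ0k] at h1
    rw [hscre ζ R hζk] at h2
    rw [abs_le] at h1 h2 ⊢
    constructor <;> linarith [h1.1, h1.2, h2.1, h2.2]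
  have hNne : ∀ z : Fin s → ℂ, (∀ F ∈ T, val p c z F ≠ 0) → (∀ j, ∀ y : ℂ,
      ((g j).map (val p c z)).eval y = 0 → y ≠ 0) → ∀ t : ℂ, (f.map (val p c z)).eval t = 0 →
      ∀ j, ((N j).map (val p c z)).eval t ≠ 0 := by
    intro z hz hy t ht j h0
    have h1 := hy j _ (hgN j z t ht (hz D hDT))
    rw [yv, h0, zero_div] at h1
    exact h1 rfl
  obtain ⟨t', ht', htt'⟩ := hhaus _ f N D Q hf rfl hQd hQ0 hQ (val p c (sc R ζ0))
    (val p c (sc R ζ)) (A0 + A1) (by positivity)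
    (fun ν hν k hk => ⟨(hb0 _ (hQT ν hν k hk) R hRR0 _ hcen0).1,
      (hb1 _ (hQT ν hν k hk) R hRR1 _ hcen1).1, hcmp _ (hQT ν hν k hk)⟩)
    (hb0 D hDT R hRR0 _ hcen0).1 (hb1 D hDT R hRR1 _ hcen1).1 (hcmp D hDT)
    (hNne _ (fun F hF => (hb0 F hF R hRR0 _ hcen0).1) (fun j y hy =>
      (hcls A0 _ _ R (fun j k hk => hb0 _ (hgT j k hk) R hRR0 _ hcen0) j y hy).1))
    (hNne _ (fun F hF => (hb1 F hF R hRR1 _ hcen1).1) (fun j y hy =>
      (hcls A1 _ _ R (fun j k hk => hb1 _ (hgT j k hk) R hRR1 _ hcen1) j y hy).1))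
    t ht
  -- continuation
  have hsub : ball (sc R ζ) (ε * R) ⊆ ball (sc R ζ) (ε1 * R) :=
    ball_subset_ball (mul_le_mul_of_nonneg_right hεε1 (by linarith))
  have hre : ∀ w ∈ ball (sc R ζ) (ε * R), R / 2 ≤ (w k).re := by
    intro w hw
    rw [mem_ball, dist_eq_norm] at hw
    have h1 : ‖(w - sc R ζ) k‖ ≤ ‖w - sc R ζ‖ := norm_le_pi_norm _ k
    have h2 : |((w - sc R ζ) k).re| ≤ ‖(w - sc R ζ) k‖ := Complex.abs_re_le_norm _
    rw [Pi.sub_apply, Complex.sub_re, hscre ζ R hζk] at h2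
    have h3 := (abs_le.1 h2).1
    have h4 : ε * R ≤ 1 / 2 * R := mul_le_mul_of_nonneg_right hε2 (by linarith)
    rw [Pi.sub_apply] at h1
    linarith
  obtain ⟨Z, hZ1, hZ2⟩ := transport3 hROOT hCLS p c f U W D Δ N g hf hUW hgN
    (ball (sc R ζ) (ε * R)) isOpen_ball (convex_ball _ _)
    (fun w hw => (hb1 Δ hΔT R hRR1 w (hsub hw)).1) (fun w hw => (hb1 D hDT R hRR1 w (hsub hw)).1)
    k R E C3
    (by
      intro w hw j y hy
      obtain ⟨h1, e', he', h2⟩ := hcls A1 (val p c w) (w k).re R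
        (fun j k hk => hb1 _ (hgT j k hk) R hRR1 w (hsub hw)) j y hy
      refine ⟨h1, e', he', h2.trans ?_⟩
      rw [hC3]
      have : 0 ≤ Ch * (1 + (A0 + A1)) := by positivity
      linarith)
    (by
      intro j w hw e1 he1 e2 he2 hne
      exact hRs R hRRs _ (hre w hw) e1 (Finset.mem_biUnion.2 ⟨j, Finset.mem_univ _, he1⟩) e2
        (Finset.mem_biUnion.2 ⟨j, Finset.mem_univ _, he2⟩) hne)
    (sc R ζ) (hcen ζ ε R hε hRone) t' ht' e he
    (by
      intro j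
      rw [hscre ζ R hζk]
      have h1 := hte j
      have h2 := htt' j
      have h3 : |Real.log ‖yv p c (N j) D (sc R ζ0) t‖ - Real.log ‖yv p c (N j) D (sc R ζ) t'‖| ≤
          Ch * (1 + (A0 + A1)) := h2
      rw [hC3]
      rw [abs_le] at h1 h3 ⊢
      constructor <;> linarith [h1.1, h1.2, h3.1, h3.2])
  have hlog : ∀ j, ∃ L : (Fin s → ℂ) → ℂ,
      DifferentiableOn ℂ L (ball (sc R ζ) (ε * R)) ∧
      ∀ w ∈ ball (sc R ζ) (ε * R), Complex.exp (L w) = yv p c (N j) D w (Z w) := fun j =>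
    Pool.Agent.K3h60.EX.t_LOG s _ _ isOpen_ball (convex_ball _ _)
      (hZ2 j).1 (fun w hw => ((hZ2 j).2 w hw).1)
  choose L hLd hL using hlog
  obtain ⟨w, hw, hs1, n1, hn1⟩ := hsol R hRRl (fun j w => L j w - c' j)
    (fun j => (hLd j).sub_const _) (by
      intro j w hw
      have h1 := ((hZ2 j).2 w hw).2
      rw [← hL j w hw, Complex.norm_exp, Real.log_exp] at h1
      have h2 : |(c' j).re| ≤ ∑ j, ‖c' j‖ := (Complex.abs_re_le_norm _).trans
        (Finset.single_le_sum (f := fun j => ‖c' j‖) (fun j _ => norm_nonneg _)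
          (Finset.mem_univ j))
      have e1 : (L j w - c' j).re - ((e j).1 * (w k).re + (e j).2 * Real.log R) =
          ((L j w).re - ((e j).1 * (w k).re + (e j).2 * Real.log R)) - (c' j).re := by
        rw [Complex.sub_re]
        ring
      rw [e1]
      exact (abs_sub _ _).trans (add_le_add h1 h2))
  refine ⟨w, Z w, (hb1 G0 hG0T R hRR1 w (hsub hw)).1, (hb1 D hDT R hRR1 w (hsub hw)).1,
    hZ1 w hw, fun j hj => ?_, ?_⟩
  · obtain ⟨n', hn'⟩ := hs1 j hj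
    rw [← hL j w hw]
    have e2 : w j + c' j = L j w + n' * (2 * Real.pi * Complex.I) := by
      linear_combination hn'
    rw [e2, Complex.exp_add, Complex.exp_int_mul_two_pi_mul_I, mul_one]
  · rw [← hL k w hw]
    have e2 : eval w q + c' k = L k w + n1 * (2 * Real.pi * Complex.I) := by
      linear_combination hn1
    rw [e2, Complex.exp_add, Complex.exp_int_mul_two_pi_mul_I, mul_one]

end Pool.Agent.K3h53.UG
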