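import Pool.Agent.K3h53.UG.Stm2

/-! UG project (helper53, MP_209724_lc), third part: varieties over hypersurfaces which are graphs of
polynomials. Exact statements of the parts. -/

set_option autoImplicit false

namespace Pool.Agent.K3h53.UG

open MvPolynomial Filter Topology Metric Set Pool.Agent.K3h22.EX

/-- the derivative in the direction `u` -/
noncomputable def dd {s : ℕ} (u : Fin s → ℂ) (q : MvPolynomial (Fin s) ℂ) :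
    MvPolynomial (Fin s) ℂ :=
  ∑ j, C (u j) * pderiv j q

/-- directions with given real parts (up to scaling) on which the form `q` has real part zero -/
def S_DIR3 : Prop := ∀ (s d : ℕ) (q : MvPolynomial (Fin s) ℂ) (u : Fin s → ℝ),
  q.IsHomogeneous d → 2 ≤ d → dd (fun j => (u j : ℂ)) q ≠ 0 →
  (dd (fun j => (u j : ℂ)) (dd (fun j => (u j : ℂ)) q) ≠ 0 ∨
    ∃ m, (Complex.I ^ (d - 1) * coeff m q).im ≠ 0) →
  ∀ (Q : MvPolynomial (Fin s) ℂ) (e : ℕ), Q ≠ 0 → Q.IsHomogeneous e →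
  ∃ ζ : Fin s → ℂ, (∀ j, (ζ j).re = u j) ∧ (eval ζ q).re = 0 ∧
    eval ζ (dd (fun j => (u j : ℂ)) q) ≠ 0 ∧ eval ζ Q ≠ 0

/-- polynomials in `z` and `e^(z_k)` in a cone around a direction `ζ` with `Re ζ_k = 1`: one monomial
dominates, and it does not depend on `ζ` -/
def S_DOM3 : Prop := ∀ (s : ℕ) (β : Type) [Fintype β] [Unique β] (p : β → MvPolynomial (Fin s) ℂ)
  (c : β → ℂ) (k : Fin s), (∀ b, p b = X k) →
  ∀ F : MvPolynomial β (MvPolynomial (Fin s) ℂ), F ≠ 0 → ∃ h n : ℕ, ∀ ζ : Fin s → ℂ,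
  (ζ k).re = 1 → (∀ m ∈ F.support, eval ζ (top (coeff m F)) ≠ 0) →
  ∃ ε C R₀ : ℝ, 0 < ε ∧ 0 ≤ C ∧ 1 ≤ R₀ ∧ ∀ R : ℝ, R₀ ≤ R → ∀ z ∈ ball (sc R ζ) (ε * R),
    val p c z F ≠ 0 ∧
      |Real.log ‖val p c z F‖ - ((h : ℝ) * (z k).re + (n : ℝ) * Real.log R)| ≤ C

/-- a continuous function which is at each point near one of finitely many separated continuous
functions stays near one of them -/
def S_CLS3 : Prop := ∀ (s : ℕ) (Ω : Set (Fin s → ℂ)) (f : (Fin s → ℂ) → ℝ) (κ : Type)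
  (E : Finset κ) (g : κ → (Fin s → ℂ) → ℝ) (C : ℝ), IsPreconnected Ω → ContinuousOn f Ω →
  (∀ e ∈ E, ContinuousOn (g e) Ω) → (∀ w ∈ Ω, ∃ e ∈ E, |f w - g e w| ≤ C) →
  (∀ w ∈ Ω, ∀ e ∈ E, ∀ e' ∈ E, e ≠ e' → 2 * C < |g e w - g e' w|) →
  ∀ w₀ ∈ Ω, ∀ e₀ ∈ E, |f w₀ - g e₀ w₀| ≤ C → ∀ w ∈ Ω, |f w - g e₀ w| ≤ C

/-- solution of the equations `z_j - L_j(z) ∈ 2 π i ℤ` (`j ≠ k`), `q(z) - L_k(z) ∈ 2 π i ℤ` near
`R ζ` (to be proved from `S_BC`) -/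
def S_SOL3 : Prop := ∀ (s : ℕ) (k : Fin s) (q : MvPolynomial (Fin s) ℂ) (ζ : Fin s → ℂ)
  (b a : Fin s → ℝ), 2 ≤ q.totalDegree → (ζ k).re = 1 → (∀ j, j ≠ k → (ζ j).re = b j) →
  (eval ζ (top q)).re = 0 →
  eval ζ (dd (fun j => (((ζ j).re : ℝ) : ℂ)) (top q)) ≠ 0 →
  ∀ ε C : ℝ, 0 < ε → ∃ R₀ : ℝ, 1 ≤ R₀ ∧ ∀ R : ℝ, R₀ ≤ R → ∀ L : Fin s → (Fin s → ℂ) → ℂ,
  (∀ j, DifferentiableOn ℂ (L j) (ball (sc R ζ) (ε * R))) →
  (∀ j, ∀ z ∈ ball (sc R ζ) (ε * R),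
    |(L j z).re - (b j * (z k).re + a j * Real.log R)| ≤ C) →
  ∃ z ∈ ball (sc R ζ) (ε * R), (∀ j, j ≠ k → ∃ N : ℤ,
    z j - L j z = 2 * Real.pi * Complex.I * (N : ℂ)) ∧
    ∃ N : ℤ, eval z q - L k z = 2 * Real.pi * Complex.I * (N : ℂ)

end Pool.Agent.K3h53.UG
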