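import Pool.Agent.K3h53.UG.Core2c
import Pool.Agent.K3h53.UG.Stm3

/-! UG project, third part: preparations for the core. -/

set_option autoImplicit false

namespace Pool.Agent.K3h53.UG

open MvPolynomial Filter Topology Metric Set Pool.Agent.K3h22.EX

/-- uniform constants for finitely many statements -/
theorem unif3 {τ : Type} (T : Finset τ) (P : τ → ℝ → ℝ → ℝ → Prop)
    (hmono : ∀ F ε C R₀ ε' C' R₀', P F ε C R₀ → ε' ≤ ε → C ≤ C' → R₀ ≤ R₀' → P F ε' C' R₀')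
    (h : ∀ F ∈ T, ∃ ε C R₀ : ℝ, 0 < ε ∧ 0 ≤ C ∧ 1 ≤ R₀ ∧ P F ε C R₀) :
    ∃ ε C R₀ : ℝ, 0 < ε ∧ 0 ≤ C ∧ 1 ≤ R₀ ∧ ∀ F ∈ T, P F ε C R₀ := by
  classical
  induction T using Finset.induction_on with
  | empty => exact ⟨1, 0, 1, one_pos, le_rfl, le_rfl, by simp⟩
  | insert F T hF ih =>
    obtain ⟨ε, C, R₀, h1, h2, h3, h4⟩ := ih fun F' hF' => h F' (Finset.mem_insert_of_mem hF')
    obtain ⟨ε', C', R₀', h5, h6, h7, h8⟩ := h F (Finset.mem_insert_self F T)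
    refine ⟨min ε ε', max C C', max R₀ R₀', lt_min h1 h5, le_max_of_le_left h2,
      le_max_of_le_left h3, fun F' hF' => ?_⟩
    rcases Finset.mem_insert.1 hF' with rfl | hF'
    · exact hmono _ _ _ _ _ _ _ h8 (min_le_right _ _) (le_max_right _ _) (le_max_right _ _)
    · exact hmono _ _ _ _ _ _ _ (h4 F' hF') (min_le_left _ _) (le_max_left _ _) (le_max_left _ _)

/-- separation of the classes -/
theorem sep3 (E : Finset (ℝ × ℝ)) (C : ℝ) : ∃ R₀ : ℝ, ∀ R : ℝ, R₀ ≤ R → ∀ x : ℝ, R / 2 ≤ x →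
    ∀ e ∈ E, ∀ e' ∈ E, e ≠ e' →
      2 * C < |(e.1 * x + e.2 * Real.log R) - (e'.1 * x + e'.2 * Real.log R)| := by
  classical
  have key : ∀ e : ℝ × ℝ, ∀ e' : ℝ × ℝ, e ≠ e' → ∃ R₀ : ℝ, ∀ R : ℝ, R₀ ≤ R → ∀ x : ℝ,
      R / 2 ≤ x → 2 * C < |(e.1 * x + e.2 * Real.log R) - (e'.1 * x + e'.2 * Real.log R)| := by
    intro e e' hne
    have e0 : ∀ x R : ℝ, (e.1 * x + e.2 * Real.log R) - (e'.1 * x + e'.2 * Real.log R) =
        (e.1 - e'.1) * x + (e.2 - e'.2) * Real.log R := fun x R => by ring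
    by_cases h1 : e.1 = e'.1
    · have h2 : e.2 - e'.2 ≠ 0 := by
        intro h2
        exact hne (Prod.ext h1 (by linarith))
      have h3 : 0 < |e.2 - e'.2| := abs_pos.2 h2
      refine ⟨Real.exp ((2 * |C| + 1) / |e.2 - e'.2|), fun R hR x _ => ?_⟩
      rw [e0, h1, sub_self, zero_mul, zero_add, abs_mul]
      have h4 : (2 * |C| + 1) / |e.2 - e'.2| ≤ Real.log R := by
        rw [Real.le_log_iff_exp_le (lt_of_lt_of_le (Real.exp_pos _) hR)]
        exact hR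
      have h5 := h4.trans (le_abs_self _)
      rw [div_le_iff₀ h3] at h5
      have := le_abs_self C
      nlinarith
    · have h2 : 0 < |e.1 - e'.1| := abs_pos.2 (sub_ne_zero.2 h1)
      obtain ⟨R₀, hR₀⟩ := log_lin ((2 * |C| + 1) * 2 / |e.1 - e'.1|)
        (2 * |e.2 - e'.2| / |e.1 - e'.1|)
      refine ⟨max R₀ 1, fun R hR x hx => ?_⟩
      have h3 := hR₀ R ((le_max_left _ _).trans hR)
      have hR1 : 1 ≤ R := (le_max_right _ _).trans hR
      have hl := Real.log_nonneg hR1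
      rw [e0]
      have h4 : (2 * |C| + 1) + |e.2 - e'.2| * Real.log R ≤ |e.1 - e'.1| * (R / 2) := by
        have h5 : ((2 * |C| + 1) * 2 / |e.1 - e'.1| + 2 * |e.2 - e'.2| / |e.1 - e'.1| *
            Real.log R) * (|e.1 - e'.1| / 2) ≤ R * (|e.1 - e'.1| / 2) :=
          mul_le_mul_of_nonneg_right h3 (by positivity)
        have h6 : ((2 * |C| + 1) * 2 / |e.1 - e'.1| + 2 * |e.2 - e'.2| / |e.1 - e'.1| *
            Real.log R) * (|e.1 - e'.1| / 2) = (2 * |C| + 1) + |e.2 - e'.2| * Real.log R := by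
          field_simp
        linarith
      have h7 : |e.1 - e'.1| * (R / 2) ≤ |(e.1 - e'.1) * x| := by
        rw [abs_mul, abs_of_nonneg (by linarith : (0 : ℝ) ≤ x)]
        gcongr
      have h8 : |(e.2 - e'.2) * Real.log R| = |e.2 - e'.2| * Real.log R := by
        rw [abs_mul, abs_of_nonneg hl]
      have h9 : |(e.1 - e'.1) * x| ≤ |(e.1 - e'.1) * x + (e.2 - e'.2) * Real.log R| +
          |(e.2 - e'.2) * Real.log R| := by
        have := abs_sub ((e.1 - e'.1) * x + (e.2 - e'.2) * Real.log R) ((e.2 - e'.2) * Real.log R)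
        rw [add_sub_cancel_right] at this
        exact this
      have := le_abs_self C
      linarith
  have h2 : ∀ e ∈ E, ∀ᶠ R : ℝ in atTop, ∀ e' ∈ E, e ≠ e' → ∀ x : ℝ, R / 2 ≤ x →
      2 * C < |(e.1 * x + e.2 * Real.log R) - (e'.1 * x + e'.2 * Real.log R)| := by
    intro e _
    rw [Filter.eventually_all_finset]
    intro e' _
    by_cases hne : e = e'
    · exact Eventually.of_forall fun R h => absurd hne h
    · obtain ⟨R₀, hR₀⟩ := key e e' hne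
      filter_upwards [eventually_ge_atTop R₀] with R hR _ x hx
      exact hR₀ R hR x hx
  rw [← Filter.eventually_all_finset] at h2
  obtain ⟨R₀, hR₀⟩ := eventually_atTop.1 h2
  exact ⟨R₀, fun R hR x hx e he e' he' hne => hR₀ R hR e he e' he' hne x hx⟩

/-- classes of roots -/
theorem classes3 (hN : S_NEWT) {s : ℕ} {A : Type} [CommRing A] (g : Fin s → Polynomial A)
    (hg0 : ∀ j, (g j).coeff 0 ≠ 0) (h n : A → ℕ) : ∃ C' : ℝ, 0 ≤ C' ∧
    ∀ (L : ℝ) (χ : A →+* ℂ) (x R : ℝ),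
    (∀ j, ∀ k ∈ (g j).support, χ ((g j).coeff k) ≠ 0 ∧ |Real.log ‖χ ((g j).coeff k)‖ -
      ((h ((g j).coeff k) : ℝ) * x + (n ((g j).coeff k) : ℝ) * Real.log R)| ≤ L) →
    ∀ j, ∀ y : ℂ, ((g j).map χ).eval y = 0 → y ≠ 0 ∧
      ∃ e ∈ Ecl (g j) (fun F => (h F : ℝ)) n,
        |Real.log ‖y‖ - (e.1 * x + e.2 * Real.log R)| ≤ C' + 2 * L := by
  obtain ⟨C', hC', h1⟩ := newt_all hN g hg0
  refine ⟨C', hC', fun L χ x R hχ j y hy => ?_⟩
  obtain ⟨h2, k, hk, l, hl, hkl, h3⟩ := h1 L χ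
    (fun F => (h F : ℝ) * x + (n F : ℝ) * Real.log R) hχ j y hy
  refine ⟨h2, _, Finset.mem_image.2 ⟨(k, l), Finset.mem_product.2 ⟨hk, hl⟩, rfl⟩, ?_⟩
  have hd : ((l : ℝ) - k) ≠ 0 := by
    have : (k : ℝ) < l := by exact_mod_cast hkl
    linarith
  have e : ((h ((g j).coeff k) : ℝ) - h ((g j).coeff l)) / ((l : ℝ) - k) * x +
      ((n ((g j).coeff k) : ℝ) - n ((g j).coeff l)) / ((l : ℝ) - k) * Real.log R =
      (((h ((g j).coeff k) : ℝ) * x + (n ((g j).coeff k) : ℝ) * Real.log R) -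
        ((h ((g j).coeff l) : ℝ) * x + (n ((g j).coeff l) : ℝ) * Real.log R)) /
          ((l : ℝ) - k) := by
    field_simp
    ring
  show |Real.log ‖y‖ - (((h ((g j).coeff k) : ℝ) - h ((g j).coeff l)) / ((l : ℝ) - k) * x +
      ((n ((g j).coeff k) : ℝ) - n ((g j).coeff l)) / ((l : ℝ) - k) * Real.log R)| ≤ _
  rw [e]
  exact h3

theorem Ecl_rat {A : Type} [CommRing A] (g : Polynomial A) (h n : A → ℕ) (e : ℝ × ℝ)
    (he : e ∈ Ecl g (fun F => (h F : ℝ)) n) : ∃ r : ℚ, (r : ℝ) = e.1 := by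
  obtain ⟨kl, -, rfl⟩ := Finset.mem_image.1 he
  refine ⟨((h (g.coeff kl.1) : ℚ) - h (g.coeff kl.2)) / ((kl.2 : ℚ) - kl.1), ?_⟩
  push_cast
  rfl

theorem transport3 (hROOT : S_ROOT) (hCLS : S_CLS3) {s : ℕ} {β : Type} [Fintype β]
    (p : β → MvPolynomial (Fin s) ℂ) (c : β → ℂ)
    (f U W : Polynomial (MvPolynomial β (MvPolynomial (Fin s) ℂ)))
    (D Δ : MvPolynomial β (MvPolynomial (Fin s) ℂ))
    (N g : Fin s → Polynomial (MvPolynomial β (MvPolynomial (Fin s) ℂ)))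
    (hf : f.Monic) (hUW : U * f + W * Polynomial.derivative f = Polynomial.C Δ)
    (hgN : ∀ (j : Fin s) (z : Fin s → ℂ) (t : ℂ), (f.map (val p c z)).eval t = 0 →
      val p c z D ≠ 0 → ((g j).map (val p c z)).eval (yv p c (N j) D z t) = 0)
    (Ω : Set (Fin s → ℂ)) (hΩ : IsOpen Ω) (hΩc : Convex ℝ Ω)
    (hΔ : ∀ w ∈ Ω, val p c w Δ ≠ 0) (hD : ∀ w ∈ Ω, val p c w D ≠ 0)
    (k : Fin s) (R : ℝ) (E : Fin s → Finset (ℝ × ℝ)) (C' : ℝ)
    (hcls : ∀ w ∈ Ω, ∀ j, ∀ y : ℂ, ((g j).map (val p c w)).eval y = 0 →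
      y ≠ 0 ∧ ∃ e ∈ E j, |Real.log ‖y‖ - (e.1 * (w k).re + e.2 * Real.log R)| ≤ C')
    (hsep : ∀ j, ∀ w ∈ Ω, ∀ e ∈ E j, ∀ e' ∈ E j, e ≠ e' →
      2 * C' < |(e.1 * (w k).re + e.2 * Real.log R) - (e'.1 * (w k).re + e'.2 * Real.log R)|)
    (w₀ : Fin s → ℂ) (hw₀ : w₀ ∈ Ω) (t₀ : ℂ)
    (ht₀ : (f.map (val p c w₀)).eval t₀ = 0) (e : Fin s → ℝ × ℝ) (he : ∀ j, e j ∈ E j)
    (hcl : ∀ j, |Real.log ‖yv p c (N j) D w₀ t₀‖ -
      ((e j).1 * (w₀ k).re + (e j).2 * Real.log R)| ≤ C') :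
    ∃ Z : (Fin s → ℂ) → ℂ,
      (∀ w ∈ Ω, (f.map (val p c w)).eval (Z w) = 0) ∧
      ∀ j, DifferentiableOn ℂ (fun w => yv p c (N j) D w (Z w)) Ω ∧
        ∀ w ∈ Ω, yv p c (N j) D w (Z w) ≠ 0 ∧
          |Real.log ‖yv p c (N j) D w (Z w)‖ -
            ((e j).1 * (w k).re + (e j).2 * Real.log R)| ≤ C' := by
  classical
  have hR := hROOT s β p c f U W Δ hf hUW 1 0 Ω hΩ hΩc
  simp only [pt_zero] at hR
  obtain ⟨Z, hZd, hZ0, hZ⟩ := hR hΔ w₀ hw₀ t₀ ht₀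
  refine ⟨Z, hZ, fun j => ?_⟩
  have hvd : ∀ G : MvPolynomial β (MvPolynomial (Fin s) ℂ),
      Differentiable ℂ fun w : Fin s → ℂ => val p c w G := by
    intro G
    have := val_diff p c G 0 1
    simp only [pt_zero] at this
    exact this
  have hd : DifferentiableOn ℂ (fun w => yv p c (N j) D w (Z w)) Ω := by
    have e0 : (fun w => yv p c (N j) D w (Z w)) =
        fun w => ((N j).map (val p c w)).eval (Z w) * (val p c w D)⁻¹ := by
      funext w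
      rw [yv, div_eq_mul_inv]
    rw [e0]
    refine DifferentiableOn.mul ?_ ((hvd D).differentiableOn.fun_inv hD)
    have e1 : (fun w => ((N j).map (val p c w)).eval (Z w)) =
        fun w => ∑ k ∈ (N j).support, val p c w ((N j).coeff k) * Z w ^ k := by
      funext w
      rw [Polynomial.eval_map, Polynomial.eval₂_eq_sum, Polynomial.sum_def]
    rw [e1]
    refine DifferentiableOn.fun_sum fun k _ => ?_
    exact (hvd _).differentiableOn.mul (hZd.pow k)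
  have hy : ∀ w ∈ Ω, yv p c (N j) D w (Z w) ≠ 0 ∧
      ∃ e ∈ E j, |Real.log ‖yv p c (N j) D w (Z w)‖ -
        (e.1 * (w k).re + e.2 * Real.log R)| ≤ C' := by
    intro w hw
    exact hcls w hw j _ (hgN j _ _ (hZ w hw) (hD w hw))
  refine ⟨hd, fun w hw => ⟨(hy w hw).1, ?_⟩⟩
  have hcont : ContinuousOn (fun w => Real.log ‖yv p c (N j) D w (Z w)‖) Ω := by
    refine ContinuousOn.log hd.continuousOn.norm fun w hw => ?_
    exact norm_ne_zero_iff.2 (hy w hw).1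
  refine hCLS s Ω _ (ℝ × ℝ) (E j) (fun e w => e.1 * (w k).re + e.2 * Real.log R) C'
    hΩc.isPreconnected hcont (fun e _ => ?_) (fun w hw => (hy w hw).2) (hsep j) w₀ hw₀ (e j)
    (he j) ?_ w hw
  · have h1 : Continuous fun w : Fin s → ℂ => (w k).re :=
      Complex.continuous_re.comp (continuous_apply k)
    exact ((continuous_const.mul h1).add continuous_const).continuousOn
  · simp only [hZ0]
    exact hcl j

end Pool.Agent.K3h53.UG
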