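import Pool.Agent.K3h53.UG.Core4a

/-! UG project, fourth part: the core for arbitrary hypersurfaces. -/

set_option autoImplicit false

namespace Pool.Agent.K3h53.UG

open MvPolynomial Filter Topology Metric Set Pool.Agent.K3h22.EX

/-- the function `N(t)/D` at a homomorphism -/
noncomputable def yq {A : Type} [CommRing A] (χ : A →+* ℂ) (N : Polynomial A) (D : A) (t : ℂ) :
    ℂ :=
  (N.map χ).eval t / χ D

/-- a point of the ring where finitely many nonzero elements are nonzero -/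
theorem exists_pt4 (hGEO : S_GEO) (hDOM : S_DOM4) {s : ℕ} {F : MvPolynomial (Fin (s + 1)) ℂ}
    (hF : Prime F) (hN : ∀ u : Fin (s + 1) → ℚ, u ≠ 0 → NonRealAt (top F) fun i => (u i : ℝ))
    {A : Type} [CommRing A] (Φ : Fam F A) (k : Fin (s + 1)) (T : Finset A)
    (hT : ∀ a ∈ T, a ≠ 0) : ∃ (x : Zr F) (Y : ℂ), ∀ a ∈ T, Φ.ch x Y a ≠ 0 := by
  have hk0 : (Pi.single k 1 : Fin (s + 1) → ℚ) ≠ 0 := by
    intro h0
    have := congrFun h0 k
    simp at this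
  obtain ⟨lam, -, ε, C, R₀, hε, -, hR₀, h⟩ := unif4 hGEO hDOM hF Φ k 0
    (fun i => (((Pi.single k 1 : Fin (s + 1) → ℚ) i : ℚ) : ℝ)) (by simp) (hN _ hk0) T hT
  obtain ⟨ψ, -, -, h1⟩ := h R₀ le_rfl
  obtain ⟨h2, -, h3⟩ := h1 (sc R₀ lam) (mem_ball_self (by positivity))
  exact ⟨⟨_, h2⟩, _, fun a ha => (h3 a ha).1⟩

/-- **analytic core** for hypersurfaces -/
theorem core4 (hGEO : S_GEO) (hDOM : S_DOM4) (hROOT : S_ROOT4) (hSOL : S_SOL4) (hCLS : S_CLS3)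
    (hRP : S_RP) (hPIG : S_PIG) (hCOMP : S_COMP) (hNEWT : S_NEWT)
    {s : ℕ} {F : MvPolynomial (Fin (s + 1)) ℂ} (hF : Prime F)
    (hNR : ∀ u : Fin (s + 1) → ℚ, u ≠ 0 → NonRealAt (top F) fun i => (u i : ℝ))
    {A : Type} [CommRing A] (Φ : Fam F A) (k : Fin (s + 1)) (c : Fin (s + 1) → ℂ)
    (f U W : Polynomial A) (D Δ G0 : A) (N g : Fin s → Polynomial A)
    (hf : f.Monic) (hf0 : 0 < f.natDegree)
    (hUW : U * f + W * Polynomial.derivative f = Polynomial.C Δ)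
    (hD : D ≠ 0) (hΔ : Δ ≠ 0) (hG0 : G0 ≠ 0) (hg0 : ∀ j, (g j).coeff 0 ≠ 0)
    (hgN : ∀ (j : Fin s) (x : Zr F) (Y t : ℂ), (f.map (Φ.ch x Y)).eval t = 0 →
      Φ.ch x Y D ≠ 0 → ((g j).map (Φ.ch x Y)).eval (yq (Φ.ch x Y) (N j) D t) = 0) :
    ∃ (x : Zr F) (t : ℂ), Φ.ch x (Complex.exp (x.1 k + c k)) G0 ≠ 0 ∧
      Φ.ch x (Complex.exp (x.1 k + c k)) D ≠ 0 ∧
      (f.map (Φ.ch x (Complex.exp (x.1 k + c k)))).eval t = 0 ∧
      ∀ j, yq (Φ.ch x (Complex.exp (x.1 k + c k))) (N j) D t =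
        Complex.exp (x.1 (k.succAbove j) + c (k.succAbove j)) := by
  classical
  obtain ⟨𝒩, Cp, hCp, -, -, hpig⟩ := hPIG s f.natDegree
  -- the polynomials `Q ν`
  have hQex : ∀ ν : Fin s → ℕ, ∃ Q : Polynomial A, Q.natDegree = f.natDegree ∧
      Q.coeff 0 ≠ 0 ∧ ∀ χ : A →+* ℂ,
      (∀ t : ℂ, (f.map χ).eval t = 0 →
        (Q.map χ).eval (∏ j, (((N j).map χ).eval t) ^ ν j) = 0) ∧
      ∀ u : ℂ, (Q.map χ).eval u = 0 → ∃ t : ℂ, (f.map χ).eval t = 0 ∧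
        ∏ j, (((N j).map χ).eval t) ^ ν j = u := by
    intro ν
    obtain ⟨Q, hQm, hQd, hQ⟩ := hCOMP _ f (∏ j, N j ^ ν j) hf hf0
    have e0 : ∀ (χ : A →+* ℂ) (t : ℂ),
        (((∏ j, N j ^ ν j)).map χ).eval t = ∏ j, (((N j).map χ).eval t) ^ ν j := by
      intro χ t
      rw [Polynomial.map_prod, Polynomial.eval_prod]
      exact Finset.prod_congr rfl fun j _ => by rw [Polynomial.map_pow, Polynomial.eval_pow]
    simp only [e0] at hQ
    refine ⟨Q, hQd, ?_, hQ⟩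
    intro hc
    obtain ⟨x, Y, hxY⟩ := exists_pt4 hGEO hDOM hF hNR Φ k
      (insert D (Finset.univ.image fun j => (g j).coeff 0)) (by
        intro a ha
        rcases Finset.mem_insert.1 ha with rfl | ha
        · exact hD
        · obtain ⟨j, -, rfl⟩ := Finset.mem_image.1 ha
          exact hg0 j)
    obtain ⟨t, ht, hprod⟩ := (hQ (Φ.ch x Y)).2 0 (by
      rw [← Polynomial.coeff_zero_eq_eval_zero, Polynomial.coeff_map, hc, map_zero])
    rw [Finset.prod_eq_zero_iff] at hprod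
    obtain ⟨j, -, hj⟩ := hprod
    have hj' : ((N j).map (Φ.ch x Y)).eval t = 0 := eq_zero_of_pow_eq_zero hj
    have h1 := hgN j x Y t ht (hxY D (Finset.mem_insert_self _ _))
    rw [yq, hj', zero_div, ← Polynomial.coeff_zero_eq_eval_zero, Polynomial.coeff_map] at h1
    exact hxY _ (Finset.mem_insert_of_mem (Finset.mem_image_of_mem _ (Finset.mem_univ j))) h1
  choose Q hQd hQ0 hQ using hQex
  obtain ⟨T, hG0T, hDT, hΔT, hgT, hQT, hT0⟩ :
      ∃ T : Finset A, G0 ∈ T ∧ D ∈ T ∧ Δ ∈ T ∧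
        (∀ j, ∀ k ∈ (g j).support, (g j).coeff k ∈ T) ∧
        (∀ ν ∈ 𝒩, ∀ k ∈ (Q ν).support, (Q ν).coeff k ∈ T) ∧ ∀ F ∈ T, F ≠ 0 := by
    refine ⟨({G0, D, Δ} ∪ Finset.univ.biUnion fun j => (g j).support.image (g j).coeff) ∪
      𝒩.biUnion fun ν => (Q ν).support.image (Q ν).coeff, by simp, by simp, by simp,
      ?_, ?_, ?_⟩
    · intro j k hk
      rw [Finset.mem_union, Finset.mem_union, Finset.mem_biUnion]
      exact Or.inl (Or.inr ⟨j, Finset.mem_univ _, Finset.mem_image_of_mem _ hk⟩)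
    · intro ν hν k hk
      rw [Finset.mem_union, Finset.mem_biUnion (s := 𝒩)]
      exact Or.inr ⟨ν, hν, Finset.mem_image_of_mem _ hk⟩
    · intro F hF
      rw [Finset.mem_union, Finset.mem_union, Finset.mem_biUnion, Finset.mem_biUnion] at hF
      rcases hF with (hF | ⟨j, -, hF⟩) | ⟨ν, -, hF⟩
      · simp only [Finset.mem_insert, Finset.mem_singleton] at hF
        rcases hF with rfl | rfl | rfl
        · exact hG0
        · exact hD
        · exact hΔ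
      · obtain ⟨k, hk, rfl⟩ := Finset.mem_image.1 hF
        exact Polynomial.mem_support_iff.1 hk
      · obtain ⟨k, hk, rfl⟩ := Finset.mem_image.1 hF
        exact Polynomial.mem_support_iff.1 hk
  obtain ⟨S, hSn, hS⟩ : ∃ S : ℝ, 0 ≤ S ∧ ∀ a ∈ T, (Φ.dg a : ℝ) ≤ S :=
    ⟨∑ a ∈ T, (Φ.dg a : ℝ), Finset.sum_nonneg fun _ _ => by positivity, fun a ha =>
      Finset.single_le_sum (f := fun a => (Φ.dg a : ℝ)) (fun _ _ => by positivity) ha⟩
  have hroot : ∀ χ : A →+* ℂ, ∃ t : ℂ, (f.map χ).eval t = 0 := by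
    intro χ
    have hdeg : (f.map χ).degree ≠ 0 := by
      rw [Polynomial.Monic.degree_map hf]
      intro h0
      have := Polynomial.natDegree_eq_zero_iff_degree_le_zero.mpr h0.le
      omega
    obtain ⟨u, hu⟩ := IsAlgClosed.exists_root _ hdeg
    exact ⟨u, hu⟩
  -- the centre of the ball for a direction `u`
  have hcentre : ∀ (ρ R C L v : ℝ), 0 ≤ C → 1 ≤ R → |ρ - R| ≤ C → ∀ a ∈ T,
      |v - (Φ.dg a : ℝ) * ρ| ≤ L → |v - (Φ.dg a : ℝ) * R| ≤ L + S * C := by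
    intro ρ R C L v hC hR hρ a ha hv
    have e1 : v - (Φ.dg a : ℝ) * R = (v - (Φ.dg a : ℝ) * ρ) + (Φ.dg a : ℝ) * (ρ - R) := by ring
    rw [e1]
    refine (abs_add_le _ _).trans (add_le_add hv ?_)
    rw [abs_mul, abs_of_nonneg (by positivity : (0 : ℝ) ≤ (Φ.dg a : ℝ))]
    exact mul_le_mul (hS a ha) hρ (abs_nonneg _) hSn
  -- the first direction
  have hk0 : (Pi.single k 1 : Fin (s + 1) → ℚ) ≠ 0 := by
    intro h0
    have := congrFun h0 k
    simp at this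
  obtain ⟨lam0, -, ε0, A0, R0, hε0, hA0, hR0, hb0⟩ := unif4 hGEO hDOM hF Φ k (c k)
    (fun i => (((Pi.single k 1 : Fin (s + 1) → ℚ) i : ℚ) : ℝ)) (by simp) (hNR _ hk0) T hT0
  obtain ⟨C', hC', hcls⟩ := slopes4 hNEWT g hg0 Φ.dg
  obtain ⟨K0, hK0⟩ : ∃ K0 : ℝ, K0 = A0 + S * (A0 + ‖c k‖) := ⟨_, rfl⟩
  have hck := norm_nonneg (c k)
  have hK0n : 0 ≤ K0 := by rw [hK0]; positivity
  have hstart : ∀ R : ℝ, R0 ≤ R → ∃ (x : Zr F) (Y : ℂ), ∀ a ∈ T, Φ.ch x Y a ≠ 0 ∧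
      |Real.log ‖Φ.ch x Y a‖ - (Φ.dg a : ℝ) * R| ≤ K0 * (1 + Real.log R) := by
    intro R hR
    have hR1 : 1 ≤ R := hR0.trans hR
    have hlog := Real.log_nonneg hR1
    obtain ⟨ψ, -, h2, h1⟩ := hb0 R hR
    obtain ⟨h3, -, h4⟩ := h1 (sc R lam0) (mem_ball_self (by positivity))
    refine ⟨⟨_, h3⟩, _, fun a ha => ⟨(h4 a ha).1, ?_⟩⟩
    refine (hcentre _ R (A0 + ‖c k‖) _ _ (by positivity) hR1 ?_ a ha (h4 a ha).2).trans ?_
    · have e1 : (ψ (sc R lam0)).re + (c k).re - R = ((ψ (sc R lam0)).re - R) + (c k).re := by ring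
      rw [e1]
      exact (abs_add_le _ _).trans (add_le_add h2 (Complex.abs_re_le_norm _))
    · rw [hK0]
      have : 0 ≤ S * (A0 + ‖c k‖) := by positivity
      nlinarith
  have hfreq : ∃ᶠ R : ℝ in atTop, ∃ b ∈ Fintype.piFinset fun j => Esl (g j) Φ.dg,
      ∃ (x : Zr F) (Y t : ℂ), (∀ a ∈ T, Φ.ch x Y a ≠ 0 ∧
        |Real.log ‖Φ.ch x Y a‖ - (Φ.dg a : ℝ) * R| ≤ K0 * (1 + Real.log R)) ∧
      (f.map (Φ.ch x Y)).eval t = 0 ∧ (∀ t' : ℂ, (f.map (Φ.ch x Y)).eval t' = 0 → ∀ j,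
        yq (Φ.ch x Y) (N j) D t' ≠ 0) ∧
      ∀ j, |Real.log ‖yq (Φ.ch x Y) (N j) D t‖ - b j * R| ≤
        C' + 2 * (K0 * (1 + Real.log R)) := by
    apply Eventually.frequently
    filter_upwards [eventually_ge_atTop R0] with R hR
    obtain ⟨x, Y, hxY⟩ := hstart R hR
    obtain ⟨t, ht⟩ := hroot (Φ.ch x Y)
    have h0 : ∀ t' : ℂ, (f.map (Φ.ch x Y)).eval t' = 0 → ∀ j, _ := fun t' ht' j =>
      hcls (K0 * (1 + Real.log R)) (Φ.ch x Y) R
      (fun j k hk => hxY _ (hgT j k hk)) j _ (hgN j x Y t' ht' (hxY D hDT).1)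
    choose h2 b hb h3 using h0 t ht
    exact ⟨b, Fintype.mem_piFinset.2 hb, x, Y, t, hxY, ht, fun t' ht' j => (h0 t' ht' j).1, h3⟩
  rw [frequently_exists_finset] at hfreq
  obtain ⟨b, hb, hfreq⟩ := hfreq
  rw [Fintype.mem_piFinset] at hb
  -- the direction
  obtain ⟨u, huk, huj⟩ : ∃ u : Fin (s + 1) → ℚ, u k = 1 ∧
      ∀ j, ((u (k.succAbove j) : ℚ) : ℝ) = b j := by
    choose r hr using fun j => Esl_rat (g j) Φ.dg (b j) (hb j)
    refine ⟨k.insertNth 1 r, by simp, fun j => ?_⟩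
    rw [Fin.insertNth_apply_succAbove]
    exact hr j
  have hu0 : u ≠ 0 := by
    intro h0
    have := congrFun h0 k
    rw [huk] at this
    simp at this
  have huk' : ((u k : ℚ) : ℝ) = 1 := by rw [huk]; simp
  obtain ⟨lam, hlam, ε, A1, R1, hε, hA1, hR1', hb1⟩ := unif4 hGEO hDOM hF Φ k (c k)
    (fun i => ((u i : ℚ) : ℝ)) huk' (hNR _ hu0) T hT0
  obtain ⟨Ch, hCh, hhaus⟩ := haus hRP s f.natDegree 𝒩 Cp hCp hpig
  obtain ⟨K1, hK1⟩ : ∃ K1 : ℝ, K1 = A1 + S * (A1 + ‖c k‖) := ⟨_, rfl⟩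
  have hK1n : 0 ≤ K1 := by rw [hK1]; positivity
  obtain ⟨B, hBn, hB⟩ : ∃ B : ℝ, 0 ≤ B ∧ ∀ j, |b j| ≤ B :=
    ⟨∑ j, |b j|, Finset.sum_nonneg fun _ _ => abs_nonneg _, fun j =>
      Finset.single_le_sum (f := fun j => |b j|) (fun _ _ => abs_nonneg _) (Finset.mem_univ j)⟩
  obtain ⟨cs, hcsn, hcs⟩ : ∃ cs : ℝ, 0 ≤ cs ∧ ∀ i, ‖c i‖ ≤ cs :=
    ⟨∑ i, ‖c i‖, Finset.sum_nonneg fun _ _ => norm_nonneg _, fun i =>
      Finset.single_le_sum (f := fun i => ‖c i‖) (fun _ _ => norm_nonneg _) (Finset.mem_univ i)⟩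
  obtain ⟨C3, hC3⟩ : ∃ C3 : ℝ, C3 = C' + 2 * K0 + 2 * A1 + Ch * (1 + (K0 + K1)) +
    B * (A1 + cs) + cs := ⟨_, rfl⟩
  have hC3n : 0 ≤ C3 := by rw [hC3]; positivity
  obtain ⟨Rs, hRs⟩ := sep4 (Finset.univ.biUnion fun j => Esl (g j) Φ.dg) C3
  obtain ⟨Rl, hRl, hsol⟩ := hSOL s lam hlam ε (C3 + B * cs + cs) hε
  obtain ⟨R, ⟨x0, Y0, t, hx0, ht, hne0, htb⟩, hRR1, hRRs, hRRl⟩ := (hfreq.and_eventually
    ((eventually_ge_atTop R1).and ((eventually_ge_atTop Rs).and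
      (eventually_ge_atTop Rl)))).exists
  have hRone : 1 ≤ R := hR1'.trans hRR1
  have hlog := Real.log_nonneg hRone
  obtain ⟨ψ, hψd, hψc, hψ⟩ := hb1 R hRR1
  obtain ⟨Ω, hΩ⟩ : ∃ Ω, Ω = ball (sc R lam) (ε * R) := ⟨_, rfl⟩
  rw [← hΩ] at hψd hψ
  have hΩo : IsOpen Ω := by rw [hΩ]; exact isOpen_ball
  have hΩc : Convex ℝ Ω := by rw [hΩ]; exact convex_ball _ _
  have hcen : sc R lam ∈ Ω := by
    rw [hΩ]
    exact mem_ball_self (by positivity)
  choose hZr hre hval using hψ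
  -- the family of homomorphisms
  obtain ⟨χ, hχ⟩ : ∃ χ : (Fin s → ℂ) → A →+* ℂ, ∀ (l : Fin s → ℂ) (hl : l ∈ Ω),
      χ l = Φ.ch ⟨_, hZr l hl⟩ (Complex.exp (ψ l + c k)) :=
    ⟨fun l => if hl : l ∈ Ω then Φ.ch ⟨_, hZr l hl⟩ (Complex.exp (ψ l + c k)) else
      Φ.ch ⟨_, hZr _ hcen⟩ 0, fun l hl => dif_pos hl⟩
  have hχv : ∀ l ∈ Ω, ∀ a ∈ T, χ l a ≠ 0 ∧
      |Real.log ‖χ l a‖ - (Φ.dg a : ℝ) * ((ψ l).re + (c k).re)| ≤ A1 * (1 + Real.log R) := by
    intro l hl a ha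
    rw [hχ l hl]
    exact hval l hl a ha
  have hχgN : ∀ l ∈ Ω, ∀ (j : Fin s) (t : ℂ), (f.map (χ l)).eval t = 0 →
      ((g j).map (χ l)).eval (yq (χ l) (N j) D t) = 0 := by
    intro l hl j t ht
    have h1 := (hχv l hl D hDT).1
    rw [hχ l hl] at ht h1 ⊢
    exact hgN j _ _ t ht h1
  have hχcls : ∀ l ∈ Ω, ∀ (j : Fin s) (t : ℂ), (f.map (χ l)).eval t = 0 →
      yq (χ l) (N j) D t ≠ 0 ∧ ∃ e ∈ Esl (g j) Φ.dg,
        |Real.log ‖yq (χ l) (N j) D t‖ - e * ((ψ l).re + (c k).re)| ≤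
          C' + 2 * (A1 * (1 + Real.log R)) := by
    intro l hl j t ht
    exact hcls _ (χ l) _ (fun j k hk => hχv l hl _ (hgT j k hk)) j _ (hχgN l hl j t ht)
  have hNne : ∀ (χ : A →+* ℂ) (t : ℂ), (∀ j, yq χ (N j) D t ≠ 0) →
      ∀ j, ((N j).map χ).eval t ≠ 0 := by
    intro χ t h j h0
    have := h j
    rw [yq, h0, zero_div] at this
    exact this rfl
  -- transfer of the root
  have hρc : |(ψ (sc R lam)).re + (c k).re - R| ≤ A1 + ‖c k‖ := by
    have e1 : (ψ (sc R lam)).re + (c k).re - R = ((ψ (sc R lam)).re - R) + (c k).re := by ring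
    rw [e1]
    exact (abs_add_le _ _).trans (add_le_add hψc (Complex.abs_re_le_norm _))
  have hcmp : ∀ a ∈ T, |Real.log ‖Φ.ch x0 Y0 a‖ - Real.log ‖χ (sc R lam) a‖| ≤
      (K0 + K1) * (1 + Real.log R) := by
    intro a ha
    have h1 := (hx0 a ha).2
    have h2 := hcentre _ R (A1 + ‖c k‖) _ _ (by positivity) hRone hρc a ha
      (hχv _ hcen a ha).2
    have h3 : A1 * (1 + Real.log R) + S * (A1 + ‖c k‖) ≤ K1 * (1 + Real.log R) := by
      rw [hK1]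
      have : 0 ≤ S * (A1 + ‖c k‖) := by positivity
      nlinarith
    rw [abs_le] at h1 h2 ⊢
    constructor <;> nlinarith [h1.1, h1.2, h2.1, h2.2]
  obtain ⟨t', ht', htt'⟩ := hhaus A f N D Q hf rfl hQd hQ0 hQ (Φ.ch x0 Y0)
    (χ (sc R lam)) ((K0 + K1) * (1 + Real.log R)) (by positivity)
    (fun ν hν k hk => ⟨(hx0 _ (hQT ν hν k hk)).1, (hχv _ hcen _ (hQT ν hν k hk)).1,
      hcmp _ (hQT ν hν k hk)⟩)
    (hx0 D hDT).1 (hχv _ hcen D hDT).1 (hcmp D hDT)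
    (fun t ht => hNne _ t (hne0 t ht))
    (fun t ht => hNne _ t fun j => (hχcls _ hcen j t ht).1) t ht
  -- continuation
  have hχd : ∀ a : A, DifferentiableOn ℂ (fun l => χ l a) Ω := by
    intro a
    have h1 : DifferentiableOn ℂ (fun l => ∑ i ∈ Finset.range (Φ.dg a + 1),
        eval (xp k (fun i => ((u i : ℚ) : ℝ)) l (ψ l)) (Φ.cf a i) *
          Complex.exp (ψ l + c k) ^ i) Ω := by
      refine DifferentiableOn.fun_sum fun i _ => DifferentiableOn.fun_mul ?_ ?_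
      · refine (diff_eval _ _).comp_differentiableOn ?_
        rw [differentiableOn_pi]
        intro m
        unfold xp
        refine DifferentiableOn.fun_add ?_ (hψd.const_mul _)
        rcases Fin.eq_self_or_eq_succAbove k m with rfl | ⟨j, rfl⟩
        · simp only [Fin.insertNth_apply_same]
          exact differentiableOn_const _
        · simp only [Fin.insertNth_apply_succAbove]
          exact (differentiable_apply j).differentiableOn
      · exact ((hψd.add_const _).cexp).fun_pow i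
    refine h1.congr fun l hl => ?_
    rw [hχ l hl, Φ.sum]
  obtain ⟨Z, hZd, hZ0, hZ⟩ := hROOT s A f U W Δ hf hUW Ω hΩo hΩc χ hχd
    (fun l hl => (hχv l hl Δ hΔT).1) (sc R lam) hcen t' ht'
  have hyd : ∀ j, DifferentiableOn ℂ (fun l => yq (χ l) (N j) D (Z l)) Ω := by
    intro j
    have e0 : (fun l => yq (χ l) (N j) D (Z l)) =
        fun l => (∑ m ∈ (N j).support, χ l ((N j).coeff m) * Z l ^ m) * (χ l D)⁻¹ := by
      funext l
      rw [yq, div_eq_mul_inv, Polynomial.eval_map, Polynomial.eval₂_eq_sum, Polynomial.sum_def]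
    rw [e0]
    refine DifferentiableOn.fun_mul (DifferentiableOn.fun_sum fun m _ =>
      (hχd _).fun_mul (hZd.fun_pow m)) ((hχd D).fun_inv fun l hl => (hχv l hl D hDT).1)
  have hre2 : ∀ l ∈ Ω, R / 2 - C3 ≤ (ψ l).re + (c k).re := by
    intro l hl
    have h1 := hre l hl
    have h2 := (abs_le.1 (Complex.abs_re_le_norm (c k))).1
    have h3 := hcs k
    have h4 : cs ≤ C3 := by
      rw [hC3]
      have : 0 ≤ Ch * (1 + (K0 + K1)) := by positivity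
      have : 0 ≤ B * (A1 + cs) := by positivity
      linarith
    linarith
  have hyc : ∀ j, ∀ l ∈ Ω, |Real.log ‖yq (χ l) (N j) D (Z l)‖ -
      b j * ((ψ l).re + (c k).re)| ≤ C3 * (1 + Real.log R) := by
    intro j
    have hcont : ContinuousOn (fun l => Real.log ‖yq (χ l) (N j) D (Z l)‖) Ω := by
      refine ContinuousOn.log (hyd j).continuousOn.norm fun l hl => ?_
      exact norm_ne_zero_iff.2 (hχcls l hl j _ (hZ l hl)).1
    refine hCLS s Ω _ ℝ (Esl (g j) Φ.dg) (fun e l => e * ((ψ l).re + (c k).re))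
      (C3 * (1 + Real.log R)) hΩc.isPreconnected hcont (fun e _ => ?_) (fun l hl => ?_)
      (fun l hl e he e' he' hne => ?_) (sc R lam) hcen (b j) (hb j) ?_
    · exact continuousOn_const.mul ((Complex.continuous_re.comp_continuousOn
        hψd.continuousOn).add continuousOn_const)
    · obtain ⟨-, e, he, h1⟩ := hχcls l hl j _ (hZ l hl)
      refine ⟨e, he, h1.trans ?_⟩
      rw [hC3]
      have h2 : 0 ≤ Ch * (1 + (K0 + K1)) := by positivity
      have h3 : 0 ≤ B * (A1 + cs) := by positivity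
      nlinarith [mul_nonneg h2 hlog, mul_nonneg h3 hlog, mul_nonneg hC' hlog,
        mul_nonneg hK0n hlog, mul_nonneg hcsn hlog]
    · exact hRs R hRRs _ (hre2 l hl) e (Finset.mem_biUnion.2 ⟨j, Finset.mem_univ _, he⟩) e'
        (Finset.mem_biUnion.2 ⟨j, Finset.mem_univ _, he'⟩) hne
    · simp only [hZ0]
      have h1 := htb j
      have h2 : |Real.log ‖yq (Φ.ch x0 Y0) (N j) D t‖ -
          Real.log ‖yq (χ (sc R lam)) (N j) D t'‖| ≤
          Ch * (1 + (K0 + K1) * (1 + Real.log R)) := htt' j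
      have h3 : |b j * ((ψ (sc R lam)).re + (c k).re - R)| ≤ B * (A1 + cs) := by
        rw [abs_mul]
        exact mul_le_mul (hB j) (hρc.trans (by linarith [hcs k])) (abs_nonneg _) hBn
      have e1 : Real.log ‖yq (χ (sc R lam)) (N j) D t'‖ -
          b j * ((ψ (sc R lam)).re + (c k).re) =
          (Real.log ‖yq (Φ.ch x0 Y0) (N j) D t‖ - b j * R) -
          (Real.log ‖yq (Φ.ch x0 Y0) (N j) D t‖ -
            Real.log ‖yq (χ (sc R lam)) (N j) D t'‖) -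
          b j * ((ψ (sc R lam)).re + (c k).re - R) := by ring
      rw [e1]
      refine (abs_sub _ _).trans ((add_le_add ((abs_sub _ _).trans (add_le_add h1 h2))
        h3).trans ?_)
      rw [hC3]
      have h4 : 0 ≤ B * (A1 + cs) := by positivity
      nlinarith [mul_nonneg h4 hlog, mul_nonneg hC' hlog, mul_nonneg hA1 hlog,
        mul_nonneg hCh hlog, mul_nonneg hcsn hlog]
  -- logarithms
  have hlogs : ∀ j, ∃ L : (Fin s → ℂ) → ℂ, DifferentiableOn ℂ L Ω ∧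
      ∀ l ∈ Ω, Complex.exp (L l) = yq (χ l) (N j) D (Z l) := fun j =>
    Pool.Agent.K3h60.EX.t_LOG s Ω _ hΩo hΩc (hyd j)
      (fun l hl => (hχcls l hl j _ (hZ l hl)).1)
  choose L hLd hL using hlogs
  rw [hΩ] at hLd hψd
  obtain ⟨l, hl, hN⟩ := hsol R hRRl (fun j l => L j l - (b j : ℂ) * ψ l - c (k.succAbove j))
    (fun j => (((hLd j).fun_sub (hψd.const_mul _)).sub_const _)) (by
      intro j l hl
      rw [← hΩ] at hl
      have h1 := hyc j l hl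
      rw [← hL j l hl, log_norm_exp] at h1
      have e1 : (L j l - (b j : ℂ) * ψ l - c (k.succAbove j)).re =
          ((L j l).re - b j * ((ψ l).re + (c k).re)) + b j * (c k).re -
            (c (k.succAbove j)).re := by
        rw [Complex.sub_re, Complex.sub_re, Complex.re_ofReal_mul]
        ring
      rw [e1]
      have h2 : |b j * (c k).re| ≤ B * cs := by
        rw [abs_mul]
        exact mul_le_mul (hB j) ((Complex.abs_re_le_norm _).trans (hcs k)) (abs_nonneg _) hBn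
      have h3 : |(c (k.succAbove j)).re| ≤ cs := (Complex.abs_re_le_norm _).trans (hcs _)
      refine (abs_sub _ _).trans ((add_le_add ((abs_add_le _ _).trans (add_le_add h1 h2))
        h3).trans ?_)
      nlinarith [mul_nonneg (mul_nonneg hBn hcsn) hlog, mul_nonneg hcsn hlog])
  rw [← hΩ] at hl
  have hxk : xp k (fun i => ((u i : ℚ) : ℝ)) l (ψ l) k = ψ l := xp_self k _ huk' l _
  refine ⟨⟨_, hZr l hl⟩, Z l, ?_⟩
  show Φ.ch ⟨_, hZr l hl⟩ (Complex.exp (xp k (fun i => ((u i : ℚ) : ℝ)) l (ψ l) k + c k)) G0 ≠ 0 ∧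
      Φ.ch ⟨_, hZr l hl⟩ (Complex.exp (xp k (fun i => ((u i : ℚ) : ℝ)) l (ψ l) k + c k)) D ≠ 0 ∧
      (f.map (Φ.ch ⟨_, hZr l hl⟩
        (Complex.exp (xp k (fun i => ((u i : ℚ) : ℝ)) l (ψ l) k + c k)))).eval (Z l) = 0 ∧
      ∀ j, yq (Φ.ch ⟨_, hZr l hl⟩
        (Complex.exp (xp k (fun i => ((u i : ℚ) : ℝ)) l (ψ l) k + c k))) (N j) D (Z l) =
        Complex.exp (xp k (fun i => ((u i : ℚ) : ℝ)) l (ψ l) (k.succAbove j) +
          c (k.succAbove j))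
  rw [hxk, ← hχ l hl]
  refine ⟨(hχv l hl G0 hG0T).1, (hχv l hl D hDT).1, hZ l hl, fun j => ?_⟩
  obtain ⟨n', hn'⟩ := hN j
  rw [← hL j l hl, xp_succ, huj j]
  have e2 : l j + (b j : ℂ) * ψ l + c (k.succAbove j) =
      L j l + n' * (2 * Real.pi * Complex.I) := by
    linear_combination hn'
  rw [e2, Complex.exp_add, Complex.exp_int_mul_two_pi_mul_I, mul_one]

end Pool.Agent.K3h53.UG
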