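import Pool.Agent.K3h53.UG.Core3a
import Pool.Agent.K3h53.UG.Stm4

/-! UG project, fourth part: preparations for the core. -/

set_option autoImplicit false

namespace Pool.Agent.K3h53.UG

open MvPolynomial Filter Topology Metric Set Pool.Agent.K3h22.EX

/-- the points of the hypersurface `F = 0` -/
abbrev Zr {n : ℕ} (F : MvPolynomial (Fin n) ℂ) : Type := {x : Fin n → ℂ // eval x F = 0}

/-- evaluation homomorphisms of a ring `A` at the points `x` of `F = 0` and `Y : ℂ`: the elements of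
`A` are polynomials in `Y` with coefficients `cf a i`, which are zero or not divisible by `F` -/
structure Fam {n : ℕ} (F : MvPolynomial (Fin n) ℂ) (A : Type) [CommRing A] where
  /-- the homomorphisms -/
  ch : Zr F → ℂ → A →+* ℂ
  /-- the degree in `Y` -/
  dg : A → ℕ
  /-- the coefficients -/
  cf : A → ℕ → MvPolynomial (Fin n) ℂ
  sum : ∀ (a : A) (x : Zr F) (Y : ℂ),
    ch x Y a = ∑ i ∈ Finset.range (dg a + 1), eval x.1 (cf a i) * Y ^ i
  lead : ∀ a, a ≠ 0 → cf a (dg a) ≠ 0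
  ndvd : ∀ a i, cf a i = 0 ∨ ¬ F ∣ cf a i

theorem xp_self {s : ℕ} (k : Fin (s + 1)) (u : Fin (s + 1) → ℝ) (hu : u k = 1) (l : Fin s → ℂ)
    (θ : ℂ) : xp k u l θ k = θ := by
  simp [xp, hu]

theorem xp_succ {s : ℕ} (k : Fin (s + 1)) (u : Fin (s + 1) → ℝ) (l : Fin s → ℂ)
    (θ : ℂ) (j : Fin s) : xp k u l θ (k.succAbove j) = l j + ((u (k.succAbove j) : ℝ) : ℂ) * θ := by
  simp [xp]

theorem log_norm_exp (z : ℂ) : Real.log ‖Complex.exp z‖ = z.re := by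
  rw [Complex.norm_exp, Real.log_exp]

/-- uniform asymptotics near a good direction -/
theorem unif4 (hGEO : S_GEO) (hDOM : S_DOM4) {s : ℕ} {F : MvPolynomial (Fin (s + 1)) ℂ}
    (hF : Prime F) {A : Type} [CommRing A] (Φ : Fam F A) (k : Fin (s + 1)) (ck : ℂ)
    (u : Fin (s + 1) → ℝ) (huk : u k = 1) (hu : NonRealAt (top F) u) (T : Finset A)
    (hT : ∀ a ∈ T, a ≠ 0) :
    ∃ lam : Fin s → ℂ, (∀ j, (lam j).re = 0) ∧ ∃ ε C R₀ : ℝ, 0 < ε ∧ 0 ≤ C ∧ 1 ≤ R₀ ∧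
    ∀ R : ℝ, R₀ ≤ R → ∃ ψ : (Fin s → ℂ) → ℂ,
      DifferentiableOn ℂ ψ (ball (sc R lam) (ε * R)) ∧ |(ψ (sc R lam)).re - R| ≤ C ∧
      ∀ l ∈ ball (sc R lam) (ε * R), ∃ h : eval (xp k u l (ψ l)) F = 0, R / 2 ≤ (ψ l).re ∧
        ∀ a ∈ T, Φ.ch ⟨_, h⟩ (Complex.exp (ψ l + ck)) a ≠ 0 ∧
          |Real.log ‖Φ.ch ⟨_, h⟩ (Complex.exp (ψ l + ck)) a‖ -
            (Φ.dg a : ℝ) * ((ψ l).re + ck.re)| ≤ C * (1 + Real.log R) := by
  classical
  obtain ⟨lam, hlam, ε, C, R₀, hε, hC, hR₀, hg⟩ := hGEO s F k u huk hF hu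
    ((T.biUnion fun a => (Finset.range (Φ.dg a + 1)).image (Φ.cf a)).filter fun G => G ≠ 0) (by
      intro G hG
      rw [Finset.mem_filter, Finset.mem_biUnion] at hG
      obtain ⟨⟨a, -, hG⟩, hG0⟩ := hG
      obtain ⟨i, -, rfl⟩ := Finset.mem_image.1 hG
      exact (Φ.ndvd a i).resolve_left hG0)
  choose C' R₀' hC' hR₀' hdom using fun h => hDOM (C + ‖ck‖) h
  refine ⟨lam, hlam, ε, C + ∑ a ∈ T, C' (Φ.dg a), R₀ + ∑ a ∈ T, R₀' (Φ.dg a), hε,
    add_nonneg hC (Finset.sum_nonneg fun a _ => hC' _), ?_, fun R hR => ?_⟩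
  · have : 0 ≤ ∑ a ∈ T, R₀' (Φ.dg a) :=
      Finset.sum_nonneg fun a _ => zero_le_one.trans (hR₀' _)
    linarith
  have hs0 : 0 ≤ ∑ a ∈ T, R₀' (Φ.dg a) :=
      Finset.sum_nonneg fun a _ => zero_le_one.trans (hR₀' _)
  have hs1 : 0 ≤ ∑ a ∈ T, C' (Φ.dg a) := Finset.sum_nonneg fun a _ => hC' _
  have hRR₀ : R₀ ≤ R := by linarith
  have hR1 : 1 ≤ R := hR₀.trans hRR₀
  have hlog := Real.log_nonneg hR1
  obtain ⟨ψ, h1, h2, h3⟩ := hg R hRR₀
  refine ⟨ψ, h1, h2.trans (by linarith), fun l hl => ?_⟩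
  obtain ⟨h4, h5, h6⟩ := h3 l hl
  refine ⟨h4, h5, fun a ha => ?_⟩
  rw [Φ.sum a]
  have h7 : ∀ i, i ≤ Φ.dg a → Φ.cf a i ≠ 0 → eval (xp k u l (ψ l)) (Φ.cf a i) ≠ 0 ∧
      |Real.log ‖eval (xp k u l (ψ l)) (Φ.cf a i)‖| ≤ C * (1 + Real.log R) := by
    intro i hi hne
    refine h6 _ (Finset.mem_filter.2 ⟨Finset.mem_biUnion.2 ⟨a, ha, Finset.mem_image_of_mem _
      (Finset.mem_range.2 (by omega))⟩, hne⟩)
  have h8 := hdom (Φ.dg a) R (by
      have := Finset.single_le_sum (f := fun a => R₀' (Φ.dg a))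
        (fun a _ => zero_le_one.trans (hR₀' (Φ.dg a))) ha
      linarith) (fun i => eval (xp k u l (ψ l)) (Φ.cf a i)) (Complex.exp (ψ l + ck))
    (Complex.exp_ne_zero _) (by
      rw [log_norm_exp, Complex.add_re]
      have := (abs_le.1 (Complex.abs_re_le_norm ck)).1
      linarith) (h7 _ le_rfl (Φ.lead a (hT a ha))).1 (by
      intro i hi
      by_cases h0 : Φ.cf a i = 0
      · left
        simp only [h0, map_zero]
      · right
        refine (h7 i hi h0).2.trans ?_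
        have := norm_nonneg ck
        nlinarith)
  refine ⟨h8.1, ?_⟩
  have h9 := h8.2
  rw [log_norm_exp, Complex.add_re] at h9
  refine h9.trans ?_
  have h10 := Finset.single_le_sum (f := fun a => C' (Φ.dg a)) (fun a _ => hC' (Φ.dg a)) ha
  exact mul_le_mul_of_nonneg_right (by linarith) (by linarith)

/-- the possible slopes of the roots of `g` -/
noncomputable def Esl {A : Type} [CommRing A] (g : Polynomial A) (dg : A → ℕ) : Finset ℝ :=
  (g.support ×ˢ g.support).image fun kl =>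
    ((dg (g.coeff kl.1) : ℝ) - dg (g.coeff kl.2)) / ((kl.2 : ℝ) - kl.1)

theorem Esl_rat {A : Type} [CommRing A] (g : Polynomial A) (dg : A → ℕ) (e : ℝ)
    (he : e ∈ Esl g dg) : ∃ r : ℚ, (r : ℝ) = e := by
  obtain ⟨kl, -, rfl⟩ := Finset.mem_image.1 he
  refine ⟨((dg (g.coeff kl.1) : ℚ) - dg (g.coeff kl.2)) / ((kl.2 : ℚ) - kl.1), ?_⟩
  push_cast
  rfl

theorem slopes4 (hN : S_NEWT) {s : ℕ} {A : Type} [CommRing A] (g : Fin s → Polynomial A)
    (hg0 : ∀ j, (g j).coeff 0 ≠ 0) (dg : A → ℕ) : ∃ C' : ℝ, 0 ≤ C' ∧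
    ∀ (L : ℝ) (χ : A →+* ℂ) (x : ℝ),
    (∀ j, ∀ k ∈ (g j).support, χ ((g j).coeff k) ≠ 0 ∧ |Real.log ‖χ ((g j).coeff k)‖ -
      (dg ((g j).coeff k) : ℝ) * x| ≤ L) →
    ∀ j, ∀ y : ℂ, ((g j).map χ).eval y = 0 → y ≠ 0 ∧
      ∃ e ∈ Esl (g j) dg, |Real.log ‖y‖ - e * x| ≤ C' + 2 * L := by
  obtain ⟨C', hC', h1⟩ := newt_all hN g hg0
  refine ⟨C', hC', fun L χ x hχ j y hy => ?_⟩
  obtain ⟨h2, k, hk, l, hl, hkl, h3⟩ := h1 L χ (fun F => (dg F : ℝ) * x) hχ j y hy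
  refine ⟨h2, _, Finset.mem_image.2 ⟨(k, l), Finset.mem_product.2 ⟨hk, hl⟩, rfl⟩, ?_⟩
  have e : ((dg ((g j).coeff k) : ℝ) - dg ((g j).coeff l)) / ((l : ℝ) - k) * x =
      ((dg ((g j).coeff k) : ℝ) * x - (dg ((g j).coeff l) : ℝ) * x) / ((l : ℝ) - k) := by
    ring
  show |Real.log ‖y‖ - ((dg ((g j).coeff k) : ℝ) - dg ((g j).coeff l)) / ((l : ℝ) - k) * x| ≤ _
  rw [e]
  exact h3

theorem sep4 (E : Finset ℝ) (C : ℝ) : ∃ R₀ : ℝ, ∀ R : ℝ, R₀ ≤ R → ∀ x : ℝ, R / 2 - C ≤ x →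
    ∀ e ∈ E, ∀ e' ∈ E, e ≠ e' → 2 * (C * (1 + Real.log R)) < |e * x - e' * x| := by
  classical
  have h2 : ∀ e ∈ E, ∀ᶠ R : ℝ in atTop, ∀ e' ∈ E, e ≠ e' → ∀ x : ℝ, R / 2 - C ≤ x →
      2 * (C * (1 + Real.log R)) < |e * x - e' * x| := by
    intro e _
    rw [Filter.eventually_all_finset]
    intro e' _
    by_cases hne : e = e'
    · exact Eventually.of_forall fun R h => absurd hne h
    · have h0 : 0 < |e - e'| := abs_pos.2 (sub_ne_zero.2 hne)
      obtain ⟨R₀, hR₀⟩ := log_lin (2 * (2 * |C| + 1) / |e - e'| + 2 * |C|)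
        (4 * |C| / |e - e'|)
      filter_upwards [eventually_ge_atTop R₀, eventually_ge_atTop (2 * |C|),
        eventually_ge_atTop 1] with R hR hRC hR1 _ x hx
      have h3 := hR₀ R hR
      have hl := Real.log_nonneg hR1
      have hC1 := le_abs_self C
      have hx0 : 0 ≤ x := by linarith
      rw [← sub_mul, abs_mul, abs_of_nonneg hx0]
      have h4 : 2 * (2 * |C| + 1) / |e - e'| + 4 * |C| / |e - e'| * Real.log R ≤ 2 * x := by
        linarith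
      have h5 : (2 * (2 * |C| + 1) / |e - e'| + 4 * |C| / |e - e'| * Real.log R) * |e - e'| ≤
          2 * x * |e - e'| := mul_le_mul_of_nonneg_right h4 h0.le
      have h6 : (2 * (2 * |C| + 1) / |e - e'| + 4 * |C| / |e - e'| * Real.log R) * |e - e'| =
          2 * (2 * |C| + 1) + 4 * |C| * Real.log R := by
        field_simp
      have h7 : C * (1 + Real.log R) ≤ |C| * (1 + Real.log R) :=
        mul_le_mul_of_nonneg_right hC1 (by linarith)
      nlinarith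
  rw [← Filter.eventually_all_finset] at h2
  obtain ⟨R₀, hR₀⟩ := eventually_atTop.1 h2
  exact ⟨R₀, fun R hR x hx e he e' he' hne => hR₀ R hR e he e' he' hne x hx⟩

theorem diff_eval (n : ℕ) (G : MvPolynomial (Fin n) ℂ) :
    Differentiable ℂ fun x : Fin n → ℂ => eval x G := by
  induction G using MvPolynomial.induction_on with
  | C a => simp
  | add p q hp hq =>
    simp only [map_add]
    exact hp.fun_add hq
  | mul_X p i hp =>
    have h1 : Differentiable ℂ fun w : Fin n → ℂ => w i := differentiable_apply i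
    simp only [map_mul, eval_X]
    exact hp.fun_mul h1

end Pool.Agent.K3h53.UG
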