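import Pool.Agent.K3h53.UG.Core5b

/-! UG project, fifth part: the core in codimension `r`. -/

set_option autoImplicit false

namespace Pool.Agent.K3h53.UG

open MvPolynomial Filter Topology Metric Set Pool.Agent.K3h22.EX

/-- **analytic core** in codimension `r` -/
theorem core5 (hGEO : S_GEO6) (hDOM : S_DOM6) (hGEN : S_GEN6) (hROOT : S_ROOT4)
    (hSOL : S_SOL6) (hCLS : S_CLS3) (hRP : S_RP) (hPIG : S_PIG) (hCOMP : S_COMP)
    (hNEWT : S_NEWT) {n s r : ℕ} (e : Fin s ⊕ Fin r ≃ Fin n)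
    (w : Fin n → ℕ) (hw : ∀ i, 1 ≤ w i) (hwK : ∀ b, w (e (Sum.inr b)) = 1)
    (F : Fin r → MvPolynomial (Fin n) ℂ) (I : Ideal (MvPolynomial (Fin n) ℂ)) (hI : I.IsPrime)
    (hId : ∀ K : Finset (Fin n), K.card = s + 1 → ∃ G ∈ I, G ≠ 0 ∧ G.vars ⊆ K)
    (hIF : ∀ x : Fin n → ℂ, (∀ i, eval x (F i) = 0) → ∀ G ∈ I, eval x G = 0)
    (Ud : Set (Fin r → ℝ)) (hU : IsOpen Ud) (hUne : Ud.Nonempty)
    (hH : ∀ (σ : Fin s → Fin r → ℚ) (U' : Set (Fin r → ℝ)), IsOpen U' → U' ⊆ Ud →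
      U'.Nonempty → ∃ (lam : Fin s → ℂ) (θ : Fin r → ℂ),
      Good e (fun i => wtop w (F i)) (sg e w fun j b => ((σ j b : ℚ) : ℝ)) lam θ ∧
        (fun b => (θ b).re) ∈ U')
    {A : Type} [CommRing A] (Φ : Fam6 F I A) (c : Fin n → ℂ)
    (f U W : Polynomial A) (D Δ G0 : A) (N g : Fin s → Polynomial A)
    (hf : f.Monic) (hf0 : 0 < f.natDegree)
    (hUW : U * f + W * Polynomial.derivative f = Polynomial.C Δ)
    (hD : D ≠ 0) (hΔ : Δ ≠ 0) (hG0 : G0 ≠ 0) (hg0 : ∀ j, (g j).coeff 0 ≠ 0)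
    (hgN : ∀ (j : Fin s) (x : Zs F) (Y : Fin r → ℂ) (t : ℂ),
      (f.map (Φ.ch x Y)).eval t = 0 → Φ.ch x Y D ≠ 0 →
      ((g j).map (Φ.ch x Y)).eval (yq (Φ.ch x Y) (N j) D t) = 0) :
    ∃ (x : Zs F) (Y : Fin r → ℂ) (t : ℂ),
      (∀ b, Y b = Complex.exp (x.1 (e (Sum.inr b)) + c (e (Sum.inr b)))) ∧
      Φ.ch x Y G0 ≠ 0 ∧ Φ.ch x Y D ≠ 0 ∧ (f.map (Φ.ch x Y)).eval t = 0 ∧
      ∀ j, yq (Φ.ch x Y) (N j) D t =
        Complex.exp (x.1 (e (Sum.inl j)) + c (e (Sum.inl j))) := by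
  classical
  obtain ⟨𝒩, Cp, hCp, -, -, hpig⟩ := hPIG s f.natDegree
  -- the polynomials `Q ν`
  have hQex : ∀ ν : Fin s → ℕ, ∃ Q : Polynomial A, Q.natDegree = f.natDegree ∧
      Q.coeff 0 ≠ 0 ∧ ∀ χ : A →+* ℂ,
      (∀ t : ℂ, (f.map χ).eval t = 0 →
        (Q.map χ).eval (∏ j, (((N j).map χ).eval t) ^ ν j) = 0) ∧
      ∀ u : ℂ, (Q.map χ).eval u = 0 → ∃ t : ℂ, (f.map χ).eval t = 0 ∧
        ∏ j, (((N j).map χ).eval t) ^ ν j = u := by
    intro ν
    obtain ⟨Q, hQm, hQd, hQ⟩ := hCOMP _ f (∏ j, N j ^ ν j) hf hf0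
    have e0 : ∀ (χ : A →+* ℂ) (t : ℂ),
        (((∏ j, N j ^ ν j)).map χ).eval t = ∏ j, (((N j).map χ).eval t) ^ ν j := by
      intro χ t
      rw [Polynomial.map_prod, Polynomial.eval_prod]
      exact Finset.prod_congr rfl fun j _ => by rw [Polynomial.map_pow, Polynomial.eval_pow]
    simp only [e0] at hQ
    refine ⟨Q, hQd, ?_, hQ⟩
    intro hc
    have hTn : ∀ a ∈ insert D (Finset.univ.image fun j => (g j).coeff 0), a ≠ 0 := by
      intro a ha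
      rcases Finset.mem_insert.1 ha with rfl | ha
      · exact hD
      · obtain ⟨j, -, rfl⟩ := Finset.mem_image.1 ha
        exact hg0 j
    obtain ⟨ρ, δ, κ, m₀, x0, hδ, hκ, -, -, hm₀, hx0⟩ := start6 hGEO hGEN e w hw hwK F I hI hId hIF
      Ud hU hUne hH Φ _ hTn ∅ (by simp)
    obtain ⟨K0, R0, -, hR0, hv⟩ := startval6 hDOM Φ _ m₀ ρ δ κ hκ hm₀ x0 hx0
    obtain ⟨Y, hY⟩ : ∃ Y : Fin r → ℂ, Y = fun b => Complex.exp ((R0 * ρ b : ℝ) : ℂ) := ⟨_, rfl⟩
    have hxY := hv R0 le_rfl (fun b => ((R0 * ρ b : ℝ) : ℂ)) (by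
      intro b
      rw [Complex.ofReal_re, sub_self, abs_zero]
      positivity)
    rw [← hY] at hxY
    obtain ⟨t, ht, hprod⟩ := (hQ (Φ.ch x0 Y)).2 0 (by
      rw [← Polynomial.coeff_zero_eq_eval_zero, Polynomial.coeff_map, hc, map_zero])
    rw [Finset.prod_eq_zero_iff] at hprod
    obtain ⟨j, -, hj⟩ := hprod
    have hj' : ((N j).map (Φ.ch x0 Y)).eval t = 0 := eq_zero_of_pow_eq_zero hj
    have h1 := hgN j x0 Y t ht (hxY D (Finset.mem_insert_self _ _)).1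
    rw [yq, hj', zero_div, ← Polynomial.coeff_zero_eq_eval_zero, Polynomial.coeff_map] at h1
    exact (hxY _ (Finset.mem_insert_of_mem (Finset.mem_image_of_mem _
      (Finset.mem_univ j)))).1 h1
  choose Q hQd hQ0 hQ using hQex
  obtain ⟨T, hG0T, hDT, hΔT, hgT, hQT, hT0⟩ :
      ∃ T : Finset A, G0 ∈ T ∧ D ∈ T ∧ Δ ∈ T ∧
        (∀ j, ∀ k ∈ (g j).support, (g j).coeff k ∈ T) ∧
        (∀ ν ∈ 𝒩, ∀ k ∈ (Q ν).support, (Q ν).coeff k ∈ T) ∧ ∀ F ∈ T, F ≠ 0 := by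
    refine ⟨({G0, D, Δ} ∪ Finset.univ.biUnion fun j => (g j).support.image (g j).coeff) ∪
      𝒩.biUnion fun ν => (Q ν).support.image (Q ν).coeff, by simp, by simp, by simp,
      ?_, ?_, ?_⟩
    · intro j k hk
      rw [Finset.mem_union, Finset.mem_union, Finset.mem_biUnion]
      exact Or.inl (Or.inr ⟨j, Finset.mem_univ _, Finset.mem_image_of_mem _ hk⟩)
    · intro ν hν k hk
      rw [Finset.mem_union, Finset.mem_biUnion (s := 𝒩)]
      exact Or.inr ⟨ν, hν, Finset.mem_image_of_mem _ hk⟩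
    · intro F hF
      rw [Finset.mem_union, Finset.mem_union, Finset.mem_biUnion, Finset.mem_biUnion] at hF
      rcases hF with (hF | ⟨j, -, hF⟩) | ⟨ν, -, hF⟩
      · simp only [Finset.mem_insert, Finset.mem_singleton] at hF
        rcases hF with rfl | rfl | rfl
        · exact hG0
        · exact hD
        · exact hΔ
      · obtain ⟨k, hk, rfl⟩ := Finset.mem_image.1 hF
        exact Polynomial.mem_support_iff.1 hk
      · obtain ⟨k, hk, rfl⟩ := Finset.mem_image.1 hF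
        exact Polynomial.mem_support_iff.1 hk
  have hroot : ∀ χ : A →+* ℂ, ∃ t : ℂ, (f.map χ).eval t = 0 := by
    intro χ
    have hdeg : (f.map χ).degree ≠ 0 := by
      rw [Polynomial.Monic.degree_map hf]
      intro h0
      have := Polynomial.natDegree_eq_zero_iff_degree_le_zero.mpr h0.le
      omega
    obtain ⟨u, hu⟩ := IsAlgClosed.exists_root _ hdeg
    exact ⟨u, hu⟩
  -- the start
  obtain ⟨E, hE⟩ : ∃ E : Finset (Fin r → ℝ), E = Finset.univ.biUnion fun j => Esl6 (g j) Φ.sp :=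
    ⟨_, rfl⟩
  obtain ⟨ρ, δ, κ, m₀, x0, hδ, hκ, hρU, hDif, hm₀, hx0⟩ := start6 hGEO hGEN e w hw hwK F I hI hId
    hIF Ud hU hUne hH Φ T hT0
    (((E ×ˢ E).filter fun ee => ee.1 ≠ ee.2).image fun ee b => ee.1 b - ee.2 b) (by
      intro v hv
      obtain ⟨ee, hee, rfl⟩ := Finset.mem_image.1 hv
      intro h0
      apply (Finset.mem_filter.1 hee).2
      funext b
      exact sub_eq_zero.1 (congrFun h0 b))
  obtain ⟨K0, R0, hK0, hR0, hv0⟩ := startval6 hDOM Φ T m₀ ρ δ κ hκ hm₀ x0 hx0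
  obtain ⟨C', hC', hcls⟩ := slopes6 hNEWT g hg0 Φ.sp m₀
    (fun j k hk => (hm₀ _ (hgT j k hk)).1)
  have hsepE : ∀ e ∈ E, ∀ e' ∈ E, e ≠ e' →
      (∀ ρ' : Fin r → ℝ, (∀ b, |ρ' b - ρ b| ≤ δ) → κ ≤ ∑ b, (e b - e' b) * ρ' b) ∨
      (∀ ρ' : Fin r → ℝ, (∀ b, |ρ' b - ρ b| ≤ δ) → ∑ b, (e b - e' b) * ρ' b ≤ -κ) := by
    intro e he e' he' hne
    exact hDif _ (Finset.mem_image.2 ⟨(e, e'), Finset.mem_filter.2
      ⟨Finset.mem_product.2 ⟨he, he'⟩, hne⟩, rfl⟩)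
  -- the slopes at the start
  have hcls0 : ∀ R : ℝ, R0 ≤ R → ∀ y : Fin r → ℂ, (∀ b, |(y b).re - R * ρ b| ≤ δ * R) →
      ∀ j, ∀ t : ℂ, (f.map (Φ.ch x0 fun b => Complex.exp (y b))).eval t = 0 →
      yq (Φ.ch x0 fun b => Complex.exp (y b)) (N j) D t ≠ 0 ∧ ∃ e ∈ Esl6 (g j) Φ.sp,
        |Real.log ‖yq (Φ.ch x0 fun b => Complex.exp (y b)) (N j) D t‖ -
          ∑ b, e b * (y b).re| ≤ C' + 2 * (K0 * (1 + Real.log R)) := by
    intro R hR y hy j t ht
    have h1 := hv0 R hR y hy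
    exact hcls _ _ (fun b => (y b).re) (fun j k hk => h1 _ (hgT j k hk)) j _
      (hgN j x0 _ t ht (h1 D hDT).1)
  have hfreq : ∃ᶠ R : ℝ in atTop, ∃ b ∈ Fintype.piFinset fun j => Esl6 (g j) Φ.sp,
      ∃ t : ℂ, (f.map (Φ.ch x0 fun b => Complex.exp ((R * ρ b : ℝ) : ℂ))).eval t = 0 ∧
      ∀ j, |Real.log ‖yq (Φ.ch x0 fun b => Complex.exp ((R * ρ b : ℝ) : ℂ)) (N j) D t‖ -
        ∑ b', b j b' * (R * ρ b')| ≤ C' + 2 * (K0 * (1 + Real.log R)) := by
    apply Eventually.frequently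
    filter_upwards [eventually_ge_atTop R0] with R hR
    obtain ⟨t, ht⟩ := hroot (Φ.ch x0 fun b => Complex.exp ((R * ρ b : ℝ) : ℂ))
    have h0 := fun j => hcls0 R hR (fun b => ((R * ρ b : ℝ) : ℂ)) (by
      intro b
      rw [Complex.ofReal_re, sub_self, abs_zero]
      have : 0 ≤ R := by linarith
      positivity) j t ht
    choose h2 b hb h3 using h0
    simp only [Complex.ofReal_re] at h3
    exact ⟨b, Fintype.mem_piFinset.2 hb, t, ht, h3⟩
  rw [frequently_exists_finset] at hfreq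
  obtain ⟨b, hb, hfreq⟩ := hfreq
  rw [Fintype.mem_piFinset] at hb
  -- the direction
  choose q hq using fun j => Esl6_rat (g j) Φ.sp (b j) (hb j)
  obtain ⟨lam, θ, hG, hθ⟩ := hH q {ρ' | ∀ b, |ρ' b - ρ b| < δ / 2} (by
      have : {ρ' : Fin r → ℝ | ∀ b, |ρ' b - ρ b| < δ / 2} =
          ⋂ b, {ρ' : Fin r → ℝ | |ρ' b - ρ b| < δ / 2} := by
        ext ρ'
        simp
      rw [this]
      exact isOpen_iInter_of_finite fun b =>
        isOpen_lt ((continuous_apply b).sub continuous_const).abs continuous_const)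
    (fun ρ' h => hρU ρ' fun b => ((h b).le.trans (by linarith)))
    ⟨ρ, fun b => by rw [sub_self, abs_zero]; linarith⟩
  obtain ⟨cn, ε, C1, R1, hcn, hε, hC1, hR1, hb1⟩ := hGEO n s r e w hw hwK F I hI hId hIF _ lam θ hG
    (T.biUnion fun a => (Φ.sp a).image (Φ.cf a)) (by
      intro G hG
      obtain ⟨a, -, hG⟩ := Finset.mem_biUnion.1 hG
      obtain ⟨m, hm, rfl⟩ := Finset.mem_image.1 hG
      exact Φ.nmem a m hm) (δ / 4) (by linarith)
  obtain ⟨K1, R2, hK1, hR2, hv1⟩ := eval6 hDOM Φ T m₀ ρ δ κ hκ hm₀ C1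
  obtain ⟨Ch, hCh, hhaus⟩ := haus hRP s f.natDegree 𝒩 Cp hCp hpig
  obtain ⟨B, hBn, hB⟩ : ∃ B : ℝ, 0 ≤ B ∧ ∀ j, ∑ b', |b j b'| ≤ B :=
    ⟨∑ j, ∑ b', |b j b'|, Finset.sum_nonneg fun _ _ => Finset.sum_nonneg fun _ _ => abs_nonneg _,
      fun j => Finset.single_le_sum (f := fun j => ∑ b', |b j b'|)
        (fun _ _ => Finset.sum_nonneg fun _ _ => abs_nonneg _) (Finset.mem_univ j)⟩
  obtain ⟨cs, hcsn, hcs⟩ : ∃ cs : ℝ, 0 ≤ cs ∧ ∀ i, ‖c i‖ ≤ cs :=
    ⟨∑ i, ‖c i‖, Finset.sum_nonneg fun _ _ => norm_nonneg _, fun i =>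
      Finset.single_le_sum (f := fun i => ‖c i‖) (fun _ _ => norm_nonneg _) (Finset.mem_univ i)⟩
  obtain ⟨C3, hC3⟩ : ∃ C3 : ℝ, C3 = C' + 2 * K0 + 2 * K1 + Ch * (1 + (K0 + K1)) := ⟨_, rfl⟩
  have hC3n : 0 ≤ C3 := by rw [hC3]; positivity
  obtain ⟨Rs, hRs1, hRs⟩ := sep6 E ρ δ κ hκ hsepE C3
  obtain ⟨Rl, hRl, hsol⟩ := hSOL s ε (C3 + B * cs + cs) hε
  obtain ⟨R, ⟨t, ht, htb⟩, hRR0, hRR1, hRR2, hRRs, hRRl, hRRc⟩ := (hfreq.and_eventually
    ((eventually_ge_atTop R0).and ((eventually_ge_atTop R1).and ((eventually_ge_atTop R2).and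
      ((eventually_ge_atTop Rs).and ((eventually_ge_atTop Rl).and
        (eventually_ge_atTop (4 * cs / δ)))))))).exists
  have hRone : 1 ≤ R := hR0.trans hRR0
  have hRpos : 0 < R := by linarith
  have hlog := Real.log_nonneg hRone
  have hcR : cs ≤ δ / 4 * R := by
    have := (div_le_iff₀ hδ).1 hRRc
    linarith
  obtain ⟨ψ, hψd, hψ⟩ := hb1 R hRR1
  obtain ⟨Ω, hΩ⟩ : ∃ Ω, Ω = ball (cn R) (ε * R) := ⟨_, rfl⟩
  have hψd' := hψd
  rw [← hΩ] at hψd hψ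
  have hΩo : IsOpen Ω := by rw [hΩ]; exact isOpen_ball
  have hΩc : Convex ℝ Ω := by rw [hΩ]; exact convex_ball _ _
  have hcen : cn R ∈ Ω := by
    rw [hΩ]
    exact mem_ball_self (by positivity)
  choose hZr hre hval using hψ
  obtain ⟨yy, hyy⟩ : ∃ yy : (Fin s → ℂ) → Fin r → ℂ,
    yy = fun l b => ψ l b + c (e (Sum.inr b)) := ⟨_, rfl⟩
  have hynear : ∀ l ∈ Ω, ∀ b, |(yy l b).re - R * ρ b| < δ * R := by
    intro l hl b
    have h1 := hre l hl b
    have h2 : |R * (θ b).re - R * ρ b| < δ / 2 * R := by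
      rw [← mul_sub, abs_mul, abs_of_pos hRpos, mul_comm]
      exact mul_lt_mul_of_pos_right (hθ b) hRpos
    have h3 : |(c (e (Sum.inr b))).re| ≤ δ / 4 * R :=
      (Complex.abs_re_le_norm _).trans ((hcs _).trans hcR)
    rw [hyy]
    simp only [Complex.add_re]
    rw [abs_lt]
    rw [abs_le] at h1 h3
    rw [abs_lt] at h2
    constructor <;> linarith [h1.1, h1.2, h2.1, h2.2, h3.1, h3.2]
  -- the family of homomorphisms
  obtain ⟨χ, hχ⟩ : ∃ χ : (Fin s → ℂ) → A →+* ℂ, ∀ (l : Fin s → ℂ) (hl : l ∈ Ω),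
      χ l = Φ.ch ⟨_, hZr l hl⟩ fun b => Complex.exp (yy l b) :=
    ⟨fun l => if hl : l ∈ Ω then Φ.ch ⟨_, hZr l hl⟩ (fun b => Complex.exp (yy l b)) else
      Φ.ch ⟨_, hZr _ hcen⟩ 0, fun l hl => dif_pos hl⟩
  have hχv : ∀ l ∈ Ω, ∀ a ∈ T, χ l a ≠ 0 ∧
      |Real.log ‖χ l a‖ - ∑ b, (m₀ a b : ℝ) * (yy l b).re| ≤ K1 * (1 + Real.log R) := by
    intro l hl a ha
    rw [hχ l hl]
    refine hv1 R hRR2 ⟨_, hZr l hl⟩ (yy l) (fun b => (hynear l hl b).le) ?_ a ha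
    intro a ha m hm
    exact hval l hl _ (Finset.mem_biUnion.2 ⟨a, ha, Finset.mem_image_of_mem _ hm⟩)
  have hχcls : ∀ l ∈ Ω, ∀ (j : Fin s) (t : ℂ), (f.map (χ l)).eval t = 0 →
      yq (χ l) (N j) D t ≠ 0 ∧ ∃ e ∈ Esl6 (g j) Φ.sp,
        |Real.log ‖yq (χ l) (N j) D t‖ - ∑ b, e b * (yy l b).re| ≤
          C' + 2 * (K1 * (1 + Real.log R)) := by
    intro l hl j t ht
    refine hcls _ (χ l) (fun b => (yy l b).re) (fun j k hk => hχv l hl _ (hgT j k hk)) j _ ?_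
    have h1 := (hχv l hl D hDT).1
    rw [hχ l hl] at ht h1 ⊢
    exact hgN j _ _ t ht h1
  have hNne : ∀ (χ : A →+* ℂ) (t : ℂ), (∀ j, yq χ (N j) D t ≠ 0) →
      ∀ j, ((N j).map χ).eval t ≠ 0 := by
    intro χ t h j h0
    have := h j
    rw [yq, h0, zero_div] at this
    exact this rfl
  have hsepC : ∀ (C : ℝ), C ≤ C3 * (1 + Real.log R) → ∀ x : Fin r → ℝ,
      (∀ b, |x b - R * ρ b| ≤ δ * R) → ∀ j, ∀ e ∈ Esl6 (g j) Φ.sp, ∀ e' ∈ Esl6 (g j) Φ.sp,
      e ≠ e' → 2 * C < |∑ b, e b * x b - ∑ b, e' b * x b| := by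
    intro C hC x hx j e he e' he' hne
    have := hRs R hRRs x hx e (by rw [hE]; exact Finset.mem_biUnion.2 ⟨j, Finset.mem_univ _, he⟩)
      e' (by rw [hE]; exact Finset.mem_biUnion.2 ⟨j, Finset.mem_univ _, he'⟩) hne
    linarith
  -- transfer at the starting point
  obtain ⟨Ω', hΩ'⟩ : ∃ Ω' : Set (Fin r → ℂ),
    Ω' = {y | ∀ b, |(y b).re - R * ρ b| < δ * R} := ⟨_, rfl⟩
  have hΩ'o : IsOpen Ω' := by
    have : Ω' = ⋂ b, {y : Fin r → ℂ | |(y b).re - R * ρ b| < δ * R} := by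
      rw [hΩ']
      ext y
      simp
    rw [this]
    exact isOpen_iInter_of_finite fun b => isOpen_lt
      ((Complex.continuous_re.comp (continuous_apply b)).sub continuous_const).abs
      continuous_const
  have hΩ'c : Convex ℝ Ω' := by
    rw [hΩ']
    intro y hy y' hy' a a' ha ha' haa b
    have h1 := hy b
    have h2 := hy' b
    have e1 : ((a • y + a' • y') b).re - R * ρ b =
        a * ((y b).re - R * ρ b) + a' * ((y' b).re - R * ρ b) := by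
      simp only [Pi.add_apply, Pi.smul_apply, Complex.add_re, Complex.real_smul,
        Complex.re_ofReal_mul]
      have : R * ρ b = (a + a') * (R * ρ b) := by rw [haa, one_mul]
      nlinarith
    rw [e1]
    rw [abs_lt] at h1 h2 ⊢
    have hδR : δ * R = a * (δ * R) + a' * (δ * R) := by rw [← add_mul, haa, one_mul]
    rcases eq_or_lt_of_le ha with h0 | h0
    · subst h0
      rw [zero_add] at haa
      subst haa
      constructor <;> linarith [h2.1, h2.2]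
    · have h3 : a * (-(δ * R)) < a * ((y b).re - R * ρ b) := mul_lt_mul_of_pos_left h1.1 h0
      have h4 : a * ((y b).re - R * ρ b) < a * (δ * R) := mul_lt_mul_of_pos_left h1.2 h0
      have h5 : a' * (-(δ * R)) ≤ a' * ((y' b).re - R * ρ b) :=
        mul_le_mul_of_nonneg_left h2.1.le ha'
      have h6 : a' * ((y' b).re - R * ρ b) ≤ a' * (δ * R) :=
        mul_le_mul_of_nonneg_left h2.2.le ha'
      constructor <;> linarith
  obtain ⟨Ca, hCa⟩ : ∃ Ca : ℝ, Ca = C' + 2 * (K0 * (1 + Real.log R)) := ⟨_, rfl⟩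
  have hCa3 : Ca ≤ C3 * (1 + Real.log R) := by
    rw [hCa, hC3]
    have h2 : 0 ≤ Ch * (1 + (K0 + K1)) := by positivity
    nlinarith [mul_nonneg h2 hlog, mul_nonneg hC' hlog, mul_nonneg hK1 hlog]
  obtain ⟨Z', hZ', hZ'j⟩ := transport6 hROOT hCLS f U W D Δ N hf hUW Ω' hΩ'o hΩ'c
    (fun y => Φ.ch x0 fun b => Complex.exp (y b))
    (fun a => diff6 Φ Ω' (fun _ => x0.1) (fun y => y) (fun _ => differentiableOn_const _)
      (fun b => (differentiable_apply b).differentiableOn) _ (fun _ _ => ⟨x0.2, rfl⟩) a)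
    (fun y hy => (hv0 R hRR0 y (fun b => by
      rw [hΩ'] at hy
      exact (hy b).le) Δ hΔT).1)
    (fun y hy => (hv0 R hRR0 y (fun b => by
      rw [hΩ'] at hy
      exact (hy b).le) D hDT).1)
    (fun j => Esl6 (g j) Φ.sp) (fun y b => (y b).re)
    (fun b => (Complex.continuous_re.comp (continuous_apply b)).continuousOn) Ca
    (fun y hy j t ht => by
      rw [hCa]
      exact hcls0 R hRR0 y (fun b => by
        rw [hΩ'] at hy
        exact (hy b).le) j t ht)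
    (fun j y hy => hsepC Ca hCa3 _ (fun b => by
      rw [hΩ'] at hy
      exact (hy b).le) j)
    (fun b => ((R * ρ b : ℝ) : ℂ)) (by
      rw [hΩ']
      intro b
      rw [Complex.ofReal_re, sub_self, abs_zero]
      positivity) t ht b hb (by
      intro j
      simp only [Complex.ofReal_re]
      rw [hCa]
      exact htb j)
  obtain ⟨ys, hys⟩ : ∃ ys : Fin r → ℂ, ys = yy (cn R) := ⟨_, rfl⟩
  have hysΩ : ys ∈ Ω' := by
    rw [hΩ', hys]
    exact hynear _ hcen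
  have hysn : ∀ b, |(ys b).re - R * ρ b| ≤ δ * R := fun b => by
    rw [hys]
    exact (hynear _ hcen b).le
  -- transfer to the branch
  have hcmp : ∀ a ∈ T, |Real.log ‖Φ.ch x0 (fun b => Complex.exp (ys b)) a‖ -
      Real.log ‖χ (cn R) a‖| ≤ (K0 + K1) * (1 + Real.log R) := by
    intro a ha
    have h1 := (hv0 R hRR0 ys hysn a ha).2
    have h2 := (hχv _ hcen a ha).2
    rw [← hys] at h2
    rw [abs_le] at h1 h2 ⊢
    constructor <;> nlinarith [h1.1, h1.2, h2.1, h2.2]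
  obtain ⟨t', ht', htt'⟩ := hhaus A f N D Q hf rfl hQd hQ0 hQ
    (Φ.ch x0 fun b => Complex.exp (ys b)) (χ (cn R)) ((K0 + K1) * (1 + Real.log R))
    (by positivity)
    (fun ν hν k hk => ⟨(hv0 R hRR0 ys hysn _ (hQT ν hν k hk)).1,
      (hχv _ hcen _ (hQT ν hν k hk)).1, hcmp _ (hQT ν hν k hk)⟩)
    (hv0 R hRR0 ys hysn D hDT).1 (hχv _ hcen D hDT).1 (hcmp D hDT)
    (fun t ht => hNne _ t fun j => (hcls0 R hRR0 ys hysn j t ht).1)
    (fun t ht => hNne _ t fun j => (hχcls _ hcen j t ht).1) (Z' ys) (hZ' ys hysΩ)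
  -- continuation
  obtain ⟨Cb, hCb⟩ : ∃ Cb : ℝ, Cb = C3 * (1 + Real.log R) := ⟨_, rfl⟩
  have hyd : ∀ b, DifferentiableOn ℂ (fun l => yy l b) Ω := by
    intro b
    rw [hyy]
    exact (hψd b).add_const _
  obtain ⟨Z, hZ, hZj⟩ := transport6 hROOT hCLS f U W D Δ N hf hUW Ω hΩo hΩc χ
    (fun a => diff6 Φ Ω (fun l => xr e (fun j b => ((q j b : ℚ) : ℝ)) l (ψ l)) yy (by
      intro i
      unfold xr
      rcases h : e.symm i with j | b
      · simp only [Sum.elim_inl]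
        refine DifferentiableOn.fun_add (differentiable_apply j).differentiableOn ?_
        exact DifferentiableOn.fun_sum fun b _ => (hψd b).const_mul _
      · simp only [Sum.elim_inr]
        exact hψd b) hyd χ (fun l hl => ⟨hZr l hl, hχ l hl⟩) a)
    (fun l hl => (hχv l hl Δ hΔT).1) (fun l hl => (hχv l hl D hDT).1)
    (fun j => Esl6 (g j) Φ.sp) (fun l b => (yy l b).re)
    (fun b => Complex.continuous_re.comp_continuousOn (hyd b).continuousOn) Cb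
    (fun l hl j t ht => by
      obtain ⟨h1, e', he', h2⟩ := hχcls l hl j t ht
      refine ⟨h1, e', he', h2.trans ?_⟩
      rw [hCb, hC3]
      have h2 : 0 ≤ Ch * (1 + (K0 + K1)) := by positivity
      nlinarith [mul_nonneg h2 hlog, mul_nonneg hC' hlog, mul_nonneg hK0 hlog])
    (fun j l hl => hsepC Cb hCb.le _ (fun b => (hynear l hl b).le) j)
    (cn R) hcen t' ht' b hb (by
      intro j
      have h1 := (((hZ'j j).2) ys hysΩ).2
      have h2 : |Real.log ‖yq (Φ.ch x0 fun b => Complex.exp (ys b)) (N j) D (Z' ys)‖ -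
          Real.log ‖yq (χ (cn R)) (N j) D t'‖| ≤
          Ch * (1 + (K0 + K1) * (1 + Real.log R)) := htt' j
      rw [← hys]
      have e1 : Real.log ‖yq (χ (cn R)) (N j) D t'‖ - ∑ b', b j b' * (ys b').re =
          (Real.log ‖yq (Φ.ch x0 fun b => Complex.exp (ys b)) (N j) D (Z' ys)‖ -
            ∑ b', b j b' * (ys b').re) -
          (Real.log ‖yq (Φ.ch x0 fun b => Complex.exp (ys b)) (N j) D (Z' ys)‖ -
            Real.log ‖yq (χ (cn R)) (N j) D t'‖) := by ring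
      rw [e1]
      refine (abs_sub _ _).trans ((add_le_add h1 h2).trans ?_)
      rw [hCa, hCb, hC3]
      nlinarith [mul_nonneg hC' hlog, mul_nonneg hK1 hlog, mul_nonneg hCh hlog])
  -- logarithms
  have hlogs : ∀ j, ∃ L : (Fin s → ℂ) → ℂ, DifferentiableOn ℂ L Ω ∧
      ∀ l ∈ Ω, Complex.exp (L l) = yq (χ l) (N j) D (Z l) := fun j =>
    Pool.Agent.K3h60.EX.t_LOG s Ω _ hΩo hΩc (hZj j).1 fun l hl => ((hZj j).2 l hl).1
  choose L hLd hL using hlogs
  rw [hΩ] at hLd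
  obtain ⟨l, hl, hN⟩ := hsol R hRRl (cn R) (hcn R)
    (fun j l => L j l - ∑ b', (b j b' : ℂ) * ψ l b' - c (e (Sum.inl j)))
    (fun j => (((hLd j).fun_sub (DifferentiableOn.fun_sum fun b' _ =>
      (hψd' b').const_mul _)).sub_const _)) (by
      intro j l hl
      rw [← hΩ] at hl
      have h1 := ((hZj j).2 l hl).2
      rw [← hL j l hl, log_norm_exp, hCb] at h1
      have e1 : (L j l - ∑ b', (b j b' : ℂ) * ψ l b' - c (e (Sum.inl j))).re =
          ((L j l).re - ∑ b', b j b' * (yy l b').re) +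
            ∑ b', b j b' * (c (e (Sum.inr b'))).re - (c (e (Sum.inl j))).re := by
        rw [Complex.sub_re, Complex.sub_re, Complex.re_sum, hyy]
        simp only [Complex.add_re, Complex.re_ofReal_mul, mul_add, Finset.sum_add_distrib]
        ring
      rw [e1]
      have h2 : |∑ b', b j b' * (c (e (Sum.inr b'))).re| ≤ B * cs := by
        refine (Finset.abs_sum_le_sum_abs _ _).trans ?_
        refine le_trans ?_ (mul_le_mul_of_nonneg_right (hB j) hcsn)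
        rw [Finset.sum_mul]
        refine Finset.sum_le_sum fun b' _ => ?_
        rw [abs_mul]
        exact mul_le_mul_of_nonneg_left ((Complex.abs_re_le_norm _).trans (hcs _))
          (abs_nonneg _)
      have h3 : |(c (e (Sum.inl j))).re| ≤ cs := (Complex.abs_re_le_norm _).trans (hcs _)
      refine (abs_sub _ _).trans ((add_le_add ((abs_add_le _ _).trans (add_le_add h1 h2))
        h3).trans ?_)
      nlinarith [mul_nonneg (mul_nonneg hBn hcsn) hlog, mul_nonneg hcsn hlog])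
  rw [← hΩ] at hl
  refine ⟨⟨_, hZr l hl⟩, fun b => Complex.exp (yy l b), Z l, fun b => ?_, ?_⟩
  · rw [hyy]
    simp only
    rw [xr_inr]
  rw [← hχ l hl]
  refine ⟨(hχv l hl G0 hG0T).1, (hχv l hl D hDT).1, hZ l hl, fun j => ?_⟩
  obtain ⟨n', hn'⟩ := hN j
  rw [← hL j l hl]
  simp only
  rw [xr_inl]
  have e0 : ∑ b', (((fun j b => ((q j b : ℚ) : ℝ)) j b' : ℝ) : ℂ) * ψ l b' =
      ∑ b', (b j b' : ℂ) * ψ l b' :=
    Finset.sum_congr rfl fun b' _ => by rw [← hq j b']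
  rw [e0]
  have e2 : l j + ∑ b', (b j b' : ℂ) * ψ l b' + c (e (Sum.inl j)) =
      L j l + n' * (2 * Real.pi * Complex.I) := by
    linear_combination hn'
  rw [e2, Complex.exp_add, Complex.exp_int_mul_two_pi_mul_I, mul_one]

end Pool.Agent.K3h53.UG
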