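import Pool.Agent.K3h53.UG.Core4
import Pool.Agent.K3h53.UG.Stm5

/-! UG project, fifth part: preparations for the core in codimension `r`. -/

set_option autoImplicit false

namespace Pool.Agent.K3h53.UG

open MvPolynomial Filter Topology Metric Set Pool.Agent.K3h22.EX

/-- the common zeros of the `F i` -/
abbrev Zs {n r : ℕ} (F : Fin r → MvPolynomial (Fin n) ℂ) : Type :=
  {x : Fin n → ℂ // ∀ i, eval x (F i) = 0}

/-- evaluation homomorphisms of a ring `A` at the points `x` of `F = 0` and `Y : ℂ^r`: the elements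
of `A` are polynomials in `Y` with coefficients `cf a m` not in the ideal `I` -/
structure Fam6 {n r : ℕ} (F : Fin r → MvPolynomial (Fin n) ℂ)
    (I : Ideal (MvPolynomial (Fin n) ℂ)) (A : Type) [CommRing A] where
  /-- the homomorphisms -/
  ch : Zs F → (Fin r → ℂ) → A →+* ℂ
  /-- the support -/
  sp : A → Finset (Fin r →₀ ℕ)
  /-- the coefficients -/
  cf : A → (Fin r →₀ ℕ) → MvPolynomial (Fin n) ℂ
  sum : ∀ (a : A) (x : Zs F) (Y : Fin r → ℂ),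
    ch x Y a = ∑ m ∈ sp a, eval x.1 (cf a m) * ∏ b, Y b ^ m b
  ne : ∀ a, a ≠ 0 → (sp a).Nonempty
  nmem : ∀ a, ∀ m ∈ sp a, cf a m ∉ I

open scoped Classical in
/-- the possible slopes of the roots of `g` -/
noncomputable def Esl6 {A : Type} [CommRing A] {r : ℕ} (g : Polynomial A)
    (sp : A → Finset (Fin r →₀ ℕ)) : Finset (Fin r → ℝ) :=
  (g.support ×ˢ g.support).biUnion fun kl =>
    (sp (g.coeff kl.1) ×ˢ sp (g.coeff kl.2)).image fun mm =>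
      fun b => ((mm.1 b : ℝ) - mm.2 b) / ((kl.2 : ℝ) - kl.1)

theorem Esl6_rat {A : Type} [CommRing A] {r : ℕ} (g : Polynomial A)
    (sp : A → Finset (Fin r →₀ ℕ)) (e : Fin r → ℝ) (he : e ∈ Esl6 g sp) :
    ∃ q : Fin r → ℚ, ∀ b, ((q b : ℚ) : ℝ) = e b := by
  classical
  unfold Esl6 at he
  rw [Finset.mem_biUnion] at he
  obtain ⟨kl, -, he⟩ := he
  obtain ⟨mm, -, rfl⟩ := Finset.mem_image.1 he
  refine ⟨fun b => ((mm.1 b : ℚ) - mm.2 b) / ((kl.2 : ℚ) - kl.1), fun b => ?_⟩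
  push_cast
  rfl

theorem slopes6 (hN : S_NEWT) {s r : ℕ} {A : Type} [CommRing A] (g : Fin s → Polynomial A)
    (hg0 : ∀ j, (g j).coeff 0 ≠ 0) (sp : A → Finset (Fin r →₀ ℕ)) (m₀ : A → Fin r →₀ ℕ)
    (hm : ∀ j, ∀ k ∈ (g j).support, m₀ ((g j).coeff k) ∈ sp ((g j).coeff k)) :
    ∃ C' : ℝ, 0 ≤ C' ∧ ∀ (L : ℝ) (χ : A →+* ℂ) (x : Fin r → ℝ),
    (∀ j, ∀ k ∈ (g j).support, χ ((g j).coeff k) ≠ 0 ∧ |Real.log ‖χ ((g j).coeff k)‖ -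
      ∑ b, (m₀ ((g j).coeff k) b : ℝ) * x b| ≤ L) →
    ∀ j, ∀ y : ℂ, ((g j).map χ).eval y = 0 → y ≠ 0 ∧
      ∃ e ∈ Esl6 (g j) sp, |Real.log ‖y‖ - ∑ b, e b * x b| ≤ C' + 2 * L := by
  classical
  obtain ⟨C', hC', h1⟩ := newt_all hN g hg0
  refine ⟨C', hC', fun L χ x hχ j y hy => ?_⟩
  obtain ⟨h2, k, hk, l, hl, hkl, h3⟩ := h1 L χ (fun F => ∑ b, (m₀ F b : ℝ) * x b) hχ j y hy
  refine ⟨h2, fun b => ((m₀ ((g j).coeff k) b : ℝ) - m₀ ((g j).coeff l) b) / ((l : ℝ) - k),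
    ?_, ?_⟩
  · unfold Esl6
    rw [Finset.mem_biUnion]
    exact ⟨(k, l), Finset.mem_product.2 ⟨hk, hl⟩, Finset.mem_image.2
      ⟨(m₀ ((g j).coeff k), m₀ ((g j).coeff l)), Finset.mem_product.2 ⟨hm j k hk, hm j l hl⟩,
        rfl⟩⟩
  have e : ∑ b, ((m₀ ((g j).coeff k) b : ℝ) - m₀ ((g j).coeff l) b) / ((l : ℝ) - k) * x b =
      (∑ b, (m₀ ((g j).coeff k) b : ℝ) * x b - ∑ b, (m₀ ((g j).coeff l) b : ℝ) * x b) /
        ((l : ℝ) - k) := by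
    rw [← Finset.sum_sub_distrib, Finset.sum_div]
    refine Finset.sum_congr rfl fun b _ => ?_
    ring
  rw [e]
  exact h3

theorem dommon6 {r : ℕ} (S : Finset (Fin r →₀ ℕ)) (hS : S.Nonempty) (ρ : Fin r → ℝ) (δ κ : ℝ)
    (hδ : 0 < δ) (hκ : 0 < κ)
    (h : ∀ m ∈ S, ∀ m' ∈ S, m ≠ m' →
      (∀ ρ' : Fin r → ℝ, (∀ b, |ρ' b - ρ b| ≤ δ) → κ ≤ ∑ b, ((m b : ℝ) - m' b) * ρ' b) ∨
      (∀ ρ' : Fin r → ℝ, (∀ b, |ρ' b - ρ b| ≤ δ) → ∑ b, ((m b : ℝ) - m' b) * ρ' b ≤ -κ)) :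
    ∃ m₀ ∈ S, ∀ m ∈ S, m ≠ m₀ → ∀ ρ' : Fin r → ℝ, (∀ b, |ρ' b - ρ b| ≤ δ) →
      κ ≤ ∑ b, ((m₀ b : ℝ) - m b) * ρ' b := by
  obtain ⟨m₀, hm₀, hmax⟩ := Finset.exists_max_image S
    (fun m : Fin r →₀ ℕ => ∑ b, (m b : ℝ) * ρ b) hS
  refine ⟨m₀, hm₀, fun m hm hne => ?_⟩
  rcases h m₀ hm₀ m hm (Ne.symm hne) with h1 | h1
  · exact h1
  · exfalso
    have h2 := h1 ρ fun b => by rw [sub_self, abs_zero]; exact hδ.le
    have h3 := hmax m hm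
    have h4 : ∑ b, ((m₀ b : ℝ) - m b) * ρ b = ∑ b, (m₀ b : ℝ) * ρ b - ∑ b, (m b : ℝ) * ρ b := by
      rw [← Finset.sum_sub_distrib]
      exact Finset.sum_congr rfl fun b _ => by ring
    rw [h4] at h2
    linarith

theorem near_div {r : ℕ} {ρ x : Fin r → ℝ} {δ R : ℝ} (hR : 0 < R)
    (h : ∀ b, |x b - R * ρ b| ≤ δ * R) : ∀ b, |x b / R - ρ b| ≤ δ := by
  intro b
  have e : x b / R - ρ b = (x b - R * ρ b) / R := by field_simp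
  rw [e, abs_div, abs_of_pos hR, div_le_iff₀ hR]
  exact h b

theorem eval6 (hDOM : S_DOM6) {n r : ℕ} {F : Fin r → MvPolynomial (Fin n) ℂ}
    {I : Ideal (MvPolynomial (Fin n) ℂ)} {A : Type} [CommRing A] (Φ : Fam6 F I A)
    (T : Finset A) (m₀ : A → Fin r →₀ ℕ) (ρ : Fin r → ℝ) (δ κ : ℝ) (hκ : 0 < κ)
    (h₀ : ∀ a ∈ T, m₀ a ∈ Φ.sp a ∧ ∀ m ∈ Φ.sp a, m ≠ m₀ a → ∀ ρ' : Fin r → ℝ,
      (∀ b, |ρ' b - ρ b| ≤ δ) → κ ≤ ∑ b, ((m₀ a b : ℝ) - m b) * ρ' b) (C : ℝ) :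
    ∃ C' R₀ : ℝ, 0 ≤ C' ∧ 1 ≤ R₀ ∧ ∀ R : ℝ, R₀ ≤ R → ∀ (x : Zs F) (y : Fin r → ℂ),
      (∀ b, |(y b).re - R * ρ b| ≤ δ * R) →
      (∀ a ∈ T, ∀ m ∈ Φ.sp a, eval x.1 (Φ.cf a m) ≠ 0 ∧
        |Real.log ‖eval x.1 (Φ.cf a m)‖| ≤ C * (1 + Real.log R)) →
      ∀ a ∈ T, Φ.ch x (fun b => Complex.exp (y b)) a ≠ 0 ∧
        |Real.log ‖Φ.ch x (fun b => Complex.exp (y b)) a‖ - ∑ b, (m₀ a b : ℝ) * (y b).re| ≤
          C' * (1 + Real.log R) := by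
  classical
  have h1 : ∀ a : A, ∃ C' R₀ : ℝ, 0 ≤ C' ∧ 1 ≤ R₀ ∧ (a ∈ T → ∀ R : ℝ, R₀ ≤ R →
      ∀ (x : Zs F) (y : Fin r → ℂ), (∀ b, |(y b).re - R * ρ b| ≤ δ * R) →
      (∀ m ∈ Φ.sp a, eval x.1 (Φ.cf a m) ≠ 0 ∧
        |Real.log ‖eval x.1 (Φ.cf a m)‖| ≤ C * (1 + Real.log R)) →
      Φ.ch x (fun b => Complex.exp (y b)) a ≠ 0 ∧
        |Real.log ‖Φ.ch x (fun b => Complex.exp (y b)) a‖ - ∑ b, (m₀ a b : ℝ) * (y b).re| ≤
          C' * (1 + Real.log R)) := by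
    intro a
    by_cases ha : a ∈ T
    · obtain ⟨C', R₀, hC', hR₀, h⟩ := hDOM r (Φ.sp a) (m₀ a) (h₀ a ha).1 C κ hκ
      refine ⟨C', R₀, hC', hR₀, fun _ R hR x y hy hcf => ?_⟩
      have hR0 : 0 < R := lt_of_lt_of_le one_pos (hR₀.trans hR)
      have h2 := h R hR (fun m => eval x.1 (Φ.cf a m)) (fun b => Complex.exp (y b))
        (fun b => Complex.exp_ne_zero _) (fun m hm hne => ?_) hcf
      · simp only [log_norm_exp] at h2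
        rw [Φ.sum]
        exact h2
      · have h3 := (h₀ a ha).2 m hm hne (fun b => (y b).re / R) (near_div hR0 hy)
        simp only [log_norm_exp]
        have e : ∑ b, ((m₀ a b : ℝ) - m b) * ((y b).re / R) =
            (∑ b, ((m₀ a b : ℝ) - m b) * (y b).re) / R := by
          rw [Finset.sum_div]
          exact Finset.sum_congr rfl fun b _ => by ring
        rw [e, le_div_iff₀ hR0] at h3
        exact h3
    · exact ⟨0, 1, le_rfl, le_rfl, fun h => absurd h ha⟩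
  choose C' R₀ hC' hR₀ h2 using h1
  refine ⟨∑ a ∈ T, C' a, 1 + ∑ a ∈ T, R₀ a, Finset.sum_nonneg fun a _ => hC' a, ?_, ?_⟩
  · have : 0 ≤ ∑ a ∈ T, R₀ a := Finset.sum_nonneg fun a _ => zero_le_one.trans (hR₀ a)
    linarith
  intro R hR x y hy hcf a ha
  have hs := Finset.single_le_sum (f := R₀) (fun a _ => zero_le_one.trans (hR₀ a)) ha
  have hs' := Finset.single_le_sum (f := C') (fun a _ => hC' a) ha
  have hRa : R₀ a ≤ R := by linarith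
  obtain ⟨h3, h4⟩ := h2 a ha R hRa x y hy (hcf a ha)
  have hlog := Real.log_nonneg ((hR₀ a).trans hRa)
  exact ⟨h3, h4.trans (mul_le_mul_of_nonneg_right hs' (by linarith))⟩

theorem sep6 {r : ℕ} (E : Finset (Fin r → ℝ)) (ρ : Fin r → ℝ) (δ κ : ℝ) (hκ : 0 < κ)
    (hE : ∀ e ∈ E, ∀ e' ∈ E, e ≠ e' →
      (∀ ρ' : Fin r → ℝ, (∀ b, |ρ' b - ρ b| ≤ δ) → κ ≤ ∑ b, (e b - e' b) * ρ' b) ∨
      (∀ ρ' : Fin r → ℝ, (∀ b, |ρ' b - ρ b| ≤ δ) → ∑ b, (e b - e' b) * ρ' b ≤ -κ)) (C : ℝ) :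
    ∃ R₀ : ℝ, 1 ≤ R₀ ∧ ∀ R : ℝ, R₀ ≤ R → ∀ x : Fin r → ℝ,
      (∀ b, |x b - R * ρ b| ≤ δ * R) → ∀ e ∈ E, ∀ e' ∈ E, e ≠ e' →
        2 * (C * (1 + Real.log R)) < |∑ b, e b * x b - ∑ b, e' b * x b| := by
  obtain ⟨R₀, hR₀⟩ := log_lin ((2 * |C| + 1) / κ) (2 * |C| / κ)
  refine ⟨max R₀ 1, le_max_right _ _, fun R hR x hx e he e' he' hne => ?_⟩
  have h1 := hR₀ R ((le_max_left _ _).trans hR)
  have hR1 : 1 ≤ R := (le_max_right _ _).trans hR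
  have hR0 : 0 < R := by linarith
  have hl := Real.log_nonneg hR1
  have e1 : ∑ b, e b * x b - ∑ b, e' b * x b = R * ∑ b, (e b - e' b) * (x b / R) := by
    rw [← Finset.sum_sub_distrib, Finset.mul_sum]
    refine Finset.sum_congr rfl fun b _ => ?_
    field_simp
  have h2 : κ ≤ |∑ b, (e b - e' b) * (x b / R)| := by
    rcases hE e he e' he' hne with h | h
    · exact (h _ (near_div hR0 hx)).trans (le_abs_self _)
    · have := h _ (near_div hR0 hx)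
      rw [← abs_neg]
      exact (by linarith : κ ≤ _).trans (le_abs_self _)
  rw [e1, abs_mul, abs_of_pos hR0]
  have h3 : R * κ ≤ R * |∑ b, (e b - e' b) * (x b / R)| := mul_le_mul_of_nonneg_left h2 hR0.le
  have h4 : ((2 * |C| + 1) / κ + 2 * |C| / κ * Real.log R) * κ ≤ R * κ :=
    mul_le_mul_of_nonneg_right h1 hκ.le
  have h5 : ((2 * |C| + 1) / κ + 2 * |C| / κ * Real.log R) * κ =
      (2 * |C| + 1) + 2 * |C| * Real.log R := by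
    field_simp
  have h6 : C * (1 + Real.log R) ≤ |C| * (1 + Real.log R) :=
    mul_le_mul_of_nonneg_right (le_abs_self C) (by linarith)
  nlinarith

theorem xr_inr {n s r : ℕ} (e : Fin s ⊕ Fin r ≃ Fin n) (σ : Fin s → Fin r → ℝ)
    (l : Fin s → ℂ) (θ : Fin r → ℂ) (b : Fin r) : xr e σ l θ (e (Sum.inr b)) = θ b := by
  simp [xr]

theorem xr_inl {n s r : ℕ} (e : Fin s ⊕ Fin r ≃ Fin n) (σ : Fin s → Fin r → ℝ)
    (l : Fin s → ℂ) (θ : Fin r → ℂ) (j : Fin s) :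
    xr e σ l θ (e (Sum.inl j)) = l j + ∑ b, ((σ j b : ℝ) : ℂ) * θ b := by
  simp [xr]

end Pool.Agent.K3h53.UG
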