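import Pool.Agent.K3h53.UG.Core5a

/-! UG project, fifth part: continuation of roots and the starting point. -/

set_option autoImplicit false

namespace Pool.Agent.K3h53.UG

open MvPolynomial Filter Topology Metric Set Pool.Agent.K3h22.EX

/-- continuation of roots with constant slopes -/
theorem transport6 (hROOT : S_ROOT4) (hCLS : S_CLS3) {m s r : ℕ} {A : Type} [CommRing A]
    (f U W : Polynomial A) (D Δ : A) (N : Fin s → Polynomial A)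
    (hf : f.Monic) (hUW : U * f + W * Polynomial.derivative f = Polynomial.C Δ)
    (Ω : Set (Fin m → ℂ)) (hΩ : IsOpen Ω) (hΩc : Convex ℝ Ω) (χ : (Fin m → ℂ) → A →+* ℂ)
    (hχd : ∀ a : A, DifferentiableOn ℂ (fun l => χ l a) Ω) (hΔ : ∀ l ∈ Ω, χ l Δ ≠ 0)
    (hD : ∀ l ∈ Ω, χ l D ≠ 0) (E : Fin s → Finset (Fin r → ℝ))
    (y : (Fin m → ℂ) → Fin r → ℝ) (hy : ∀ b, ContinuousOn (fun l => y l b) Ω) (C : ℝ)
    (hcls : ∀ l ∈ Ω, ∀ j, ∀ t : ℂ, (f.map (χ l)).eval t = 0 → yq (χ l) (N j) D t ≠ 0 ∧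
      ∃ e ∈ E j, |Real.log ‖yq (χ l) (N j) D t‖ - ∑ b, e b * y l b| ≤ C)
    (hsep : ∀ j, ∀ l ∈ Ω, ∀ e ∈ E j, ∀ e' ∈ E j, e ≠ e' →
      2 * C < |∑ b, e b * y l b - ∑ b, e' b * y l b|)
    (l₀ : Fin m → ℂ) (hl₀ : l₀ ∈ Ω) (t₀ : ℂ) (ht₀ : (f.map (χ l₀)).eval t₀ = 0)
    (e : Fin s → Fin r → ℝ) (he : ∀ j, e j ∈ E j)
    (hcl : ∀ j, |Real.log ‖yq (χ l₀) (N j) D t₀‖ - ∑ b, e j b * y l₀ b| ≤ C) :
    ∃ Z : (Fin m → ℂ) → ℂ, (∀ l ∈ Ω, (f.map (χ l)).eval (Z l) = 0) ∧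
      ∀ j, DifferentiableOn ℂ (fun l => yq (χ l) (N j) D (Z l)) Ω ∧
        ∀ l ∈ Ω, yq (χ l) (N j) D (Z l) ≠ 0 ∧
          |Real.log ‖yq (χ l) (N j) D (Z l)‖ - ∑ b, e j b * y l b| ≤ C := by
  classical
  obtain ⟨Z, hZd, hZ0, hZ⟩ := hROOT m A f U W Δ hf hUW Ω hΩ hΩc χ hχd hΔ l₀ hl₀ t₀ ht₀
  refine ⟨Z, hZ, fun j => ?_⟩
  have hd : DifferentiableOn ℂ (fun l => yq (χ l) (N j) D (Z l)) Ω := by
    have e0 : (fun l => yq (χ l) (N j) D (Z l)) =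
        fun l => (∑ m ∈ (N j).support, χ l ((N j).coeff m) * Z l ^ m) * (χ l D)⁻¹ := by
      funext l
      rw [yq, div_eq_mul_inv, Polynomial.eval_map, Polynomial.eval₂_eq_sum, Polynomial.sum_def]
    rw [e0]
    exact DifferentiableOn.fun_mul (DifferentiableOn.fun_sum fun m _ =>
      (hχd _).fun_mul (hZd.fun_pow m)) ((hχd D).fun_inv hD)
  refine ⟨hd, fun w hw => ⟨(hcls w hw j _ (hZ w hw)).1, ?_⟩⟩
  have hcont : ContinuousOn (fun l => Real.log ‖yq (χ l) (N j) D (Z l)‖) Ω := by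
    refine ContinuousOn.log hd.continuousOn.norm fun w hw => ?_
    exact norm_ne_zero_iff.2 (hcls w hw j _ (hZ w hw)).1
  refine hCLS m Ω _ (Fin r → ℝ) (E j) (fun e l => ∑ b, e b * y l b) C
    hΩc.isPreconnected hcont (fun e _ => ?_) (fun w hw => (hcls w hw j _ (hZ w hw)).2) (hsep j)
    l₀ hl₀ (e j) (he j) ?_ w hw
  · exact continuousOn_finset_sum _ fun b _ => continuousOn_const.mul (hy b)
  · simp only [hZ0]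
    exact hcl j

/-- the starting data -/
theorem start6 (hGEO : S_GEO6) (hGEN : S_GEN6) {n s r : ℕ} (e : Fin s ⊕ Fin r ≃ Fin n)
    (w : Fin n → ℕ) (hw : ∀ i, 1 ≤ w i) (hwK : ∀ b, w (e (Sum.inr b)) = 1)
    (F : Fin r → MvPolynomial (Fin n) ℂ) (I : Ideal (MvPolynomial (Fin n) ℂ)) (hI : I.IsPrime)
    (hId : ∀ K : Finset (Fin n), K.card = s + 1 → ∃ G ∈ I, G ≠ 0 ∧ G.vars ⊆ K)
    (hIF : ∀ x : Fin n → ℂ, (∀ i, eval x (F i) = 0) → ∀ G ∈ I, eval x G = 0)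
    (Ud : Set (Fin r → ℝ)) (hU : IsOpen Ud) (hUne : Ud.Nonempty)
    (hH : ∀ (σ : Fin s → Fin r → ℚ) (U' : Set (Fin r → ℝ)), IsOpen U' → U' ⊆ Ud →
      U'.Nonempty → ∃ (lam : Fin s → ℂ) (θ : Fin r → ℂ),
      Good e (fun i => wtop w (F i)) (sg e w fun j b => ((σ j b : ℚ) : ℝ)) lam θ ∧
        (fun b => (θ b).re) ∈ U')
    {A : Type} [CommRing A] (Φ : Fam6 F I A) (T : Finset A) (hT : ∀ a ∈ T, a ≠ 0)
    (D' : Finset (Fin r → ℝ)) (hD' : ∀ v ∈ D', v ≠ 0) :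
    ∃ (ρ : Fin r → ℝ) (δ κ : ℝ) (m₀ : A → Fin r →₀ ℕ) (x0 : Zs F), 0 < δ ∧ 0 < κ ∧
      (∀ ρ' : Fin r → ℝ, (∀ b, |ρ' b - ρ b| ≤ δ) → ρ' ∈ Ud) ∧
      (∀ v ∈ D', (∀ ρ' : Fin r → ℝ, (∀ b, |ρ' b - ρ b| ≤ δ) → κ ≤ ∑ b, v b * ρ' b) ∨
        (∀ ρ' : Fin r → ℝ, (∀ b, |ρ' b - ρ b| ≤ δ) → ∑ b, v b * ρ' b ≤ -κ)) ∧
      (∀ a ∈ T, m₀ a ∈ Φ.sp a ∧ ∀ m ∈ Φ.sp a, m ≠ m₀ a → ∀ ρ' : Fin r → ℝ,
        (∀ b, |ρ' b - ρ b| ≤ δ) → κ ≤ ∑ b, ((m₀ a b : ℝ) - m b) * ρ' b) ∧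
      (∀ a ∈ T, ∀ m ∈ Φ.sp a, eval x0.1 (Φ.cf a m) ≠ 0) := by
  classical
  obtain ⟨lam, θ, hG, -⟩ := hH (fun _ _ => 0) Ud hU Subset.rfl hUne
  obtain ⟨cn, ε, C, R₀, -, hε, -, hR₀, h1⟩ := hGEO n s r e w hw hwK F I hI hId hIF _ lam θ hG
    (T.biUnion fun a => (Φ.sp a).image (Φ.cf a)) (by
      intro G hG
      obtain ⟨a, -, hG⟩ := Finset.mem_biUnion.1 hG
      obtain ⟨m, hm, rfl⟩ := Finset.mem_image.1 hG
      exact Φ.nmem a m hm) 1 one_pos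
  obtain ⟨ψ, -, h2⟩ := h1 R₀ le_rfl
  obtain ⟨h3, -, h4⟩ := h2 (cn R₀) (mem_ball_self (by positivity))
  set D1 : Finset (Fin r → ℝ) := T.biUnion fun a =>
    ((Φ.sp a ×ˢ Φ.sp a).filter fun mm => mm.1 ≠ mm.2).image fun mm =>
      fun b => (mm.1 b : ℝ) - mm.2 b with hD1
  obtain ⟨ρ, δ, κ, hδ, hκ, hρU, hρ⟩ := hGEN r Ud hU hUne (D' ∪ D1) (by
    intro v hv
    rcases Finset.mem_union.1 hv with hv | hv
    · exact hD' v hv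
    · obtain ⟨a, -, hv⟩ := Finset.mem_biUnion.1 hv
      obtain ⟨mm, hmm, rfl⟩ := Finset.mem_image.1 hv
      intro h0
      apply (Finset.mem_filter.1 hmm).2
      ext b
      have := congrFun h0 b
      simp only [Pi.zero_apply] at this
      exact_mod_cast (sub_eq_zero.1 this))
  have hdom : ∀ a : A, ∃ m₀ : Fin r →₀ ℕ, a ∈ T → m₀ ∈ Φ.sp a ∧ ∀ m ∈ Φ.sp a, m ≠ m₀ →
      ∀ ρ' : Fin r → ℝ, (∀ b, |ρ' b - ρ b| ≤ δ) → κ ≤ ∑ b, ((m₀ b : ℝ) - m b) * ρ' b := by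
    intro a
    by_cases ha : a ∈ T
    · obtain ⟨m₀, hm₀, h5⟩ := dommon6 (Φ.sp a) (Φ.ne a (hT a ha)) ρ δ κ hδ hκ (by
        intro m hm m' hm' hne
        exact hρ _ (Finset.mem_union_right _ (Finset.mem_biUnion.2 ⟨a, ha,
          Finset.mem_image.2 ⟨(m, m'), Finset.mem_filter.2
            ⟨Finset.mem_product.2 ⟨hm, hm'⟩, hne⟩, rfl⟩⟩)))
      exact ⟨m₀, fun _ => ⟨hm₀, h5⟩⟩
    · exact ⟨0, fun h => absurd h ha⟩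
  choose m₀ hm₀ using hdom
  refine ⟨ρ, δ, κ, m₀, ⟨_, h3⟩, hδ, hκ, hρU, fun v hv => hρ v (Finset.mem_union_left _ hv),
    hm₀, fun a ha m hm => ?_⟩
  exact (h4 _ (Finset.mem_biUnion.2 ⟨a, ha, Finset.mem_image_of_mem _ hm⟩)).1

/-- values at the starting point -/
theorem startval6 (hDOM : S_DOM6) {n r : ℕ} {F : Fin r → MvPolynomial (Fin n) ℂ}
    {I : Ideal (MvPolynomial (Fin n) ℂ)} {A : Type} [CommRing A] (Φ : Fam6 F I A)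
    (T : Finset A) (m₀ : A → Fin r →₀ ℕ) (ρ : Fin r → ℝ) (δ κ : ℝ) (hκ : 0 < κ)
    (h₀ : ∀ a ∈ T, m₀ a ∈ Φ.sp a ∧ ∀ m ∈ Φ.sp a, m ≠ m₀ a → ∀ ρ' : Fin r → ℝ,
      (∀ b, |ρ' b - ρ b| ≤ δ) → κ ≤ ∑ b, ((m₀ a b : ℝ) - m b) * ρ' b) (x0 : Zs F)
    (hx0 : ∀ a ∈ T, ∀ m ∈ Φ.sp a, eval x0.1 (Φ.cf a m) ≠ 0) :
    ∃ C' R₀ : ℝ, 0 ≤ C' ∧ 1 ≤ R₀ ∧ ∀ R : ℝ, R₀ ≤ R → ∀ y : Fin r → ℂ,
      (∀ b, |(y b).re - R * ρ b| ≤ δ * R) →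
      ∀ a ∈ T, Φ.ch x0 (fun b => Complex.exp (y b)) a ≠ 0 ∧
        |Real.log ‖Φ.ch x0 (fun b => Complex.exp (y b)) a‖ - ∑ b, (m₀ a b : ℝ) * (y b).re| ≤
          C' * (1 + Real.log R) := by
  classical
  obtain ⟨C, hCdef⟩ : ∃ C : ℝ, C = ∑ a ∈ T, ∑ m ∈ Φ.sp a,
    |Real.log ‖eval x0.1 (Φ.cf a m)‖| := ⟨_, rfl⟩
  obtain ⟨C', R₀, hC', hR₀, h⟩ := eval6 hDOM Φ T m₀ ρ δ κ hκ h₀ C
  refine ⟨C', R₀, hC', hR₀, fun R hR y hy => h R hR x0 y hy fun a ha m hm =>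
    ⟨hx0 a ha m hm, ?_⟩⟩
  have hlog := Real.log_nonneg (hR₀.trans hR)
  have h1 := Finset.single_le_sum (f := fun m => |Real.log ‖eval x0.1 (Φ.cf a m)‖|)
    (fun _ _ => abs_nonneg _) hm
  have h2 := Finset.single_le_sum (f := fun a => ∑ m ∈ Φ.sp a,
    |Real.log ‖eval x0.1 (Φ.cf a m)‖|)
    (fun _ _ => Finset.sum_nonneg fun _ _ => abs_nonneg _) ha
  have h3 : 0 ≤ C := by
    rw [hCdef]
    exact Finset.sum_nonneg fun _ _ => Finset.sum_nonneg fun _ _ => abs_nonneg _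
  rw [← hCdef] at h2
  nlinarith [mul_nonneg h3 hlog]

theorem diffprod {m : ℕ} {ι : Type} (S : Finset ι) (g : ι → (Fin m → ℂ) → ℂ)
    (Ω : Set (Fin m → ℂ)) (h : ∀ i, DifferentiableOn ℂ (g i) Ω) :
    DifferentiableOn ℂ (fun l => ∏ i ∈ S, g i l) Ω := by
  classical
  induction S using Finset.induction_on with
  | empty =>
    simp only [Finset.prod_empty]
    exact differentiableOn_const _
  | insert a S ha ih =>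
    simp only [Finset.prod_insert ha]
    exact (h a).fun_mul ih

/-- holomorphic dependence of the values on `x0` and `e^y` -/
theorem diff6 {n r m : ℕ} {F : Fin r → MvPolynomial (Fin n) ℂ}
    {I : Ideal (MvPolynomial (Fin n) ℂ)} {A : Type} [CommRing A] (Φ : Fam6 F I A)
    (Ω : Set (Fin m → ℂ)) (x : (Fin m → ℂ) → Fin n → ℂ) (y : (Fin m → ℂ) → Fin r → ℂ)
    (hx : ∀ i, DifferentiableOn ℂ (fun l => x l i) Ω)
    (hy : ∀ b, DifferentiableOn ℂ (fun l => y l b) Ω) (χ : (Fin m → ℂ) → A →+* ℂ)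
    (hχ : ∀ l ∈ Ω, ∃ h : ∀ i, eval (x l) (F i) = 0,
      χ l = Φ.ch ⟨x l, h⟩ fun b => Complex.exp (y l b)) (a : A) :
    DifferentiableOn ℂ (fun l => χ l a) Ω := by
  have h1 : DifferentiableOn ℂ (fun l => ∑ m ∈ Φ.sp a,
      eval (x l) (Φ.cf a m) * ∏ b, Complex.exp (y l b) ^ m b) Ω := by
    refine DifferentiableOn.fun_sum fun i _ => DifferentiableOn.fun_mul ?_ ?_
    · refine (diff_eval _ _).comp_differentiableOn ?_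
      rw [differentiableOn_pi]
      exact hx
    · exact diffprod Finset.univ (fun b l => Complex.exp (y l b) ^ i b) Ω
        fun b => ((hy b).cexp).fun_pow _
  refine h1.congr fun l hl => ?_
  obtain ⟨h2, h3⟩ := hχ l hl
  rw [h3, Φ.sum]

end Pool.Agent.K3h53.UG
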