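import Pool.Agent.K3h53.UG.Stm5

/-! UG project (helper53, MP_209724_lc), sixth part: bases which are not complete intersections.
`X` is only assumed to contain the points with `F_1 = ... = F_r = 0`, `g ≠ 0`. -/

set_option autoImplicit false

namespace Pool.Agent.K3h53.UG

open MvPolynomial Filter Topology Metric Set Pool.Agent.K3h22.EX

/-- perturbation of good directions, with `lam'` near `lam` -/
def S_DIR7 : Prop := ∀ (n s r : ℕ) (e : Fin s ⊕ Fin r ≃ Fin n)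
  (G : Fin r → MvPolynomial (Fin n) ℂ) (τ : Fin s → Fin r → ℝ) (lam : Fin s → ℂ)
  (θ : Fin r → ℂ), Good e G τ lam θ → ∀ Q : MvPolynomial (Fin s) ℂ, Q ≠ 0 →
  ∀ δ : ℝ, 0 < δ → ∃ (lam' : Fin s → ℂ) (θ' : Fin r → ℂ), Good e G τ lam' θ' ∧
    (∀ j, ‖lam' j - lam j‖ ≤ δ) ∧ (∀ b, ‖θ' b - θ b‖ ≤ δ) ∧ eval lam' Q ≠ 0

/-- a polynomial near a weighted direction on which its weighted leading form does not vanish -/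
def S_TOP7 : Prop := ∀ (s : ℕ) (v : Fin s → ℕ), (∀ j, 1 ≤ v j) → ∀ h : MvPolynomial (Fin s) ℂ,
  ∀ lam : Fin s → ℂ, eval lam (wtop v h) ≠ 0 →
  ∃ ε c R₀ : ℝ, 0 < ε ∧ 0 < c ∧ 1 ≤ R₀ ∧ ∀ R : ℝ, R₀ ≤ R →
    ∀ l : Fin s → ℂ, (∀ j, ‖l j - ((R ^ v j : ℝ) : ℂ) * lam j‖ ≤ ε * R ^ v j) → c ≤ ‖eval l h‖

/-- the geometry near a good direction at which the leading form of `g` does not vanish (to be
proved from `S_DIR7`, `S_BR6`, `S_TOP6`, `S_TOP7`, `S_NORM6`) -/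
def S_GEO7 : Prop := ∀ (n s r : ℕ) (e : Fin s ⊕ Fin r ≃ Fin n) (w : Fin n → ℕ), (∀ i, 1 ≤ w i) →
  (∀ b, w (e (Sum.inr b)) = 1) → ∀ (F : Fin r → MvPolynomial (Fin n) ℂ)
  (g : MvPolynomial (Fin n) ℂ) (I : Ideal (MvPolynomial (Fin n) ℂ)), I.IsPrime →
  (∀ K : Finset (Fin n), K.card = s + 1 → ∃ G ∈ I, G ≠ 0 ∧ G.vars ⊆ K) →
  (∀ x : Fin n → ℂ, (∀ i, eval x (F i) = 0) → eval x g ≠ 0 → ∀ G ∈ I, eval x G = 0) →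
  ∀ (σ : Fin s → Fin r → ℝ) (lam : Fin s → ℂ) (θ : Fin r → ℂ),
  Good e (fun i => wtop w (F i)) (sg e w σ) lam θ →
  eval (xr e (sg e w σ) lam θ) (wtop w g) ≠ 0 →
  ∀ T : Finset (MvPolynomial (Fin n) ℂ), (∀ G ∈ T, G ∉ I) → ∀ δ : ℝ, 0 < δ →
  ∃ (cn : ℝ → Fin s → ℂ) (ε C R₀ : ℝ), (∀ R j, (cn R j).re = 0) ∧ 0 < ε ∧ 0 ≤ C ∧ 1 ≤ R₀ ∧
  ∀ R : ℝ, R₀ ≤ R → ∃ ψ : (Fin s → ℂ) → Fin r → ℂ,
    (∀ b, DifferentiableOn ℂ (fun l => ψ l b) (ball (cn R) (ε * R))) ∧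
    ∀ l ∈ ball (cn R) (ε * R),
      ((∀ i, eval (xr e σ l (ψ l)) (F i) = 0) ∧ eval (xr e σ l (ψ l)) g ≠ 0) ∧
      (∀ b, |(ψ l b).re - R * (θ b).re| ≤ δ * R) ∧
      ∀ G ∈ T, eval (xr e σ l (ψ l)) G ≠ 0 ∧
        |Real.log ‖eval (xr e σ l (ψ l)) G‖| ≤ C * (1 + Real.log R)

/-- varieties which contain a linear space in general position at infinity -/
def S_COR3 : Prop := ∀ (n s r : ℕ) (e : Fin s ⊕ Fin r ≃ Fin n)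
  (G : Fin r → MvPolynomial (Fin n) ℂ) (g : MvPolynomial (Fin n) ℂ)
  (L : Submodule ℂ (Fin n → ℂ)), Module.finrank ℂ L = s →
  (∀ c : Fin n → ℝ, c ≠ 0 → ∃ v ∈ L, ∑ i, (c i : ℂ) * v i ≠ 0) →
  (∀ S : Fin n → Fin r → ℚ, LinearIndependent ℚ (fun b j => S j b) →
    ∀ v : Fin r → ℂ, (fun j => ∑ b, ((S j b : ℚ) : ℂ) * v b) ∈ L → v = 0) →
  (∀ i, ∀ z ∈ L, eval z (G i) = 0) →
  (∃ z ∈ L, LinearIndependent ℂ fun i j => eval z (pderiv j (G i))) →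
  (∃ z ∈ L, eval z g ≠ 0) →
  ∀ (σ : Fin s → Fin r → ℚ) (U : Set (Fin r → ℝ)), IsOpen U → U.Nonempty →
  ∃ (lam : Fin s → ℂ) (θ : Fin r → ℂ), Good e G (fun j b => ((σ j b : ℚ) : ℝ)) lam θ ∧
    eval (xr e (fun j b => ((σ j b : ℚ) : ℝ)) lam θ) g ≠ 0 ∧ (fun b => (θ b).re) ∈ U

end Pool.Agent.K3h53.UG
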