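import Pool.Agent.K3h53.UG.Core5b
import Pool.Agent.K3h53.UG.Stm6

/-! UG project, sixth part: the core for arbitrary bases. -/

set_option autoImplicit false

namespace Pool.Agent.K3h53.UG

open MvPolynomial Filter Topology Metric Set Pool.Agent.K3h22.EX

/-- evaluation homomorphisms of a ring `A` at the points `x` of `Z` and `Y : ℂ^r`: the elements
of `A` are polynomials in `Y` with coefficients `cf a m` not in the ideal `I` -/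
structure Fam7 {n : ℕ} (r : ℕ) (Z : Set (Fin n → ℂ))
    (I : Ideal (MvPolynomial (Fin n) ℂ)) (A : Type) [CommRing A] where
  /-- the homomorphisms -/
  ch : Z → (Fin r → ℂ) → A →+* ℂ
  /-- the support -/
  sp : A → Finset (Fin r →₀ ℕ)
  /-- the coefficients -/
  cf : A → (Fin r →₀ ℕ) → MvPolynomial (Fin n) ℂ
  sum : ∀ (a : A) (x : Z) (Y : Fin r → ℂ),
    ch x Y a = ∑ m ∈ sp a, eval x.1 (cf a m) * ∏ b, Y b ^ m b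
  ne : ∀ a, a ≠ 0 → (sp a).Nonempty
  nmem : ∀ a, ∀ m ∈ sp a, cf a m ∉ I

/-- the geometric property of the point set `Z`: for all rational slopes `σ` and all open sets of
directions there are branches `l + σ ψ(l), ψ(l)` in `Z` over balls with purely imaginary centre,
with real parts of `ψ` in the given directions, on which given functions have polynomial size -/
def GeoZ {n s r : ℕ} (e : Fin s ⊕ Fin r ≃ Fin n) (Z : Set (Fin n → ℂ))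
    (I : Ideal (MvPolynomial (Fin n) ℂ)) (Ud : Set (Fin r → ℝ)) : Prop :=
  ∀ (σ : Fin s → Fin r → ℚ) (U' : Set (Fin r → ℝ)), IsOpen U' → U' ⊆ Ud → U'.Nonempty →
  ∀ T : Finset (MvPolynomial (Fin n) ℂ), (∀ G ∈ T, G ∉ I) → ∀ δ : ℝ, 0 < δ →
  ∃ θ ∈ U', ∃ (cn : ℝ → Fin s → ℂ) (ε C R₀ : ℝ), (∀ R j, (cn R j).re = 0) ∧ 0 < ε ∧ 0 ≤ C ∧
  1 ≤ R₀ ∧ ∀ R : ℝ, R₀ ≤ R → ∃ ψ : (Fin s → ℂ) → Fin r → ℂ,
    (∀ b, DifferentiableOn ℂ (fun l => ψ l b) (ball (cn R) (ε * R))) ∧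
    ∀ l ∈ ball (cn R) (ε * R), xr e (fun j b => ((σ j b : ℚ) : ℝ)) l (ψ l) ∈ Z ∧
      (∀ b, |(ψ l b).re - R * θ b| ≤ δ * R) ∧
      ∀ G ∈ T, eval (xr e (fun j b => ((σ j b : ℚ) : ℝ)) l (ψ l)) G ≠ 0 ∧
        |Real.log ‖eval (xr e (fun j b => ((σ j b : ℚ) : ℝ)) l (ψ l)) G‖| ≤
          C * (1 + Real.log R)

theorem eval7 (hDOM : S_DOM6) {n r : ℕ} {Z : Set (Fin n → ℂ)}
    {I : Ideal (MvPolynomial (Fin n) ℂ)} {A : Type} [CommRing A] (Φ : Fam7 r Z I A)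
    (T : Finset A) (m₀ : A → Fin r →₀ ℕ) (ρ : Fin r → ℝ) (δ κ : ℝ) (hκ : 0 < κ)
    (h₀ : ∀ a ∈ T, m₀ a ∈ Φ.sp a ∧ ∀ m ∈ Φ.sp a, m ≠ m₀ a → ∀ ρ' : Fin r → ℝ,
      (∀ b, |ρ' b - ρ b| ≤ δ) → κ ≤ ∑ b, ((m₀ a b : ℝ) - m b) * ρ' b) (C : ℝ) :
    ∃ C' R₀ : ℝ, 0 ≤ C' ∧ 1 ≤ R₀ ∧ ∀ R : ℝ, R₀ ≤ R → ∀ (x : Z) (y : Fin r → ℂ),
      (∀ b, |(y b).re - R * ρ b| ≤ δ * R) →
      (∀ a ∈ T, ∀ m ∈ Φ.sp a, eval x.1 (Φ.cf a m) ≠ 0 ∧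
        |Real.log ‖eval x.1 (Φ.cf a m)‖| ≤ C * (1 + Real.log R)) →
      ∀ a ∈ T, Φ.ch x (fun b => Complex.exp (y b)) a ≠ 0 ∧
        |Real.log ‖Φ.ch x (fun b => Complex.exp (y b)) a‖ - ∑ b, (m₀ a b : ℝ) * (y b).re| ≤
          C' * (1 + Real.log R) := by
  classical
  have h1 : ∀ a : A, ∃ C' R₀ : ℝ, 0 ≤ C' ∧ 1 ≤ R₀ ∧ (a ∈ T → ∀ R : ℝ, R₀ ≤ R →
      ∀ (x : Z) (y : Fin r → ℂ), (∀ b, |(y b).re - R * ρ b| ≤ δ * R) →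
      (∀ m ∈ Φ.sp a, eval x.1 (Φ.cf a m) ≠ 0 ∧
        |Real.log ‖eval x.1 (Φ.cf a m)‖| ≤ C * (1 + Real.log R)) →
      Φ.ch x (fun b => Complex.exp (y b)) a ≠ 0 ∧
        |Real.log ‖Φ.ch x (fun b => Complex.exp (y b)) a‖ - ∑ b, (m₀ a b : ℝ) * (y b).re| ≤
          C' * (1 + Real.log R)) := by
    intro a
    by_cases ha : a ∈ T
    · obtain ⟨C', R₀, hC', hR₀, h⟩ := hDOM r (Φ.sp a) (m₀ a) (h₀ a ha).1 C κ hκ
      refine ⟨C', R₀, hC', hR₀, fun _ R hR x y hy hcf => ?_⟩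
      have hR0 : 0 < R := lt_of_lt_of_le one_pos (hR₀.trans hR)
      have h2 := h R hR (fun m => eval x.1 (Φ.cf a m)) (fun b => Complex.exp (y b))
        (fun b => Complex.exp_ne_zero _) (fun m hm hne => ?_) hcf
      · simp only [log_norm_exp] at h2
        rw [Φ.sum]
        exact h2
      · have h3 := (h₀ a ha).2 m hm hne (fun b => (y b).re / R) (near_div hR0 hy)
        simp only [log_norm_exp]
        have e : ∑ b, ((m₀ a b : ℝ) - m b) * ((y b).re / R) =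
            (∑ b, ((m₀ a b : ℝ) - m b) * (y b).re) / R := by
          rw [Finset.sum_div]
          exact Finset.sum_congr rfl fun b _ => by ring
        rw [e, le_div_iff₀ hR0] at h3
        exact h3
    · exact ⟨0, 1, le_rfl, le_rfl, fun h => absurd h ha⟩
  choose C' R₀ hC' hR₀ h2 using h1
  refine ⟨∑ a ∈ T, C' a, 1 + ∑ a ∈ T, R₀ a, Finset.sum_nonneg fun a _ => hC' a, ?_, ?_⟩
  · have : 0 ≤ ∑ a ∈ T, R₀ a := Finset.sum_nonneg fun a _ => zero_le_one.trans (hR₀ a)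
    linarith
  intro R hR x y hy hcf a ha
  have hs := Finset.single_le_sum (f := R₀) (fun a _ => zero_le_one.trans (hR₀ a)) ha
  have hs' := Finset.single_le_sum (f := C') (fun a _ => hC' a) ha
  have hRa : R₀ a ≤ R := by linarith
  obtain ⟨h3, h4⟩ := h2 a ha R hRa x y hy (hcf a ha)
  have hlog := Real.log_nonneg ((hR₀ a).trans hRa)
  exact ⟨h3, h4.trans (mul_le_mul_of_nonneg_right hs' (by linarith))⟩

/-- the starting data -/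
theorem start7 (hGEN : S_GEN6) {n s r : ℕ} (e : Fin s ⊕ Fin r ≃ Fin n)
    (Z : Set (Fin n → ℂ)) (I : Ideal (MvPolynomial (Fin n) ℂ))
    (Ud : Set (Fin r → ℝ)) (hU : IsOpen Ud) (hUne : Ud.Nonempty) (hGEO : GeoZ e Z I Ud)
    {A : Type} [CommRing A] (Φ : Fam7 r Z I A) (T : Finset A) (hT : ∀ a ∈ T, a ≠ 0)
    (D' : Finset (Fin r → ℝ)) (hD' : ∀ v ∈ D', v ≠ 0) :
    ∃ (ρ : Fin r → ℝ) (δ κ : ℝ) (m₀ : A → Fin r →₀ ℕ) (x0 : Z), 0 < δ ∧ 0 < κ ∧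
      (∀ ρ' : Fin r → ℝ, (∀ b, |ρ' b - ρ b| ≤ δ) → ρ' ∈ Ud) ∧
      (∀ v ∈ D', (∀ ρ' : Fin r → ℝ, (∀ b, |ρ' b - ρ b| ≤ δ) → κ ≤ ∑ b, v b * ρ' b) ∨
        (∀ ρ' : Fin r → ℝ, (∀ b, |ρ' b - ρ b| ≤ δ) → ∑ b, v b * ρ' b ≤ -κ)) ∧
      (∀ a ∈ T, m₀ a ∈ Φ.sp a ∧ ∀ m ∈ Φ.sp a, m ≠ m₀ a → ∀ ρ' : Fin r → ℝ,
        (∀ b, |ρ' b - ρ b| ≤ δ) → κ ≤ ∑ b, ((m₀ a b : ℝ) - m b) * ρ' b) ∧
      (∀ a ∈ T, ∀ m ∈ Φ.sp a, eval x0.1 (Φ.cf a m) ≠ 0) := by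
  classical
  obtain ⟨θ, -, cn, ε, C, R₀, -, hε, -, hR₀, h1⟩ := hGEO (fun _ _ => 0) Ud hU Subset.rfl hUne
    (T.biUnion fun a => (Φ.sp a).image (Φ.cf a)) (by
      intro G hG
      obtain ⟨a, -, hG⟩ := Finset.mem_biUnion.1 hG
      obtain ⟨m, hm, rfl⟩ := Finset.mem_image.1 hG
      exact Φ.nmem a m hm) 1 one_pos
  obtain ⟨ψ, -, h2⟩ := h1 R₀ le_rfl
  obtain ⟨h3, -, h4⟩ := h2 (cn R₀) (mem_ball_self (by positivity))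
  set D1 : Finset (Fin r → ℝ) := T.biUnion fun a =>
    ((Φ.sp a ×ˢ Φ.sp a).filter fun mm => mm.1 ≠ mm.2).image fun mm =>
      fun b => (mm.1 b : ℝ) - mm.2 b with hD1
  obtain ⟨ρ, δ, κ, hδ, hκ, hρU, hρ⟩ := hGEN r Ud hU hUne (D' ∪ D1) (by
    intro v hv
    rcases Finset.mem_union.1 hv with hv | hv
    · exact hD' v hv
    · obtain ⟨a, -, hv⟩ := Finset.mem_biUnion.1 hv
      obtain ⟨mm, hmm, rfl⟩ := Finset.mem_image.1 hv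
      intro h0
      apply (Finset.mem_filter.1 hmm).2
      ext b
      have := congrFun h0 b
      simp only [Pi.zero_apply] at this
      exact_mod_cast (sub_eq_zero.1 this))
  have hdom : ∀ a : A, ∃ m₀ : Fin r →₀ ℕ, a ∈ T → m₀ ∈ Φ.sp a ∧ ∀ m ∈ Φ.sp a, m ≠ m₀ →
      ∀ ρ' : Fin r → ℝ, (∀ b, |ρ' b - ρ b| ≤ δ) → κ ≤ ∑ b, ((m₀ b : ℝ) - m b) * ρ' b := by
    intro a
    by_cases ha : a ∈ T
    · obtain ⟨m₀, hm₀, h5⟩ := dommon6 (Φ.sp a) (Φ.ne a (hT a ha)) ρ δ κ hδ hκ (by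
        intro m hm m' hm' hne
        exact hρ _ (Finset.mem_union_right _ (Finset.mem_biUnion.2 ⟨a, ha,
          Finset.mem_image.2 ⟨(m, m'), Finset.mem_filter.2
            ⟨Finset.mem_product.2 ⟨hm, hm'⟩, hne⟩, rfl⟩⟩)))
      exact ⟨m₀, fun _ => ⟨hm₀, h5⟩⟩
    · exact ⟨0, fun h => absurd h ha⟩
  choose m₀ hm₀ using hdom
  refine ⟨ρ, δ, κ, m₀, ⟨_, h3⟩, hδ, hκ, hρU, fun v hv => hρ v (Finset.mem_union_left _ hv),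
    hm₀, fun a ha m hm => ?_⟩
  exact (h4 _ (Finset.mem_biUnion.2 ⟨a, ha, Finset.mem_image_of_mem _ hm⟩)).1

/-- values at the starting point -/
theorem startval7 (hDOM : S_DOM6) {n r : ℕ} {Z : Set (Fin n → ℂ)}
    {I : Ideal (MvPolynomial (Fin n) ℂ)} {A : Type} [CommRing A] (Φ : Fam7 r Z I A)
    (T : Finset A) (m₀ : A → Fin r →₀ ℕ) (ρ : Fin r → ℝ) (δ κ : ℝ) (hκ : 0 < κ)
    (h₀ : ∀ a ∈ T, m₀ a ∈ Φ.sp a ∧ ∀ m ∈ Φ.sp a, m ≠ m₀ a → ∀ ρ' : Fin r → ℝ,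
      (∀ b, |ρ' b - ρ b| ≤ δ) → κ ≤ ∑ b, ((m₀ a b : ℝ) - m b) * ρ' b) (x0 : Z)
    (hx0 : ∀ a ∈ T, ∀ m ∈ Φ.sp a, eval x0.1 (Φ.cf a m) ≠ 0) :
    ∃ C' R₀ : ℝ, 0 ≤ C' ∧ 1 ≤ R₀ ∧ ∀ R : ℝ, R₀ ≤ R → ∀ y : Fin r → ℂ,
      (∀ b, |(y b).re - R * ρ b| ≤ δ * R) →
      ∀ a ∈ T, Φ.ch x0 (fun b => Complex.exp (y b)) a ≠ 0 ∧
        |Real.log ‖Φ.ch x0 (fun b => Complex.exp (y b)) a‖ - ∑ b, (m₀ a b : ℝ) * (y b).re| ≤
          C' * (1 + Real.log R) := by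
  classical
  obtain ⟨C, hCdef⟩ : ∃ C : ℝ, C = ∑ a ∈ T, ∑ m ∈ Φ.sp a,
    |Real.log ‖eval x0.1 (Φ.cf a m)‖| := ⟨_, rfl⟩
  obtain ⟨C', R₀, hC', hR₀, h⟩ := eval7 hDOM Φ T m₀ ρ δ κ hκ h₀ C
  refine ⟨C', R₀, hC', hR₀, fun R hR y hy => h R hR x0 y hy fun a ha m hm =>
    ⟨hx0 a ha m hm, ?_⟩⟩
  have hlog := Real.log_nonneg (hR₀.trans hR)
  have h1 := Finset.single_le_sum (f := fun m => |Real.log ‖eval x0.1 (Φ.cf a m)‖|)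
    (fun _ _ => abs_nonneg _) hm
  have h2 := Finset.single_le_sum (f := fun a => ∑ m ∈ Φ.sp a,
    |Real.log ‖eval x0.1 (Φ.cf a m)‖|)
    (fun _ _ => Finset.sum_nonneg fun _ _ => abs_nonneg _) ha
  have h3 : 0 ≤ C := by
    rw [hCdef]
    exact Finset.sum_nonneg fun _ _ => Finset.sum_nonneg fun _ _ => abs_nonneg _
  rw [← hCdef] at h2
  nlinarith [mul_nonneg h3 hlog]

/-- holomorphic dependence of the values on `x0` and `e^y` -/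
theorem diff7 {n r m : ℕ} {Z : Set (Fin n → ℂ)}
    {I : Ideal (MvPolynomial (Fin n) ℂ)} {A : Type} [CommRing A] (Φ : Fam7 r Z I A)
    (Ω : Set (Fin m → ℂ)) (x : (Fin m → ℂ) → Fin n → ℂ) (y : (Fin m → ℂ) → Fin r → ℂ)
    (hx : ∀ i, DifferentiableOn ℂ (fun l => x l i) Ω)
    (hy : ∀ b, DifferentiableOn ℂ (fun l => y l b) Ω) (χ : (Fin m → ℂ) → A →+* ℂ)
    (hχ : ∀ l ∈ Ω, ∃ h : x l ∈ Z,
      χ l = Φ.ch ⟨x l, h⟩ fun b => Complex.exp (y l b)) (a : A) :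
    DifferentiableOn ℂ (fun l => χ l a) Ω := by
  have h1 : DifferentiableOn ℂ (fun l => ∑ m ∈ Φ.sp a,
      eval (x l) (Φ.cf a m) * ∏ b, Complex.exp (y l b) ^ m b) Ω := by
    refine DifferentiableOn.fun_sum fun i _ => DifferentiableOn.fun_mul ?_ ?_
    · refine (diff_eval _ _).comp_differentiableOn ?_
      rw [differentiableOn_pi]
      exact hx
    · exact diffprod Finset.univ (fun b l => Complex.exp (y l b) ^ i b) Ω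
        fun b => ((hy b).cexp).fun_pow _
  refine h1.congr fun l hl => ?_
  obtain ⟨h2, h3⟩ := hχ l hl
  rw [h3, Φ.sum]

end Pool.Agent.K3h53.UG
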