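import Pool.Agent.K3h53.UG.Stm5

/-! UG project (helper53, MP_209724_lc), eighth part: varieties of dimension larger than `n`. -/

set_option autoImplicit false

namespace Pool.Agent.K3h53.UG

open MvPolynomial

/-- the `y_(κ b)` are algebraically independent over the functions of `x` iff they are, together
with a transcendence basis `x_j`, `j ∈ L`, algebraically independent -/
def S_FIBR : Prop := ∀ (n s r : ℕ) (P : Ideal (MvPolynomial (Fin n ⊕ Fin n) ℂ)), P.IsPrime →
  ∀ (L : Finset (Fin n)) (κ : Fin r → Fin n), Function.Injective κ → L.card = s →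
  (∀ G : MvPolynomial (Fin n) ℂ, G.vars ⊆ L → rename Sum.inl G ∈ P → G = 0) →
  (∀ K : Finset (Fin n), K.card = s + 1 → ∃ G : MvPolynomial (Fin n) ℂ,
    rename Sum.inl G ∈ P ∧ G ≠ 0 ∧ G.vars ⊆ K) →
  (IndepOver P κ ↔ ∀ f : MvPolynomial (Fin n ⊕ Fin n) ℂ,
    f.vars ⊆ (L.image Sum.inl ∪ Finset.univ.image fun b => Sum.inr (κ b)) → f ∈ P → f = 0)

end Pool.Agent.K3h53.UG
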