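import Pool.Agent.K3h69.ET.CUT1
import Pool.Agent.K3h37.ET.CUT2
import Pool.Agent.K3h53.UG.Fin9
import Pool.Agent.K3h53.UG.Stm8

/-! UG project: reduction of varieties of dimension at least `n` to dimension `n`. -/

set_option autoImplicit false

namespace Pool.Agent.K3h53.UG

open MvPolynomial Set Pool.Agent.K3h22.EX

theorem cut_aux {σ : Type} [Fintype σ] [DecidableEq σ] (T : Finset σ) : ∀ (k : ℕ)
    (P : Ideal (MvPolynomial σ ℂ)) (B : Finset σ), P.IsPrime → BasisI P B → T ⊆ B →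
    (B \ T).card = k → ∀ H : MvPolynomial σ ℂ, H ∉ P →
    ∃ P' : Ideal (MvPolynomial σ ℂ), P'.IsPrime ∧ P ≤ P' ∧ H ∉ P' ∧ BasisI P' T := by
  intro k
  induction k with
  | zero =>
    intro P B hP hB hT hk H hH
    have h1 : B \ T = ∅ := Finset.card_eq_zero.1 hk
    have h2 : B = T := Finset.Subset.antisymm (Finset.sdiff_eq_empty_iff_subset.1 h1) hT
    subst h2
    exact ⟨P, hP, le_rfl, hH, hB⟩
  | succ k ih =>
    intro P B hP hB hT hk H hH
    obtain ⟨b, hb⟩ : (B \ T).Nonempty := by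
      rw [← Finset.card_pos]
      omega
    obtain ⟨hbB, hbT⟩ := Finset.mem_sdiff.1 hb
    obtain ⟨P', h1, h2, h3, h4⟩ := Pool.Agent.K3h69.ET.t_CUT1 σ P hP B hB b hbB H hH
    obtain ⟨P'', h5, h6, h7, h8⟩ := ih P' (B.erase b) h1 h4 (fun x hx =>
      Finset.mem_erase.2 ⟨fun h => hbT (h ▸ hx), hT hx⟩) (by
        have : B.erase b \ T = (B \ T).erase b := by
          ext x
          simp only [Finset.mem_sdiff, Finset.mem_erase]
          tauto
        rw [this, Finset.card_erase_of_mem hb, hk]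
        rfl) H h3
    exact ⟨P'', h5, h2.trans h6, h7, h8⟩

theorem null_pt {σ : Type} [Fintype σ] (P : Ideal (MvPolynomial σ ℂ)) (hP : P.IsPrime)
    (G : MvPolynomial σ ℂ) (hG : G ∉ P) : ∃ p : σ → ℂ, (∀ f ∈ P, eval p f = 0) ∧
      eval p G ≠ 0 := by
  by_contra hcon
  push Not at hcon
  apply hG
  have h1 : G ∈ vanishingIdeal ℂ (zeroLocus ℂ P) := by
    rw [mem_vanishingIdeal_iff]
    intro x hx
    exact hcon x fun f hf => hx f hf
  rwa [vanishingIdeal_zeroLocus_eq_radical, hP.radical] at h1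

/-- reduction to a subvariety with a given transcendence basis -/
theorem cutVar {n : ℕ} (P : Ideal (MvPolynomial (Fin n ⊕ Fin n) ℂ))
    (V : Set (Fin n ⊕ Fin n → ℂ)) (hP : P.IsPrime)
    (hV : V = {p | (∀ f ∈ P, eval p f = 0) ∧ ∀ j : Fin n, p (Sum.inr j) ≠ 0})
    (T : Finset (Fin n ⊕ Fin n)) (hT : Indep V T) (G : MvPolynomial (Fin n ⊕ Fin n) ℂ)
    (hG : ∃ u ∈ V, eval u G ≠ 0) :
    ∃ (P' : Ideal (MvPolynomial (Fin n ⊕ Fin n) ℂ)) (V' : Set (Fin n ⊕ Fin n → ℂ)),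
      P'.IsPrime ∧
      V' = {p | (∀ f ∈ P', eval p f = 0) ∧ ∀ j : Fin n, p (Sum.inr j) ≠ 0} ∧
      V' ⊆ V ∧ (∃ u ∈ V', eval u G ≠ 0) ∧ Indep V' T ∧
      ∀ J, J.card = T.card + 1 → ¬ Indep V' J := by
  obtain ⟨u, hu, huG⟩ := hG
  have hu' := hu
  rw [hV] at hu'
  obtain ⟨G₁, hG₁⟩ : ∃ G₁ : MvPolynomial (Fin n ⊕ Fin n) ℂ,
    G₁ = G * ∏ j : Fin n, X (Sum.inr j) := ⟨_, rfl⟩
  have hG₁e : ∀ p : Fin n ⊕ Fin n → ℂ, eval p G₁ = eval p G * ∏ j : Fin n, p (Sum.inr j) := by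
    intro p
    rw [hG₁, map_mul, map_prod]
    simp only [eval_X]
  have hG₁P : G₁ ∉ P := by
    intro h
    have h1 := hu'.1 G₁ h
    rw [hG₁e] at h1
    rcases mul_eq_zero.1 h1 with h2 | h2
    · exact huG h2
    · obtain ⟨j, -, hj⟩ := Finset.prod_eq_zero_iff.1 h2
      exact hu'.2 j hj
  have hTI : IndepI P T := by
    intro f hf hfP
    refine hT f hf fun p hp => ?_
    rw [hV] at hp
    exact hp.1 f hfP
  obtain ⟨hc1, hc2⟩ := Pool.Agent.K3h37.ET.t_CUT2 (Fin n ⊕ Fin n) P hP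
  obtain ⟨B, hTB, -, hB⟩ := hc2 T T hTI hTI
  obtain ⟨P', h1, h2, h3, h4⟩ := cut_aux T _ P B hP hB hTB rfl G₁ hG₁P
  obtain ⟨p, hp, hpG⟩ := null_pt P' h1 G₁ h3
  rw [hG₁e] at hpG
  have hpG' := mul_ne_zero_iff.1 hpG
  have hpy : ∀ j : Fin n, p (Sum.inr j) ≠ 0 := fun j =>
    (Finset.prod_ne_zero_iff.1 hpG'.2) j (Finset.mem_univ j)
  obtain ⟨V', hV'⟩ : ∃ V' : Set (Fin n ⊕ Fin n → ℂ),
    V' = {p | (∀ f ∈ P', eval p f = 0) ∧ ∀ j : Fin n, p (Sum.inr j) ≠ 0} := ⟨_, rfl⟩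
  have hpV' : p ∈ V' := by
    rw [hV']
    exact ⟨hp, hpy⟩
  obtain ⟨d1, -⟩ := Pool.Agent.K3h60.EX.t_DER n n P' V' h1 hV' ⟨p, hpV'⟩ id
    Function.injective_id
  refine ⟨P', V', h1, hV', ?_, ⟨p, hpV', hpG'.1⟩, fun f hf hfV => h4.1 f hf (d1 f hfV), ?_⟩
  · intro q hq
    rw [hV'] at hq
    rw [hV]
    exact ⟨fun f hf => hq.1 f (h2 hf), hq.2⟩
  · intro J hJ hJi
    have h5 : IndepI P' J := by
      intro f hf hfP
      refine hJi f hf fun q hq => ?_
      rw [hV'] at hq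
      exact hq.1 f hfP
    have h6 := (Pool.Agent.K3h37.ET.t_CUT2 (Fin n ⊕ Fin n) P' h1).1 T J h4 h5
    omega

/-- the base does not change -/
theorem base_transfer {n s r : ℕ} (hn : n = s + r)
    (P : Ideal (MvPolynomial (Fin n ⊕ Fin n) ℂ)) (V V' : Set (Fin n ⊕ Fin n → ℂ))
    (hP : P.IsPrime)
    (hV : V = {p | (∀ f ∈ P, eval p f = 0) ∧ ∀ j : Fin n, p (Sum.inr j) ≠ 0})
    (hne : V.Nonempty)
    (hX2 : ∀ K : Finset (Fin n), K.card = s + 1 → ¬ ∀ G : MvPolynomial (Fin n) ℂ, G.vars ⊆ K →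
      (∀ u ∈ V, eval (fun i => u (Sum.inl i)) G = 0) → G = 0)
    (hsub : V' ⊆ V) (L : Finset (Fin n)) (hL : L.card = s)
    (hLi : ∀ G : MvPolynomial (Fin n) ℂ, G.vars ⊆ L →
      (∀ u ∈ V', eval (fun i => u (Sum.inl i)) G = 0) → G = 0)
    (G : MvPolynomial (Fin n) ℂ) (hG : ∀ u ∈ V', eval (fun i => u (Sum.inl i)) G = 0) :
    ∀ u ∈ V, eval (fun i => u (Sum.inl i)) G = 0 := by
  obtain ⟨d1, d2, d3, d4, d5⟩ := Pool.Agent.K3h60.EX.t_DER n n P V hP hV hne id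
    Function.injective_id
  have d7 : ∀ G : MvPolynomial (Fin n) ℂ, rename Sum.inl G ∈ P ↔
      ∀ u ∈ V, eval (fun i => u (Sum.inl i)) G = 0 := by
    intro G
    constructor
    · intro h u hu
      rw [hV] at hu
      have := hu.1 _ h
      rw [eval_rename] at this
      exact this
    · intro h
      apply d1
      intro u hu
      rw [eval_rename]
      exact h u hu
  obtain ⟨I, hI⟩ : ∃ I : Ideal (MvPolynomial (Fin n) ℂ), I = P.comap
      ((rename (Sum.inl : Fin n → Fin n ⊕ Fin n) :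
        MvPolynomial (Fin n) ℂ →ₐ[ℂ] MvPolynomial (Fin n ⊕ Fin n) ℂ) :
        MvPolynomial (Fin n) ℂ →+* MvPolynomial (Fin n ⊕ Fin n) ℂ) := ⟨_, rfl⟩
  have hmI : ∀ G, G ∈ I ↔ ∀ u ∈ V, eval (fun i => u (Sum.inl i)) G = 0 := by
    intro G
    rw [← d7, hI]
    rfl
  have hIp : I.IsPrime := by
    rw [hI]
    have := hP
    exact Ideal.comap_isPrime _ _
  have hLc : Lᶜ.card = r := by
    rw [Finset.card_compl, Fintype.card_fin]
    omega
  obtain ⟨e, he⟩ := exists_equiv hn (fun b : Fin r => Lᶜ.orderEmbOfFin hLc b)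
    (Lᶜ.orderEmbOfFin hLc).injective
  have heL : ∀ j, e (Sum.inl j) ∈ L := by
    intro j
    by_contra hcon
    have h1 : e (Sum.inl j) ∈ (Lᶜ : Finset (Fin n)) := Finset.mem_compl.2 hcon
    rw [← Finset.mem_coe, ← Finset.range_orderEmbOfFin Lᶜ hLc] at h1
    obtain ⟨b, hb⟩ := h1
    have h2 : e (Sum.inr b) = e (Sum.inl j) := (he b).trans hb
    exact absurd (e.injective h2) (by simp)
  have hls : ∀ h : MvPolynomial (Fin s) ℂ, lsub e (0 : Fin s → Fin r → ℝ) h =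
      rename (fun j => e (Sum.inl j)) h := by
    intro h
    unfold lsub
    have e1 : (fun j => (X (e (Sum.inl j)) - ∑ b, C ((((0 : Fin s → Fin r → ℝ) j b : ℝ)) : ℂ) *
        X (e (Sum.inr b)) : MvPolynomial (Fin n) ℂ)) = fun j => X (e (Sum.inl j)) := by
      funext j
      simp
    have e2 : (aeval fun j => (X (e (Sum.inl j)) : MvPolynomial (Fin n) ℂ)) =
        rename (fun j => e (Sum.inl j)) := by
      refine MvPolynomial.algHom_ext fun j => ?_
      rw [aeval_X, rename_X]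
    rw [e1, e2]
  have hlz : ∀ h : MvPolynomial (Fin s) ℂ,
      (∀ u ∈ V', eval (fun i => u (Sum.inl i)) (lsub e (0 : Fin s → Fin r → ℝ) h) = 0) →
      h = 0 := by
    intro h hh
    have h1 : rename (fun j => e (Sum.inl j)) h = 0 := by
      refine hLi _ ?_ ?_
      · classical
        refine (vars_rename _ _).trans ?_
        intro c hc
        obtain ⟨j, -, rfl⟩ := Finset.mem_image.1 hc
        exact heL j
      · intro u hu
        rw [← hls]
        exact hh u hu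
    refine rename_injective (fun j => e (Sum.inl j)) (fun a b hab => ?_)
      (h1.trans (map_zero _).symm)
    exact Sum.inl_injective (e.injective hab)
  rw [← hmI]
  by_contra hGI
  obtain ⟨h, G', h0, h1⟩ := Pool.Agent.K3h72.UG.t_NORM6 n s r e 0 I hIp (by
    intro K hK
    have h2 := hX2 K hK
    push Not at h2
    obtain ⟨G, h3, h4, h5⟩ := h2
    exact ⟨G, (hmI G).2 h4, h5, h3⟩) (by
    intro h hh0 hh
    apply hh0
    apply hlz
    intro u hu
    exact (hmI _).1 hh u (hsub hu)) G hGI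
  apply h0
  apply hlz
  intro u hu
  have h2 := (hmI _).1 h1 u (hsub hu)
  rw [map_sub, map_mul, hG u hu, zero_mul, zero_sub, neg_eq_zero] at h2
  exact h2

/-- the dimension of the base -/
theorem exists_baseDim {n : ℕ} (P : Ideal (MvPolynomial (Fin n ⊕ Fin n) ℂ))
    (V : Set (Fin n ⊕ Fin n → ℂ)) (hP : P.IsPrime)
    (hV : V = {p | (∀ f ∈ P, eval p f = 0) ∧ ∀ j : Fin n, p (Sum.inr j) ≠ 0})
    (hne : V.Nonempty) : ∃ s r : ℕ, n = s + r ∧
    (∃ K : Finset (Fin n), K.card = s ∧ ∀ G : MvPolynomial (Fin n) ℂ, G.vars ⊆ K →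
      (∀ u ∈ V, eval (fun i => u (Sum.inl i)) G = 0) → G = 0) ∧
    (∀ K : Finset (Fin n), K.card = s + 1 → ¬ ∀ G : MvPolynomial (Fin n) ℂ, G.vars ⊆ K →
      (∀ u ∈ V, eval (fun i => u (Sum.inl i)) G = 0) → G = 0) := by
  obtain ⟨d1, -⟩ := Pool.Agent.K3h60.EX.t_DER n n P V hP hV hne id
    Function.injective_id
  obtain ⟨I, hI⟩ : ∃ I : Ideal (MvPolynomial (Fin n) ℂ), I = P.comap
      ((rename (Sum.inl : Fin n → Fin n ⊕ Fin n) :
        MvPolynomial (Fin n) ℂ →ₐ[ℂ] MvPolynomial (Fin n ⊕ Fin n) ℂ) :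
        MvPolynomial (Fin n) ℂ →+* MvPolynomial (Fin n ⊕ Fin n) ℂ) := ⟨_, rfl⟩
  have hmI : ∀ G, G ∈ I ↔ ∀ u ∈ V, eval (fun i => u (Sum.inl i)) G = 0 := by
    intro G
    have e1 : G ∈ I ↔ rename Sum.inl G ∈ P := by
      rw [hI]
      rfl
    rw [e1]
    constructor
    · intro h u hu
      rw [hV] at hu
      have := hu.1 _ h
      rw [eval_rename] at this
      exact this
    · intro h
      apply d1
      intro u hu
      rw [eval_rename]
      exact h u hu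
  have hIp : I.IsPrime := by
    rw [hI]
    have := hP
    exact Ideal.comap_isPrime _ _
  obtain ⟨hc1, hc2⟩ := Pool.Agent.K3h37.ET.t_CUT2 (Fin n) I hIp
  have h0 : IndepI I (∅ : Finset (Fin n)) := by
    intro f hf hfI
    rw [Finset.subset_empty] at hf
    obtain ⟨a, ha'⟩ : ∃ a, f = C a := ⟨_, vars_eq_empty_iff_eq_C.1 hf⟩
    by_contra hne'
    have ha : a ≠ 0 := by
      intro h
      apply hne'
      rw [ha', h, C_0]
    apply hIp.ne_top
    rw [Ideal.eq_top_iff_one]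
    rw [ha'] at hfI
    have := I.mul_mem_left (C a⁻¹) hfI
    rwa [← C_mul, inv_mul_cancel₀ ha, C_1] at this
  obtain ⟨B, -, -, hB⟩ := hc2 ∅ ∅ h0 h0
  have hBn : B.card ≤ n := by
    have := Finset.card_le_univ B
    rwa [Fintype.card_fin] at this
  refine ⟨B.card, n - B.card, by omega, ⟨B, rfl, fun G hG hGV => hB.1 G hG ((hmI G).2 hGV)⟩,
    fun K hK hKi => ?_⟩
  have h1 := hc1 B K hB fun G hG hGI => hKi G hG ((hmI G).1 hGI)
  omega

end Pool.Agent.K3h53.UG
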