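import Pool.Agent.K3h53.UG.Cut
import Pool.Agent.K3h23.UG.Fibr

/-! UG project: varieties of dimension at least `n`. -/

set_option autoImplicit false

namespace Pool.Agent.K3h53.UG

open MvPolynomial Set Pool.Agent.K3h22.EX

/-- pull back of a polynomial under a translation -/
theorem pullback {n : ℕ} (c : Fin n ⊕ Fin n → ℂ) (H : MvPolynomial (Fin n ⊕ Fin n) ℂ) :
    ∃ H' : MvPolynomial (Fin n ⊕ Fin n) ℂ, ∀ u : Fin n ⊕ Fin n → ℂ, eval u H' =
      eval (Sum.elim (fun i => u (Sum.inl i) + c (Sum.inl i))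
        (fun i => c (Sum.inr i) * u (Sum.inr i))) H := by
  refine ⟨bind₁ (Sum.elim (fun i => X (Sum.inl i) + C (c (Sum.inl i)))
    (fun i => C (c (Sum.inr i)) * X (Sum.inr i))) H, fun u => ?_⟩
  have h : (eval u).comp (bind₁ (Sum.elim (fun i => X (Sum.inl i) + C (c (Sum.inl i)))
      (fun i => C (c (Sum.inr i)) * X (Sum.inr i))) :
        MvPolynomial (Fin n ⊕ Fin n) ℂ →ₐ[ℂ] MvPolynomial (Fin n ⊕ Fin n) ℂ).toRingHom =
      eval (Sum.elim (fun i => u (Sum.inl i) + c (Sum.inl i))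
        (fun i => c (Sum.inr i) * u (Sum.inr i))) := by
    refine MvPolynomial.ringHom_ext (fun a => ?_) ?_
    · simp
    · rintro (i | i)
      · simp
      · simp
  exact RingHom.congr_fun h H

section Main

variable {n s r : ℕ} (hn : n = s + r)
    (P : Ideal (MvPolynomial (Fin n ⊕ Fin n) ℂ)) (V : Set (Fin n ⊕ Fin n → ℂ)) (hP : P.IsPrime)
    (hV : V = {p | (∀ f ∈ P, eval p f = 0) ∧ ∀ j : Fin n, p (Sum.inr j) ≠ 0})
    (hne : V.Nonempty)
    (hX2 : ∀ K : Finset (Fin n), K.card = s + 1 → ¬ ∀ G : MvPolynomial (Fin n) ℂ, G.vars ⊆ K →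
      (∀ u ∈ V, eval (fun i => u (Sum.inl i)) G = 0) → G = 0)

include hn hP hV hne hX2

/-- reduction to dimension `n` without changing the base -/
theorem reduceT (L : Finset (Fin n)) (hL : L.card = s) (T : Finset (Fin n ⊕ Fin n))
    (hLT : ∀ j ∈ L, Sum.inl j ∈ T) (hTc : T.card = n) (hT : Indep V T)
    (G : MvPolynomial (Fin n ⊕ Fin n) ℂ) (hG : ∃ u ∈ V, eval u G ≠ 0) :
    ∃ (P' : Ideal (MvPolynomial (Fin n ⊕ Fin n) ℂ)) (V' : Set (Fin n ⊕ Fin n → ℂ)),
      P'.IsPrime ∧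
      V' = {p | (∀ f ∈ P', eval p f = 0) ∧ ∀ j : Fin n, p (Sum.inr j) ≠ 0} ∧
      V' ⊆ V ∧ (∃ u ∈ V', eval u G ≠ 0) ∧ Indep V' T ∧
      (∀ J : Finset (Fin n ⊕ Fin n), J.card = n + 1 → ¬ Indep V' J) ∧
      ∀ G' : MvPolynomial (Fin n) ℂ, (∀ u ∈ V', eval (fun i => u (Sum.inl i)) G' = 0) ↔
        ∀ u ∈ V, eval (fun i => u (Sum.inl i)) G' = 0 := by
  obtain ⟨P', V', h1, h2, h3, h4, h5, h6⟩ := cutVar P V hP hV T hT G hG
  refine ⟨P', V', h1, h2, h3, h4, h5, fun J hJ => h6 J (by rw [hJ, hTc]), fun G' => ⟨?_, ?_⟩⟩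
  · refine base_transfer hn P V V' hP hV hne hX2 h3 L hL (fun G hG hGV => ?_) G'
    have h7 : rename (Sum.inl : Fin n → Fin n ⊕ Fin n) G = 0 := by
      refine h5 _ ?_ ?_
      · refine (vars_rename _ _).trans ?_
        intro c hc
        obtain ⟨j, hj, rfl⟩ := Finset.mem_image.1 hc
        exact hLT j (hG hj)
      · intro p hp
        rw [eval_rename]
        exact hGV p hp
    exact rename_injective _ Sum.inl_injective (h7.trans (map_zero _).symm)
  · exact fun h u hu => h u (h3 hu)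

/-- existence of a good set of independent coordinates -/
theorem exists_T (hX1 : ∃ K : Finset (Fin n), K.card = s ∧ ∀ G : MvPolynomial (Fin n) ℂ,
      G.vars ⊆ K → (∀ u ∈ V, eval (fun i => u (Sum.inl i)) G = 0) → G = 0)
    (hd : ∃ K : Finset (Fin n ⊕ Fin n), K.card = n ∧ Indep V K) :
    ∃ (L : Finset (Fin n)) (T : Finset (Fin n ⊕ Fin n)), L.card = s ∧
      (∀ j ∈ L, Sum.inl j ∈ T) ∧ T.card = n ∧ Indep V T := by
  obtain ⟨L, hL, hLi⟩ := hX1
  obtain ⟨K, hK, hKi⟩ := hd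
  obtain ⟨d1, -⟩ := Pool.Agent.K3h60.EX.t_DER n n P V hP hV hne id
    Function.injective_id
  have hPV : ∀ f ∈ P, ∀ p ∈ V, eval p f = 0 := by
    intro f hf p hp
    rw [hV] at hp
    exact hp.1 f hf
  have h1 : IndepI P (L.image Sum.inl) := by
    intro f hf hfP
    obtain ⟨G, rfl⟩ := exists_rename_eq_of_vars_subset_range f
      (Sum.inl : Fin n → Fin n ⊕ Fin n) Sum.inl_injective (by
        intro c hc
        obtain ⟨j, -, rfl⟩ := Finset.mem_image.1 (hf hc)
        exact ⟨j, rfl⟩)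
    have h2 : G.vars ⊆ L := by
      intro j hj
      have h3 : (Sum.inl j : Fin n ⊕ Fin n) ∈ (rename Sum.inl G).vars := by
        rw [mem_vars_iff_degreeOf_ne_zero] at hj ⊢
        rwa [degreeOf_rename_of_injective Sum.inl_injective]
      obtain ⟨j', hj', h4⟩ := Finset.mem_image.1 (hf h3)
      rwa [← Sum.inl_injective h4]
    rw [hLi G h2 (fun u hu => by
      have := hPV _ hfP u hu
      rw [eval_rename] at this
      exact this), map_zero]
  have h2 : IndepI P K := fun f hf hfP => hKi f hf (hPV f hfP)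
  obtain ⟨B, hLB, hBc, hB⟩ := (Pool.Agent.K3h37.ET.t_CUT2 (Fin n ⊕ Fin n) P hP).2
    (L.image Sum.inl) K h1 h2
  obtain ⟨T, hLT, hTB, hTc⟩ := Finset.exists_subsuperset_card_eq hLB
    (show (L.image Sum.inl).card ≤ n by
      rw [Finset.card_image_of_injective _ Sum.inl_injective]
      omega) (show n ≤ B.card by omega)
  exact ⟨L, T, hL, fun j hj => hLT (Finset.mem_image_of_mem _ hj), hTc,
    fun f hf hfV => hB.1 f (hf.trans hTB) (d1 f hfV)⟩

end Main

/-- fibre coordinates in terms of independence of coordinates -/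
theorem fibre_iff {n s r : ℕ}
    (P : Ideal (MvPolynomial (Fin n ⊕ Fin n) ℂ)) (V : Set (Fin n ⊕ Fin n → ℂ)) (hP : P.IsPrime)
    (hV : V = {p | (∀ f ∈ P, eval p f = 0) ∧ ∀ j : Fin n, p (Sum.inr j) ≠ 0})
    (hne : V.Nonempty)
    (hX2 : ∀ K : Finset (Fin n), K.card = s + 1 → ¬ ∀ G : MvPolynomial (Fin n) ℂ, G.vars ⊆ K →
      (∀ u ∈ V, eval (fun i => u (Sum.inl i)) G = 0) → G = 0)
    (L : Finset (Fin n)) (hL : L.card = s)
    (hLi : ∀ G : MvPolynomial (Fin n) ℂ, G.vars ⊆ L →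
      (∀ u ∈ V, eval (fun i => u (Sum.inl i)) G = 0) → G = 0)
    (κ : Fin r → Fin n) (hκ : Function.Injective κ) :
    (∀ g : MvPolynomial (Fin r) (MvPolynomial (Fin n) ℂ),
      (∀ u ∈ V, eval (fun b => u (Sum.inr (κ b)))
        (MvPolynomial.map (eval fun i => u (Sum.inl i)) g) = 0) →
      ∀ m, ∀ u ∈ V, eval (fun i => u (Sum.inl i)) (coeff m g) = 0) ↔
    Indep V (L.image Sum.inl ∪ Finset.univ.image fun b => Sum.inr (κ b)) := by
  obtain ⟨d1, -⟩ := Pool.Agent.K3h60.EX.t_DER n n P V hP hV hne id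
    Function.injective_id
  have d6 : ∀ G : MvPolynomial (Fin n ⊕ Fin n) ℂ, G ∈ P → ∀ u ∈ V, eval u G = 0 := by
    intro G hG u hu
    rw [hV] at hu
    exact hu.1 G hG
  have d7 : ∀ G : MvPolynomial (Fin n) ℂ, rename Sum.inl G ∈ P ↔
      ∀ u ∈ V, eval (fun i => u (Sum.inl i)) G = 0 := by
    intro G
    constructor
    · intro h u hu
      have := d6 _ h u hu
      rw [eval_rename] at this
      exact this
    · intro h
      apply d1
      intro u hu
      rw [eval_rename]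
      exact h u hu
  have h1 := Pool.Agent.K3h23.UG.t_FIBR n s r P hP L κ hκ hL
    (fun G hG hGP => hLi G hG ((d7 G).1 hGP)) (fun K hK => by
      have h1 := hX2 K hK
      push Not at h1
      obtain ⟨G, h2, h3, h4⟩ := h1
      exact ⟨G, (d7 G).2 h3, h4, h2⟩)
  have h2 : (∀ g : MvPolynomial (Fin r) (MvPolynomial (Fin n) ℂ),
      (∀ u ∈ V, eval (fun b => u (Sum.inr (κ b)))
        (MvPolynomial.map (eval fun i => u (Sum.inl i)) g) = 0) →
      ∀ m, ∀ u ∈ V, eval (fun i => u (Sum.inl i)) (coeff m g) = 0) ↔ IndepOver P κ := by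
    constructor
    · intro h g hg m
      rw [d7]
      refine h g (fun u hu => ?_) m
      rw [← eval_yev]
      exact d6 _ hg u hu
    · intro h g hg m
      rw [← d7]
      refine h g (d1 _ fun u hu => ?_) m
      rw [eval_yev]
      exact hg u hu
  rw [h2, h1]
  constructor
  · intro h f hf hfV
    exact h f hf (d1 f hfV)
  · intro h f hf hfP
    exact h f hf (d6 f hfP)

end Pool.Agent.K3h53.UG
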