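import Pool.Agent.K3h53.UG.Fin11
import Pool.Agent.K3h64.UG.COR2

/-! UG project: graphs of polynomial maps with real leading forms. -/

set_option autoImplicit false

namespace Pool.Agent.K3h53.UG

open MvPolynomial Set Pool.Agent.K3h22.EX

theorem wtop_const {n : ℕ} (w : Fin n → ℕ) : wtop w (1 : MvPolynomial (Fin n) ℂ) = 1 := by
  have h1 : IsWeightedHomogeneous w (1 : MvPolynomial (Fin n) ℂ) 0 :=
    isWeightedHomogeneous_one ℂ w
  have h2 : weightedTotalDegree w (1 : MvPolynomial (Fin n) ℂ) = 0 := by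
    have h3 := h1.weighted_total_degree one_ne_zero
    rw [weightedTotalDegree_coe w _ one_ne_zero] at h3
    exact_mod_cast h3
  unfold wtop
  rw [h2]
  exact h1.weightedHomogeneousComponent_same

section Main

variable {n s r : ℕ} (hn : n = s + r)
    (P : Ideal (MvPolynomial (Fin n ⊕ Fin n) ℂ)) (V : Set (Fin n ⊕ Fin n → ℂ)) (hP : P.IsPrime)
    (hV : V = {p | (∀ f ∈ P, eval p f = 0) ∧ ∀ j : Fin n, p (Sum.inr j) ≠ 0})
    (hne : V.Nonempty)

include hn hP hV hne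

/-- graphs of polynomial maps with real leading forms, dimension `n` -/
theorem thmReal (hdim1 : ∃ K : Finset (Fin n ⊕ Fin n), K.card = n ∧ Indep V K)
    (hdim : ∀ K : Finset (Fin n ⊕ Fin n), K.card = n + 1 → ¬ Indep V K)
    (hX1 : ∃ K : Finset (Fin n), K.card = s ∧ ∀ G : MvPolynomial (Fin n) ℂ, G.vars ⊆ K →
      (∀ u ∈ V, eval (fun i => u (Sum.inl i)) G = 0) → G = 0)
    (hX2 : ∀ K : Finset (Fin n), K.card = s + 1 → ¬ ∀ G : MvPolynomial (Fin n) ℂ, G.vars ⊆ K →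
      (∀ u ∈ V, eval (fun i => u (Sum.inl i)) G = 0) → G = 0)
    (κ : Fin r → Fin n) (hκ : Function.Injective κ)
    (hind : ∀ g : MvPolynomial (Fin r) (MvPolynomial (Fin n) ℂ),
      (∀ u ∈ V, eval (fun b => u (Sum.inr (κ b)))
        (MvPolynomial.map (eval fun i => u (Sum.inl i)) g) = 0) →
      ∀ m, ∀ u ∈ V, eval (fun i => u (Sum.inl i)) (coeff m g) = 0)
    (J : Fin r → Fin n) (hJ : Function.Injective J) (hJκ : ∀ i b, J i ≠ κ b)
    (q : Fin r → MvPolynomial (Fin n) ℂ) (hq : ∀ i i', J i' ∉ (q i).vars)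
    (hIF : ∀ x : Fin n → ℂ, (∀ i, x (J i) = eval x (q i)) →
      ∀ G : MvPolynomial (Fin n) ℂ, (∀ u ∈ V, eval (fun i => u (Sum.inl i)) G = 0) →
        eval x G = 0)
    (d : ℕ) (hd : 2 ≤ d) (hdeg : ∀ i, ∃ k, (q i).totalDegree = d * (2 * k + 1))
    (hre : ∀ i m, (coeff m (top (q i))).im = 0)
    (hS : ∀ S : Fin n → Fin r → ℚ, (∀ b b', S (κ b) b' = if b = b' then 1 else 0) →
      ∃ t : Fin r → ℂ, (Matrix.of fun i b : Fin r =>
        eval (fun j => ∑ b', ((S j b' : ℚ) : ℂ) * t b')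
          (dd (fun j => ((S j b : ℚ) : ℂ)) (top (q i)))).det ≠ 0)
    (c : Fin n ⊕ Fin n → ℂ) (hc : ∀ i, c (Sum.inr i) ≠ 0)
    (H : MvPolynomial (Fin n ⊕ Fin n) ℂ)
    (hHV : ∃ u ∈ V, eval (Sum.elim (fun i => u (Sum.inl i) + c (Sum.inl i))
      (fun i => c (Sum.inr i) * u (Sum.inr i))) H ≠ 0) :
    ∃ z : Fin n → ℂ, (∃ u ∈ V, (Sum.elim z fun i => Complex.exp (z i) :
      Fin n ⊕ Fin n → ℂ) = Sum.elim (fun i => u (Sum.inl i) + c (Sum.inl i))
        (fun i => c (Sum.inr i) * u (Sum.inr i))) ∧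
      eval (Sum.elim z fun i => Complex.exp (z i)) H ≠ 0 := by
  classical
  obtain ⟨e, he⟩ := exists_equiv hn κ hκ
  have hκe : κ = fun b => e (Sum.inr b) := funext fun b => (he b).symm
  subst hκe
  obtain ⟨w, hw1, hw2⟩ : ∃ w : Fin n → ℕ, (∀ i, w (J i) = (q i).totalDegree) ∧
      ∀ j, (∀ i, J i ≠ j) → w j = 1 := by
    refine ⟨fun j => if h : ∃ i, J i = j then (q h.choose).totalDegree else 1, fun i => ?_,
      fun j hj => ?_⟩
    · have h : ∃ i', J i' = J i := ⟨i, rfl⟩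
      have h1 : h.choose = i := hJ h.choose_spec
      simp only [dif_pos h, h1]
    · have h : ¬ ∃ i, J i = j := by
        rintro ⟨i, hi⟩
        exact hj i hi
      simp only [dif_neg h]
  have hw : ∀ j, 1 ≤ w j := by
    intro j
    by_cases h : ∃ i, J i = j
    · obtain ⟨i, rfl⟩ := h
      obtain ⟨k, hk⟩ := hdeg i
      rw [hw1, hk]
      nlinarith
    · rw [hw2 j fun i hi => h ⟨i, hi⟩]
  refine thmDir hn P V hP hV hne hdim1 hdim hX1 hX2 e hind w hw (fun b => hw2 _ fun i => hJκ i b)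
    (fun i => X (J i) - q i) 1 (fun x hx _ => hIF x fun i => ?_) Set.univ isOpen_univ
    ⟨0, trivial⟩ (fun σ U' hU' _ hne' => ?_) c hc H hHV
  · have h1 := hx i
    rw [map_sub, eval_X] at h1
    exact sub_eq_zero.1 h1
  · obtain ⟨lam, θ, h1, h2⟩ := Pool.Agent.K3h64.UG.t_COR2 n s r e J q w d hJ hJκ hq hw1 hw2 hd hdeg
      hre hS σ U' hU' hne'
    refine ⟨lam, θ, h1, ?_, h2⟩
    rw [wtop_const, map_one]
    exact one_ne_zero

/-- graphs of polynomial maps with real leading forms, dimension at least `n` -/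
theorem geReal (hX1 : ∃ K : Finset (Fin n), K.card = s ∧ ∀ G : MvPolynomial (Fin n) ℂ,
      G.vars ⊆ K → (∀ u ∈ V, eval (fun i => u (Sum.inl i)) G = 0) → G = 0)
    (hX2 : ∀ K : Finset (Fin n), K.card = s + 1 → ¬ ∀ G : MvPolynomial (Fin n) ℂ, G.vars ⊆ K →
      (∀ u ∈ V, eval (fun i => u (Sum.inl i)) G = 0) → G = 0)
    (κ : Fin r → Fin n) (hκ : Function.Injective κ)
    (hind : ∀ g : MvPolynomial (Fin r) (MvPolynomial (Fin n) ℂ),
      (∀ u ∈ V, eval (fun b => u (Sum.inr (κ b)))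
        (MvPolynomial.map (eval fun i => u (Sum.inl i)) g) = 0) →
      ∀ m, ∀ u ∈ V, eval (fun i => u (Sum.inl i)) (coeff m g) = 0)
    (J : Fin r → Fin n) (hJ : Function.Injective J) (hJκ : ∀ i b, J i ≠ κ b)
    (q : Fin r → MvPolynomial (Fin n) ℂ) (hq : ∀ i i', J i' ∉ (q i).vars)
    (hIF : ∀ x : Fin n → ℂ, (∀ i, x (J i) = eval x (q i)) →
      ∀ G : MvPolynomial (Fin n) ℂ, (∀ u ∈ V, eval (fun i => u (Sum.inl i)) G = 0) →
        eval x G = 0)
    (d : ℕ) (hd : 2 ≤ d) (hdeg : ∀ i, ∃ k, (q i).totalDegree = d * (2 * k + 1))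
    (hre : ∀ i m, (coeff m (top (q i))).im = 0)
    (hS : ∀ S : Fin n → Fin r → ℚ, (∀ b b', S (κ b) b' = if b = b' then 1 else 0) →
      ∃ t : Fin r → ℂ, (Matrix.of fun i b : Fin r =>
        eval (fun j => ∑ b', ((S j b' : ℚ) : ℂ) * t b')
          (dd (fun j => ((S j b : ℚ) : ℂ)) (top (q i)))).det ≠ 0)
    (c : Fin n ⊕ Fin n → ℂ) (hc : ∀ i, c (Sum.inr i) ≠ 0)
    (H : MvPolynomial (Fin n ⊕ Fin n) ℂ)
    (hHV : ∃ u ∈ V, eval (Sum.elim (fun i => u (Sum.inl i) + c (Sum.inl i))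
      (fun i => c (Sum.inr i) * u (Sum.inr i))) H ≠ 0) :
    ∃ z : Fin n → ℂ, (∃ u ∈ V, (Sum.elim z fun i => Complex.exp (z i) :
      Fin n ⊕ Fin n → ℂ) = Sum.elim (fun i => u (Sum.inl i) + c (Sum.inl i))
        (fun i => c (Sum.inr i) * u (Sum.inr i))) ∧
      eval (Sum.elim z fun i => Complex.exp (z i)) H ≠ 0 := by
  classical
  obtain ⟨H', hH'⟩ := pullback c H
  obtain ⟨u, hu, huH⟩ := hHV
  rw [← hH'] at huH
  obtain ⟨L, hL, hLi⟩ := hX1
  have hT := (fibre_iff P V hP hV hne hX2 L hL hLi κ hκ).1 hind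
  have hTc : (L.image Sum.inl ∪ Finset.univ.image fun b => Sum.inr (κ b) :
      Finset (Fin n ⊕ Fin n)).card = n := by
    rw [Finset.card_union_of_disjoint, Finset.card_image_of_injective _ Sum.inl_injective,
      Finset.card_image_of_injective _ (fun a b h => hκ (Sum.inr_injective h)), hL,
      Finset.card_univ, Fintype.card_fin, hn]
    rw [Finset.disjoint_left]
    intro x hx hx'
    obtain ⟨a, -, rfl⟩ := Finset.mem_image.1 hx
    obtain ⟨b, -, hb⟩ := Finset.mem_image.1 hx'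
    exact absurd hb (by simp)
  obtain ⟨P', V', h1, h2, h3, ⟨v, hv, hvH⟩, h5, h6, h7⟩ := reduceT hn P V hP hV hne hX2 L hL _
    (fun j hj => Finset.mem_union_left _ (Finset.mem_image_of_mem _ hj)) hTc hT H' ⟨u, hu, huH⟩
  have hX2' : ∀ K : Finset (Fin n), K.card = s + 1 → ¬ ∀ G : MvPolynomial (Fin n) ℂ,
      G.vars ⊆ K → (∀ u ∈ V', eval (fun i => u (Sum.inl i)) G = 0) → G = 0 := by
    intro K hK hcon
    exact hX2 K hK fun G hG hGV => hcon G hG ((h7 G).2 hGV)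
  have hLi' : ∀ G : MvPolynomial (Fin n) ℂ, G.vars ⊆ L →
      (∀ u ∈ V', eval (fun i => u (Sum.inl i)) G = 0) → G = 0 :=
    fun G hG hGV => hLi G hG ((h7 G).1 hGV)
  have hind' := (fibre_iff P' V' h1 h2 ⟨v, hv⟩ hX2' L hL hLi' κ hκ).2 h5
  obtain ⟨z, ⟨u', hu', hz⟩, hzH⟩ := thmReal hn P' V' h1 h2 ⟨v, hv⟩ ⟨_, hTc, h5⟩ h6 ⟨L, hL, hLi'⟩
    hX2' κ hκ hind' J hJ hJκ q hq (fun x hx G hG => hIF x hx G ((h7 G).1 hG)) d hd hdeg hre hS
    c hc H ⟨v, hv, by rw [← hH']; exact hvH⟩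
  exact ⟨z, ⟨u', h3 hu', hz⟩, hzH⟩

end Main

end Pool.Agent.K3h53.UG
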