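import Pool.Agent.K3h53.UG.Core3
import Pool.Agent.K3h53.UG.Fin2

/-! UG project, third part: exponential points on varieties over hypersurfaces which are graphs. -/

set_option autoImplicit false

namespace Pool.Agent.K3h53.UG

open MvPolynomial Filter Topology Metric Set Pool.Agent.K3h22.EX

variable {s n : ℕ}

theorem coreV3 (hDIR : S_DIR3) (hDOM : S_DOM3) (hCLS : S_CLS3) (hSOL : S_SOL3)
    (P : Ideal (MvPolynomial (Fin n ⊕ Fin n) ℂ)) (hP : P.IsPrime)
    (ι : Fin s → Fin n) (hιi : Function.Injective ι) (p : Fin n → MvPolynomial (Fin s) ℂ)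
    (hι : ∀ a, p (ι a) = X a) (m : Fin n) (hm : ∀ a, ι a ≠ m)
    (hcov : ∀ i, i ≠ m → ∃ a, ι a = i) (k : Fin s)
    (h2 : ∀ i, X (Sum.inl i) - rename (fun a => Sum.inl (ι a)) (p i) ∈ P)
    (h3 : ∀ i, X (Sum.inr i) ∉ P)
    (h4 : ∀ g : MvPolynomial {i // i ∈ ({ι k} : Finset (Fin n))} (MvPolynomial (Fin s) ℂ),
      em ι Subtype.val g ∈ P → g = 0)
    (h5 : ∀ i, i ≠ ι k → ∃ g : Polynomial
      (MvPolynomial {i // i ∈ ({ι k} : Finset (Fin n))} (MvPolynomial (Fin s) ℂ)),
      g ≠ 0 ∧ g.eval₂ (em ι Subtype.val) (X (Sum.inr i)) ∈ P)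
    (hq : 2 ≤ (p m).totalDegree) (hH0 : NonDeg (p m)) (c : Fin n → ℂ)
    (H : MvPolynomial (Fin n ⊕ Fin n) ℂ) (hH : H ∉ P) :
    ∃ z : Fin s → ℂ,
      (∀ F ∈ P, eval (Sum.elim (fun i => eval z (p i))
        fun i => Complex.exp (eval z (p i) + c i)) F = 0) ∧
      eval (Sum.elim (fun i => eval z (p i)) fun i => Complex.exp (eval z (p i) + c i)) H ≠ 0 := by
  classical
  obtain ⟨B, hB⟩ : ∃ B : Finset (Fin n), B = {ι k} := ⟨_, rfl⟩
  obtain ⟨J, hJk, hJn⟩ : ∃ J : Fin s → Fin n, J k = m ∧ ∀ j, j ≠ k → J j = ι j :=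
    ⟨Function.update ι k m, by simp, fun j hj => Function.update_of_ne hj _ _⟩
  have hJ : Function.Injective J := by
    intro a b hab
    by_cases ha : a = k
    · by_cases hb : b = k
      · rw [ha, hb]
      · rw [ha, hJk, hJn b hb] at hab
        exact absurd hab.symm (hm b)
    · by_cases hb : b = k
      · rw [hb, hJk, hJn a ha] at hab
        exact absurd hab (hm a)
      · rw [hJn a ha, hJn b hb] at hab
        exact hιi hab
  have hJne : ∀ a, J a ≠ ι k := by
    intro a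
    by_cases ha : a = k
    · rw [ha, hJk]
      exact (hm k).symm
    · rw [hJn a ha]
      exact fun h => ha (hιi h)
  have hJB : ∀ a, J a ∉ B := by
    intro a
    rw [hB, Finset.mem_singleton]
    exact hJne a
  have hcov' : ∀ i, i ∉ B → ∃ a, J a = i := by
    intro i hi
    rw [hB, Finset.mem_singleton] at hi
    by_cases him : i = m
    · exact ⟨k, by rw [hJk, him]⟩
    · obtain ⟨a, rfl⟩ := hcov i him
      exact ⟨a, hJn a fun h => hi (by rw [h])⟩
  rw [← hB] at h4 h5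
  obtain ⟨f, U, W, D, Δ, g0, N, hf, hfd, hD, hΔ, hg0, hUW, hM⟩ :=
    algmodel Pool.Agent.K3h30.EX.t_MODEL P hP ι p J B hcov' h2 h4
      (fun a => ⟨B, Finset.Subset.refl _, h5 _ (hJne a)⟩) H hH
  choose g hg hgc hgP using fun a => rowpoly P hP _ _ (h3 (J a)) (h5 _ (hJne a))
  set pB : {i // i ∈ B} → MvPolynomial (Fin s) ℂ := fun i => p i with hpB
  set cB : {i // i ∈ B} → ℂ := fun i => c i with hcB
  set Y : (Fin s → ℂ) → ℂ → Fin n → ℂ := fun z t i =>
    if h : i ∈ B then Complex.exp (eval z (p i) + c i)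
    else yv pB cB (N (Classical.choose (hcov' i h))) D z t with hY
  have hYB : ∀ z t i, i ∈ B → Y z t i = Complex.exp (eval z (p i) + c i) := by
    intro z t i hi
    simp only [hY, dif_pos hi]
  have hYJ : ∀ z t a, Y z t (J a) = yv pB cB (N a) D z t := by
    intro z t a
    simp only [hY, dif_neg (hJB a)]
    rw [hJ (Classical.choose_spec (hcov' (J a) (hJB a)))]
  have hkill : ∀ (z : Fin s → ℂ) (t : ℂ), (f.map (val pB cB z)).eval t = 0 →
      val pB cB z D ≠ 0 →
      (∀ F ∈ P, eval (Sum.elim (fun i => eval z (p i)) (Y z t)) F = 0) ∧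
      (val pB cB z g0 ≠ 0 → eval (Sum.elim (fun i => eval z (p i)) (Y z t)) H ≠ 0) := by
    intro z t ht hDz
    refine hM (val pB cB z) t z (Y z t) (fun g => val_C _ _ _ g)
      (fun i hi => (hYB z t i hi).trans (val_X pB cB z ⟨i, hi⟩).symm)
      (fun a => ?_) hDz ht
    rw [hYJ z t a, yv]
    exact mul_div_cancel₀ _ hDz
  have hgN : ∀ (j : Fin s) (z : Fin s → ℂ) (t : ℂ), (f.map (val pB cB z)).eval t = 0 →
      val pB cB z D ≠ 0 → ((g j).map (val pB cB z)).eval (yv pB cB (N j) D z t) = 0 := by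
    intro a z t ht hDz
    have h6 := (hkill z t ht hDz).1 _ (hgP a)
    rw [Polynomial.hom_eval₂, eval_X, Sum.elim_inr, hYJ z t a] at h6
    rw [Polynomial.eval_map, ← h6]
    congr 1
    apply MvPolynomial.ringHom_ext
    · intro r
      rw [val_C, RingHom.comp_apply, eval_em, coe_eval₂Hom, eval₂_C]
      congr 2
      funext b
      rw [Sum.elim_inl, hι, eval_X]
    · intro i
      rw [val_X, RingHom.comp_apply, eval_em, coe_eval₂Hom, eval₂_X, Sum.elim_inr,
        hYB z t i.1 i.2]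
  have hBm : ∀ i, i ∈ B → i = ι k := by
    intro i hi
    rw [hB, Finset.mem_singleton] at hi
    exact hi
  have hkB : ι k ∈ B := by
    rw [hB]
    exact Finset.mem_singleton_self _
  letI hU : Unique {i // i ∈ B} := ⟨⟨⟨ι k, hkB⟩⟩, fun x => Subtype.ext (hBm x.1 x.2)⟩
  have hpk : ∀ b, pB b = X k := by
    intro b
    simp only [hpB]
    rw [hBm b.1 b.2, hι]
  obtain ⟨z, t, h6, h7, h8, h9, h10⟩ := core3 hDIR hDOM hCLS hSOL
    Pool.Agent.K3h51.UG.t_RP Pool.Agent.K3h51.UG.t_PIG Pool.Agent.K3h55.UG.t_COMP t_GOOD'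
    Pool.Agent.K3h33.UG.t_NEWT t_ROOT pB cB k hpk (p m) hq hH0 (fun a => c (J a))
    f U W D Δ g0 N g hf hfd hUW hD hΔ hg0 hgc hgN
  have hYv : Y z t = fun i => Complex.exp (eval z (p i) + c i) := by
    funext i
    by_cases hi : i ∈ B
    · exact hYB z t i hi
    · obtain ⟨a, rfl⟩ := hcov' i hi
      rw [hYJ z t a]
      by_cases ha : a = k
      · rw [ha, h10, hJk]
      · rw [h9 a ha, hJn a ha, hι, eval_X]
  have h11 := hkill z t h8 h7
  rw [hYv] at h11
  exact ⟨z, h11.1, h11.2 h6⟩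

/-- exponential points on all translates, hypersurface graphs -/
theorem mainV3 (hDIR : S_DIR3) (hDOM : S_DOM3) (hCLS : S_CLS3) (hSOL : S_SOL3)
    (P : Ideal (MvPolynomial (Fin n ⊕ Fin n) ℂ)) (V : Set (Fin n ⊕ Fin n → ℂ))
    (hP : P.IsPrime)
    (hV : V = {p | (∀ f ∈ P, eval p f = 0) ∧ ∀ j : Fin n, p (Sum.inr j) ≠ 0})
    (hne : V.Nonempty) (hdim : ∀ K : Finset (Fin n ⊕ Fin n), K.card = n + 1 → ¬ Indep V K)
    (ι : Fin s → Fin n) (hι : Function.Injective ι) (m : Fin n) (hm : ∀ a, ι a ≠ m)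
    (hcov : ∀ i, i ≠ m → ∃ a, ι a = i)
    (q : MvPolynomial (Fin s) ℂ)
    (hq : ∀ u ∈ V, u (Sum.inl m) = eval (fun a => u (Sum.inl (ι a))) q)
    (hq2 : 2 ≤ q.totalDegree) (hqn : NonDeg q) (k : Fin s)
    (hind : Indep V (coords ι {ι k}))
    (c : Fin n ⊕ Fin n → ℂ) (hc : ∀ i, c (Sum.inr i) ≠ 0)
    (H : MvPolynomial (Fin n ⊕ Fin n) ℂ)
    (hH : ∃ u ∈ V, eval (Sum.elim (fun i => u (Sum.inl i) + c (Sum.inl i))
      (fun i => c (Sum.inr i) * u (Sum.inr i))) H ≠ 0) :
    ∃ z : Fin n → ℂ, (∃ u ∈ V, (Sum.elim z fun i => Complex.exp (z i) : Fin n ⊕ Fin n → ℂ) =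
      Sum.elim (fun i => u (Sum.inl i) + c (Sum.inl i))
        (fun i => c (Sum.inr i) * u (Sum.inr i))) ∧
      eval (Sum.elim z fun i => Complex.exp (z i)) H ≠ 0 := by
  classical
  obtain ⟨p, hpι, hpm⟩ : ∃ p : Fin n → MvPolynomial (Fin s) ℂ, (∀ a, p (ι a) = X a) ∧ p m = q := by
    refine ⟨fun i => if h : ∃ a, ι a = i then X (Classical.choose h) else q, fun a => ?_, ?_⟩
    · have h : ∃ a', ι a' = ι a := ⟨a, rfl⟩
      simp only [dif_pos h]
      rw [hι (Classical.choose_spec h)]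
    · have h : ¬ ∃ a, ι a = m := fun ⟨a, ha⟩ => hm a ha
      simp only [dif_neg h]
  have hp : ∀ u ∈ V, ∀ i, u (Sum.inl i) = eval (fun a => u (Sum.inl (ι a))) (p i) := by
    intro u hu i
    by_cases him : i = m
    · rw [him, hpm]
      exact hq u hu
    · obtain ⟨a, rfl⟩ := hcov i him
      rw [hpι, eval_X]
  have hns : n = s + 1 := by
    have h1 : (Finset.univ : Finset (Fin n)) = insert m (Finset.univ.image ι) := by
      ext i
      simp only [Finset.mem_univ, Finset.mem_insert, Finset.mem_image, true_and, true_iff]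
      by_cases him : i = m
      · exact Or.inl him
      · exact Or.inr (hcov i him)
    have h2 := congrArg Finset.card h1
    rw [Finset.card_univ, Fintype.card_fin, Finset.card_insert_of_notMem,
      Finset.card_image_of_injective _ hι, Finset.card_univ, Fintype.card_fin] at h2
    · exact h2
    · rw [Finset.mem_image]
      rintro ⟨a, -, ha⟩
      exact hm a ha
  obtain ⟨-, d2, d3, d4, d5⟩ := Pool.Agent.K3h60.EX.t_DER n s P V hP hV hne ι hι
  have h2 : ∀ i, X (Sum.inl i) - rename (fun a => Sum.inl (ι a)) (p i) ∈ P := fun i =>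
    d2 i (p i) fun u hu => hp u hu i
  have h4 := d4 {ι k} hind
  have halg : ∀ i, i ≠ ι k → ¬ Indep V (insert (Sum.inr i) (coords ι {ι k})) := by
    intro i hi
    apply hdim
    rw [Finset.card_insert_of_notMem, card_coords ι hι, Finset.card_singleton, hns]
    unfold coords
    rw [Finset.mem_union]
    rintro (h | h)
    · obtain ⟨b, -, hb⟩ := Finset.mem_image.1 h
      exact absurd hb (by simp)
    · obtain ⟨b, hb, hb'⟩ := Finset.mem_image.1 h
      rw [Finset.mem_singleton] at hb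
      rw [hb] at hb'
      exact hi (Sum.inr_injective hb').symm
  refine Pool.Agent.K3h22.EX.transport P V hV p (fun c H hH => ?_) c hc H hH
  exact coreV3 hDIR hDOM hCLS hSOL P hP ι hι p hpι m hm hcov k h2 d3 h4
    (fun i hi => d5 _ i (halg i hi)) (by rw [hpm]; exact hq2) (by rw [hpm]; exact hqn) c H hH

end Pool.Agent.K3h53.UG
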