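import Pool.Agent.K3h22.EX.Stm2

/-! UG project (helper53, MP_209724_lc): exponential points over graphs of polynomial maps, at unit
scale. Exact statements of the parts. -/

set_option autoImplicit false

namespace Pool.Agent.K3h53.UG

open MvPolynomial Filter Topology Metric Set Pool.Agent.K3h22.EX

/-- the point `R ζ + w` -/
noncomputable def pt {s : ℕ} (ζ : Fin s → ℂ) (R : ℝ) (w : Fin s → ℂ) : Fin s → ℂ :=
  fun i => (R : ℂ) * ζ i + w i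

/-- the magnitude `R^N e^(h R)` -/
noncomputable def mag (h : ℝ) (N : ℕ) (R : ℝ) : ℝ := R ^ N * Real.exp (h * R)

/-- values of exponential polynomials at `R ζ + w`, divided by their magnitude, converge along a
sequence of `R` to an entire function of `w` which is not identically zero -/
def S_LIM : Prop := ∀ (s : ℕ) (β : Type) [Fintype β] (p : β → MvPolynomial (Fin s) ℂ) (c : β → ℂ)
  (ζ : Fin s → ℂ), (∀ b, (p b).totalDegree ≤ 1) →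
  (∀ m : β → ℤ, m ≠ 0 → 0 < (∑ b, (m b : MvPolynomial (Fin s) ℂ) * p b).totalDegree) →
  ∃ R : ℕ → ℝ, Tendsto R atTop atTop ∧ (∀ k, 1 ≤ R k) ∧
  ∀ G : MvPolynomial β (MvPolynomial (Fin s) ℂ), G ≠ 0 →
    (∀ m ∈ G.support, eval ζ (top (coeff m G)) ≠ 0) →
    ∃ (h : ℝ) (N : ℕ) (g : (Fin s → ℂ) → ℂ), Differentiable ℂ g ∧ (∃ w, g w ≠ 0) ∧
      ∀ ρ : ℝ, TendstoUniformlyOn
        (fun (k : ℕ) (w : Fin s → ℂ) => val p c (pt ζ (R k) w) G / (mag h N (R k) : ℂ))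
        g atTop (closedBall 0 ρ)

/-- solution of `Φ_j(R ζ + w) - L_j(w) ∈ 2 π i ℤ` with `w` near `w₀`: the real parts of `Φ_j` and
`L_j` agree up to lower order -/
def S_SOL : Prop := ∀ (s : ℕ) (Φ : Fin s → MvPolynomial (Fin s) ℂ) (ζ w₀ : Fin s → ℂ) (ε C : ℝ)
  (b a : Fin s → ℝ), 0 < ε → (∀ j, 2 ≤ (Φ j).totalDegree) → (∀ j, (eval ζ (top (Φ j))).re = 0) →
  (jac (fun j => top (Φ j)) ζ).det ≠ 0 →
  (∀ j, (((jac (fun j => top (Φ j)) ζ).mulVec w₀) j +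
    eval ζ (homogeneousComponent ((Φ j).totalDegree - 1) (Φ j))).re =
      if (Φ j).totalDegree = 2 then b j else 0) →
  ∃ R₀ : ℝ, 1 ≤ R₀ ∧ ∀ R : ℝ, R₀ ≤ R → ∀ L : Fin s → (Fin s → ℂ) → ℂ,
  (∀ j, DifferentiableOn ℂ (L j) (ball w₀ ε)) →
  (∀ j, ∀ w ∈ ball w₀ ε, |(L j w).re - (b j * R + a j * Real.log R)| ≤ C) →
  ∃ w ∈ ball w₀ ε, ∀ j, ∃ N : ℤ,
    eval (pt ζ R w) (Φ j) - L j w = 2 * Real.pi * Complex.I * (N : ℂ)

/-- an entire function which is not identically zero does not vanish identically on a translate of a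
totally real subspace of maximal dimension -/
def S_AV : Prop := ∀ (s : ℕ) (M : Matrix (Fin s) (Fin s) ℂ) (g : (Fin s → ℂ) → ℂ)
  (w₀ : Fin s → ℂ), M.det ≠ 0 → Differentiable ℂ g → (∃ w, g w ≠ 0) →
  ∃ v : Fin s → ℂ, (∀ j, (M.mulVec v j).re = 0) ∧ g (w₀ + v) ≠ 0

/-- products of entire functions -/
def S_PROD : Prop := ∀ (s : ℕ) (f g : (Fin s → ℂ) → ℂ), Differentiable ℂ f → Differentiable ℂ g →
  (∃ w, f w ≠ 0) → (∃ w, g w ≠ 0) → ∃ w, f w * g w ≠ 0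

/-- two segments off the zeros of an entire function -/
def S_SEG : Prop := ∀ (s : ℕ) (g : (Fin s → ℂ) → ℂ) (a b : Fin s → ℂ), Differentiable ℂ g →
  g a ≠ 0 → g b ≠ 0 → ∃ m : Fin s → ℂ, (∀ w ∈ segment ℝ a m, g w ≠ 0) ∧
    ∀ w ∈ segment ℝ m b, g w ≠ 0

/-- the absolute values of the roots of a polynomial whose nonzero coefficients have known
magnitudes `M_k` -/
def S_NEWT : Prop := ∀ (n : ℕ) (c C : ℝ), 0 < c → ∃ C' : ℝ, 0 ≤ C' ∧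
  ∀ (S : Finset ℕ) (M : ℕ → ℝ) (a : ℕ → ℂ),
  (∀ k ∈ S, 0 < M k ∧ c * M k ≤ ‖a k‖ ∧ ‖a k‖ ≤ C * M k) → (∀ k ∈ S, k ≤ n) → 0 ∈ S →
  ∀ t : ℂ, ∑ k ∈ S, a k * t ^ k = 0 → t ≠ 0 ∧ ∃ k ∈ S, ∃ l ∈ S, k < l ∧
    |Real.log ‖t‖ - (Real.log (M k) - Real.log (M l)) / ((l : ℝ) - k)| ≤ C'

/-- the functions `b R + a log R` are separated for large `R` -/
def S_SEP : Prop := ∀ (E : Finset (ℝ × ℝ)) (C : ℝ), ∃ R₀ : ℝ, ∀ R : ℝ, R₀ ≤ R →
  ∀ e ∈ E, ∀ e' ∈ E, e ≠ e' →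
    C < |(e.1 * R + e.2 * Real.log R) - (e'.1 * R + e'.2 * Real.log R)|

/-- a continuous function with values near a separated finite set stays near one element -/
def S_CLS : Prop := ∀ (s : ℕ) (Ω : Set (Fin s → ℂ)) (f : (Fin s → ℂ) → ℝ) (E : Finset ℝ) (C : ℝ),
  IsPreconnected Ω → ContinuousOn f Ω → (∀ w ∈ Ω, ∃ e ∈ E, |f w - e| ≤ C) →
  (∀ e ∈ E, ∀ e' ∈ E, e ≠ e' → 2 * C < |e - e'|) →
  ∀ w₀ ∈ Ω, ∀ e₀ ∈ E, |f w₀ - e₀| ≤ C → ∀ w ∈ Ω, |f w - e₀| ≤ C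

/-- holomorphic roots on convex open sets, with prescribed value at a point -/
def S_ROOT : Prop := ∀ (s : ℕ) (β : Type) [Fintype β] (p : β → MvPolynomial (Fin s) ℂ) (c : β → ℂ)
  (f U W : Polynomial (MvPolynomial β (MvPolynomial (Fin s) ℂ)))
  (Δ : MvPolynomial β (MvPolynomial (Fin s) ℂ)), f.Monic →
  U * f + W * Polynomial.derivative f = Polynomial.C Δ →
  ∀ (R : ℝ) (ζ : Fin s → ℂ) (Ω : Set (Fin s → ℂ)), IsOpen Ω → Convex ℝ Ω →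
  (∀ w ∈ Ω, val p c (pt ζ R w) Δ ≠ 0) → ∀ w₀ ∈ Ω, ∀ t₀ : ℂ,
  (f.map (val p c (pt ζ R w₀))).eval t₀ = 0 →
  ∃ Z : (Fin s → ℂ) → ℂ, DifferentiableOn ℂ Z Ω ∧ Z w₀ = t₀ ∧
    ∀ w ∈ Ω, (f.map (val p c (pt ζ R w))).eval (Z w) = 0

end Pool.Agent.K3h53.UG
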