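import Pool.Agent.K3h53.UG.Stm

/-! UG project (helper53, MP_209724_lc), second part: several levels with a degree gap. Exact
statements of the parts.  The scale is `R^(1 - δ)` around points at bounded distance of `R ζ`. -/

set_option autoImplicit false

namespace Pool.Agent.K3h53.UG

open MvPolynomial Filter Topology Metric Set Pool.Agent.K3h22.EX

/-- the exponent `∑ m_b (p_b + c_b)` of the monomial `m` -/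
noncomputable def qm {s : ℕ} {β : Type} [Fintype β] (p : β → MvPolynomial (Fin s) ℂ) (c : β → ℂ)
    (m : β →₀ ℕ) : MvPolynomial (Fin s) ℂ :=
  expo p m + C (∑ b, (m b : ℂ) * c b)

/-- the sum of the absolute values of the exponentials of `F` at `z` -/
noncomputable def size {s : ℕ} {β : Type} [Fintype β] (p : β → MvPolynomial (Fin s) ℂ) (c : β → ℂ)
    (F : MvPolynomial β (MvPolynomial (Fin s) ℂ)) (z : Fin s → ℂ) : ℝ :=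
  ∑ m ∈ F.support, ‖Complex.exp (eval z (qm p c m))‖

/-- the direction `ζ` is in general position for `F` -/
def Gen {s : ℕ} {β : Type} [Fintype β] (p : β → MvPolynomial (Fin s) ℂ) (ζ : Fin s → ℂ)
    (F : MvPolynomial β (MvPolynomial (Fin s) ℂ)) : Prop :=
  (∀ m ∈ F.support, eval ζ (top (coeff m F)) ≠ 0) ∧
    ∀ m ∈ F.support, ∀ m' ∈ F.support, m ≠ m' → 0 < (expo p m - expo p m').totalDegree ∧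
      eval ζ (top (expo p m - expo p m')) ≠ 0

/-- lower bound for exponential sums in small balls (elimination of terms) -/
def S_LBC : Prop := ∀ (s : ℕ) (κ : Type) [Fintype κ] (q G : κ → MvPolynomial (Fin s) ℂ)
  (ζ : Fin s → ℂ), (∀ k, eval ζ (top (G k)) ≠ 0) →
  (∀ k l, k ≠ l → 0 < (q k - q l).totalDegree ∧ eval ζ (top (q k - q l)) ≠ 0) →
  ∀ (a : ℕ) (C₀ : ℝ), ∃ (C : ℕ) (R₀ : ℝ), 1 ≤ R₀ ∧ ∀ R : ℝ, R₀ ≤ R → ∀ z₀ : Fin s → ℂ,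
  ‖z₀ - sc R ζ‖ ≤ C₀ → ∀ (k₀ : κ) (M : ℝ),
  (∀ z : Fin s → ℂ, ‖z - z₀‖ ≤ 1 / R ^ a →
    ‖∑ k, eval z (G k) * Complex.exp (eval z (q k))‖ ≤ M) →
  ‖Complex.exp (eval z₀ (q k₀))‖ ≤ R ^ C * M

/-- two constants theorem on a rectangle -/
def S_TC : Prop := ∀ (h : ℂ → ℂ) (A B : ℝ), Differentiable ℂ h → 0 < B → B ≤ A →
  (∀ t : ℂ, |t.re| ≤ 2 → 0 ≤ t.im → t.im ≤ 1 → ‖h t‖ ≤ A) →
  (∀ x : ℝ, |x| ≤ 2 → ‖h x‖ ≤ B) →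
  ∀ y : ℝ, 0 ≤ y → y ≤ 1 → ‖h (y * Complex.I)‖ ≤ B * Real.exp (4 / 3 * y * Real.log (A / B))

/-- balls without zeros around real points (to be proved from `S_TC`) -/
def S_ZF : Prop := ∀ s : ℕ, ∃ c C : ℝ, 0 < c ∧ 0 < C ∧ ∀ (K : ℝ) (h : (Fin s → ℂ) → ℂ), 1 ≤ K →
  Differentiable ℂ h → (∀ ξ : Fin s → ℂ, ‖ξ‖ ≤ 10 → ‖h ξ‖ ≤ Real.exp K) →
  ∀ x₀ : Fin s → ℝ, ‖x₀‖ ≤ 3 → Real.exp (-K) ≤ ‖h fun i => (x₀ i : ℂ)‖ →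
  ∃ x₁ : Fin s → ℝ, ‖x₁‖ ≤ 5 ∧ ∀ ξ : Fin s → ℂ, ‖ξ - fun i => (x₁ i : ℂ)‖ ≤ c / K →
    Real.exp (-(C * K)) ≤ ‖h ξ‖

/-- good balls (to be proved from `S_LBC`, `S_TC`, `S_ZF`) -/
def S_GOOD : Prop := ∀ (s : ℕ) (β : Type) [Fintype β] (p : β → MvPolynomial (Fin s) ℂ) (c : β → ℂ)
  (ζ : Fin s → ℂ) (δ : ℕ), 1 ≤ δ → (∀ b, (p b).totalDegree ≤ δ) →
  ∀ M : Matrix (Fin s) (Fin s) ℂ, M.det ≠ 0 →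
  ∀ T : Finset (MvPolynomial β (MvPolynomial (Fin s) ℂ)), (∀ F ∈ T, F ≠ 0 ∧ Gen p ζ F) →
  ∀ C₀ : ℝ, ∃ (C : ℕ) (R₀ : ℝ), 1 ≤ R₀ ∧ ∀ R : ℝ, R₀ ≤ R → ∀ z₀ : Fin s → ℂ,
  ‖z₀ - sc R ζ‖ ≤ C₀ → ∃ v : Fin s → ℂ, (∀ j, (M.mulVec v j).re = 0) ∧
    ‖v‖ ≤ C * R / R ^ δ ∧ ∀ z : Fin s → ℂ, ‖z - (z₀ + v)‖ < √R / R ^ δ → ∀ F ∈ T,
      size p c F z₀ ≤ R ^ C * ‖val p c z F‖ ∧ ‖val p c z F‖ ≤ R ^ C * size p c F z₀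

/-- growth of `size`; the constant `C₁` does not depend on `C₀` -/
def S_SIZE : Prop := ∀ (s : ℕ) (β : Type) [Fintype β] (p : β → MvPolynomial (Fin s) ℂ) (c : β → ℂ)
  (ζ : Fin s → ℂ) (δ : ℕ), 1 ≤ δ → (∀ b, (p b).totalDegree ≤ δ) →
  ∀ F : MvPolynomial β (MvPolynomial (Fin s) ℂ), F ≠ 0 → ∃ C₁ : ℝ, 0 ≤ C₁ ∧ ∀ C₀ : ℝ,
  ∃ C R₀ : ℝ, 0 ≤ C ∧ 1 ≤ R₀ ∧ ∀ R : ℝ, R₀ ≤ R → ∀ z : Fin s → ℂ, ‖z - sc R ζ‖ ≤ C₀ →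
    0 < size p c F z ∧ |Real.log (size p c F z)| ≤ C₁ * R ^ δ ∧
    ∀ z' : Fin s → ℂ, ‖z' - sc R ζ‖ ≤ C₀ →
      |Real.log (size p c F z) - Real.log (size p c F z')| ≤ C * (R ^ δ / R) * ‖z - z'‖

/-- points at bounded distance of `R ζ` with given real parts of `Φ_j` -/
def S_POS : Prop := ∀ (s : ℕ) (Φ : Fin s → MvPolynomial (Fin s) ℂ) (ζ : Fin s → ℂ) (δ : ℕ), 1 ≤ δ →
  (∀ j, δ < (Φ j).totalDegree) → (∀ j, (eval ζ (top (Φ j))).re = 0) →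
  (jac (fun j => top (Φ j)) ζ).det ≠ 0 → ∀ C₁ : ℝ, ∃ C₀ R₀ : ℝ, 0 ≤ C₀ ∧ 1 ≤ R₀ ∧
  ∀ R : ℝ, R₀ ≤ R → ∃ Zf : (Fin s → ℝ) → Fin s → ℂ, ∀ σ : Fin s → ℝ,
  (∀ j, |σ j| ≤ C₁ * R ^ δ) → ‖Zf σ - sc R ζ‖ ≤ C₀ ∧ (∀ j, (eval (Zf σ) (Φ j)).re = σ j) ∧
    ∀ σ' : Fin s → ℝ, (∀ j, |σ' j| ≤ C₁ * R ^ δ) → ‖Zf σ - Zf σ'‖ ≤ C₀ * ‖σ - σ'‖ / R ^ δ

/-- solution of `Φ_j - L_j ∈ 2 π i ℤ` in a ball of radius `√R / R^δ` (to be proved from `S_BC`) -/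
def S_SOL2 : Prop := ∀ (s : ℕ) (Φ : Fin s → MvPolynomial (Fin s) ℂ) (ζ : Fin s → ℂ) (δ : ℕ), 1 ≤ δ →
  (∀ j, δ < (Φ j).totalDegree) → (∀ j, (eval ζ (top (Φ j))).re = 0) →
  (jac (fun j => top (Φ j)) ζ).det ≠ 0 → ∀ C₀ C : ℝ, ∃ R₀ : ℝ, 1 ≤ R₀ ∧ ∀ R : ℝ, R₀ ≤ R →
  ∀ z₀ v : Fin s → ℂ, ‖z₀ - sc R ζ‖ ≤ C₀ →
  (∀ j, ((jac (fun j => top (Φ j)) ζ).mulVec v j).re = 0) → ‖v‖ ≤ C * R / R ^ δ →
  ∀ L : Fin s → (Fin s → ℂ) → ℂ, (∀ j, DifferentiableOn ℂ (L j) (ball (z₀ + v) (√R / R ^ δ))) →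
  (∀ j, ∀ z ∈ ball (z₀ + v) (√R / R ^ δ),
    |(L j z).re - (eval z₀ (Φ j)).re| ≤ C * (1 + Real.log R)) →
  ∃ z ∈ ball (z₀ + v) (√R / R ^ δ), ∀ j, ∃ N : ℤ,
    eval z (Φ j) - L j z = 2 * Real.pi * Complex.I * (N : ℂ)

/-- perturbation of the absolute values of roots -/
def S_RP : Prop := ∀ n : ℕ, ∃ C : ℝ, 0 ≤ C ∧ ∀ (P Q : Polynomial ℂ) (η : ℝ), 0 ≤ η →
  P.natDegree ≤ n → P.support = Q.support → P.coeff 0 ≠ 0 →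
  (∀ k ∈ P.support, |Real.log ‖P.coeff k‖ - Real.log ‖Q.coeff k‖| ≤ η) →
  ∀ t : ℂ, P.eval t = 0 → t ≠ 0 ∧ ∃ t' : ℂ, t' ≠ 0 ∧ Q.eval t' = 0 ∧
    |Real.log ‖t‖ - Real.log ‖t'‖| ≤ C * (1 + η)

/-- finitely many projections determine a point up to a choice of `n` -/
def S_PIG : Prop := ∀ s n : ℕ, ∃ (N : Finset (Fin s → ℕ)) (C : ℝ), 0 ≤ C ∧ N.Nonempty ∧
  (∀ ν ∈ N, ν ≠ 0 ∨ s = 0) ∧
  ∀ (x : Fin s → ℝ) (Y : Finset (Fin s → ℝ)) (ε : ℝ), 0 ≤ ε → Y.card ≤ n →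
  (∀ ν ∈ N, ∃ y ∈ Y, |∑ j, (ν j : ℝ) * (x j - y j)| ≤ ε) →
  ∃ y ∈ Y, ∀ j, |x j - y j| ≤ C * ε

/-- the polynomial whose roots are the values `N(t)` at the roots `t` of `f` -/
def S_COMP : Prop := ∀ (A : Type) [CommRing A] (f N : Polynomial A), f.Monic → 0 < f.natDegree →
  ∃ Q : Polynomial A, Q.Monic ∧ Q.natDegree = f.natDegree ∧ ∀ χ : A →+* ℂ,
    (∀ t : ℂ, (f.map χ).eval t = 0 → (Q.map χ).eval ((N.map χ).eval t) = 0) ∧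
    ∀ u : ℂ, (Q.map χ).eval u = 0 → ∃ t : ℂ, (f.map χ).eval t = 0 ∧ (N.map χ).eval t = u

/-- a continuous function with values near a finite set varies little -/
def S_CHAIN : Prop := ∀ (s : ℕ) (Ω : Set (Fin s → ℂ)) (f : (Fin s → ℂ) → ℝ) (E : Finset ℝ) (C : ℝ),
  0 ≤ C → IsPreconnected Ω → ContinuousOn f Ω → (∀ w ∈ Ω, ∃ e ∈ E, |f w - e| ≤ C) →
  ∀ w ∈ Ω, ∀ w' ∈ Ω, |f w - f w'| ≤ 2 * C * E.card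

end Pool.Agent.K3h53.UG
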